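import Pool.Agent.Lib.MP_5d3e93_al.At.EvD
import Pool.Agent.Lib.MP_35cce7_an.SysPar

/-! One generator of an even Artin group translates. -/

namespace Pool.Agent.Lib.MP_5d3e93_al.At

open Pool.Agent.Lib.MP_35cce7_an

theorem evm_alt {K : Type} [Monoid K] (k : ℕ) (x y : K) : alt (2 * k) x y = (x * y) ^ k := by
  induction k with
  | zero => simp [alt]
  | succ k ih =>
    rw [Nat.mul_succ, alt_succ, alt_succ, ih, if_pos (even_two_mul k),
      if_neg (by simp), pow_succ, mul_assoc]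

variable {B : Type} {M : CoxeterMatrix B}

theorem evm_br {i j : B} {k : ℕ} (h : M i j = 2 * k) :
    (gn M i * gn M j) ^ k = (gn M j * gn M i) ^ k := by
  rcases k with _ | k
  · simp
  · rw [← evm_alt, ← evm_alt, ← h]
    exact braid (by omega)

theorem evm_cm {i j : B} (h : M i j = 2) : Commute (gn M i) (gn M j) := by
  simpa [Commute, SemiconjBy] using evm_br (k := 1) h

theorem evm_par {S : Set B} {x : Ar M} (h : ∀ s ∈ S, Commute x (gn M s)) {c : Ar M}
    (hc : c ∈ par M S) : Commute x c :=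
  par_ind (Q := fun c => Commute x c) (.one_right x)
    (fun s hs _ e => ⟨(h s hs).mul_right e, (h s hs).inv_right.mul_right e⟩) hc

theorem evm_eq {K : Type} [Group K] {S : Set B} (φ ψ : Ar M →* K)
    (h : ∀ s ∈ S, φ (gn M s) = ψ (gn M s)) {c : Ar M} (hc : c ∈ par M S) : φ c = ψ c :=
  MonoidHom.eqOn_closure (by rintro _ ⟨s, hs, rfl⟩; exact h s hs) hc

variable (hM : ∀ s t, s ≠ t → Even (M s t))
include hM

theorem evm_lift {K : Type} [Group K] (f : B → K)
    (hf : ∀ i j k, i ≠ j → M i j = 2 * k → (f i * f j) ^ k = (f j * f i) ^ k) :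
    ∃ φ : Ar M →* K, ∀ s, φ (gn M s) = f s :=
  ⟨alift f fun i j h _ => by
    obtain ⟨k, e⟩ := (hM i j h).two_dvd
    rw [e, evm_alt, evm_alt, hf i j k h e], alift_gn _ _⟩

theorem evm_deg (s : B) : ∃ φ : Ar M →* Multiplicative ℤ, φ (gn M s) = .ofAdd 1 ∧
    ∀ t, t ≠ s → φ (gn M t) = 1 := by
  classical
  obtain ⟨φ, h⟩ := evm_lift hM (fun t => if t = s then Multiplicative.ofAdd (1 : ℤ) else 1)
    fun _ _ _ _ _ => by rw [mul_comm]
  exact ⟨φ, by simp [h], fun t e => by simp [h, e]⟩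

/-- The retraction to a parabolic subgroup. -/
theorem ev_ret (U : Set B) : ∃ r : Ar M →* Ar M, (∀ s ∈ U, r (gn M s) = gn M s) ∧
    ∀ s ∉ U, r (gn M s) = 1 := by
  classical
  obtain ⟨φ, h⟩ := evm_lift hM (fun t => if t ∈ U then gn M t else 1) fun i j k _ e => by
    by_cases a : i ∈ U <;> by_cases b : j ∈ U <;> simp [a, b, evm_br e]
  exact ⟨φ, fun t e => by simp [h, e], fun t e => by simp [h, e]⟩

theorem ev_ex (a : B) : ∃ D : Ev (Ar M) {b // 4 ≤ M a b}, D.H = par M {a}ᶜ ∧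
    D.O = par M {c | M a c = 2} ∧ D.a = gn M a ∧ ∀ i, D.b i = gn M i.1 ∧
      D.K i = par M (insert i.1 {c | M a c = 2 ∧ M i.1 c = 2}) := by
  classical
  choose dg d1 d0 using evm_deg hM
  choose r r1 r0 using ev_ret hM
  have n1 : ∀ c, 2 ≤ M a c → c ≠ a := by
    rintro c h rfl
    simp at h
  have n2 : ∀ i : {b // 4 ≤ M a b}, i.1 ≠ a := fun i => n1 _ (by have := i.2; omega)
  have n3 : ∀ (i : {b // 4 ≤ M a b}) c, M a c = 2 → c ≠ i.1 := by
    rintro ⟨i, hi⟩ c h rfl
    omega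
  have e2 : ∀ i : {b // 4 ≤ M a b}, M a i.1 = 2 * (M a i.1 / 2) := fun i =>
    (Nat.two_mul_div_two_of_even (hM _ _ (n2 i).symm)).symm
  refine ⟨{
    H := par M {a}ᶜ
    O := par M {c | M a c = 2}
    K i := par M (insert i.1 {c | M a c = 2 ∧ M i.1 c = 2})
    a := gn M a
    b i := gn M i.1
    k i := M a i.1 / 2
    ε := dg a
    β i := dg i.1
    ρ i := r {i.1}ᶜ
    k2 i := by have := i.2; omega
    OH := par_mono fun c h => n1 c h.ge
    KH i := par_mono (Set.insert_subset (n2 i) fun c h => n1 c h.1.ge)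
    bK i := gn_mem (Set.mem_insert _ _)
    ca c h := evm_par (fun s hs => evm_cm hs) h
    cb i c h h' := evm_par (fun s hs =>
      evm_cm (hs.2.resolve_left (n3 i s hs.1)).2) (par_inf h h')
    br i := evm_br (e2 i)
    Kd i x hx := ?_
    εa := d1 a
    εH h hh := evm_eq _ 1 (fun s hs => d0 a s hs) hh
    βb i := d1 _
    βn i j h := d0 _ _ fun e => h (Subtype.ext e.symm)
    βa i := d0 _ _ (n2 i).symm
    βO i c h := evm_eq _ 1 (fun s hs => d0 _ s (n3 i s hs)) h
    ρb i := r0 _ _ (by simp)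
    ρn i j h := r1 _ _ fun e => h (Subtype.ext e.symm)
    ρa i := r1 _ _ (n2 i).symm
    ρO i c h := evm_eq _ (.id _) (fun s hs => r1 _ s (n3 i s hs)) h
    gen Q h1 h2 := PresentedGroup.generated_by _ Q fun s => by
      by_cases e : s = a
      exacts [e ▸ h2, h1 (gn_mem e)]
    pres P _ R α h1 h2 := ?_ }, rfl, rfl, rfl, fun _ => ⟨rfl, rfl⟩⟩
  · obtain ⟨n, c, h, rfl⟩ : ∃ n : ℤ, ∃ c ∈ par M {c | M a c = 2 ∧ M i.1 c = 2},
        x = gn M i.1 ^ n * c := by
      refine par_ind (Q := fun x => ∃ n : ℤ, ∃ c ∈ par M {c | M a c = 2 ∧ M i.1 c = 2},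
        x = gn M i.1 ^ n * c) ⟨0, 1, one_mem _, by simp⟩ ?_ hx
      rintro s (rfl | hs) _ ⟨n, c, h, rfl⟩
      · exact ⟨⟨1 + n, c, h, by group⟩, -1 + n, c, h, by group⟩
      · have := (evm_cm hs.2).zpow_left n
        exact ⟨⟨n, _, mul_mem (gn_mem hs) h, by rw [← mul_assoc, ← this.eq, mul_assoc]⟩,
          n, _, mul_mem (inv_mem (gn_mem hs)) h, by
            rw [← mul_assoc, ← this.inv_right.eq, mul_assoc]⟩
    exact ⟨n, c, par_mono (fun _ h => h.1) h, par_mono (Set.subset_insert _ _) h, rfl⟩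
  · have h3 : ∀ j k (h : j ≠ a), M a j = 2 * k →
        (α * R ⟨gn M j, gn_mem h⟩) ^ k = (R ⟨gn M j, gn_mem h⟩ * α) ^ k := fun j k h e => by
      rcases k with _ | _ | k
      · simp
      · rw [(h1 _ (gn_mem e)).eq]
      · have := h2 ⟨j, by omega⟩
        rwa [show M a j / 2 = k + 1 + 1 by omega] at this
    obtain ⟨φ, h⟩ := evm_lift hM (fun s => if h : s = a then α else R ⟨gn M s, gn_mem h⟩)
      fun i j k hij e => by
        by_cases u : i = a <;> by_cases v : j = a
        · exact absurd (u.trans v.symm) hij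
        · rw [dif_pos u, dif_neg v]
          exact h3 j k v (u ▸ e)
        · rw [dif_neg u, dif_pos v]
          exact (h3 i k u (by rw [M.symmetric, ← v, e])).symm
        · rw [dif_neg u, dif_neg v, ← map_mul, ← map_mul, ← map_pow, ← map_pow]
          exact congrArg R (Subtype.ext (evm_br e))
    refine ⟨φ, by simp [h], fun ⟨x, hx⟩ => ?_⟩
    induction hx using Subgroup.closure_induction with
    | mem x hx =>
      obtain ⟨s, hs, rfl⟩ := hx
      exact (h s).trans (dif_neg hs)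
    | one => exact (map_one φ).trans (map_one R).symm
    | mul x y hx hy a b =>
      exact (map_mul φ x y).trans ((congrArg₂ _ a b).trans (map_mul R ⟨x, hx⟩ ⟨y, hy⟩).symm)
    | inv x hx a => exact (map_inv φ x).trans ((congrArg _ a).trans (map_inv R ⟨x, hx⟩).symm)

end Pool.Agent.Lib.MP_5d3e93_al.At
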