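import Pool.Agent.Lib.MP_5d3e93_al.Bg.Lat

/-! Products of actions on modular lattices with a shift. -/

namespace Pool.Agent.Lib.MP_5d3e93_al.At

universe w

/-- `L` acts on a modular lattice with a shift, each stabiliser lies in a member of `𝒮`. -/
def BlA (L : Type w) [Group L] (𝒮 : Set (Set L)) : Prop :=
  ∃ (X : Type w) (_ : Lattice X) (_ : Nonempty X) (_ : MulAction L X) (B : Bg.Bl X),
    B.Ac L ∧ ∀ z : X, ∃ s ∈ 𝒮, ∀ g : L, g • z = z → g ∈ s

variable {L L' : Type w} [Group L] [Group L'] {𝒮 𝒯 : Set (Set L)}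

theorem BlA.mono (h : BlA L 𝒮) (e : ∀ s ∈ 𝒮, ∃ t ∈ 𝒯, s ⊆ t) : BlA L 𝒯 := by
  obtain ⟨X, _, _, _, B, a, b⟩ := h
  refine ⟨X, _, ‹_›, _, B, a, fun z => ?_⟩
  obtain ⟨s, c, d⟩ := b z
  exact (e s c).imp fun _ k => ⟨k.1, fun g l => k.2 (d g l)⟩

theorem blA_one : BlA L {Set.univ} := by
  let _ : MulAction L (PUnit.{w + 1} → ℤ) := { smul := fun _ x => x
                                               one_smul := fun _ => rfl
                                               mul_smul := fun _ _ _ => rfl }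
  have e (m : ℕ) (x : PUnit.{w + 1} → ℤ) : (OrderIso.subRight 1 ^ m) x = x - m := by
    induction m with
    | zero => simp
    | succ m ih => rw [pow_succ', RelIso.mul_apply, ih, OrderIso.subRight_apply, Nat.cast_succ, sub_sub]
  refine ⟨PUnit.{w + 1} → ℤ, inferInstance, inferInstance, inferInstance,
    ⟨1, one_pos, .subRight 1, fun x => x ⟨⟩, fun x => sub_le_self x zero_le_one,
      fun x y a => (Pi.lt_def.1 a).2.elim fun _ => id, fun x y => max_add_min _ _, fun _ => rfl,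
      fun x y => ⟨(x ⟨⟩ - y ⟨⟩).toNat, fun _ => ?_⟩⟩,
    ⟨fun _ _ _ => id, fun _ _ => rfl, fun _ _ => rfl⟩, fun _ => ⟨_, rfl, fun _ _ => trivial⟩⟩
  rw [e]
  change x ⟨⟩ - (x ⟨⟩ - y ⟨⟩).toNat ≤ y ⟨⟩
  omega

theorem BlA.comap (h : BlA L 𝒮) (j : L' →* L) : BlA L' ((j ⁻¹' ·) '' 𝒮) := by
  obtain ⟨X, _, _, _, B, a, b⟩ := h
  let _ : MulAction L' X := MulAction.compHom X j
  refine ⟨X, _, ‹_›, _, B, ⟨fun g => a.hm (j g), fun g => a.hπ (j g), fun g => a.hc (j g)⟩,
    fun z => ?_⟩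
  obtain ⟨s, c, d⟩ := b z
  exact ⟨_, ⟨s, c, rfl⟩, fun g => d (j g)⟩

theorem blA_pi {ι : Type} [Finite ι] {𝒮 : ι → Set (Set L)} (h : ∀ i, BlA L (𝒮 i)) :
    BlA L {t | ∃ s : ι → Set L, (∀ i, s i ∈ 𝒮 i) ∧ t = ⋂ i, s i} := by
  obtain e | ⟨⟨o⟩⟩ := isEmpty_or_nonempty ι
  · refine blA_one.mono ?_
    rintro _ rfl
    exact ⟨_, ⟨e.elim, e.elim, rfl⟩, by simp⟩
  have := Fintype.ofFinite ι
  choose X _ _ _ B a b using h
  let π : (∀ i, X i) ≃o ∀ i, X i :=
    ⟨Equiv.piCongrRight fun i => (B i).π.toEquiv, forall_congr' fun i => (B i).π.le_iff_le⟩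
  have e (m : ℕ) (x : ∀ i, X i) (i) : (π ^ m) x i = ((B i).π ^ m) (x i) := by
    induction m with
    | zero => rfl
    | succ m ih => rw [pow_succ', pow_succ', RelIso.mul_apply, RelIso.mul_apply, ← ih]; rfl
  have f (i) (x : X i) : Antitone fun m : ℕ => ((B i).π ^ m) x :=
    antitone_nat_of_succ_le fun m => by
      rw [pow_succ', RelIso.mul_apply]
      exact (B i).le _
  refine ⟨∀ i, X i, inferInstance, inferInstance, inferInstance,
    ⟨∑ i, (B i).n, Finset.sum_pos (fun i _ => (B i).pos) ⟨o, Finset.mem_univ o⟩, π,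
      fun x => ∑ i, (B i).cov (x i), fun x i => (B i).le _, fun x y c => ?_, fun x y => ?_,
      fun x => ?_, fun x y => ?_⟩,
    ⟨fun g x y c i => (a i).hm g _ _ (c i), fun g x => funext fun i => (a i).hπ g _,
      fun g x => Finset.sum_congr rfl fun i _ => (a i).hc g _⟩, fun z => ?_⟩
  · obtain ⟨c, i, d⟩ := Pi.lt_def.1 c
    exact Finset.sum_lt_sum (fun i _ => (B i).mono.monotone (c i)) ⟨i, Finset.mem_univ i, (B i).mono d⟩
  · simp only [← Finset.sum_add_distrib]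
    exact Finset.sum_congr rfl fun i _ => (B i).mod _ _
  · rw [Nat.cast_sum, ← Finset.sum_sub_distrib]
    exact Finset.sum_congr rfl fun i _ => (B i).sh _
  · choose m c using fun i => (B i).arch (x i) (y i)
    exact ⟨Finset.univ.sup m, fun i => (e _ x i).trans_le
      ((f i _ (Finset.le_sup (Finset.mem_univ i))).trans (c i))⟩
  · choose s c d using fun i => b i (z i)
    exact ⟨_, ⟨s, c, rfl⟩, fun g k => Set.mem_iInter.2 fun i => d i g (congrFun k i)⟩

end Pool.Agent.Lib.MP_5d3e93_al.At
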