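import Pool.Agent.Lib.MP_5d3e93_al.At.EvS
import Pool.Agent.Lib.MP_5d3e93_al.At.Bp

/-! What the lattice of the triangle complex says about the translating generator. -/

namespace Pool.Agent.Lib.MP_5d3e93_al.At

open Pool.Agent.Lib.MP_35cce7_an

section

variable {G₀ V : Type} [Group G₀] [MulAction G₀ V] {T : TC G₀ V}

variable (T) in
/-- No three consecutive vertices span a triangle. -/
def TcN : List V → Prop
  | x :: y :: z :: r => ¬ T.t x y z ∧ TcN (y :: z :: r)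
  | _ => True

theorem TcN.tail {x : V} {p : List V} (h : TcN T (x :: p)) : TcN T p := by
  rcases p with _ | ⟨y, _ | ⟨z, r⟩⟩
  exacts [trivial, trivial, h.2]

theorem TcN.eq {p q : List V} (h : TcN T p) (e : TcE T p q) : p = q := by
  rcases e.cases_head with e | ⟨c, m, -⟩
  · exact e
  · exfalso
    clear e
    induction m with
    | two r a _ => exact h.1 a
    | three r a _ => exact h.1 a
    | cons x _ ih => exact ih h.tail

theorem tc_nb (h0 : T.SC0) (hw : ∀ x, ∃ y, T.Ed x y) (hc : ∀ x y, Relation.EqvGen T.Ed x y)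
    {x y : V} (n : x ≠ y) :
    ∃ z, (T.Ed x z ∨ T.Ed z x) ∧ ∀ g : G₀, g • x = x → g • y = y → g • z = z := by
  classical
  have : Nonempty V := ⟨x⟩
  let O := tcOb.{0} h0 hw hc (1 : Unit →* G₀) 1 (by simp)
  have ex : ∃ n, TcP T n x y := by
    have : ∀ u v, Relation.EqvGen T.Ed u v → (∃ n, TcP T n u v) ∧ ∃ n, TcP T n v u := by
      intro u v h
      induction h with
      | rel _ _ e => exact ⟨⟨_, TcP.one.2 e⟩, _, .back e⟩
      | refl => exact ⟨⟨_, .zero _⟩, _, .zero _⟩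
      | symm _ _ _ ih => exact ih.symm
      | trans _ _ _ _ _ a b =>
        obtain ⟨⟨_, a⟩, _, c⟩ := a
        obtain ⟨⟨_, b⟩, _, d⟩ := b
        exact ⟨⟨_, a.trans b⟩, _, d.trans c⟩
    exact (this _ _ (hc _ _)).1
  have z : ∀ {u v}, TcP T 0 u v → u = v := fun a => by cases a; rfl
  have key : ∀ {i k a b}, 0 < i → k < Nat.find ex + i → Nat.find ex + i ≤ k + 3 → TcP T i a x →
      TcP T i b x → TcP T k a y → TcP T k b y →
      a = b ∨ ∃ m j l, 0 < j ∧ j < i ∧ l + i = k + j ∧ TcP T j m x ∧ TcP T l m y := by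
    intro i k a b hi h1 h2 ax bx ay by'
    obtain ⟨c, e⟩ := ZMod.intCast_surjective (T.col a)
    obtain ⟨⟨m, r, _⟩, ⟨i1, a1, b1⟩, ⟨i2, a2, b2⟩, ⟨i3, a3, b3⟩, ⟨i4, a4, b4⟩⟩ := O.rz
      (a := ⟨a, c, e.symm⟩)
      (b := ⟨b, c, by rw [e]; exact add_right_cancel (bx.col.symm.trans ax.col)⟩)
      (c := ⟨x, c + i, by rw [ax.col, ← e]; simp⟩) (d := ⟨y, c + k, by rw [ay.col, ← e]; simp⟩)
      ⟨i, rfl, ax⟩ ⟨k, rfl, ay⟩ ⟨i, rfl, bx⟩ ⟨k, rfl, by'⟩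
    simp only at a1 a2 a3 a4 b1 b2 b3 b4
    obtain rfl : i1 = i2 := by omega
    obtain rfl | h3 := i1.eq_zero_or_pos
    · exact .inl ((z b1).trans (z b2).symm)
    obtain rfl | h4 := i3.eq_zero_or_pos
    · exact absurd (Nat.find_min' ex (z b3 ▸ b4)) (by omega)
    · exact .inr ⟨m, i3, i4, h4, by omega, by omega, b3, b4⟩
  by_cases c : ∃ m l, l + 2 = Nat.find ex ∧ TcP T 1 m x ∧ TcP T l m y
  · obtain ⟨m, l, e, a, b⟩ := c
    refine ⟨m, .inr (TcP.one.1 a), fun g u v => ?_⟩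
    refine (key one_pos (by omega) (by omega) (u ▸ a.smul g) a (v ▸ b.smul g) b).resolve_right ?_
    rintro ⟨_, j, _, _, _, -⟩
    omega
  · have p := Nat.find_spec ex
    obtain ⟨k, e⟩ : ∃ k, Nat.find ex = k + 1 := by
      rcases e : Nat.find ex with _ | k
      exacts [(n (z (e ▸ p))).elim, ⟨k, rfl⟩]
    rw [e] at p
    obtain _ | ⟨a, b⟩ := p
    refine ⟨_, .inl a, fun g u v => ?_⟩
    refine (key two_pos (by omega) (by omega) (u ▸ (TcP.back a).smul g) (.back a) (v ▸ b.smul g)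
      b).resolve_right ?_
    rintro ⟨m, j, l, _, _, _, r, s⟩
    obtain rfl : j = 1 := by omega
    exact c ⟨m, l, by omega, r, s⟩

end

namespace Ev

variable {G ι : Type} [Group G] {D : Ev G ι}

theorem vv_h {i : ι} {j : ℕ} {g u : G} (e : D.vx .h u = D.vv i j g) :
    ¬ (0 < j ∧ j < D.k i) ∧ D.vx .h u = D.vx .h (g * D.y i ^ j) := by
  unfold vv at e
  split_ifs at e with p
  · cases (vx_eq.1 e).1
  · exact ⟨p, e⟩

theorem vv_o {i : ι} {j : ℕ} {g u : G} : D.vx .o u ≠ D.vv i j g := by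
  unfold vv
  split_ifs <;> exact fun e => by cases (vx_eq.1 e).1

theorem out_h {u : G} {m z : D.V} (t : D.Tt (D.vx .h u) m z) :
    (∃ g, D.vx .h u = D.vx .h g ∧ m = D.vx .o g) ∨
    (∃ g i j p, j + 1 = D.k i ∧ D.vx .h u = D.vv i (D.k i) g ∧ m = D.vx (.w i j p) g) ∨
      ∃ g, D.vx .h u = D.vx .h (g * D.a) ∧ m = D.vx .f2 g := by
  rcases t with (⟨g, i, j, p, a, b, c⟩ | ⟨g, i, j, p, a, b, c⟩ | ⟨g, a, b, c⟩ | ⟨g, a, b, c⟩) |
    (⟨g, i, j, p, a, b, c⟩ | ⟨g, i, j, p, a, b, c⟩ | ⟨g, a, b, c⟩ | ⟨g, a, b, c⟩) |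
    ⟨g, i, j, p, a, b, c⟩ | ⟨g, i, j, p, a, b, c⟩ | ⟨g, a, b, c⟩ | ⟨g, a, b, c⟩
  · exact .inl ⟨_, (vv_h a).2, b⟩
  · cases (vx_eq.1 a).1
  · exact .inl ⟨_, a, b⟩
  · cases (vx_eq.1 a).1
  · have k := (vv_h c).1
    have k2 := D.k2 i
    have e : j + 1 = D.k i := by omega
    exact .inr (.inl ⟨g, i, j, ⟨by omega, p⟩, e, e ▸ c, a.trans (dif_pos _)⟩)
  · cases (vx_eq.1 c).1
  · cases (vx_eq.1 c).1
  · cases (vx_eq.1 c).1
  · cases (vx_eq.1 b).1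
  · exact .inl ⟨_, (vv_h b).2, c⟩
  · cases (vx_eq.1 b).1
  · exact .inr (.inr ⟨g, b, c⟩)

theorem in_one {u v : G} {m z z' : D.V} (s : D.Tt (D.vx .h u) m z) (t : D.Tt (D.vx .h v) m z') :
    D.vx .h u = D.vx .h v := by
  rcases out_h s with ⟨g, a, rfl⟩ | ⟨g, i, j, p, e, a, rfl⟩ | ⟨g, a, rfl⟩ <;>
  rcases out_h t with ⟨g', a', b⟩ | ⟨g', i', j', p', e', a', b⟩ | ⟨g', a', b⟩ <;>
  obtain ⟨⟨⟩, k⟩ := vx_eq.1 b <;> rw [a, a']
  · exact vx_eq.2 ⟨rfl, D.OH k⟩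
  · rw [← vv_K le_rfl g k, mul_inv_cancel_left]
  · refine vx_eq.2 ⟨rfl, ?_⟩
    rw [mul_inv_rev, mul_assoc, ← mul_assoc g⁻¹, ← (D.ca _ k).eq, inv_mul_cancel_left]
    exact D.OH k

theorem no_hh {u v : G} {z : D.V} : ¬ D.Tt (D.vx .h u) (D.vx .h v) z := fun t => by
  rcases out_h t with ⟨g, -, b⟩ | ⟨g, i, j, p, -, -, b⟩ | ⟨g, -, b⟩ <;> cases (vx_eq.1 b).1

theorem no_oo {u : G} {z : D.V} : ¬ D.Tt (D.vx .o (u * D.a)) (D.vx .o u) z := fun t => by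
  rcases t with (⟨g, i, j, p, a, b, c⟩ | ⟨g, i, j, p, a, b, c⟩ | ⟨g, a, b, c⟩ | ⟨g, a, b, c⟩) |
    (⟨g, i, j, p, a, b, c⟩ | ⟨g, i, j, p, a, b, c⟩ | ⟨g, a, b, c⟩ | ⟨g, a, b, c⟩) |
    ⟨g, i, j, p, a, b, c⟩ | ⟨g, i, j, p, a, b, c⟩ | ⟨g, a, b, c⟩ | ⟨g, a, b, c⟩
  · exact vv_o a
  · exact vv_o b
  · cases (vx_eq.1 a).1
  · cases (vx_eq.1 b).1
  · exact vv_o a
  · have e := D.βO i _ (vx_eq.1 a).2
    have f := D.βO i _ (vx_eq.1 c).2
    rw [pow_succ, ← mul_assoc g, y] at f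
    rw [y] at e
    simp only [map_mul, map_inv, D.βa, D.βb, mul_one, ← mul_assoc] at e f
    rw [e, one_mul] at f
    exact absurd f (by decide)
  · cases (vx_eq.1 a).1
  · cases (vx_eq.1 c).1
  · exact vv_o c
  · exact vv_o b
  · cases (vx_eq.1 c).1
  · cases (vx_eq.1 b).1

variable (D) in
/-- The axis of the translating generator. -/
def ax : ℕ → G → List D.V
  | 0, _ => []
  | n + 1, g => D.vx .o g :: D.vx .h (g * D.a) :: ax n (g * D.a)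

variable (h : D.L4)

theorem ed_ho (g : G) : (tc h).Ed (D.vx .h g) (D.vx .o g) :=
  ⟨_, .inl (.inr (.inr (.inl ⟨g, rfl, rfl, rfl⟩)))⟩

theorem ed_oh (g : G) : (tc h).Ed (D.vx .o g) (D.vx .h (g * D.a)) :=
  ⟨_, .inl (.inr (.inr (.inr ⟨g, rfl, rfl, rfl⟩)))⟩

theorem ax_val (n : ℕ) : ∀ g, TcV (tc h) (D.vx .h g :: D.ax n g) (D.vx .h (g * D.a ^ n)) ∧
    TcN (tc h) (D.vx .h g :: D.ax n g) ∧ (D.ax n g).length = 2 * n := by
  induction n with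
  | zero => exact fun g => ⟨by simpa [ax] using .one _, trivial, rfl⟩
  | succ n ih =>
    intro g
    obtain ⟨a, b, c⟩ := ih (g * D.a)
    rw [mul_assoc, ← pow_succ'] at a
    refine ⟨.cons (ed_ho h g) (.cons (ed_oh h g) a),
      ⟨fun t => no_hh ((tc h).rot ((tc h).rot t)), ?_⟩, by simp [ax, c]; omega⟩
    cases n with
    | zero => trivial
    | succ n => exact ⟨fun t => no_oo ((tc h).rot ((tc h).rot t)), b⟩

include h

theorem out_A : EvA D.H D.a := by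
  intro p hp q hq r hr s hs e
  have : Nonempty D.V := ⟨D.vx .h 1⟩
  let O := tcOb.{0} (tc_sc h) (tc_hw h) (tc_hc h) (MonoidHom.id G) (D.ε ^ 2) col_smul
  have v : ∀ {g g' : G}, g⁻¹ * g' ∈ D.H → D.vx .h g = D.vx .h g' := fun k => vx_eq.2 ⟨rfl, k⟩
  have pa : ∀ {g g' u : G}, g⁻¹ * u ∈ D.H → (u * D.a)⁻¹ * g' ∈ D.H →
      TcP (tc h) 2 (D.vx .h g) (D.vx .h g') := fun a b => by
    rw [v a, ← v b]
    exact .succ (ed_ho h _) (.succ (ed_oh h _) (.zero _))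
  have c0 : (tc h).col (D.vx .h 1) = ((0 : ℤ) : ZMod 3) := by
    change D.col _ = _
    simp [col_vx, off]
  have p1 := pa (g := 1) (g' := D.a) (u := 1) (by simp) (by simp)
  have p2 := pa (g := 1) (g' := D.a * p * D.a⁻¹ * q * D.a) (u := s⁻¹) (by simpa using hs) (by
    rw [eq_mul_inv_of_mul_eq (eq_mul_inv_of_mul_eq (eq_inv_of_mul_eq_one_left e)), inv_inv,
      inv_mul_cancel_left]
    exact inv_mem hr)
  have p3 := pa (g := D.a * p * D.a⁻¹) (g' := D.a) (u := D.a * p * D.a⁻¹)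
    (by rw [inv_mul_cancel]; exact one_mem _) (by simpa using hp)
  have p4 := pa (g := D.a * p * D.a⁻¹) (g' := D.a * p * D.a⁻¹ * q * D.a)
    (u := D.a * p * D.a⁻¹ * q) (by rwa [inv_mul_cancel_left])
    (by rw [inv_mul_cancel]; exact one_mem _)
  have c1 : (tc h).col (D.vx .h D.a) = ((2 : ℤ) : ZMod 3) := by rw [p1.col, c0]; simp
  have c2 : (tc h).col (D.vx .h (D.a * p * D.a⁻¹)) = ((0 : ℤ) : ZMod 3) := by
    have := p3.col
    rw [c1] at this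
    simpa using this.symm
  have c3 : (tc h).col (D.vx .h (D.a * p * D.a⁻¹ * q * D.a)) = ((2 : ℤ) : ZMod 3) := by
    rw [p2.col, c0]; simp
  obtain ⟨⟨m, n, c⟩, ⟨i, a1, b1⟩, ⟨j, a2, b2⟩, ⟨k, a3, b3⟩, ⟨l, a4, b4⟩⟩ := O.rz
    (a := ⟨_, 0, c0⟩) (b := ⟨_, 0, c2⟩) (c := ⟨_, 2, c1⟩) (d := ⟨_, 2, c3⟩)
    ⟨2, rfl, p1⟩ ⟨2, rfl, p2⟩ ⟨2, rfl, p3⟩ ⟨2, rfl, p4⟩
  simp only at a1 a2 a3 a4 b1 b2 b3 b4
  obtain rfl : i = j := by omega
  obtain rfl : k = l := by omega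
  have z : ∀ {x y}, TcP (tc h) 0 x y → x = y := fun a => by cases a; rfl
  obtain ⟨rfl, -⟩ | ⟨rfl, -⟩ | ⟨-, rfl⟩ : i = 0 ∧ k = 2 ∨ i = 1 ∧ k = 1 ∨ i = 2 ∧ k = 0 := by
    omega
  · exact .inl (by simpa [sb] using (vx_eq.1 ((z b1).trans (z b2).symm)).2)
  · exact .inl (by
      simpa [sb] using (vx_eq.1 (in_one (TcP.one.1 b1).choose_spec (TcP.one.1 b2).choose_spec)).2)
  · have := (vx_eq.1 ((z b3).symm.trans (z b4))).2
    simp only [sb, ← mul_assoc, inv_mul_cancel, one_mul] at this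
    rw [mul_assoc p, mul_assoc p] at this
    exact .inr ((D.H.mul_mem_cancel_left hp).1 this)

theorem out_N : EvN D.H D.O D.a := by
  have key : ∀ (m : ℕ) c, c ∈ D.H → D.a ^ (m + 1) * c * (D.a ^ (m + 1))⁻¹ ∈ D.H →
      D.a ^ (m + 1) * c * (D.a ^ (m + 1))⁻¹ ∈ D.O := fun m c a b => by
    obtain ⟨u, v, w⟩ := ax_val h (m + 1) 1
    obtain ⟨u', -, w'⟩ := ax_val h (m + 1) (D.a ^ (m + 1) * c * (D.a ^ (m + 1))⁻¹)
    rw [inv_mul_cancel_right, ← (vx_eq (τ := .h) (g := 1)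
      (g' := D.a ^ (m + 1) * c * (D.a ^ (m + 1))⁻¹)).2 ⟨rfl, by simpa [sb] using b⟩,
      ← (vx_eq (τ := .h) (g := 1 * D.a ^ (m + 1)) (g' := D.a ^ (m + 1) * c)).2
        ⟨rfl, by simpa [sb] using a⟩] at u'
    have := v.eq (tc_eq (tc_sc h) (tc_hw h) u u' (w.trans w'.symm))
    simpa [sb] using (vx_eq.1 (List.cons.inj (List.cons.inj this).2).1).2
  intro n hn c a b
  obtain ⟨m, rfl | rfl⟩ : ∃ m : ℕ, n = (m + 1 : ℕ) ∨ n = -(m + 1 : ℕ) := ⟨n.natAbs - 1, by omega⟩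
  · rw [zpow_natCast] at b
    have k := key m c a b
    have := ((D.ca _ k).pow_left (m + 1)).eq
    rw [inv_mul_cancel_right, mul_right_inj] at this
    rwa [this] at k
  · rw [zpow_neg, zpow_natCast, inv_inv] at b
    simpa [mul_assoc] using key m _ b (by simpa [mul_assoc] using a)

theorem out_M (t : G) (ht : t ∉ D.H) : ∃ u, (∀ e ∈ D.H, t⁻¹ * e * t ∈ D.H → u⁻¹ * e * u ∈ D.O) ∨
    ∃ i, ∀ e ∈ D.H, t⁻¹ * e * t ∈ D.H → u⁻¹ * e * u ∈ D.K i := by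
  obtain ⟨z, a, b⟩ := tc_nb (tc_sc h) (tc_hw h) (tc_hc h) (x := D.vx .h 1) (y := D.vx .h t)
    fun e => ht (by simpa [sb] using (vx_eq.1 e).2)
  obtain ⟨τ, u, rfl⟩ := vx_surj z
  have k : ∀ e ∈ D.H, t⁻¹ * e * t ∈ D.H → u⁻¹ * e * u ∈ D.sb τ := fun e p q => by
    simpa [mul_assoc] using (vx_eq.1 (b e
      ((vx_eq (τ := .h) (g' := e * 1)).2 ⟨rfl, by simpa [sb] using p⟩).symm
      ((vx_eq (τ := .h) (g' := e * t)).2 ⟨rfl, by simpa [sb, mul_assoc] using q⟩).symm).symm).2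
  cases τ with
  | h => exact (a.elim (fun ⟨_, t⟩ => no_hh t) fun ⟨_, t⟩ => no_hh t).elim
  | w i j p => exact ⟨u, .inr ⟨i, k⟩⟩
  | _ => exact ⟨u, .inl k⟩

theorem out_bl : BlA G {s | ∃ g : G, s = {x | g⁻¹ * x * g ∈ D.H}} := by
  have : Nonempty D.V := ⟨D.vx .h 1⟩
  obtain ⟨X, _, _, _, B, A, k⟩ :=
    tc_bl (tc_sc h) (tc_hw h) (tc_hc h) (MonoidHom.id G) (D.ε ^ 2) col_smul
  refine ⟨X, _, ‹_›, _, B, A, fun z => ?_⟩
  obtain ⟨v, k⟩ := k z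
  obtain ⟨τ, u, rfl⟩ := vx_surj v
  refine ⟨_, ⟨u, rfl⟩, fun g e => ?_⟩
  simpa [mul_assoc] using sb_le τ (vx_eq.1 (k g e).symm).2

end Ev

end Pool.Agent.Lib.MP_5d3e93_al.At
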