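import Pool.Agent.Lib.MP_5d3e93_al.At.Po
import Pool.Agent.Lib.MP_35cce7_an.SysPar

/-! Triangles of parabolic subgroups of Artin groups. -/

namespace Pool.Agent.Lib.MP_5d3e93_al.At

open Pool.Agent.Lib.MP_35cce7_an

universe a w

section
variable {G : Type w} [Group G] {J : Type a} [Group J] {H : ZMod 3 → Type a} [∀ i, Group (H i)]
  (T : Tri J H G)

theorem Tri.nb {x : G} {c i : ℤ} (ht : (⟨x, c⟩ : Pt T.Q) ≤ ⟨1, i⟩) (h : c < i)
    (hm : ¬ (⟨x, c⟩ : Pt T.Q) ≤ ⟨1, i - 3⟩) : ∃ h ∈ T.Q i, ∃ e : ℤ, i - 3 < e ∧ e < i ∧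
      (⟨x, c⟩ : Pt T.Q) ≤ ⟨h, e⟩ ∧ ∀ k ∈ T.Q i, x⁻¹ * k * x ∈ T.Q c → h⁻¹ * k * h ∈ T.Q e := by
  obtain ⟨z, wz, zv, rz⟩ := Pt.gr (i - 1) ht (by simp; omega) (by simp)
  have vz : (⟨1, i - 3⟩ : Pt T.Q) ≤ z := by
    obtain ⟨n, f, u⟩ : ((1, Multiplicative.ofAdd 1) : G × Multiplicative ℤ) • (⟨1, i⟩ : Pt T.Q) ≤ z :=
      T.ob.cv (x := z) (y := (⟨1, i⟩ : Pt T.Q)) zv (by change i = z.c + 1; omega)
    exact ⟨n, by simpa [Pt.sc] using f, by simpa [Pt.sc, Pt.sg] using u⟩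
  obtain ⟨m, wm, vm, hl⟩ : ∃ m : Pt T.Q, ⟨x, c⟩ ≤ m ∧ ⟨1, i - 3⟩ ≤ m ∧
    ∀ d : Pt T.Q, ⟨x, c⟩ ≤ d → ⟨1, i - 3⟩ ≤ d → m ≤ d := T.ob.lub _ _ z wz vz
  have mz := hl z wz vz
  have r1 := Pt.sm mz
  have r2 : i - 3 < m.c := not_le.1 fun hc => hm (wm.trans (Pt.eq vm hc))
  have c3 : ((i - 3 : ℤ) : ZMod 3) = i := by simpa only [mul_one] using cast3 i 1
  obtain ⟨h, hh, hu⟩ : ∃ h ∈ T.Q i, h⁻¹ * m.g ∈ T.Q m.c := by
    by_cases e : m.c = i - 2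
    · obtain ⟨n, f, u⟩ := vm
      simp only at f
      obtain rfl : n = 1 := by omega
      obtain ⟨h, hh, u⟩ := u
      refine ⟨h, c3 ▸ hh, ?_⟩
      rw [f]
      simpa [Pr] using u
    · obtain ⟨n, f, u⟩ := mz.trans zv
      simp only at f
      obtain rfl : n = 1 := by omega
      obtain ⟨c, hc, u⟩ := u
      refine ⟨m.g * c, ?_, by simpa using hc⟩
      rw [f, ← (T.Q _).inv_mem_iff]
      simpa [Pr] using u
  refine ⟨h, hh, m.c, r2, by omega, wm.trans ⟨0, by simp, by simpa [Pr] using inv_mem hu⟩,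
    fun k hk hx => ?_⟩
  have key : ∀ (y : G) (c : ℤ), y⁻¹ * k * y ∈ T.Q c → (⟨y, c⟩ : Pt T.Q) ≤ m →
      (⟨y, c⟩ : Pt T.Q) ≤ ⟨k * m.g, m.c⟩ := by
    rintro y c hy ⟨n, f, u⟩
    exact ⟨n, f, by simpa [mul_assoc] using u.left hy⟩
  obtain ⟨n, f, u⟩ := hl _ (key _ _ hx wm) (key _ _ (by simpa [c3] using hk) vm)
  obtain rfl : n = 0 := by simpa using f
  simpa [mul_assoc] using (T.Q _).mul_mem ((T.Q _).mul_mem hu u) ((T.Q _).inv_mem hu)

/-- Sets of fixed vertices are connected. -/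
theorem Tri.m8 (x : G) (j : ZMod 3) {I : Set (ZMod 3)} (hI : I.Nonempty) {D : Set G}
    (a : ∀ i ∈ I, ∀ k ∈ D, k ∈ T.Q i) (c : ∀ k ∈ D, x⁻¹ * k * x ∈ T.Q j)
    (u : ∀ i ∈ I, ∀ h ∈ T.Q i, ∀ l, l ≠ i → (∀ k ∈ D, h⁻¹ * k * h ∈ T.Q l) →
      l ∈ I ∧ h ∈ T.Q l) : j ∈ I ∧ x ∈ T.Q j := by
  obtain ⟨j, rfl⟩ := ZMod.intCast_surjective j
  obtain ⟨i, hi⟩ := hI
  obtain ⟨i, rfl⟩ := ZMod.intCast_surjective i
  obtain ⟨n, ⟨p, q⟩, hm⟩ := Int.exists_least_of_bdd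
    (P := fun n : ℤ => (n : ZMod 3) ∈ I ∧ (⟨x, j⟩ : Pt T.Q) ≤ ⟨1, n⟩) ⟨j, fun t h => Pt.sm h.2⟩ (by
      obtain ⟨k, n, e, h⟩ : ∃ k : ℕ, ((1, Multiplicative.ofAdd 1) : G × Multiplicative ℤ) ^ k •
        (⟨x, j⟩ : Pt T.Q) ≤ ⟨1, i⟩ := T.ob.ar (⟨x, j⟩ : Pt T.Q) (⟨1, i⟩ : Pt T.Q)
      rw [Pt.sc, cast3, Pt.sg] at h
      refine ⟨i - 3 * (-k), by rwa [cast3], n, ?_,
        by simpa only [Prod.pow_fst, one_pow, one_mul] using h⟩
      simp [Pt.sc] at e ⊢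
      omega)
  by_cases h : n ≤ j
  · obtain ⟨m, f, h⟩ := Pt.eq q h
    have := Pt.sm q
    simp only at f this
    obtain rfl : m = 0 := by omega
    obtain rfl : j = n := by simpa using f
    exact ⟨p, by simpa [Pr] using h⟩
  obtain ⟨g, g1, e, e1, e2, e3, e4⟩ := T.nb q (not_le.1 h) fun k => by
    have := hm (n - 3 * 1) ⟨by rwa [cast3], by rwa [mul_one]⟩
    omega
  obtain ⟨r, s⟩ := u _ p g g1 e (fun k => by
    have := (ZMod.intCast_eq_intCast_iff_dvd_sub _ _ _).1 k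
    omega) fun k d => e4 k (a _ p k d) (c k d)
  have := hm e ⟨r, e3.trans ⟨0, by simp, by simpa [Pr] using s⟩⟩
  omega

end

variable {B : Type} {M : CoxeterMatrix B} {T U : Set B}

theorem on_rng : (subE M (· ∈ T)).hom.range = par M T :=
  (Emb.range_hom _).trans (congrArg _ Subtype.range_coe)

theorem on_mem {g : Ar (sub M (· ∈ T))} :
    (subE M (· ∈ T)).hom g ∈ par M U ↔ g ∈ par (sub M (· ∈ T)) (Subtype.val ⁻¹' U) := by
  have e : (par (sub M (· ∈ T)) (Subtype.val ⁻¹' U)).map (subE M (· ∈ T)).hom = par M (T ∩ U) := by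
    rw [par, MonoidHom.map_closure, par, Set.image_image, ← Subtype.image_preimage_val,
      Set.image_image]
    simp only [Emb.hom_gn]
    rfl
  rw [← Subgroup.mem_map_iff_mem (subE M (· ∈ T)).hom_inj, e]
  exact ⟨par_inf (on_rng.le ⟨g, rfl⟩), fun k => par_mono Set.inter_subset_right k⟩

theorem on_sd {x y : B} {g : Ar M} :
    g ∈ par M ((T \ {x}) \ {y}) ↔ g ∈ par M (T \ {x}) ∧ g ∈ par M (T \ {y}) :=
  ⟨fun h => ⟨par_mono Set.sdiff_subset h, par_mono (Set.sdiff_subset_sdiff_left Set.sdiff_subset) h⟩,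
    fun h => par_mono (T := (T \ {x}) \ {y}) (fun _ k => ⟨k.1, k.2.2⟩) (par_inf h.1 h.2)⟩

variable (M) in
/-- No short relations between two maximal parabolic subgroups. -/
def G4 (T : Set B) (y z : B) : Prop := ∀ r ∈ par M (T \ {y}), ∀ l ∈ par M (T \ {z}),
  ∀ l' ∈ par M (T \ {z}), ∀ r' ∈ par M (T \ {y}), r * l = l' * r' →
    r ∈ par M (T \ {z}) ∨ l ∈ par M (T \ {y})

theorem G4.symm {y z : B} (h : G4 M T y z) : G4 M T z y := fun r a l b l' c r' d e =>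
  (h _ (inv_mem b) _ (inv_mem a) _ (inv_mem d) _ (inv_mem c)
    (by rw [← mul_inv_rev, e, mul_inv_rev])).symm.imp inv_mem_iff.1 inv_mem_iff.1

theorem on_tri {x : ZMod 3 → B} (hx : Function.Injective x)
    (h : ∀ i, G4 M (T \ {x i}) (x (i + 2)) (x (i + 1))) :
    ∃ 𝒯 : Tri (Ar (sub M (· ∈ T))) (fun _ => Ar (sub M (· ∈ T))) (Ar (sub M (· ∈ T))),
      ∀ i g, g ∈ 𝒯.Q i ↔ (subE M (· ∈ T)).hom g ∈ par M (T \ {x i}) := by
  have z1 : ∀ i : ZMod 3, i + 2 + 1 = i := by decide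
  have z2 : ∀ i j : ZMod 3, j = i ∨ j = i + 1 ∨ j = i + 2 := by decide
  let K := fun i => (par M (T \ {x i})).comap (subE M (· ∈ T)).hom
  have m : ∀ {i} {s : T}, s.1 ≠ x i → gn (sub M (· ∈ T)) s ∈ K i := fun k =>
    on_mem.2 (gn_mem ⟨Subtype.mem _, k⟩)
  have ex : ∀ s t, ∃ i, s ≠ x i ∧ t ≠ x i := fun s t => by
    have a := hx.ne (by decide : (0 : ZMod 3) ≠ 1)
    have b := hx.ne (by decide : (0 : ZMod 3) ≠ 2)
    have c := hx.ne (by decide : (1 : ZMod 3) ≠ 2)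
    by_contra! k
    by_cases d : s = x 0
    · exact c ((k 1 (d ▸ a)).symm.trans (k 2 (d ▸ b)))
    by_cases e : s = x 1
    · exact b ((k 0 d).symm.trans (k 2 (e ▸ c)))
    · exact a ((k 0 d).symm.trans (k 1 e))
  refine ⟨⟨K, fun i => K i ⊓ K (i + 1), fun _ => .id _, .id _, fun _ => inf_le_left,
    fun _ => inf_le_right, fun _ _ _ => Iff.rfl, fun i a p b q e => ⟨a, fun j => ?_, rfl⟩,
    fun i r a l b l' c r' d e => ?_, fun _ _ _ => id, top_unique fun g _ => ?_,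
    fun P _ ρ _ h2 => ?_⟩, fun i g => by simp [Tri.Q, K]⟩
  · obtain rfl : a = b := e
    have : ∀ j, a ∈ K j := fun j => by
      obtain rfl | rfl | rfl := z2 i j
      exacts [q.1, q.2, p.1]
    exact ⟨this _, this _⟩
  · rw [z1] at a d ⊢
    exact (h i _ (on_sd.2 ⟨a.2, a.1⟩) _ (on_sd.2 b) _ (on_sd.2 c) _ (on_sd.2 ⟨d.2, d.1⟩)
      (by rw [← map_mul, ← map_mul]; exact congrArg _ e)).imp (fun k => ⟨r, on_sd.1 k, rfl⟩)
      fun k => ⟨l, (on_sd.1 k).symm, rfl⟩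
  · refine PresentedGroup.generated_by _ _ (fun s => ?_) g
    obtain ⟨i, k, -⟩ := ex s s
    exact Subgroup.mem_iSup_of_mem i ⟨_, m k, rfl⟩
  · choose i k _ using fun s : T => ex s s
    have e' : ∀ i j (s : T) (p : s.1 ≠ x i) (q : s.1 ≠ x j), ρ i ⟨_, m p⟩ = ρ j ⟨_, m q⟩ :=
      fun i j s p q => by
        obtain rfl | rfl | rfl := (by decide : ∀ i j : ZMod 3, j = i ∨ j = i + 1 ∨ i = j + 1) i j
        exacts [rfl, h2 _ _ ⟨m p, m q⟩, (h2 _ _ ⟨m q, m p⟩).symm]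
    have e := fun j s => e' (i s) j s (k s)
    refine ⟨alift (fun s => ρ (i s) ⟨_, m (k s)⟩) fun s t _ n => ?_, fun j g => ?_⟩
    · obtain ⟨j, p, q⟩ := ex s t
      rw [e j s p, e j t q, ← map_alt, ← map_alt]
      exact congrArg _ ((K j).subtype_injective (by rw [map_alt, map_alt]; exact braid n))
    · obtain ⟨g, p⟩ := g
      have q := on_mem.1 p
      induction q using Subgroup.closure_induction with
      | mem _ s =>
        obtain ⟨s, q, rfl⟩ := s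
        exact (alift_gn ..).trans (e j s q.2)
      | one => exact (map_one _).trans (map_one _).symm
      | mul a b s t u v =>
        exact (map_mul ..).trans ((congrArg₂ _ (u (on_mem.2 s)) (v (on_mem.2 t))).trans
          (map_mul ..).symm)
      | inv a s u =>
        exact (map_inv ..).trans ((congrArg _ (u (on_mem.2 s))).trans (map_inv ..).symm)

section
variable {x : ZMod 3 → B} (hx : Function.Injective x)
  (h : ∀ i, G4 M (T \ {x i}) (x (i + 2)) (x (i + 1)))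
include hx h

theorem on_t3 : G4 M T (x 0) (x 1) := fun r a l b l' c r' d e => by
  obtain ⟨𝒯, k⟩ := on_tri hx h
  obtain ⟨r, rfl⟩ := on_rng.ge (par_mono Set.sdiff_subset a)
  obtain ⟨l, rfl⟩ := on_rng.ge (par_mono Set.sdiff_subset b)
  obtain ⟨l', rfl⟩ := on_rng.ge (par_mono Set.sdiff_subset c)
  obtain ⟨r', rfl⟩ := on_rng.ge (par_mono Set.sdiff_subset d)
  exact (𝒯.m3 ((k 0 _).2 a) ((k _ _).2 b) ((k _ _).2 c) ((k 0 _).2 d)
    ((subE M (· ∈ T)).hom_inj (by simpa using e))).imp (k _ _).1 (k _ _).1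

theorem on_t8 {D : Set (Ar M)} (d : ∀ k ∈ D, k ∈ par M U) (e : U ⊆ T) (n : x 0 ∉ U) {t : Ar M}
    (a : t ∈ par M T) {j} (c : ∀ k ∈ D, t⁻¹ * k * t ∈ par M (T \ {x j}))
    (u : ∀ i, x i ∉ U → ∀ g ∈ par M (T \ {x i}), ∀ l, l ≠ i →
      (∀ k ∈ D, g⁻¹ * k * g ∈ par M ((T \ {x i}) \ {x l})) → x l ∉ U ∧ g ∈ par M (T \ {x l})) :
    x j ∉ U ∧ t ∈ par M (T \ {x j}) := by
  obtain ⟨𝒯, k⟩ := on_tri hx h
  obtain ⟨t, rfl⟩ := on_rng.ge a
  have w : ∀ i, x i ∉ U → ∀ y ∈ D, y ∈ par M (T \ {x i}) := fun i p y q =>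
    par_mono (T := T \ {x i}) (fun z r => ⟨e r, fun s => p (s ▸ r)⟩) (d y q)
  refine (𝒯.m8 t j (I := {i | x i ∉ U}) ⟨0, n⟩ (D := (subE M (· ∈ T)).hom ⁻¹' D)
    (fun i p y q => (k _ _).2 (w i p _ q)) (fun y q => (k _ _).2 (by simpa using c _ q))
    fun i p g q l r s => (u i p _ ((k _ _).1 q) l r fun y z => on_sd.2 ⟨mul_mem (mul_mem
      (inv_mem ((k _ _).1 q)) (w i p y z)) ((k _ _).1 q), ?_⟩).imp_right (k _ _).2).imp_right
    (k _ _).1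
  obtain ⟨y, rfl⟩ := on_rng.ge (par_mono e (d y z))
  simpa using (k _ _).1 (s y z)

end

/-- Intersections of parabolic subgroups lie in the parabolic subgroup given by the Coxeter
group. -/
theorem par_cj (S V : Set B) (t : Ar M) : ∃ (w : M.Group) (β : Ar M), β ∈ par M S ∧
    ∀ g ∈ par M S, t⁻¹ * g * t ∈ par M V → β * g * β⁻¹ ∈ par M {s | s ∈ S ∧
      InP M.toCoxeterSystem V (w * M.toCoxeterSystem.simple s * w⁻¹)} := by
  let E := subE M (· ∈ S)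
  obtain ⟨w, β, h1⟩ := E.act_right t⁻¹ E.o
  refine ⟨w.1, E.hom β, on_rng.le ⟨β, rfl⟩, fun g a b => ?_⟩
  obtain ⟨g, rfl⟩ := on_rng.ge a
  let Q := fun y => ∃ v γ, InP M.toCoxeterSystem V (v.1 * w.1⁻¹) ∧
    E.hom γ ∈ par M {s | s ∈ S ∧ InP M.toCoxeterSystem V (w * M.toCoxeterSystem.simple s * w.1⁻¹)}
      ∧ ∀ α, E.act y (w, α) = (v, γ * α)
  have k : ∀ i ∈ V, ∀ z, z = gn M i ∨ z = (gn M i)⁻¹ → ∀ y, Q y → Q (z * y) := by
    rintro i hi z hz y ⟨v, γ, p, q, r⟩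
    rcases E.act_one i z hz v with ⟨j, u, hu, e, f⟩ | ⟨u, e, f⟩
    · refine ⟨v, u * γ, p, ?_, fun α => by simp [r, f, mul_assoc]⟩
      have : gn M (E.e j) ∈ par M {s | s ∈ S ∧
          InP M.toCoxeterSystem V (w * M.toCoxeterSystem.simple s * w.1⁻¹)} := by
        refine gn_mem ⟨j.2, ?_⟩
        have := (p.inv.mul (InP.simple hi)).mul p
        rwa [mul_assoc, ← mul_assoc _ v.1, e, mul_inv_rev, inv_inv, mul_assoc, mul_assoc,
          inv_mul_cancel_left, ← mul_assoc] at this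
      rw [map_mul]
      refine mul_mem ?_ q
      rcases hu with rfl | rfl <;> simpa using this
    · exact ⟨u, γ, by simpa [e, mul_assoc] using (InP.simple hi).mul p, q,
        fun α => by simp [r, f]⟩
  obtain ⟨v, γ, p, q, r⟩ := par_ind (Q := Q) ⟨w, 1, by simpa using InP.one V, by simp, by simp⟩
    (fun i hi y c => ⟨k i hi _ (.inl rfl) y c, k i hi _ (.inr rfl) y c⟩) b
  have e := r β
  rw [← mul_one β, ← h1, ← Equiv.Perm.mul_apply, ← map_mul, mul_inv_cancel_right, map_mul,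
    Equiv.Perm.mul_apply, E.act_hom, h1, mul_one, mul_one] at e
  rwa [← map_mul, (Prod.mk.inj e).2, map_mul, mul_inv_cancel_right]

end Pool.Agent.Lib.MP_5d3e93_al.At
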