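import Pool.Agent.Lib.MP_5d3e93_al.At.EvG

/-! The links of the triangle complex have no cycle of length four. -/

namespace Pool.Agent.Lib.MP_5d3e93_al.At.Ev

theorem ab4 {V : Type} {p : V → Prop} {A B C : V → V → Prop}
    (AA : ∀ {a b c e}, A a b → A c b → A c e → A a e → a = c ∨ b = e)
    (AB : ∀ {a b c e}, A a b → A c b → B c e → B a e → a = c)
    (BB : ∀ {a b c e}, B a b → B c b → B c e → B a e → a = c ∨ b = e)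
    (BC : ∀ {a b c e}, B a b → C c b → C c e → B a e → b = e)
    (CC : ∀ {a b c e}, C a b → C c b → C c e → C a e → a = c ∨ b = e) {R : V → V → Prop}
    (h : ∀ {x z}, R x z → p x ∧ ¬ p z ∧ A x z ∨ p x ∧ p z ∧ B x z ∨ ¬ p x ∧ p z ∧ C x z)
    {a b c e} (h1 : R a b) (h2 : R c b) (h3 : R c e) (h4 : R a e) : a = c ∨ b = e := by
  rcases h h1 with ⟨_, _, h1⟩ | ⟨_, _, h1⟩ | ⟨_, _, h1⟩ <;>
  rcases h h2 with ⟨_, _, h2⟩ | ⟨_, _, h2⟩ | ⟨_, _, h2⟩ <;>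
  rcases h h3 with ⟨_, _, h3⟩ | ⟨_, _, h3⟩ | ⟨_, _, h3⟩ <;>
  rcases h h4 with ⟨_, _, h4⟩ | ⟨_, _, h4⟩ | ⟨_, _, h4⟩ <;>
  first
  | contradiction
  | exact AA h1 h2 h3 h4
  | exact BB h1 h2 h3 h4
  | exact CC h1 h2 h3 h4
  | exact .inl (AB h1 h2 h3 h4)
  | exact .inl (AB h4 h3 h2 h1)
  | exact .inr (BC h1 h2 h3 h4)
  | exact .inr (BC h2 h1 h4 h3)

variable {G ι : Type} [Group G] {D : Ev G ι} {w a b c e : D.V}

variable (D) in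
/-- Triangles with an edge on a fixed line. -/
def T1 (x y z : D.V) : Prop :=
  ∃ g i j, j < D.k i ∧ x = D.vv i j g ∧ y = D.vx .o (g * D.y i ^ j) ∧ z = D.vv i (j + 1) g

variable (D) in
/-- Triangles with a corner on a fixed line. -/
def T2 (x y z : D.V) : Prop :=
  ∃ g i j, j < D.k i ∧ x = D.vx .o (g * D.y i ^ j) ∧ y = D.vv i (j + 1) g ∧
    z = D.vx .o (g * D.y i ^ (j + 1))

theorem vAA (h : D.Gi) : D.T1 w a b → D.T1 w c b → D.T1 w c e → D.T1 w a e → a = c ∨ b = e := by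
  rintro ⟨g1, i, j, l1, rfl, rfl, rfl⟩ ⟨g2, _, _, l2, w2, rfl, b2⟩ ⟨g3, i', j', l3, w3, c3, rfl⟩
    ⟨g4, _, _, l4, w4, a4, e4⟩
  obtain ⟨rfl, rfl, k1⟩ := edD l1 l2 w2 b2
  obtain ⟨rfl, rfl, k3⟩ := edD l3 l4 (w3.symm.trans w4) e4
  obtain ⟨rfl, rfl, k, -⟩ | p := edA l1.le l3.le (w2.symm.trans w3) c3
  · exact .inr (b2.trans (vvK l1 k))
  obtain rfl : j = 0 := by omega
  obtain rfl : j' = 0 := by omega
  simp only [pow_zero, mul_one] at *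
  obtain k | ⟨rfl, k⟩ := gC h k1 k3 (o_eq.1 c3) (o_eq.1 a4.symm) (by group)
  exacts [.inl (o_eq.2 k), .inr (b2.trans (vvK l1 k))]

theorem vAB : D.T1 w a b → D.T1 w c b → D.T2 e w c → D.T2 e w a → a = c := by
  rintro ⟨g1, i, j, l1, rfl, rfl, rfl⟩ ⟨g2, _, _, l2, w2, rfl, b2⟩ ⟨g3, i3, j3, -, rfl, -, c3⟩
    ⟨g4, i4, j4, -, e4, -, a4⟩
  obtain ⟨rfl, rfl, k⟩ := edD l1 l2 w2 b2
  refine oL (gB (l := i4) (m := i3) k fun n => Multiplicative.toAdd.injective ?_) k _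
  have := congrArg (·.toAdd) (βo c3 n)
  have := congrArg (·.toAdd) (βo e4 n)
  have := congrArg (·.toAdd) (βo a4 n)
  simp only [pow_succ, ← mul_assoc, map_mul, map_inv, β_y, toAdd_mul, toAdd_inv] at *
  omega

theorem vBC : D.T2 b w a → D.T1 c b w → D.T1 c e w → D.T2 e w a → b = e := by
  rintro ⟨g1, i1, j1, -, b1, -, rfl⟩ ⟨g2, i, j, l2, rfl, rfl, rfl⟩ ⟨g3, _, _, l3, c3, rfl, w3⟩
    ⟨g4, i4, j4, -, e4, -, a4⟩
  obtain ⟨rfl, rfl, k⟩ := edD l2 l3 c3 w3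
  refine oL (gB (l := i4) (m := i1) k fun n => Multiplicative.toAdd.injective ?_) k _
  have := congrArg (·.toAdd) (βo b1 n)
  have := congrArg (·.toAdd) (βo e4 n)
  have := congrArg (·.toAdd) (βo a4 n)
  simp only [pow_succ, ← mul_assoc, map_mul, map_inv, β_y, toAdd_mul, toAdd_inv] at *
  omega

theorem a_cj {x : G} (h : x ∈ D.O) : D.a * x * D.a⁻¹ = x := by
  rw [(D.ca x h).eq, mul_inv_cancel_right]

theorem vBB (h : D.Gi) : D.T2 b w a → D.T2 b w c → D.T2 e w c → D.T2 e w a → a = c ∨ b = e := by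
  rintro ⟨g1, i1, j1, -, rfl, -, rfl⟩ ⟨g2, i2, j2, -, b2, -, rfl⟩ ⟨g3, i3, j3, -, rfl, -, c3⟩
    ⟨g4, i4, j4, -, e4, -, a4⟩
  simp only [pow_succ, ← mul_assoc] at *
  generalize g1 * _ ^ j1 = q1, g2 * _ ^ j2 = q2, g3 * _ ^ j3 = q3, g4 * _ ^ j4 = q4 at *
  have p := o_eq.1 b2
  have s := o_eq.1 e4
  obtain k | k := gA h (i := i2) (m := i3) (l := i4) (i' := i1) (o_eq.1 c3) s (o_eq.1 a4.symm) p (by
    rw [← (D.ca _ s).inv_mul_cancel, ← (D.ca _ p).inv_mul_cancel]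
    simp only [y]
    group)
  · refine .inr (b2.trans (o_eq.2 ?_))
    rw [← a_cj k] at k
    simpa [y, mul_assoc] using k
  · rw [← y_cj p] at k
    exact .inl (o_eq.2 (by simpa [mul_assoc] using k))

theorem top {i j} {g g' : G} (p : j + 1 = D.k i) (k : g⁻¹ * g' ∈ D.K i) :
    D.a⁻¹ * ((g * D.y i ^ j)⁻¹ * (g' * D.y i ^ j)) * D.a ∈ D.K i := by
  have := (cz k).eq
  rw [← p, pow_succ] at this
  rw [show D.a⁻¹ * ((g * D.y i ^ j)⁻¹ * (g' * D.y i ^ j)) * D.a = D.b i * (g⁻¹ * g') * (D.b i)⁻¹ by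
    rw [show (g * D.y i ^ j)⁻¹ * (g' * D.y i ^ j) = D.y i * (g⁻¹ * g') * (D.y i)⁻¹ from
      mul_left_cancel (a := D.y i ^ j) (by
        rw [← mul_assoc _ (_ * _), ← mul_assoc _ (D.y i), this]; group)]
    simp [y, mul_assoc]]
  exact mul_mem (mul_mem (D.bK i) k) (inv_mem (D.bK i))

theorem unc {i j} {g g' : G} (e : D.vx .o (g * D.y i ^ j) = D.vx .o (g' * D.y i ^ j))
    (k : (g * D.y i ^ j)⁻¹ * (g' * D.y i ^ j) ∈ D.K i) : g⁻¹ * g' ∈ D.K i := by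
  rwa [mul_right_cancel (a := g⁻¹ * g') (b := D.y i ^ j) (by rw [← cy (o_eq.1 e) k]; group)]

theorem vCC (h : D.Gi) : D.T1 a b w → D.T1 c b w → D.T1 c e w → D.T1 a e w → a = c ∨ b = e := by
  rintro ⟨g1, i, j, l1, rfl, rfl, rfl⟩ ⟨g2, i', j', l2, rfl, b2, w2⟩ ⟨g3, _, _, l3, c3, rfl, w3⟩
    ⟨g4, _, _, l4, a4, e4, w4⟩
  obtain ⟨rfl, rfl, k2⟩ := edD l2 l3 c3 (w2.symm.trans w3)
  obtain ⟨rfl, rfl, k4⟩ := edD l4 l1 a4.symm w4.symm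
  obtain ⟨rfl, rfl, k, -⟩ | p := edC l1 l2 w2 b2
  · exact .inl (vvK l1.le k)
  have r := o_eq.1 b2
  have s := o_eq.1 e4
  obtain k | ⟨rfl, k⟩ := gC h (top p.2 k2) (top p.1 k4) s r (by
    rw [← (D.ca _ s).inv_mul_cancel, ← (D.ca _ r).inv_mul_cancel]
    group)
  · refine .inr (b2.trans (o_eq.2 ?_))
    rw [← a_cj k] at k
    simpa [mul_assoc] using k
  · obtain rfl := Nat.succ.inj (p.1.trans p.2.symm)
    exact .inl (a4.trans ((c3.trans (vvK l1.le (unc e4 k))).symm))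

theorem h_o {g g' : G} (e : D.vx .o g = D.vx .o g') :
    D.vx .h g = D.vx .h g' ∧ D.vx .h (g * D.a) = D.vx .h (g' * D.a) := by
  have p := o_eq.1 e
  refine ⟨vx_eq.2 ⟨rfl, D.OH p⟩, vx_eq.2 ⟨rfl, D.OH ?_⟩⟩
  rwa [mul_inv_rev, mul_assoc, ← mul_assoc g⁻¹, (D.ca _ p).inv_mul_cancel_assoc]

theorem vv_a {i j} (g : G) (p : j + 1 = D.k i) :
    D.vv i (j + 1) g = D.vx .h (g * D.y i ^ j * D.a) := by
  rw [p, vv_top, ← p, pow_succ]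
  exact (vx_eq.2 ⟨rfl, by simpa [y, mul_assoc, sb] using D.KH i (D.bK i)⟩).symm

theorem oAA : D.T2 w a b → D.T2 w c b → D.T2 w c e → D.T2 w a e → a = c ∨ b = e := by
  rintro ⟨g1, i1, j1, l1, rfl, rfl, rfl⟩ ⟨g2, i2, j2, l2, w2, rfl, b2⟩
    ⟨g3, i3, j3, l3, w3, c3, rfl⟩ ⟨g4, i4, j4, l4, w4, a4, e4⟩
  obtain ⟨rfl, rfl, k, k'⟩ | p := edC l2 l3 c3 (w2.symm.trans w3)
  · exact .inr (b2.trans (oL k' k _))
  obtain ⟨rfl, rfl, k, k'⟩ | q := edC l1 l4 a4 w4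
  · exact .inr ((oL k' k _).trans e4.symm)
  rw [vv_a _ q.1, vv_a _ p.1]
  exact .inl (h_o w2).2

theorem oCC : D.T2 a b w → D.T2 c b w → D.T2 c e w → D.T2 a e w → a = c ∨ b = e := by
  rintro ⟨g1, i1, j1, l1, rfl, rfl, rfl⟩ ⟨g2, i2, j2, l2, rfl, b2, w2⟩
    ⟨g3, i3, j3, l3, c3, rfl, w3⟩ ⟨g4, i4, j4, l4, a4, e4, w4⟩
  obtain ⟨rfl, p, k, k'⟩ | p := edA l1 l2 b2 w2
  · cases p
    exact .inl (oL k' k _)
  obtain ⟨rfl, q, k, k'⟩ | q := edA l4 l3 e4.symm (w4.symm.trans w3)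
  · cases q
    exact .inl (a4.trans ((oL k' k _).trans c3.symm))
  rw [show j1 + 1 = D.k i1 by omega, show j3 + 1 = D.k i3 by omega] at w3 ⊢
  rw [vv_top, vv_top]
  exact .inr (h_o w3).1

theorem oBB : D.T1 b w a → D.T1 b w c → D.T1 e w c → D.T1 e w a → a = c ∨ b = e := by
  rintro ⟨g1, i1, j1, l1, rfl, rfl, rfl⟩ ⟨g2, i2, j2, l2, b2, w2, rfl⟩ -
    ⟨g4, i4, j4, l4, rfl, w4, a4⟩
  obtain ⟨rfl, rfl, k, -⟩ | p := edA l1.le l2.le b2 w2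
  · exact .inl (vvK l1 k)
  obtain ⟨rfl, rfl, k, -⟩ | q := edC l1 l4 a4 w4
  · exact .inr (vvK l1.le k)
  have := D.k2 i1
  omega

theorem oAB (h : D.Gi) : D.T2 w a b → D.T2 w c b → D.T1 e w c → D.T1 e w a → a = c := by
  rintro ⟨g1, i1, j1, l1, rfl, rfl, rfl⟩ ⟨g2, i2, j2, l2, w2, rfl, b2⟩
    ⟨g3, i3, j3, l3, rfl, w3, c3⟩ ⟨g4, i4, j4, l4, e4, w4, a4⟩
  obtain ⟨rfl, rfl, k, -⟩ | p := edA l3.le l4.le e4 (w3.symm.trans w4)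
  · exact a4.trans ((vvK l3 k).symm.trans c3.symm)
  have := D.k2 i3
  have := D.k2 i4
  have := edC l2 l3 c3 (w2.symm.trans w3)
  have := edC l1 l4 a4 w4
  obtain rfl : j1 = 0 := by omega
  obtain rfl : j2 = 0 := by omega
  simp only [zero_add, pow_zero, pow_one, mul_one] at w2 b2
  obtain ⟨rfl, k⟩ := edE h w2 b2
  exact vvK l1 k

theorem oBC (h : D.Gi) : D.T1 b w a → D.T2 c b w → D.T2 c e w → D.T1 e w a → b = e := by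
  rintro ⟨g1, i1, j1, l1, b1, w1, rfl⟩ ⟨g2, i2, j2, l2, rfl, rfl, rfl⟩
    ⟨g3, i3, j3, l3, c3, rfl, w3⟩ ⟨g4, i4, j4, l4, e4, w4, a4⟩
  obtain ⟨rfl, rfl, k, -⟩ | p := edC l1 l4 a4 (w1.symm.trans w4)
  · exact b1.trans ((vvK l1.le k).trans e4.symm)
  have := D.k2 i1
  have := D.k2 i4
  obtain ⟨rfl, q, -⟩ := (edA l2 l1.le b1 w1).resolve_right (by omega)
  obtain ⟨rfl, r, -⟩ := (edA l3 l4.le e4 (w3.symm.trans w4)).resolve_right (by omega)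
  simp only [pow_succ, ← mul_assoc] at w3
  obtain ⟨rfl, k⟩ := edE h c3 w3
  obtain rfl : j2 = j3 := by omega
  exact vvK l2 (unc c3 k)

theorem vv_ty (i j) (g : G) : (D.vv i j g).1 ≠ .o ∧ (D.vv i j g).1 ≠ .f1 ∧ (D.vv i j g).1 ≠ .f2 := by
  unfold vv
  split_ifs <;> simp [vx]

theorem leaf (k : w.1 = .f1 ∨ w.1 = .f2) (h : D.Tt w a b) :
    (∃ g, w = D.vx .f1 g ∧ a = D.vx .h g ∧ b = D.vx .o g) ∨
      ∃ g, w = D.vx .f2 g ∧ a = D.vx .o g ∧ b = D.vx .h (g * D.a) := by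
  rcases h with h | h | h <;>
  rcases h with ⟨g, i, j, -, rfl, rfl, rfl⟩ | ⟨g, i, j, -, rfl, rfl, rfl⟩ | ⟨g, rfl, rfl, rfl⟩ |
    ⟨g, rfl, rfl, rfl⟩ <;>
  first
  | exact .inl ⟨g, rfl, rfl, rfl⟩
  | exact .inr ⟨g, rfl, rfl, rfl⟩
  | exact (k.elim (vv_ty ..).2.1 (vv_ty ..).2.2).elim
  | rcases k with k | k <;> cases k

theorem leaf2 (k : w.1 = .f1 ∨ w.1 = .f2) (h : D.Tt w a b) (h' : D.Tt w c e) : a = c ∧ b = e := by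
  obtain ⟨g, rfl, rfl, rfl⟩ | ⟨g, rfl, rfl, rfl⟩ := leaf k h <;>
  obtain ⟨g', p, rfl, rfl⟩ | ⟨g', p, rfl, rfl⟩ := leaf k h'
  · exact ⟨(h_o (o_eq.2 (vx_eq.1 p).2)).1, o_eq.2 (vx_eq.1 p).2⟩
  · cases (vx_eq.1 p).1
  · cases (vx_eq.1 p).1
  · exact ⟨o_eq.2 (vx_eq.1 p).2, (h_o (o_eq.2 (vx_eq.1 p).2)).2⟩

theorem Tt.rot (h : D.Tt w a b) : D.Tt a b w :=
  h.elim (fun h => .inr (.inr h)) fun h => h.elim .inl fun h => .inr (.inl h)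

theorem Tb.st (h : D.Tb w a b) (k : ¬ (b.1 = .f1 ∨ b.1 = .f2)) :
    w.1 ≠ .o ∧ a.1 = .o ∧ b.1 ≠ .o ∧ D.T1 w a b ∨ w.1 = .o ∧ a.1 ≠ .o ∧ b.1 = .o ∧ D.T2 w a b := by
  rcases h with h | h | ⟨g, rfl, rfl, rfl⟩ | ⟨g, rfl, rfl, rfl⟩
  · obtain ⟨g, i, j, -, rfl, rfl, rfl⟩ := id h
    exact .inl ⟨(vv_ty ..).1, rfl, (vv_ty ..).1, h⟩
  · obtain ⟨g, i, j, -, rfl, rfl, rfl⟩ := id h
    exact .inr ⟨rfl, (vv_ty ..).1, rfl, h⟩
  exacts [(k (.inl rfl)).elim, (k (.inr rfl)).elim]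

theorem l4 (h : D.Gi) : D.L4 := by
  intro w a b c e h1 h2 h3 h4
  by_contra! n
  have kw := fun k => n.1 (leaf2 k h1 h2).1
  have ka := fun k => n.2 (leaf2 k h1.rot h4.rot).1
  have kc := fun k => n.2 (leaf2 k h2.rot h3.rot).1
  have kb := fun k => n.1 (leaf2 k h1.rot.rot h2.rot.rot).2
  have ke := fun k => n.1 (leaf2 k h4.rot.rot h3.rot.rot).2
  refine (?_ : a = c ∨ b = e).elim n.1 n.2
  let R := fun x z : D.V => D.Tt w x z ∧ ¬ (x.1 = .f1 ∨ x.1 = .f2) ∧ ¬ (z.1 = .f1 ∨ z.1 = .f2)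
  by_cases o : w.1 = .o
  · refine ab4 (p := (·.1 ≠ .o)) (A := D.T2 w) (B := fun x z => D.T1 z w x)
      (C := fun x z => D.T2 x z w) oAA (oAB h) oBB (oBC h) oCC (R := R) ?_ ⟨h1, ka, kb⟩
      ⟨h2, kc, kb⟩ ⟨h3, kc, ke⟩ ⟨h4, ka, ke⟩
    rintro x z ⟨t | t | t, p, q⟩
    exacts [by have := t.st q; tauto, by have := t.st kw; tauto, by have := t.st p; tauto]
  · refine ab4 (p := (·.1 = .o)) (A := D.T1 w) (B := fun x z => D.T2 z w x)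
      (C := fun x z => D.T1 x z w) (vAA h) vAB (vBB h) vBC (vCC h) (R := R) ?_ ⟨h1, ka, kb⟩
      ⟨h2, kc, kb⟩ ⟨h3, kc, ke⟩ ⟨h4, ka, ke⟩
    rintro x z ⟨t | t | t, p, q⟩
    exacts [by have := t.st q; tauto, by have := t.st kw; tauto, by have := t.st p; tauto]

end Pool.Agent.Lib.MP_5d3e93_al.At.Ev
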