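import Pool.Agent.Lib.MP_35cce7_an.Tree

/-! Fixed points in amalgams, by normal forms. -/

namespace Pool.Agent.Lib.MP_5d3e93_al.At

open Pool.Agent.Lib.MP_35cce7_an (Red)

variable {G : Type} [Group G] (A : Bool → Subgroup G) (C H : Subgroup G)

/-- Two subgroups with intersection `C` whose reduced words are not in `C`. -/
structure Am : Prop where
  le : ∀ i, C ≤ A i
  inf : ∀ i, ∀ g ∈ A i, g ∈ A (!i) → g ∈ C
  nf : ∀ n i g, Red A C (n + 1) i g → g ∉ C

/-- The subgroup `H` is generated by its intersections with the factors. -/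
def AmG : Prop := ∀ Q : G → Prop, Q 1 → (∀ y ∈ H, ∀ j, y ∈ A j → ∀ x, Q x → Q (y * x)) →
  ∀ x ∈ H, Q x

/-- Reduced words in `H` that start and end outside `A j`. -/
inductive Ew (j : Bool) : G → Prop
  | one {z} : z ∈ H → z ∈ A (!j) → z ∉ C → Ew j z
  | cons {z w e} : z ∈ H → z ∈ A (!j) → z ∉ C → w ∈ H → w ∈ A j → w ∉ C → Ew j e →
      Ew j (z * (w * e))

variable {A C H}

theorem am_st {j n} {y g : G} (a : y ∈ A j) (b : y ∉ C) (c : Red A C n (!j) g) :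
    Red A C (n + 1) j (y * g) := ⟨y, a, b, by simpa using c⟩

theorem am_st' {j n} {y g : G} (a : y ∈ A (!j)) (b : y ∉ C) (c : Red A C n j g) :
    Red A C (n + 1) (!j) (y * g) := am_st a b (by rwa [Bool.not_not])

theorem Ew.red {j e} (h : Ew A C H j e) {n g} (c : Red A C n j g) :
    ∃ m, Red A C (m + 1) (!j) (e * g) := by
  induction h with
  | one _ a b => exact ⟨_, am_st' a b c⟩
  | cons _ a b _ d f _ ih =>
    obtain ⟨m, k⟩ := ih
    exact ⟨_, by simpa only [mul_assoc] using am_st' a b (am_st d f k)⟩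

theorem am_bool (i j : Bool) : i = j ∨ i = !j := by cases i <;> cases j <;> simp

namespace Am

variable (h : Am A C)
include h

theorem one {j} {g : G} (a : g ∈ A j) : ∃ n, Red A C n j g :=
  (Red.one h.le a).elim (fun b => ⟨_, b⟩) fun b => ⟨_, b⟩

theorem dj {n m j} {g : G} (a : Red A C (n + 1) j g) (b : Red A C m (!j) g) : False :=
  a.disj h.le h.nf b

theorem dj' {n m j} {g : G} (a : Red A C (n + 1) (!j) g) (b : Red A C m j g) : False :=
  h.dj a (by rwa [Bool.not_not])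

theorem rt {n i j} {g l : G} (a : Red A C (n + 1) i g) (b : l ∈ A j) :
    ∃ m, Red A C m i (g * l) := (a.mul_right h.le b).imp fun _ c => c.2.2

theorem dec (k : AmG A H) (j) {d : G} (a : d ∈ H) : d ∈ A j ∨ ∃ p ∈ H, p ∈ A j ∧ ∃ q ∈ H,
    q ∈ A j ∧ ∃ e, Ew A C H j e ∧ d = p * (e * q) := by
  refine (k (fun d => d ∈ H ∧ (d ∈ A j ∨ ∃ p ∈ H, p ∈ A j ∧ ∃ q ∈ H, q ∈ A j ∧
    ∃ e, Ew A C H j e ∧ d = p * (e * q))) ⟨one_mem _, .inl (one_mem _)⟩ ?_ d a).2
  rintro y y1 i y2 x ⟨x1, x2⟩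
  refine ⟨mul_mem y1 x1, ?_⟩
  by_cases y3 : y ∈ A j
  · exact x2.imp (mul_mem y3) fun ⟨p, p1, p2, q, q1, q2, e, e1, e2⟩ =>
      ⟨y * p, mul_mem y1 p1, mul_mem y3 p2, q, q1, q2, e, e1, by rw [e2, mul_assoc]⟩
  obtain rfl : i = !j := (am_bool i j).resolve_left fun c => y3 (c ▸ y2)
  have y4 : y ∉ C := fun c => y3 (h.le _ c)
  obtain x2 | ⟨p, p1, p2, q, q1, q2, e, e1, rfl⟩ := x2
  · exact .inr ⟨1, one_mem _, one_mem _, x, x1, x2, y, .one y1 y2 y4, (one_mul _).symm⟩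
  by_cases p3 : p ∈ C
  swap
  · exact .inr ⟨1, one_mem _, one_mem _, q, q1, q2, _, .cons y1 y2 y4 p1 p2 p3 e1, by
      simp only [one_mul, mul_assoc]⟩
  cases e1 with
  | one z1 z2 z3 =>
    by_cases c : y * p * e ∈ C
    · exact .inl (by simpa only [mul_assoc] using mul_mem (h.le j c) q2)
    · exact .inr ⟨1, one_mem _, one_mem _, q, q1, q2, _, .one (mul_mem (mul_mem y1 p1) z1)
        (mul_mem (mul_mem y2 (h.le _ p3)) z2) c, by simp only [one_mul, mul_assoc]⟩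
  | @cons z w e z1 z2 z3 w1 w2 w3 e1 =>
    by_cases c : y * p * z ∈ C
    · exact .inr ⟨y * p * z * w, mul_mem (mul_mem (mul_mem y1 p1) z1) w1,
        mul_mem (h.le j c) w2, q, q1, q2, e, e1, by simp only [mul_assoc]⟩
    · exact .inr ⟨1, one_mem _, one_mem _, q, q1, q2, _, .cons (mul_mem (mul_mem y1 p1) z1)
        (mul_mem (mul_mem y2 (h.le _ p3)) z2) c w1 w2 w3 e1, by simp only [one_mul, mul_assoc]⟩

theorem fl (k : AmG A H) {t : G} (a : t ∈ H) :
    t ∈ C ∨ ∃ j, ∃ y ∈ H, y ∈ A j ∧ y ∉ C ∧ ∃ n, Red A C n (!j) (y⁻¹ * t) := by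
  by_cases b : t ∈ C
  · exact .inl b
  right
  obtain c | ⟨p, p1, p2, q, -, q2, e, e1, rfl⟩ := h.dec k true a
  · exact ⟨_, t, a, c, b, 0, by simp [Red]⟩
  obtain ⟨n, q3⟩ := h.one q2
  by_cases p3 : p ∈ C
  swap
  · obtain ⟨m, c⟩ := e1.red q3
    exact ⟨_, p, p1, p2, p3, _, by simpa only [inv_mul_cancel_left] using c⟩
  cases e1 with
  | one z1 z2 z3 =>
    exact ⟨false, p * e, mul_mem p1 z1, mul_mem (h.le _ p3) z2,
      fun c => z3 ((C.mul_mem_cancel_left p3).1 c), n, by simpa [mul_assoc] using q3⟩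
  | @cons z w e z1 z2 z3 w1 w2 w3 e1 =>
    obtain ⟨m, c⟩ := e1.red q3
    exact ⟨false, p * z, mul_mem p1 z1, mul_mem (h.le _ p3) z2,
      fun c => z3 ((C.mul_mem_cancel_left p3).1 c), _, by
        simpa [mul_assoc] using am_st w2 w3 c⟩

/-- A subset of `H` that fixes a vertex fixes a vertex of the subtree of `H`. -/
theorem proj (k : AmG A H) {i n j} {g : G} (a : Red A C n j g) {D : Set G} (b : ∀ d ∈ D, d ∈ H)
    (c : ∀ d ∈ D, g⁻¹ * d * g ∈ A i) : ∃ s ∈ H, ∃ l, ∀ d ∈ D, s⁻¹ * d * s ∈ A l := by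
  induction n generalizing j g D with
  | zero =>
    refine ⟨1, one_mem _, i, fun d e => ?_⟩
    simpa [mul_assoc] using mul_mem (mul_mem (h.le i a) (c d e)) (inv_mem (h.le i a))
  | succ n ih =>
    obtain ⟨x, x1, x2, x3⟩ := a
    by_cases f : ∃ s ∈ H, s⁻¹ * x ∈ C
    · obtain ⟨s, s1, s2⟩ := f
      obtain ⟨s', r1, l, r2⟩ := ih (x3.cl s2 h.le) (D := (fun d => s⁻¹ * d * s) '' D) (by
        rintro _ ⟨d, e, rfl⟩
        exact mul_mem (mul_mem (inv_mem s1) (b d e)) s1) (by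
        rintro _ ⟨d, e, rfl⟩
        simpa [mul_assoc] using c d e)
      exact ⟨s * s', mul_mem s1 r1, l, fun d e => by simpa [mul_assoc] using r2 _ ⟨d, e, rfl⟩⟩
    refine ⟨1, one_mem _, j, fun d e => ?_⟩
    obtain u | ⟨p, p1, p2, q, q1, q2, w, w1, rfl⟩ := h.dec k j (b d e)
    · simpa using u
    exfalso
    obtain ⟨m, v⟩ := w1.red (am_st (mul_mem q2 x1) (fun u => f ⟨q⁻¹, inv_mem q1, by simpa⟩) x3)
    have v' := am_st (mul_mem (inv_mem x1) p2)
      (fun u => f ⟨p, p1, by simpa using inv_mem u⟩) v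
    have z : x⁻¹ * p * (w * (q * x * (x⁻¹ * g))) = x⁻¹ * g * (g⁻¹ * (p * (w * q)) * g) := by group
    cases n with
    | zero =>
      have y : x⁻¹ * p * (w * (q * x * (x⁻¹ * g))) ∈ A i := z ▸ mul_mem (h.le i x3) (c _ e)
      obtain rfl | rfl := am_bool i j
      · exact (h.one ((Subgroup.mul_mem_cancel_left _ (mul_mem (inv_mem x1) p2)).1 y)).elim
          fun _ => h.dj' v
      · exact (h.one y).elim fun _ => h.dj v'
    | succ n => exact (h.rt x3 (c _ e)).elim fun _ y => h.dj v' (z ▸ y)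

/-- If the fixed edges at the two base vertices are only the base edge, nothing else is fixed. -/
theorem fix (k : AmG A H) {D : Set G} {p : Bool → Prop} (hp : ∀ j, p j → ∀ d ∈ D, d ∈ A j)
    (he : ∀ j, p j → ∀ g ∈ H, g ∈ A j → (∀ d ∈ D, g⁻¹ * d * g ∈ C) → p (!j) ∧ g ∈ C) {j₀}
    (h₀ : p j₀) {t : G} (a : t ∈ H) {i} (b : ∀ d ∈ D, t⁻¹ * d * t ∈ A i) : p i ∧ t ∈ A i := by
  have key (c : ∀ d ∈ D, d ∈ C) (j) : p j := by
    obtain rfl | rfl := am_bool j j₀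
    exacts [h₀, (he _ h₀ 1 (one_mem _) (one_mem _) (by simpa using c)).1]
  obtain c | ⟨j, y, y1, y2, y3, n, y4⟩ := h.fl k a
  · refine ⟨?_, h.le i c⟩
    obtain rfl | rfl := am_bool i j₀
    · exact h₀
    · exact key (fun d e => h.inf _ d (hp _ h₀ d e) (by
        simpa [mul_assoc] using mul_mem (mul_mem (h.le _ c) (b d e)) (inv_mem (h.le _ c)))) _
  by_cases q : p j
  · obtain ⟨d, e, f⟩ : ∃ d ∈ D, y⁻¹ * d * y ∉ C := by
      by_contra! f
      exact y3 (he j q y y1 y2 f).2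
    have v := am_st (mul_mem (mul_mem (inv_mem y2) (hp j q d e)) y2) f y4
    have z : y⁻¹ * d * y * (y⁻¹ * t) = y⁻¹ * t * (t⁻¹ * d * t) := by group
    cases n with
    | zero =>
      obtain rfl | rfl := am_bool i j
      · exact ⟨q, by simpa using mul_mem y2 (h.le i y4)⟩
      · exact (h.one (mul_mem (h.le _ y4) (b d e))).elim fun _ u => (h.dj v (z ▸ u)).elim
    | succ n => exact (h.rt y4 (b d e)).elim fun _ u => (h.dj v (z ▸ u)).elim
  · obtain rfl : j₀ = !j := (am_bool j₀ j).resolve_left fun c => q (c ▸ h₀)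
    obtain ⟨d, e, f⟩ : ∃ d ∈ D, d ∉ C := by
      by_contra! f
      exact q (key f j)
    have u : Red A C (n + 1) j t := ⟨y, y2, y3, y4⟩
    have z : d * t = t * (t⁻¹ * d * t) := by group
    exact (h.rt u (b d e)).elim fun _ w => (h.dj' (am_st' (hp _ h₀ d e) f u) (z ▸ w)).elim

end Am

end Pool.Agent.Lib.MP_5d3e93_al.At
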