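import Mathlib

/-! A representation of the dihedral Artin groups without short relations. -/

open CoxeterSystem
open scoped MatrixGroups

namespace Pool.Agent.Lib.MP_5d3e93_al.At

/-- Positive matrices that are not diagonal. -/
def DihP (A : Matrix (Fin 2) (Fin 2) ℝ) : Prop :=
  0 < A 0 0 ∧ 0 < A 1 1 ∧ 0 ≤ A 0 1 ∧ 0 ≤ A 1 0 ∧ 0 < A 0 1 + A 1 0

theorem DihP.mul {A B : Matrix (Fin 2) (Fin 2) ℝ} (a : DihP A) (b : DihP B) : DihP (A * B) := by
  obtain ⟨a1, a2, a3, a4, a5⟩ := a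
  obtain ⟨b1, b2, b3, b4, b5⟩ := b
  simp only [DihP, Matrix.mul_apply, Fin.sum_univ_two]
  refine ⟨by positivity, by positivity, by positivity, by positivity, ?_⟩
  have h1 := mul_nonneg a3 b2.le
  have h2 := mul_nonneg a4 b1.le
  rcases b3.eq_or_lt with e | e
  · have := mul_pos a2 (show 0 < B 1 0 by linarith)
    rw [← e]
    linarith
  · have := mul_pos a1 e
    have := mul_nonneg a2.le b4
    linarith

/-- The same up to sign. -/
def DihG (A : SL(2, ℝ)) : Prop := DihP A.1 ∨ DihP (-A.1)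

theorem DihG.mul {A B : SL(2, ℝ)} (a : DihG A) (b : DihG B) : DihG (A * B) := by
  have e : (A * B).1 = A.1 * B.1 := rfl
  rcases a with a | a <;> rcases b with b | b <;> have := a.mul b
  · exact .inl this
  · exact .inr (by rwa [e, ← Matrix.mul_neg])
  · exact .inr (by rwa [e, ← Matrix.neg_mul])
  · exact .inl (by rwa [e, ← neg_mul_neg])

theorem DihG.ne {A : SL(2, ℝ)} (a : DihG A) : A.1 0 0 ≠ 0 ∧ A.1 0 1 + A.1 1 0 ≠ 0 := by
  rcases a with a | a
  · exact ⟨a.1.ne', a.2.2.2.2.ne'⟩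
  · obtain ⟨a1, -, -, -, a5⟩ := a
    simp only [Matrix.neg_apply] at a1 a5
    constructor <;> intro h <;> linarith

/-- The rotation of order four. -/
def dihS : SL(2, ℝ) := ⟨!![0, -1; 1, 0], by simp [Matrix.det_fin_two]⟩

/-- The elliptic generator. -/
def dihU (c : ℝ) : SL(2, ℝ) := ⟨!![c, -1; 1, 0], by simp [Matrix.det_fin_two]⟩

theorem dihU_inv (c : ℝ) : ((dihU c)⁻¹).1 = !![0, 1; -1, c] := by
  rw [Matrix.SpecialLinearGroup.SL2_inv_expl]
  ext i j
  fin_cases i <;> fin_cases j <;> simp [dihU]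

theorem dihS_sq : dihS * dihS = -1 := by
  refine Subtype.ext ?_
  rw [Matrix.SpecialLinearGroup.coe_mul]
  ext i j
  fin_cases i <;> fin_cases j <;> simp [dihS, Matrix.mul_apply, Fin.sum_univ_two]

theorem dihU_pow {c : ℝ} {f : ℤ → ℝ} (h0 : f 0 = 0) (h1 : f 1 = 1)
    (h : ∀ k, f (k + 1) + f (k - 1) = c * f k) (k : ℤ) :
    (dihU c ^ k).1 = !![f (k + 1), -f k; f k, -f (k - 1)] := by
  induction k using Int.induction_on with
  | zero =>
    have := h 0
    simp only [zero_add, zero_sub, h0, h1, mul_zero] at this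
    ext i j
    fin_cases i <;> fin_cases j <;> simp [h0, h1]
    linarith
  | succ k ih =>
    rw [zpow_add_one, Matrix.SpecialLinearGroup.coe_mul, ih]
    have a := h k
    have b := h (k + 1)
    rw [add_sub_cancel_right] at b
    ext i j
    fin_cases i <;> fin_cases j <;> simp [dihU, Matrix.mul_apply, Fin.sum_univ_two] <;> linarith
  | pred k ih =>
    rw [zpow_sub_one, Matrix.SpecialLinearGroup.coe_mul, ih, dihU_inv]
    have a := h (-k)
    have b := h (-k - 1)
    rw [sub_add_cancel] at b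
    ext i j
    fin_cases i <;> fin_cases j <;> simp [Matrix.mul_apply, Fin.sum_univ_two] <;> linarith

theorem dih_good {c : ℝ} {f : ℤ → ℝ} (hc : 0 < c) (h0 : f 0 = 0) (h1 : f 1 = 1)
    (h : ∀ k, f (k + 1) + f (k - 1) = c * f k) {k : ℤ}
    (hk : (0 < f k ∧ 0 ≤ f (k + 1) ∧ 0 ≤ f (k - 1)) ∨ (f k < 0 ∧ f (k + 1) ≤ 0 ∧ f (k - 1) ≤ 0)) :
    DihG (dihU c ^ k * dihS⁻¹) := by
  have e : (dihU c ^ k * dihS⁻¹).1 = !![f k, f (k + 1); f (k - 1), f k] := by
    rw [Matrix.SpecialLinearGroup.coe_mul, dihU_pow h0 h1 h, show dihS = dihU 0 from rfl, dihU_inv]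
    ext i j
    fin_cases i <;> fin_cases j <;> simp [Matrix.mul_apply, Fin.sum_univ_two]
  have := h k
  rcases hk with ⟨a, b, d⟩ | ⟨a, b, d⟩
  · left
    have := mul_pos hc a
    simp only [e, DihP]
    refine ⟨?_, ?_, ?_, ?_, ?_⟩ <;> simp <;> linarith
  · right
    have := mul_neg_of_pos_of_neg hc a
    simp only [e, DihP]
    refine ⟨?_, ?_, ?_, ?_, ?_⟩ <;> simp <;> linarith

theorem dih_hecke {m : ℕ} (hm : m = 0 ∨ 3 ≤ m) : ∃ c : ℝ, 0 < c ∧
    (dihU c ^ m = 1 ∨ dihU c ^ m = -1) ∧ ∀ k : ℤ, (m : ℤ) ∣ k ∨ DihG (dihU c ^ k * dihS⁻¹) := by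
  rcases hm with rfl | hm
  · refine ⟨2, two_pos, .inl rfl, fun k => ?_⟩
    have g := @dih_good 2 (fun k => k) two_pos (by simp) (by simp) (fun k => by push_cast; ring) k
    rcases lt_trichotomy k 0 with a | a | a
    · exact .inr (g (.inr ⟨by exact_mod_cast a, by exact_mod_cast (by omega : k + 1 ≤ 0),
        by exact_mod_cast (by omega : k - 1 ≤ 0)⟩))
    · exact .inl (by simp [a])
    · exact .inr (g (.inl ⟨by exact_mod_cast a, by exact_mod_cast (by omega : 0 ≤ k + 1),
        by exact_mod_cast (by omega : 0 ≤ k - 1)⟩))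
  have m3 : (3 : ℝ) ≤ m := by exact_mod_cast hm
  have pi := Real.pi_pos
  obtain ⟨θ, hθ⟩ : ∃ θ : ℝ, m * θ = Real.pi := ⟨Real.pi / m, by field_simp⟩
  have t0 : 0 < θ := by
    by_contra h
    nlinarith
  have t1 : 3 * θ ≤ Real.pi := by nlinarith
  have s0 : 0 < Real.sin θ := Real.sin_pos_of_pos_of_lt_pi t0 (by linarith)
  have c0 : 0 < 2 * Real.cos θ :=
    mul_pos two_pos (Real.cos_pos_of_mem_Ioo ⟨by linarith, by linarith⟩)
  let f : ℤ → ℝ := fun k => Real.sin (k * θ) / Real.sin θ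
  have h0 : f 0 = 0 := by simp [f]
  have h1 : f 1 = 1 := by simp [f, s0.ne']
  have h : ∀ k, f (k + 1) + f (k - 1) = 2 * Real.cos θ * f k := fun k => by
    simp only [f]
    push_cast
    rw [add_mul, sub_mul, one_mul, Real.sin_add, Real.sin_sub]
    ring
  have per (r q : ℤ) : f (r + m * q) = (-1) ^ q * f r := by
    simp only [f]
    push_cast
    rw [add_mul, mul_right_comm, hθ, mul_comm Real.pi, Real.sin_add_int_mul_pi, mul_div_assoc]
  have nn (r : ℤ) (a : 0 ≤ r) (b : r ≤ m) : 0 ≤ f r := by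
    have a' : (0 : ℝ) ≤ r := by exact_mod_cast a
    have b' : (r : ℝ) ≤ m := by exact_mod_cast b
    exact div_nonneg (Real.sin_nonneg_of_nonneg_of_le_pi (by positivity) (by nlinarith)) s0.le
  have ps (r : ℤ) (a : 0 < r) (b : r < m) : 0 < f r := by
    have a' : (0 : ℝ) < r := by exact_mod_cast a
    have b' : (r : ℝ) < m := by exact_mod_cast b
    exact div_pos (Real.sin_pos_of_pos_of_lt_pi (by positivity) (by nlinarith)) s0
  refine ⟨_, c0, .inr ?_, fun k => ?_⟩
  · have a := per 0 1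
    have b := per 1 1
    have d := per (-1) 1
    have e := h 0
    simp only [zero_add, zero_sub, mul_one, zpow_one, h0, h1, mul_zero] at a b d e
    rw [← zpow_natCast]
    refine Subtype.ext ?_
    rw [dihU_pow h0 h1 h, a, add_comm, b, sub_eq_neg_add, d]
    ext i j
    fin_cases i <;> fin_cases j <;> simp
    linarith
  · have m0 : (0 : ℤ) < m := by omega
    obtain ⟨r, q, a, b, rfl⟩ : ∃ r q : ℤ, 0 ≤ r ∧ r < m ∧ k = r + m * q :=
      ⟨k % m, k / m, Int.emod_nonneg _ m0.ne', Int.emod_lt_of_pos _ m0,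
        (Int.emod_add_mul_ediv _ _).symm⟩
    rcases a.eq_or_lt with rfl | a
    · exact .inl (by simp)
    refine .inr (dih_good c0 h0 h1 h ?_)
    rw [add_right_comm, add_sub_right_comm, per, per, per]
    have p1 := ps r a b
    have p2 := nn (r + 1) (by omega) (by omega)
    have p3 := nn (r - 1) (by omega) (by omega)
    rcases Int.even_or_odd q with e | e
    · rw [e.neg_one_zpow]
      exact .inl ⟨by linarith, by linarith, by linarith⟩
    · rw [e.neg_one_zpow]
      exact .inr ⟨by linarith, by linarith, by linarith⟩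

theorem dih_map {K L : Type*} [Group K] [Group L] (φ : K →* L) (m : ℕ) : ∀ a b : K,
    φ (alternatingWord a b m).prod = (alternatingWord (φ a) (φ b) m).prod := by
  induction m with
  | zero => simp [alternatingWord]
  | succ m ih => simp [alternatingWord_succ, ih]

theorem dih_rot {K : Type*} [Group K] {S a b : K} (ha : S * a = b * S) (hb : S * b = a * S)
    (m : ℕ) : Commute S ((S * a) ^ m) ↔
      (alternatingWord a b m).prod = (alternatingWord b a m).prod := by
  have e (k : ℕ) : S * (alternatingWord a b k).prod = (alternatingWord b a k).prod * S ∧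
      S * (alternatingWord b a k).prod = (alternatingWord a b k).prod * S := by
    induction k with
    | zero => simp [alternatingWord]
    | succ k ih =>
      simp only [alternatingWord_succ, List.prod_concat, ← mul_assoc, ih]
      simp only [mul_assoc, ha, hb, and_self]
  have f (k : ℕ) : (S * a) ^ k = S ^ k * (alternatingWord b a k).prod := by
    induction k with
    | zero => simp [alternatingWord]
    | succ k ih =>
      rw [pow_succ, ih, alternatingWord_succ, List.prod_concat, pow_succ, mul_assoc, mul_assoc,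
        ← mul_assoc S, (e k).1, mul_assoc]
  rw [f, commute_iff_eq, ← mul_assoc, ← pow_succ', pow_succ, mul_assoc, mul_assoc, (e m).2,
    mul_right_inj, mul_left_inj]

theorem dih_rel {m : ℕ} {U : SL(2, ℝ)} (h : U ^ m = 1 ∨ U ^ m = -1) :
    dihS * (U * dihS⁻¹) = dihS⁻¹ * U * dihS ∧
      (alternatingWord (dihS⁻¹ * U) (U * dihS⁻¹) m).prod =
        (alternatingWord (U * dihS⁻¹) (dihS⁻¹ * U) m).prod := by
  have e : dihS⁻¹ = -dihS := by
    rw [inv_eq_iff_mul_eq_one, mul_neg, dihS_sq, neg_neg]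
  have f : dihS * (U * dihS⁻¹) = dihS⁻¹ * U * dihS := by simp [e, mul_assoc]
  refine ⟨f, (dih_rot (S := dihS) (by simp) f m).1 ?_⟩
  rw [mul_inv_cancel_left]
  rcases h with h | h <;> simp [h, commute_iff_eq]

theorem dih_rep {m : ℕ} (h1 : m ≠ 1) (h2 : m ≠ 2) : ∃ a b : GL (Fin 2) ℂ,
    (alternatingWord a b m).prod = (alternatingWord b a m).prod ∧
      ∀ i j k l : ℤ, a ^ i * b ^ j * a ^ k * b ^ l = 1 → i = 0 ∨ j = 0 := by
  obtain ⟨c, c0, hc, -⟩ := dih_hecke (m := m) (by omega)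
  let φ : SL(2, ℝ) →* GL (Fin 2) ℂ := Matrix.SpecialLinearGroup.mapGL ℂ
  refine ⟨φ (dihS⁻¹ * dihU c), φ (dihU c * dihS⁻¹), by rw [← dih_map, ← dih_map, (dih_rel hc).2],
    fun i j k l e => ?_⟩
  simp only [← map_zpow, ← map_mul] at e
  have e := Matrix.SpecialLinearGroup.mapGL_injective (e.trans (map_one φ).symm)
  obtain ⟨lo, hl⟩ : ∃ f : Multiplicative ℤ →* SL(2, ℝ),
      ∀ n, (f n).1 = !![1, 0; -(n.toAdd * c), 1] := ⟨MonoidHom.mk'
    (fun n => ⟨!![1, 0; -(n.toAdd * c), 1], by simp [Matrix.det_fin_two]⟩) fun _ _ =>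
      Subtype.ext (by
        change (!![_, _; _, _] : Matrix (Fin 2) (Fin 2) ℝ) = !![_, _; _, _] * !![_, _; _, _]
        simp [add_mul, add_comm]), fun _ => rfl⟩
  obtain ⟨up, hu⟩ : ∃ f : Multiplicative ℤ →* SL(2, ℝ),
      ∀ n, (f n).1 = !![1, n.toAdd * c; 0, 1] := ⟨MonoidHom.mk'
    (fun n => ⟨!![1, n.toAdd * c; 0, 1], by simp [Matrix.det_fin_two]⟩) fun _ _ =>
      Subtype.ext (by
        change (!![_, _; _, _] : Matrix (Fin 2) (Fin 2) ℝ) = !![_, _; _, _] * !![_, _; _, _]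
        simp [add_mul, add_comm]), fun _ => rfl⟩
  have s : (dihS⁻¹).1 = !![0, 1; -1, 0] := dihU_inv 0
  have a : dihS⁻¹ * dihU c = lo (.ofAdd 1) := Subtype.ext (by
    rw [Matrix.SpecialLinearGroup.coe_mul, s, hl]
    simp [dihU])
  have b : dihU c * dihS⁻¹ = up (.ofAdd 1) := Subtype.ext (by
    rw [Matrix.SpecialLinearGroup.coe_mul, s, hu]
    simp [dihU])
  rw [mul_assoc, ← eq_inv_iff_mul_eq_one, mul_inv_rev, a, b] at e
  simp only [← map_zpow, ← map_inv] at e
  have e := congrArg (fun A : SL(2, ℝ) => A.1 1 1) e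
  simp only [Matrix.SpecialLinearGroup.coe_mul, hl, hu] at e
  simpa [c0.ne'] using e

end Pool.Agent.Lib.MP_5d3e93_al.At
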