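import Pool.Agent.Lib.MP_5d3e93_al.At.Pd
import Pool.Agent.Lib.MP_5d3e93_al.At.Dh1

/-! The Artin relators of large type have no short consequences in two generators. -/

open CoxeterSystem

namespace Pool.Agent.Lib.MP_5d3e93_al.At

universe v

variable {S : Type v}

/-- The braid relators. -/
def artR (M : CoxeterMatrix S) : Set (FreeGroup S) :=
  {r | ∃ s t, r = ((braidWord M s t).map FreeGroup.of).prod *
    ((braidWord M t s).map FreeGroup.of).prod⁻¹}

theorem art_map {A B : Type*} (f : A → B) (x y : A) (m : ℕ) :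
    (alternatingWord x y m).map f = alternatingWord (f x) (f y) m := by
  induction m generalizing x y with
  | zero => rfl
  | succ m ih => rw [alternatingWord_succ, alternatingWord_succ, List.map_concat, ih]

theorem art_hom {P : Type*} [Group P] (φ : FreeGroup S →* P) (s t : S) (m : ℕ) :
    φ ((alternatingWord s t m).map FreeGroup.of).prod =
      (alternatingWord (φ (.of s)) (φ (.of t)) m).prod := by
  rw [map_list_prod, art_map, art_map]

theorem art_mem {G : Type*} [Group G] {H : Subgroup G} {x y : G} (a : x ∈ H) (b : y ∈ H) (m : ℕ) :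
    (alternatingWord x y m).prod ∈ H := by
  induction m generalizing x y with
  | zero => exact one_mem _
  | succ m ih => rw [alternatingWord_succ, List.prod_concat]; exact mul_mem (ih b a) b

theorem art_of {U : Set S} {s : S} (a : s ∈ U) : FreeGroup.of s ∈ Sp id U :=
  Subgroup.subset_closure ⟨s, a, rfl⟩

theorem art_one {a : S} {x : FreeGroup S} (h : x ∈ Sp id {a}) : ∃ n : ℤ, x = .of a ^ n := by
  rw [Sp, Set.preimage_id, Set.image_singleton, Subgroup.mem_closure_singleton] at h
  exact h.imp fun _ => Eq.symm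

theorem art_sp (M : CoxeterMatrix S) (s t : S) : ((braidWord M s t).map FreeGroup.of).prod *
    ((braidWord M t s).map FreeGroup.of).prod⁻¹ ∈ Sp id {s, t} := by
  have a : FreeGroup.of s ∈ Sp id {s, t} := art_of (by simp)
  have b : FreeGroup.of t ∈ Sp id {s, t} := art_of (by simp)
  rw [art_map, art_map]
  exact mul_mem (art_mem a b _) (inv_mem (art_mem b a _))

open Classical in
/-- Two generators go to `x` and `y`, the others to one. -/
noncomputable def artL {P : Type*} [Group P] (a b : S) (x y : P) : FreeGroup S →* P :=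
  FreeGroup.lift fun s => if s = a then x else if s = b then y else 1

section

variable {P : Type*} [Group P] {a b : S} {x y : P} {M : CoxeterMatrix S}

theorem artL_a : artL a b x y (.of a) = x := by simp [artL]

theorem artL_b (h : a ≠ b) : artL a b x y (.of b) = y := by simp [artL, h.symm]

theorem artL_rel (h : a ≠ b)
    (e : (alternatingWord x y (M a b)).prod = (alternatingWord y x (M a b)).prod) :
    artL a b x y (((braidWord M a b).map FreeGroup.of).prod *
      ((braidWord M b a).map FreeGroup.of).prod⁻¹) = 1 := by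
  rw [map_mul, map_inv, art_hom, art_hom, artL_a, artL_b h, M.symmetric b a, e, mul_inv_cancel]

/-- A relator written in `U` is trivial or both its generators lie in `U`. -/
theorem art_in (hM : ∀ s t, M s t ≠ 2) {U : Set S} {s t : S} (h : s ≠ t)
    (k : ((braidWord M s t).map FreeGroup.of).prod *
      ((braidWord M t s).map FreeGroup.of).prod⁻¹ ∈ Sp id U) :
    ((braidWord M s t).map FreeGroup.of).prod * ((braidWord M t s).map FreeGroup.of).prod⁻¹ = 1 ∨
      s ∈ U ∧ t ∈ U := by
  obtain ⟨x, y, e, f⟩ := dih_rep (M.off_diagonal s t h) (hM s t)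
  have k1 := pd_inf k (art_sp M s t)
  have k2 := artL_rel h e
  by_cases p : s ∈ U
  · by_cases q : t ∈ U
    · exact .inr ⟨p, q⟩
    · obtain ⟨n, c⟩ := art_one (a := s) (pd_mono (by
        rintro z ⟨d, rfl | rfl⟩
        exacts [rfl, (q d).elim]) k1)
      rw [c, map_zpow, artL_a] at k2
      obtain rfl : n = 0 := (f n 1 0 (-1) (by simp [k2])).resolve_right one_ne_zero
      exact .inl (c.trans (zpow_zero _))
  · obtain ⟨n, c⟩ := art_one (a := t) (pd_mono (by
      rintro z ⟨d, rfl | rfl⟩
      exacts [(p d).elim, rfl]) k1)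
    rw [c, map_zpow, artL_b h] at k2
    obtain rfl : n = 0 := (f 1 n (-1) 0 (by simp [k2])).resolve_left one_ne_zero
    exact .inl (c.trans (zpow_zero _))

theorem art_kill (hM : ∀ s t, M s t ≠ 2) (h : a ≠ b)
    (e : (alternatingWord x y (M a b)).prod = (alternatingWord y x (M a b)).prod) :
    ∀ r ∈ artR M, r ∈ Sp id {a, b} → artL a b x y r = 1 := by
  rintro _ ⟨s, t, rfl⟩ k
  by_cases c : s = t
  · rw [c, mul_inv_cancel, map_one]
  rcases art_in hM c k with d | ⟨rfl | rfl, rfl | rfl⟩
  · rw [d, map_one]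
  · exact (c rfl).elim
  · exact artL_rel h e
  · rw [← inv_eq_one, ← map_inv, mul_inv_rev, inv_inv]
    exact artL_rel h e
  · exact (c rfl).elim

end

theorem art_pd {M : CoxeterMatrix S} (hM : ∀ s t, M s t ≠ 2) : Pd id (artR M) where
  h₀ := by
    rintro _ ⟨s, t, rfl⟩
    exact ⟨s, t, art_sp M s t⟩
  h₁ a b x p q := by
    by_cases h : a = b
    · exact pj_up (U := {a, b}) (by simp [h]) (sp_mono (by simp) p) q
    obtain ⟨u, v, e, f⟩ := dih_rep (M.off_diagonal a b h) (hM a b)
    have k := pdk_up _ (art_kill hM h e) (sp_mono (by simp) p) q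
    obtain ⟨n, rfl⟩ := art_one p
    rw [map_zpow, artL_a] at k
    obtain rfl : n = 0 := (f n 1 0 (-1) (by simp [k])).resolve_right one_ne_zero
    rw [zpow_zero, map_one]
  h₂ a b h x p y q x' p' y' q' w := by
    obtain ⟨u, v, e, f⟩ := dih_rep (M.off_diagonal a b h) (hM a b)
    have k := pdk_up _ (art_kill hM h e) (mul_mem (mul_mem (mul_mem (sp_mono (by simp) p)
      (sp_mono (by simp) q)) (sp_mono (by simp) p')) (sp_mono (by simp) q')) w
    obtain ⟨i, rfl⟩ := art_one p
    obtain ⟨j, rfl⟩ := art_one q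
    obtain ⟨i', rfl⟩ := art_one p'
    obtain ⟨j', rfl⟩ := art_one q'
    simp only [map_mul, map_zpow, artL_a, artL_b h] at k
    exact (f i j i' j' k).imp (fun c => by rw [c, zpow_zero, map_one])
      fun c => by rw [c, zpow_zero, map_one]

theorem art_comm {R : Set (FreeGroup S)} {a : S} (x y : PresentedGroup (Rs id R {a})) :
    x * y = y * x := by
  obtain ⟨x, p, rfl⟩ := pdk_sur x
  obtain ⟨y, q, rfl⟩ := pdk_sur y
  obtain ⟨i, rfl⟩ := art_one p
  obtain ⟨j, rfl⟩ := art_one q
  rw [← map_mul, ← map_mul, zpow_mul_comm]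

theorem art_gen {R : Set (FreeGroup S)} {a b : S} :
    Subgroup.closure {pj id R {a, b} (.of a), pj id R {a, b} (.of b)} = ⊤ := by
  rw [← pj_top, Sp, MonoidHom.map_closure, Set.preimage_id, Set.image_pair, Set.image_pair]

theorem art_rel {M : CoxeterMatrix S} {a b : S} :
    (alternatingWord (pj id (artR M) {a, b} (.of a)) (pj id (artR M) {a, b} (.of b)) (M a b)).prod =
      (alternatingWord (pj id (artR M) {a, b} (.of b)) (pj id (artR M) {a, b} (.of a))
        (M a b)).prod := by
  have := pdk_rel (R := artR M) ⟨a, b, rfl⟩ (art_sp M a b)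
  rwa [map_mul, map_inv, art_hom, art_hom, M.symmetric b a, mul_inv_eq_one] at this

theorem art_un {M : CoxeterMatrix S} (hM : ∀ s t, M s t ≠ 2) {a b : S} (h : a ≠ b) {P : Type*}
    [Group P] (x y : P)
    (e : (alternatingWord x y (M a b)).prod = (alternatingWord y x (M a b)).prod) :
    ∃ φ : PresentedGroup (Rs id (artR M) {a, b}) →* P,
      φ (pj id (artR M) {a, b} (.of a)) = x ∧ φ (pj id (artR M) {a, b} (.of b)) = y :=
  ⟨QuotientGroup.lift _ (artL a b x y) fun k c => pdk_ker (N := (artL a b x y).ker)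
    (art_kill hM h e) (fun s d => by
      have d' : s ≠ a ∧ s ≠ b := by simpa using d
      simp [artL, d'.1, d'.2]) (PresentedGroup.mk_eq_one_iff.2 c), artL_a, artL_b h⟩

end Pool.Agent.Lib.MP_5d3e93_al.At
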