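import Pool.Agent.Lib.MP_5d3e93_al.At.Tri

/-! Triangles of groups from three sets of generators. -/

open Subgroup

namespace Pool.Agent.Lib.MP_5d3e93_al.At

universe a w

theorem ex_tri {S : Type a} {H : ZMod 3 → Type a} [∀ i, Group (H i)] {G : Type w} [Group G]
    (A : ZMod 3 → Set S) (p : ∀ i, FreeGroup S →* H i) (q : FreeGroup S →* G)
    (K E : ZMod 3 → Subgroup (FreeGroup S)) (hK : ∀ i, K i = closure (FreeGroup.of '' A i))
    (hE : ∀ i, E i = closure (FreeGroup.of '' (A i ∩ A (i + 1))))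
    (ed : ∀ i, ∀ x ∈ E i, p i x = 1 ↔ p (i + 1) x = 1)
    (fc : ∀ i, ∀ x ∈ E (i + 2), ∀ y ∈ E i, p i x = p i y → ∃ f, (∀ j, f ∈ E j) ∧ p i f = p i x)
    (gi : ∀ i, ∀ r ∈ E (i + 2), ∀ l ∈ E i, ∀ l' ∈ E i, ∀ r' ∈ E (i + 2),
      p i (r * l) = p i (l' * r') → (∃ y ∈ E i, p i r = p i y) ∨ ∃ x ∈ E (i + 2), p i l = p i x)
    (kq : ∀ i, ∀ k ∈ K i, p i k = 1 → q k = 1) (hq : Function.Surjective q)
    (out : ∀ s, (∀ i, s ∉ A i) → q (.of s) = 1)
    (ker : ∀ N : Subgroup (FreeGroup S), N.Normal → (∀ i, ∀ k ∈ K i, p i k = 1 → k ∈ N) →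
      (∀ s, (∀ i, s ∉ A i) → .of s ∈ N) → q.ker ≤ N) :
    ∃ T : Tri (FreeGroup S) H G, T.K = K ∧ T.E = E ∧ T.p = p ∧ T.q = q := by
  classical
  have mK : ∀ {i s}, s ∈ A i → FreeGroup.of s ∈ K i := fun {i s} h =>
    hK i ▸ subset_closure ⟨s, h, rfl⟩
  have e1 : ∀ i, E i ≤ K i := fun i =>
    hE i ▸ hK i ▸ closure_mono (Set.image_mono Set.inter_subset_left)
  have e2 : ∀ i, E i ≤ K (i + 1) := fun i =>
    hE i ▸ hK (i + 1) ▸ closure_mono (Set.image_mono Set.inter_subset_right)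
  refine ⟨⟨K, E, p, q, e1, e2, ed, fc, gi, kq, top_unique fun g _ => ?_, fun P _ ρ h1 h2 => ?_⟩,
    rfl, rfl, rfl, rfl⟩
  · obtain ⟨x, rfl⟩ := hq g
    have : closure (Set.range (FreeGroup.of : S → FreeGroup S)) ≤ (⨆ i, (K i).map q).comap q := by
      rw [closure_le]
      rintro _ ⟨s, rfl⟩
      by_cases h : ∃ i, s ∈ A i
      · obtain ⟨i, h⟩ := h
        exact mem_iSup_of_mem i (mem_map_of_mem q (mK h))
      · change q (.of s) ∈ ⨆ i, (K i).map q
        rw [out s fun i a => h ⟨i, a⟩]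
        exact one_mem _
    exact this (FreeGroup.closure_range_of S ▸ mem_top x)
  · have w : ∀ i j s (a : s ∈ A i) (b : s ∈ A j), ρ i ⟨.of s, mK a⟩ = ρ j ⟨.of s, mK b⟩ := by
      have w1 : ∀ i s (a : s ∈ A i) (b : s ∈ A (i + 1)),
          ρ i ⟨.of s, mK a⟩ = ρ (i + 1) ⟨.of s, mK b⟩ := fun i s a b =>
        h2 i _ (hE i ▸ subset_closure ⟨s, ⟨a, b⟩, rfl⟩)
      intro i j s a b
      rcases (by decide : ∀ i j : ZMod 3, j = i ∨ j = i + 1 ∨ i = j + 1) i j with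
        rfl | rfl | rfl
      · rfl
      · exact w1 _ s a b
      · exact (w1 _ s b a).symm
    let ψ : FreeGroup S →* P := FreeGroup.lift fun s =>
      if h : ∃ i, s ∈ A i then ρ h.choose ⟨.of s, mK h.choose_spec⟩ else 1
    have hψ : ∀ i k (h : k ∈ K i), ψ k = ρ i ⟨k, h⟩ := fun i k h => by
      have c : ∀ {x}, x ∈ closure (FreeGroup.of '' A i) → x ∈ K i := fun a => hK i ▸ a
      have : ∀ x (a : x ∈ closure (FreeGroup.of '' A i)), ψ x = ρ i ⟨x, c a⟩ := fun x a => by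
        induction a using closure_induction with
        | mem x a =>
          obtain ⟨s, b, rfl⟩ := a
          have e : ∃ i, s ∈ A i := ⟨i, b⟩
          simp only [ψ, FreeGroup.lift_apply_of, dif_pos e]
          exact w _ _ s e.choose_spec b
        | one => exact (map_one ψ).trans (map_one (ρ i)).symm
        | mul x y a b u v =>
          rw [map_mul, u, v]
          exact (map_mul (ρ i) ⟨x, c a⟩ ⟨y, c b⟩).symm
        | inv x a u =>
          rw [map_inv, u]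
          exact (map_inv (ρ i) ⟨x, c a⟩).symm
      exact this k (hK i ▸ h)
    have hk : q.ker ≤ ψ.ker := ker _ inferInstance
      (fun i k a b => (hψ i k a).trans (h1 i ⟨k, a⟩ b)) fun s a => by
        have e : ¬ ∃ i, s ∈ A i := fun ⟨i, b⟩ => a i b
        simp only [MonoidHom.mem_ker, ψ, FreeGroup.lift_apply_of, dif_neg e]
    exact ⟨q.liftOfSurjective hq ⟨ψ, hk⟩, fun i k =>
      (q.liftOfRightInverse_comp_apply _ _ ⟨ψ, hk⟩ k).trans (hψ i k k.2)⟩

end Pool.Agent.Lib.MP_5d3e93_al.At
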