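import Pool.Agent.Lib.MP_5d3e93_al.At.Po
import Pool.Agent.Lib.MP_5d3e93_al.At.Gl

/-! Dihedral Artin groups act on modular lattices with commutative stabilisers. -/

open CoxeterSystem

namespace Pool.Agent.Lib.MP_5d3e93_al.At

universe w

theorem dh_ev {P : Type*} [Monoid P] (a b : P) (k : ℕ) :
    (alternatingWord a b (2 * k)).prod = (a * b) ^ k := by
  induction k with
  | zero => simp [alternatingWord]
  | succ k ih =>
    rw [show 2 * (k + 1) = 2 * k + 1 + 1 by ring, alternatingWord_succ', alternatingWord_succ',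
      if_neg (by simp), if_pos (by simp), List.prod_cons, List.prod_cons, ih, pow_succ', mul_assoc]

theorem dh_od {P : Type*} [Monoid P] (a b : P) (k : ℕ) :
    (alternatingWord a b (2 * k + 1)).prod = b * (a * b) ^ k := by
  rw [alternatingWord_succ', if_pos (by simp), List.prod_cons, dh_ev]

theorem dh_sw {P : Type*} [Group P] (a b : P) (k : ℕ) :
    (b * a) ^ k = a⁻¹ * (a * b) ^ k * a := by
  have := conj_pow (a := a⁻¹) (b := a * b) (i := k)
  simpa [mul_assoc] using this

/-- Amalgams of two commutative groups along a cyclic group, as degenerate triangles. -/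
theorem dh_am {G : Type w} [Group G] (f : ZMod 3 → G) (gen : Subgroup.closure (Set.range f) = ⊤)
    (hc : ∀ i, Commute (f i) (f 2))
    (un : ∀ (P : Type) [Group P] (g : ZMod 3 → P), (∀ i (n : ℕ), f 2 = f i ^ n → g 2 = g i ^ n) →
      (∀ i, Commute (g i) (g 2)) → ∃ φ : G →* P, ∀ i, φ (f i) = g i) :
    ∃ (X : Type w) (_ : Lattice X) (_ : Nonempty X) (_ : MulAction G X) (B : Bg.Bl X),
      B.Ac G ∧ ∀ (z : X) (g h : G), g • z = z → h • z = z → g * h = h * g := by
  let q : FreeGroup (ZMod 3) →* G := FreeGroup.lift f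
  have hp : ∀ x, QuotientGroup.mk' q.ker x = 1 ↔ q x = 1 := fun x => QuotientGroup.eq_one_iff x
  obtain ⟨T, hK, -, -, hq⟩ := ex_tri (H := fun _ => FreeGroup (ZMod 3) ⧸ q.ker)
    (fun i => {i, 2}) (fun _ => QuotientGroup.mk' q.ker) q
    (fun i => Subgroup.closure (FreeGroup.of '' {i, 2}))
    (fun _ => Subgroup.closure (FreeGroup.of '' {2})) (fun _ => rfl)
    (fun i => by
      congr 2
      ext s
      simp only [Set.mem_inter_iff, Set.mem_insert_iff, Set.mem_singleton_iff]
      revert i s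
      decide)
    (fun _ _ _ => Iff.rfl) (fun _ x a _ _ _ => ⟨x, fun _ => a, rfl⟩)
    (fun _ r a _ _ _ _ _ _ _ => .inl ⟨r, a, rfl⟩) (fun _ k _ a => (hp k).1 a)
    (MonoidHom.range_eq_top.1 (FreeGroup.range_lift_eq_closure.trans gen))
    (fun s a => (a s (by simp)).elim) (fun N _ a _ => by
      have m : ∀ i, FreeGroup.of i ∈ Subgroup.closure (FreeGroup.of '' {i, (2 : ZMod 3)}) ∧
          FreeGroup.of 2 ∈ Subgroup.closure (FreeGroup.of '' {i, (2 : ZMod 3)}) := fun i =>
        ⟨Subgroup.subset_closure ⟨i, by simp, rfl⟩, Subgroup.subset_closure ⟨2, by simp, rfl⟩⟩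
      obtain ⟨φ, e⟩ := un (FreeGroup (ZMod 3) ⧸ N) (fun i => QuotientGroup.mk' N (.of i))
        (fun i n b => by
          rw [← map_pow]
          exact QuotientGroup.eq.2 (a i _ (mul_mem (inv_mem (m i).2) (pow_mem (m i).1 n))
            ((hp _).2 (by simp [q, ← b]))))
        (fun i => by
          rw [Commute, SemiconjBy, ← map_mul, ← map_mul]
          exact QuotientGroup.eq.2 (a i _ (mul_mem (inv_mem (mul_mem (m i).1 (m i).2))
            (mul_mem (m i).2 (m i).1)) ((hp _).2 (by simp [q, ← (hc i).eq]))))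
      intro k b
      have : φ.comp q = QuotientGroup.mk' N := FreeGroup.ext_hom _ _ fun i => by simp [q, e]
      rw [← QuotientGroup.eq_one_iff, ← QuotientGroup.mk'_apply, ← this, MonoidHom.comp_apply,
        MonoidHom.mem_ker.1 b, map_one])
  obtain ⟨X, _, _, _, B, hB, hX⟩ := T.m6
  refine ⟨X, _, ‹_›, _, B, hB, fun z g h a b => ?_⟩
  obtain ⟨i, t, c⟩ := hX z
  have e : T.Q i = Subgroup.closure {f i, f 2} := by
    rw [Tri.Q, hK, hq, MonoidHom.map_closure, Set.image_image, Set.image_pair]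
    simp [q]
  have s : ∀ u ∈ T.Q i, u ∈ Subgroup.centralizer (Subgroup.centralizer {f i, f 2} : Set G) :=
    fun u d => Subgroup.closure_le_centralizer_centralizer _ (e ▸ d)
  have r : t⁻¹ * g * t ∈ Subgroup.centralizer {f i, f 2} := fun x d => (s _ (c g a) x (by
    rintro y (rfl | rfl) <;> rcases d with rfl | rfl
    exacts [rfl, (hc i).eq, (hc i).symm.eq, rfl]))
  have := s _ (c h b) _ r
  refine mul_right_cancel (b := t) ?_
  simpa [mul_assoc] using this

theorem dih_bl {G : Type w} [Group G] (a b : G) (m : ℕ) (gen : Subgroup.closure {a, b} = ⊤)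
    (rel : (alternatingWord a b m).prod = (alternatingWord b a m).prod)
    (un : ∀ (P : Type) [Group P] (x y : P),
      (alternatingWord x y m).prod = (alternatingWord y x m).prod →
        ∃ φ : G →* P, φ a = x ∧ φ b = y) :
    ∃ (X : Type w) (_ : Lattice X) (_ : Nonempty X) (_ : MulAction G X) (B : Bg.Bl X),
      B.Ac G ∧ ∀ (z : X) (g h : G), g • z = z → h • z = z → g * h = h * g := by
  have cl : ∀ f : ZMod 3 → G, a ∈ Subgroup.closure (Set.range f) →
      a * b ∈ Subgroup.closure (Set.range f) → Subgroup.closure (Set.range f) = ⊤ := fun f p q => by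
    rw [eq_top_iff, ← gen, Subgroup.closure_le]
    rintro _ (rfl | rfl)
    exacts [p, (Subgroup.mul_mem_cancel_left _ p).1 q]
  have mm : ∀ (f : ZMod 3 → G) i, f i ∈ Subgroup.closure (Set.range f) := fun f i =>
    Subgroup.subset_closure ⟨i, rfl⟩
  obtain ⟨k, rfl | rfl⟩ := Nat.even_or_odd' m
  · rw [dh_ev, dh_ev, dh_sw a b] at rel
    let f : ZMod 3 → G := (![a, a * b, (a * b) ^ k] : Fin 3 → G)
    refine dh_am f (cl f (mm f 0) (mm f 1)) (fun i => ?_) fun P _ g p q => ?_
    · fin_cases i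
      · show a * (a * b) ^ k = (a * b) ^ k * a
        rw [mul_assoc, eq_inv_mul_iff_mul_eq] at rel
        exact rel
      · exact (Commute.refl _).pow_right k
      · exact Commute.refl _
    · have c := p 1 k rfl
      obtain ⟨φ, d, e⟩ := un P (g 0) ((g 0)⁻¹ * g 1) (by
        rw [dh_ev, dh_ev, dh_sw (g 0), mul_inv_cancel_left, ← c, mul_assoc, ← (q 0).eq,
          inv_mul_cancel_left])
      refine ⟨φ, fun i => ?_⟩
      fin_cases i
      · exact d
      · show φ (a * b) = g 1
        simp [d, e]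
      · show φ ((a * b) ^ k) = g 2
        simp [d, e, c]
  · rw [dh_od, dh_od, dh_sw a b, ← mul_assoc, mul_inv_cancel_left] at rel
    let f : ZMod 3 → G := (![(a * b) ^ k * a, a * b, (a * b) ^ (2 * k + 1)] : Fin 3 → G)
    have sq : (a * b) ^ (2 * k + 1) = ((a * b) ^ k * a) ^ 2 := by
      rw [pow_two]
      nth_rewrite 2 [← rel]
      rw [show 2 * k + 1 = k + 1 + k by ring, pow_add, pow_succ]
      simp only [mul_assoc]
    refine dh_am f (cl f ((Subgroup.mul_mem_cancel_left _ (pow_mem (mm f 1) k)).1 (mm f 0))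
      (mm f 1)) (fun i => ?_) fun P _ g p q => ?_
    · fin_cases i
      · show Commute ((a * b) ^ k * a) ((a * b) ^ (2 * k + 1))
        rw [sq]
        exact (Commute.refl _).pow_right 2
      · exact (Commute.refl _).pow_right _
      · exact Commute.refl _
    · have c := p 1 _ rfl
      have c' := p 0 2 sq
      have y : (g 1 ^ k)⁻¹ * g 0 * ((g 0)⁻¹ * g 1 ^ (k + 1)) = g 1 := by group
      obtain ⟨φ, d, e⟩ := un P ((g 1 ^ k)⁻¹ * g 0) ((g 0)⁻¹ * g 1 ^ (k + 1)) (by
        rw [dh_od, dh_od, dh_sw ((g 1 ^ k)⁻¹ * g 0), y, mul_assoc _ (g 1 ^ k),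
          mul_inv_cancel_left, mul_inv_cancel_left, mul_assoc, ← pow_add,
          show k + 1 + k = 2 * k + 1 by ring, ← c, c', pow_two, inv_mul_cancel_left])
      refine ⟨φ, fun i => ?_⟩
      fin_cases i
      · show φ ((a * b) ^ k * a) = g 0
        rw [map_mul, map_pow, map_mul, d, e, y, mul_inv_cancel_left]
      · show φ (a * b) = g 1
        rw [map_mul, d, e, y]
      · show φ ((a * b) ^ (2 * k + 1)) = g 2
        rw [map_pow, map_mul, d, e, y, c]

end Pool.Agent.Lib.MP_5d3e93_al.At
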