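import Pool.Agent.Lib.MP_5d3e93_al.At.Main
import Pool.Agent.Lib.MP_5d3e93_al.At.Dh1
import Pool.Agent.Lib.MP_5d3e93_al.At.Dh2
import Pool.Agent.Lib.MP_5d3e93_al.At.ArtA

/-! Artin groups of large type. -/

open CoxeterSystem

namespace Pool.Agent.Lib.MP_5d3e93_al.At

open As

universe v u

/-- Groups acting on a modular lattice with commutative stabilisers. -/
theorem art_bl {G : Type v} [Group G] {X : Type v} [Lattice X] [Nonempty X] [MulAction G X]
    (B : Bg.Bl X) [B.Ac G] (h : ∀ (z : X) (g k : G), g • z = z → k • z = z → g * k = k * g) :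
    FJ.{v, u} G :=
  Br.fj_kz fun _ _ _ _ _ _ hs => rel_kz.{v, v, max 1 u v} (𝓕 := Fam.emp G)
    (fun _ _ => (rel.{v, v, max 1 u v} (Fam.emp G)).le
      (le_top.trans (MonoidHom.range_eq_top.2 Function.surjective_id).ge)
      (rel_lat (j := .id G) Function.injective_id B fun x => Fam.tm_lh fun _ _ =>
        hyper_comm fun p q => Subtype.ext (Subtype.ext (h x _ _ p.1.2 q.1.2)))) hs
    fun _ f => f.elim

theorem fj_artin {S : Type v} (M : CoxeterMatrix S) (hM : ∀ s t, M s t ≠ 2) :
    FJ.{v, u} (PresentedGroup {r | ∃ s t, r = ((braidWord M s t).map FreeGroup.of).prod *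
      ((braidWord M t s).map FreeGroup.of).prod⁻¹}) :=
  (art_pd hM).fj (fun _ _ _ => hyper_comm fun p q => Subtype.ext (art_comm p.1 q.1)) fun a b h => by
    obtain ⟨X, _, _, _, B, _, k⟩ := dih_bl _ _ (M a b) art_gen art_rel
      fun _ _ x y => art_un hM h x y
    exact art_bl B k

end Pool.Agent.Lib.MP_5d3e93_al.At
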