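import Pool.Agent.Lib.MP_5d3e93_al.At.Db
import Pool.Agent.Lib.MP_35cce7_an.Cox

/-! Buildings are simply connected with respect to their spherical residues of rank two. -/

namespace Pool.Agent.Lib.MP_5d3e93_al.At

open CoxeterSystem MP_35cce7_an

variable {B W : Type} [Group W] {M : CoxeterMatrix B} (cs : CoxeterSystem M W) {C : Type*}

theorem inP_iff {J : Set B} {w : W} : InP cs J w ↔ w ∈ Subgroup.closure (cs.simple '' J) := by
  constructor
  · rintro ⟨ω, h, rfl⟩
    exact Subgroup.list_prod_mem _ fun x hx => by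
      obtain ⟨i, hi, rfl⟩ := List.mem_map.1 hx
      exact Subgroup.subset_closure ⟨i, h i hi, rfl⟩
  · intro h
    induction h using Subgroup.closure_induction with
    | mem x h => exact h.elim fun i a => a.2 ▸ InP.simple a.1
    | one => exact InP.one J
    | mul _ _ _ _ a b => exact a.mul b
    | inv _ _ a => exact a.inv

variable {cs}

theorem inP_desc {J : Set B} {w : W} (h : InP cs J w) (e : w ≠ 1) :
    ∃ i ∈ J, cs.length (cs.simple i * w) < cs.length w := by
  obtain ⟨_ | ⟨i, ω⟩, a, b, rfl⟩ := h.exists_reduced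
  · exact (e (by simp)).elim
  · refine ⟨i, a i (by simp), ?_⟩
    rw [b.eq, wordProd_cons, simple_mul_simple_cancel_left]
    exact Nat.lt_succ_of_le (cs.length_wordProd_le ω)

theorem inP_one {i : B} {w : W} (h : InP cs {i} w) : w = 1 ∨ w = cs.simple i := by
  obtain ⟨ω, h, rfl⟩ := h
  induction ω with
  | nil => simp
  | cons j ω ih =>
    obtain rfl : j = i := h j (by simp)
    rcases ih fun k a => h k (by simp [a]) with e | e <;> simp [wordProd_cons, e]

theorem simple_ne {i j : B} (h : i ≠ j) : cs.simple i * cs.simple j ≠ 1 := fun e =>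
  M.off_diagonal i j h (Nat.dvd_one.1 ((order cs h 1).1 (by simpa using e)))

theorem simple_ne_one (i : B) : cs.simple i ≠ 1 := fun e => by
  simpa [e] using cs.length_simple i

/-- Alternating words. -/
def alt : B → B → ℕ → List B
  | _, _, 0 => []
  | i, j, n + 1 => i :: alt j i n

theorem alt_red {i j : B} {ω : List B} (h : ∀ k ∈ ω, k ∈ ({i, j} : Set B)) (r : cs.IsReduced ω) :
    ω = alt i j ω.length ∨ ω = alt j i ω.length := by
  induction ω with
  | nil => exact .inl rfl
  | cons k ω ih =>
    have no : ∀ l, ω = alt k l ω.length → ω = [] := by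
      intro l e
      obtain _ | ⟨a, ω⟩ := ω
      · rfl
      · obtain rfl : a = k := (List.cons.inj e).1
        have := r.eq
        rw [wordProd_cons, wordProd_cons, simple_mul_simple_cancel_left] at this
        have := cs.length_wordProd_le ω
        simp only [List.length_cons] at *
        omega
    rcases ih (fun l a => h l (by simp [a])) (by simpa using r.drop 1) with e | e <;>
      rcases h k (by simp) with rfl | rfl
    · simp [no _ e, alt]
    · exact .inr (congrArg _ e)
    · exact .inl (congrArg _ e)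
    · simp [no _ e, alt]

theorem alt_pow (n : ℕ) : ∀ i j : B, cs.wordProd (alt i j n) =
    (cs.simple i * cs.simple j) ^ n * cs.wordProd (alt j i n) := by
  induction n with
  | zero => simp [alt]
  | succ n ih =>
    intro i j
    rw [alt, alt, wordProd_cons, wordProd_cons, ih j i, pow_succ, mul_assoc, mul_assoc,
      simple_mul_simple_cancel_left, ← mul_assoc, ← mul_assoc]
    congr 1
    exact (SemiconjBy.pow_right (by simp [SemiconjBy, mul_assoc]) n).eq

theorem two_desc {i j : B} (e : i ≠ j) {u : W} (h : InP cs {i, j} u)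
    (a : cs.length (cs.simple i * u) < cs.length u)
    (b : cs.length (cs.simple j * u) < cs.length u) : M i j ≠ 0 := by
  have key : ∀ i j : B, i ≠ j → InP cs {i, j} u → cs.length (cs.simple i * u) < cs.length u →
      u = cs.wordProd (alt i j (cs.length u)) := by
    intro i j e h a
    obtain ⟨ω, c, d, f⟩ := ((InP.simple (i := i) (by simp)).mul h).exists_reduced
    have l := cs.length_simple_mul u i
    have g : cs.wordProd (i :: ω) = u := by rw [wordProd_cons, ← f, simple_mul_simple_cancel_left]
    have l' : (i :: ω).length = cs.length u := by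
      rw [List.length_cons, ← d.eq, ← f]
      omega
    rcases alt_red (i := i) (j := j) (ω := i :: ω) (by simpa using c)
      (show cs.length _ = _ by rw [g, l']) with k | k
    · rw [← l', ← k, g]
    · exact (e (List.cons.inj k).1).elim
  have := alt_pow (cs := cs) (cs.length u) i j
  rw [← key i j e h a, ← key j i e.symm (Set.pair_comm i j ▸ h) b, right_eq_mul, order cs e] at this
  intro z
  rw [z, zero_dvd_iff] at this
  omega

theorem ex_min (J : Set B) (w : W) : ∃ u a, InP cs J u ∧ w = u * a ∧
    ∀ u', InP cs J u' → cs.length (u' * a) = cs.length u' + cs.length a := by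
  classical
  have ex : ∃ n, ∃ u, InP cs J u ∧ cs.length (w⁻¹ * u) = n := ⟨_, 1, InP.one J, rfl⟩
  obtain ⟨u, hu, e⟩ := Nat.find_spec ex
  have m : IsMinC cs J (w⁻¹ * u) := fun u' h => by
    rw [e]
    exact Nat.find_min' ex ⟨u * u', hu.mul h, by rw [mul_assoc]⟩
  refine ⟨u, u⁻¹ * w, hu, by simp, fun u' h => ?_⟩
  have := m.length_mul h.inv
  rw [← cs.length_inv, ← cs.length_inv (w⁻¹ * u), cs.length_inv u'] at this
  simpa [mul_assoc, add_comm] using this

theorem simple_ns (i j k : B) : cs.simple i * cs.simple j ≠ cs.simple k := by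
  intro e
  have := cs.length_mul_mod_two (cs.simple i) (cs.simple j)
  simp [e] at this

theorem simple_nc {i j : B} (h : i ≠ j) (m : M i j ≠ 2) :
    cs.simple i * cs.simple j ≠ cs.simple j * cs.simple i := fun k => by
  have := (order cs h 2).1 (by rw [pow_two]; nth_rw 2 [k]; simp [mul_assoc])
  rcases (Nat.dvd_prime Nat.prime_two).1 this with z | z
  · exact M.off_diagonal i j h z
  · exact m z

theorem mem_one {i : B} {w : W} :
    w ∈ Subgroup.closure (cs.simple '' {i}) ↔ w = 1 ∨ w = cs.simple i := by
  refine ⟨fun a => inP_one ((inP_iff cs).2 a), ?_⟩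
  rintro (rfl | rfl)
  · exact one_mem _
  · exact Subgroup.subset_closure ⟨i, rfl, rfl⟩

variable {δ : C → C → W} (h : Bld cs δ)
include h

theorem Bld.symm {x y : C} {i : B} (e : δ x y = cs.simple i) : δ y x = cs.simple i := by
  obtain ⟨z, a, b⟩ := h.d3 x y i
  rw [e, simple_mul_simple_self, h.d1] at b
  exact b ▸ a

theorem Bld.up {x y z : C} {i : B} (e : δ z x = cs.simple i)
    (l : cs.length (δ x y) < cs.length (cs.simple i * δ x y)) : δ z y = cs.simple i * δ x y :=
  h.d2' x y z i e (by have := cs.length_simple_mul (δ x y) i; omega)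

theorem Bld.pind {T : Set B} {y : C} {P : C → Prop} (h0 : P y) (h1 : ∀ x z, ∀ i ∈ T,
    δ x z = cs.simple i → δ z y = cs.simple i * δ x y → cs.length (δ z y) < cs.length (δ x y) →
      InP cs T (δ x y) → P z → P x) {x : C} (a : InP cs T (δ x y)) : P x := by
  induction hn : cs.length (δ x y) using Nat.strong_induction_on generalizing x with
  | _ n ih =>
    by_cases e : δ x y = 1
    · rwa [(h.d1 _ _).1 e]
    obtain ⟨i, hi, l⟩ := inP_desc a e
    obtain ⟨z, c, d⟩ := h.d3 x y i
    exact h1 x z i hi (h.symm c) d (d ▸ l) a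
      (ih _ (by rw [d]; omega) (d ▸ (InP.simple hi).mul a) rfl)

theorem Bld.ptrans {T : Set B} {x y z : C} (a : InP cs T (δ x y)) (b : InP cs T (δ y z)) :
    InP cs T (δ x z) :=
  h.pind (P := fun x => InP cs T (δ x z)) b (fun x x' i hi c _ _ _ e => by
    rcases h.d2 x' z x i c with k | k
    · exact k ▸ (InP.simple hi).mul e
    · exact k ▸ e) a

/-- Residues are generated by adjacency. -/
theorem Bld.rind {T : Set B} {y : C} {P : C → Prop} (h0 : P y) (h1 : ∀ x z, ∀ i ∈ T,
    δ x z = cs.simple i → δ z y ∈ Subgroup.closure (cs.simple '' T) → P z → P x) {x : C}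
    (a : δ x y ∈ Subgroup.closure (cs.simple '' T)) : P x :=
  h.pind h0 (fun x z i hi b c _ d => h1 x z i hi b
    ((inP_iff cs).1 (c ▸ (InP.simple hi).mul d))) ((inP_iff cs).2 a)

theorem Bld.rtrans {T : Set B} {x y z : C} (a : δ x y ∈ Subgroup.closure (cs.simple '' T))
    (b : δ y z ∈ Subgroup.closure (cs.simple '' T)) : δ x z ∈ Subgroup.closure (cs.simple '' T) :=
  (inP_iff cs).1 (h.ptrans ((inP_iff cs).2 a) ((inP_iff cs).2 b))

omit h in
theorem inP_univ (w : W) : InP cs Set.univ w :=
  (cs.wordProd_surjective w).imp fun _ e => ⟨by simp, e.symm⟩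

theorem Bld.inv (x y : C) : δ y x = (δ x y)⁻¹ := by
  have key : ∀ (y z : C) i, δ z y = cs.simple i → ∀ x,
      cs.length (δ x z) < cs.length (δ x z * cs.simple i) → δ x y = δ x z * cs.simple i := by
    intro y z i e x
    refine h.pind (T := Set.univ) (y := z) (P := fun x => cs.length (δ x z) <
      cs.length (δ x z * cs.simple i) → δ x y = δ x z * cs.simple i) (fun _ => ?_)
      (fun x x' j _ a b c _ ih l => ?_) (inP_univ _)
    · rw [(h.d1 z z).2 rfl, one_mul, e]
    · have b' : δ x z = cs.simple j * δ x' z := by rw [b, simple_mul_simple_cancel_left]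
      have l1 := cs.length_mul_simple (δ x' z) i
      have l2 := cs.length_simple_mul (δ x' z * cs.simple i) j
      rw [← mul_assoc, ← b'] at l2
      have := ih (by omega)
      rw [h.up a (by rw [this, ← mul_assoc, ← b']; omega), this, ← mul_assoc, ← b']
  refine h.pind (T := Set.univ) (y := y) (P := fun x => δ y x = (δ x y)⁻¹)
    (by simp [(h.d1 y y).2 rfl]) (fun x z i _ a b c _ ih => ?_) (inP_univ _)
  have b' : (δ x y)⁻¹ = δ y z * cs.simple i := by simp [ih, b]
  rw [b']
  exact key x z i (h.symm a) y (by rwa [← b', ih, cs.length_inv, cs.length_inv])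

theorem Bld.rsymm {T : Set B} {x y : C} (a : δ x y ∈ Subgroup.closure (cs.simple '' T)) :
    δ y x ∈ Subgroup.closure (cs.simple '' T) := h.inv x y ▸ inv_mem a

omit h in
/-- Values along minimal galleries. -/
inductive Gv (cs : CoxeterSystem M W) (δ : C → C → W) {Q : Type*} [Group Q] (f : C → C → Q)
    (c : C) : C → Q → Prop
  | base : Gv cs δ f c c 1
  | step {x y q i} : δ x y = cs.simple i → cs.length (δ y c) < cs.length (cs.simple i * δ y c) →
      Gv cs δ f c y q → Gv cs δ f c x (f x y * q)

theorem Bld.cocycle {Q : Type*} [Group Q] (f : C → C → Q)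
    (hf : ∀ s t, M s t ≠ 0 → ∃ F : C → C → Q,
      (∀ x y z, δ x y ∈ Subgroup.closure (cs.simple '' {s, t}) →
        δ y z ∈ Subgroup.closure (cs.simple '' {s, t}) → F x y * F y z = F x z) ∧
      ∀ x y, δ x y = cs.simple s ∨ δ x y = cs.simple t → F x y = f x y) :
    ∃ A : C → Q, ∀ x y s, δ x y = cs.simple s → A x * f x y = A y := by
  simp only [← inP_iff] at hf
  obtain hC | ⟨⟨c⟩⟩ := isEmpty_or_nonempty C
  · exact ⟨fun _ => 1, fun x => hC.elim x⟩
  have tot : ∀ x, ∃ q, Gv cs δ f c x q := fun x =>
    h.pind (T := Set.univ) (P := fun x => ∃ q, Gv cs δ f c x q) ⟨_, .base⟩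
      (fun x z i _ a b l _ ⟨q, e⟩ => ⟨_, .step a (by
        rwa [b, simple_mul_simple_cancel_left, ← b]) e⟩) (inP_univ _)
  have fn : ∀ x q q', Gv cs δ f c x q → Gv cs δ f c x q' → q = q' := by
    intro x
    induction hn : cs.length (δ x c) using Nat.strong_induction_on generalizing x with
    | _ n ih =>
      intro q q' a a'
      have inv : ∀ {q}, Gv cs δ f c x q → (δ x c = 1 ∧ q = 1) ∨ ∃ y i q₁, δ x y = cs.simple i ∧
          δ y c = cs.simple i * δ x c ∧ cs.length (cs.simple i * δ x c) < cs.length (δ x c) ∧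
          Gv cs δ f c y q₁ ∧ q = f x y * q₁ := by
        intro q a
        cases a with
        | base => exact .inl ⟨(h.d1 _ _).2 rfl, rfl⟩
        | step e l b => exact .inr ⟨_, _, _, e, by simp [h.up e l], by simpa [h.up e l] using l,
            b, rfl⟩
      rcases inv a with ⟨e, rfl⟩ | ⟨y, i, q, e, s, l, b, rfl⟩ <;>
        rcases inv a' with ⟨e', rfl⟩ | ⟨y', j, q', e', s', l', b', rfl⟩
      · rfl
      · simp [e] at l'
      · simp [e'] at l
      by_cases ij : i = j
      · subst ij
        rcases h.d2 x y' y i (h.symm e) with z | z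
        · rw [e', simple_mul_simple_self, h.d1] at z
          subst z
          rw [ih _ (by rw [s]; omega) _ rfl _ _ b b']
        · have := h.up (y := c) (z.trans e') (by simpa [s'] using l)
          rw [s', s, simple_mul_simple_cancel_left] at this
          rw [this] at l
          omega
      obtain ⟨u, w, hu, ew, hw⟩ := ex_min (cs := cs) {i, j} (δ x c)
      obtain ⟨F, F1, F2⟩ := hf i j (two_desc ij hu
        (by rw [ew, ← mul_assoc, hw _ hu, hw _ ((InP.simple (by simp)).mul hu)] at l; omega)
        (by rw [ew, ← mul_assoc, hw _ hu, hw _ ((InP.simple (by simp)).mul hu)] at l'; omega))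
      have F3 : ∀ {x y}, ∀ a ∈ ({i, j} : Set B), δ x y = cs.simple a → F x y = f x y := by
        rintro x y _ (rfl | rfl) t
        · exact F2 x y (.inl t)
        · exact F2 x y (.inr t)
      obtain ⟨p, hp, e0⟩ : ∃ p, InP cs {i, j} (δ x p) ∧ δ p c = u⁻¹ * δ x c := by
        obtain ⟨ω, a, rfl⟩ := hu
        clear * - a h
        induction ω generalizing x with
        | nil => exact ⟨x, (h.d1 x x).2 rfl ▸ InP.one _, by simp⟩
        | cons k ω ih =>
          obtain ⟨z, r, s⟩ := h.d3 x c k
          obtain ⟨p, b, e⟩ := ih z fun j t => a j (by simp [t])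
          exact ⟨p, h.ptrans (h.symm r ▸ InP.simple (a k (by simp))) b,
            by simp [e, s, wordProd_cons, mul_assoc]⟩
      rw [ew, inv_mul_cancel_left] at e0
      obtain ⟨q₀, b₀⟩ := tot p
      have lp : ∀ z, InP cs {i, j} (δ z p) → δ z c = δ z p * w ∧ Gv cs δ f c z (F z p * q₀) := by
        intro z hz
        have o : InP cs {i, j} (δ p p) := (h.d1 p p).2 rfl ▸ InP.one _
        refine h.pind (P := fun z => δ z c = δ z p * w ∧ Gv cs δ f c z (F z p * q₀))
          ⟨by rw [(h.d1 p p).2 rfl, one_mul, e0], ?_⟩ (fun z z' k hk r s l t ⟨u, v⟩ => ?_) hz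
        · rwa [left_eq_mul.1 (F1 p p p o o).symm, one_mul]
        · have t' : InP cs {i, j} (δ z' p) := s ▸ (InP.simple hk).mul t
          have l' : cs.length (δ z' c) < cs.length (cs.simple k * δ z' c) := by
            rw [u, hw _ t', s, mul_assoc, simple_mul_simple_cancel_left, hw _ t, ← s]
            omega
          refine ⟨by rw [h.up r l', u, s, mul_assoc, simple_mul_simple_cancel_left], ?_⟩
          rw [← F1 z z' p (r ▸ InP.simple hk) t', F3 k hk r, mul_assoc]
          exact .step r l' v
      have key : ∀ {y k q}, k ∈ ({i, j} : Set B) → δ x y = cs.simple k →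
          cs.length (δ y c) < n → Gv cs δ f c y q → f x y * q = F x p * q₀ := by
        intro y k q hk e l b
        have t := h.ptrans (h.symm e ▸ InP.simple hk) hp
        rw [ih _ l _ rfl _ _ b (lp y t).2, ← F3 k hk e, ← mul_assoc,
          F1 x y p (e ▸ InP.simple hk) t]
      rw [key (by simp) e (by rw [s]; omega) b, key (by simp) e' (by rw [s']; omega) b']
  choose A hA using tot
  refine ⟨fun x => (A x)⁻¹, fun x y i e => ?_⟩
  rw [inv_mul_eq_iff_eq_mul, eq_mul_inv_iff_mul_eq]
  obtain ⟨F, F1, F2⟩ := hf i i (by simp)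
  have m : ∀ {x y}, δ x y = cs.simple i → InP cs {i, i} (δ x y) := fun e =>
    e ▸ InP.simple (by simp)
  have o : ∀ x, F x x = 1 := fun x =>
    have o : InP cs {i, i} (δ x x) := (h.d1 x x).2 rfl ▸ InP.one _
    left_eq_mul.1 (F1 x x x o o).symm
  rcases cs.length_simple_mul (δ y c) i with l | l
  · exact fn _ _ _ (.step e (by omega) (hA y)) (hA x)
  obtain ⟨z, r, s⟩ := h.d3 y c i
  have l' : cs.length (δ z c) < cs.length (cs.simple i * δ z c) := by
    rw [s, simple_mul_simple_cancel_left]
    omega
  rw [fn _ _ _ (hA y) (.step (h.symm r) l' (hA z)), ← mul_assoc, ← F2 _ _ (.inl e),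
    ← F2 _ _ (.inl (h.symm r)), F1 _ _ _ (m e) (m (h.symm r))]
  rcases h.d2 y z x i e with t | t
  · rw [h.symm r, simple_mul_simple_self, h.d1] at t
    rw [t, o, one_mul]
  · rw [h.symm r] at t
    rw [F2 _ _ (.inl t)]
    exact fn _ _ _ (.step t l' (hA z)) (hA x)

end Pool.Agent.Lib.MP_5d3e93_al.At
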