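import Pool.Agent.Lib.MP_5d3e93_al.K.Lat2

/-! Vanishing over a subgroup, relative to a family. -/

open CategoryTheory Limits MulAction

namespace Pool.Agent.Lib.MP_5d3e93_al.At

universe w v u

variable {G : Type w} [Group G] (𝓕 : Fam G)

/-- Vanishing for all groups that map to `V` with hyper kernel. -/
def Rel (V : Subgroup G) : Prop := ∀ (H : Type w) [Group H] (ψ : H →* G), Hyper ψ.ker →
  ψ.range ≤ V → ∀ (C : Type (max u v w)) [Category.{v} C] [Preadditive C]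
    [HasBinaryBiproducts C] [HasZeroObject C] (σ : Act H C), Sw σ → SwF (𝓕.comap ψ) σ → KZ σ

theorem hyper_comp {H L : Type w} [Group H] [Group L] {i : L →* H} {j : H →* G} (a : Hyper i.ker)
    (b : Hyper j.ker) : Hyper (j.comp i).ker :=
  Hyper.ext' i (a.le inf_le_right) (b.le (by
    rintro _ ⟨g, c, rfl⟩
    exact c))

/-- The family of these subgroups. -/
def rel : Fam G where
  m := Rel.{w, v, u} 𝓕
  le := fun e h H _ ψ a b => h H ψ a (b.trans e)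
  conj := fun {V} g h H _ ψ a b C _ _ _ _ σ hs hf =>
    h H ((MulAut.conj g⁻¹).toMonoidHom.comp ψ) (hyper_comp a (hyper_ker (MulEquiv.injective _)))
      (by
        rintro _ ⟨x, rfl⟩
        obtain ⟨y, c, d⟩ := b ⟨x, rfl⟩
        simpa [← d, mul_assoc] using c) C σ hs fun U c => hf U (𝓕.le (by
          rintro _ ⟨x, d, rfl⟩
          exact ⟨_, ⟨x, d, rfl⟩, by simp [mul_assoc]⟩) (𝓕.conj g c))

variable {𝓕}

theorem rel_mem {V : Subgroup G} (h : 𝓕.m V) : Rel.{w, v, u} 𝓕 V :=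
  fun _ _ _ _ b _ _ _ _ _ _ _ hf => kz_swd ((hf ⊤ (𝓕.le (by
    rintro _ ⟨x, -, rfl⟩
    exact b ⟨x, rfl⟩) h)).mono fun _ _ => trivial)

theorem rel_lh {V : Subgroup G} (h : LocHyper V) : Rel.{w, v, u} 𝓕 V :=
  fun H _ ψ a b _ _ _ _ _ _ hs _ => kz_lh hs
    (LH.inj (Subgroup.topEquiv (G := H)).symm.toMonoidHom (MulEquiv.injective _)
      (LocHyper.pull a (ψ.range_eq_map.ge.trans b) h))

theorem swF_comp {H L : Type w} [Group H] [Group L] {θ : H →* G} {C : Type u} [Category.{v} C]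
    [Preadditive C] {σ : Act H C} (h : SwF (𝓕.comap θ) σ) (i : L →* H) :
    SwF (𝓕.comap (θ.comp i)) (σ.comap i) :=
  fun U a => h.comap i U (𝓕.le (Subgroup.map_map ..).le a)

theorem okf_rel {H : Type w} [Group H] {ψ : H →* G} (a : Hyper ψ.ker) {C : Type (max u v w)}
    [Category.{v} C] [Preadditive C] [HasBinaryBiproducts C] [HasZeroObject C] {σ : Act H C}
    (hs : Sw σ) (hf : SwF (𝓕.comap ψ) σ) : Okf.{w, v, u} ((rel.{w, v, u} 𝓕).comap ψ) σ :=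
  ⟨{ k := fun {Γ} _ _ _ _ _ _ 𝓖 σ => Sw σ ∧ ∃ θ : Γ →* G, Hyper θ.ker ∧ SwF (𝓕.comap θ) σ ∧
       ∀ V, 𝓖.m V → Rel.{w, v, u} 𝓕 (V.map θ)
     sub := fun ⟨k, θ, b, c, d⟩ _ _ j e => ⟨k.comap j, θ.comp j, hyper_comp (hyper_ker e) b,
       swF_comp c j, fun _ f => (rel.{w, v, u} 𝓕).le (Subgroup.map_map ..).ge (d _ f)⟩
     fst := fun ⟨k, θ, b, c, d⟩ => ⟨k.comap _, θ.comp _, hyper_comp hyper_fst b,
       swF_comp c _, fun _ f => (rel.{w, v, u} 𝓕).le (Subgroup.map_map ..).ge (d _ f)⟩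
     act := fun ⟨k, θ, b, c, d⟩ _ _ _ _ hm => ⟨k.act hm, θ, b, c.act hm, d⟩
     kz := fun ⟨k, θ, b, c, d⟩ e => d _ e _ θ b θ.range_eq_map.le _ _ k c },
    hs, ψ, a, hf, fun _ => id⟩

theorem tm_pull {H : Type w} [Group H] {j : H →* G} (hj : Hyper j.ker) {D : Subgroup G}
    (h : 𝓕.Tm D) : ∀ E : Subgroup H, E.map j ≤ D → (𝓕.comap j).Tm E := by
  induction h with
  | intro D _ ih =>
    refine fun E k => ⟨_, fun E₁ ⟨t, o, a, b⟩ => ih (E₁.map j) ⟨j t, fun c => o (c.pull hj k),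
      fun c => a (𝓕.le ?_ c), ?_⟩ _ le_rfl⟩
    · rw [Subgroup.map_sup, MonoidHom.map_zpowers]
      exact sup_le_sup_right k _
    · rintro _ ⟨x, hx, rfl⟩
      obtain ⟨p, q⟩ := mem_cj.1 (b hx)
      exact mem_cj.2 ⟨k ⟨x, p, rfl⟩, k ⟨_, q, by simp⟩⟩

theorem tm_mono {𝓖 : Fam G} (e : ∀ V, 𝓕.m V → 𝓖.m V) {D : Subgroup G} (h : 𝓕.Tm D) : 𝓖.Tm D :=
  Subrelation.accessible (fun ⟨t, a, b, c⟩ => ⟨t, a, fun d => b (e _ d), c⟩) h

theorem tm_conj {D E : Subgroup G} (h : 𝓕.Tm D) (g : G) (k : ∀ x ∈ E, g⁻¹ * x * g ∈ D) :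
    𝓕.Tm E := by
  refine tm_mono (𝓕 := 𝓕.comap (MulAut.conj g⁻¹).toMonoidHom) (fun V d => 𝓕.le ?_ (𝓕.conj g d))
    (tm_pull (hyper_ker (MulEquiv.injective _)) h E ?_)
  · exact fun x e => ⟨_, ⟨x, e, rfl⟩, by simp [mul_assoc]⟩
  · rintro _ ⟨x, e, rfl⟩
    simpa using k x e

theorem rel_lat {L : Type w} [Group L] {j : L →* G} (hj : Function.Injective j) {X : Type w}
    [Lattice X] [Nonempty X] [MulAction L X] (B : Bg.Bl X) [B.Ac L]
    (hX : ∀ x : X, ((rel.{w, v, u} 𝓕).comap j).Tm (stabilizer L x)) :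
    Rel.{w, v, u} 𝓕 j.range := by
  intro H _ ψ a b C _ _ _ _ σ hs hf
  obtain ⟨φ, rfl⟩ : ∃ φ : H →* L, j.comp φ = ψ :=
    ⟨(MonoidHom.ofInjective hj).symm.toMonoidHom.comp (ψ.codRestrict _ fun x => b ⟨x, rfl⟩),
      MonoidHom.ext fun x => MonoidHom.apply_ofInjective_symm hj _⟩
  let _ : MulAction H X := MulAction.compHom X φ
  have : B.Ac H := ⟨fun g => Bg.Bl.Ac.hm B (φ g), fun g => Bg.Bl.Ac.hπ (φ g),
    fun g => Bg.Bl.Ac.hc (φ g)⟩
  refine Bg.kz_lat2.{w, v, u} (okf_rel a hs hf) hs B fun x => tm_mono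
    (𝓕 := ((rel.{w, v, u} 𝓕).comap j).comap φ)
    (fun V c => (rel.{w, v, u} 𝓕).le (Subgroup.map_map ..).ge c)
    (tm_pull (a.le fun g c => (congrArg j c).trans (map_one j)) (hX x) _ ?_)
  rintro _ ⟨g, c, rfl⟩
  exact c

theorem rel_kz (h : ∀ H : Subgroup G, H.FG → Rel.{w, v, u} 𝓕 H) {C : Type u} [Category.{v} C]
    [Preadditive C] [HasBinaryBiproducts C] [HasZeroObject C] {σ : Act G C} (hs : Sw σ)
    (hf : SwF 𝓕 σ) : KZ σ :=
  kz_loc (Y := PUnit.{w + 1}) (hm := fun _ _ _ _ => le_rfl) ⟨⟩ (fun _ => le_rfl)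
    (kz_fg fun H a => h H a H H.subtype (hyper_ker H.subtype_injective) H.range_subtype.le _ _
      ((hs.act _).comap _) ((hf.act _).comap _))

end Pool.Agent.Lib.MP_5d3e93_al.At
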