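import Pool.Agent.Lib.MP_5d3e93_al.At.Qc
import Pool.Agent.Lib.MP_5d3e93_al.At.Rel

/-! Vanishing for groups that map to finitely many systems of large type. -/

open MulAction Function
open scoped Pointwise

namespace Pool.Agent.Lib.MP_5d3e93_al.At

universe v u

variable {G : Type v} [Group G]

theorem mem_cs {K : Subgroup G} {g x : G} : x ∈ MulAut.conj g • K ↔ g⁻¹ * x * g ∈ K := by
  simp [Subgroup.mem_pointwise_smul_iff_inv_smul_mem]

theorem BlA.and {𝒮 𝒯 : Set (Set G)} (a : BlA G 𝒮) (b : BlA G 𝒯) :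
    BlA G {r | ∃ s ∈ 𝒮, ∃ t ∈ 𝒯, r = s ∩ t} := by
  refine (blA_pi (𝒮 := fun i => cond i 𝒮 𝒯) fun i => by cases i <;> assumption).mono ?_
  rintro _ ⟨s, c, rfl⟩
  exact ⟨_, ⟨_, c true, _, c false, rfl⟩, Set.subset_inter (Set.iInter_subset ..)
    (Set.iInter_subset ..)⟩

theorem pr_mono {V : Type v} {P : V → Subgroup G} {T U : Set V} (e : T ⊆ U) {x : G}
    (h : x ∈ ⨆ b ∈ T, P b) : x ∈ ⨆ b ∈ U, P b := (biSup_mono (f := P) e :) h

theorem ex_fin {V : Type v} {P : V → Subgroup G} (h : ⨆ a, P a = ⊤) (x : G) :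
    ∃ T : Set V, T.Finite ∧ x ∈ ⨆ b ∈ T, P b :=
  Subgroup.iSup_induction P (C := fun x => ∃ T : Set V, T.Finite ∧ x ∈ ⨆ b ∈ T, P b)
    (h ▸ Subgroup.mem_top x) (fun a x b => ⟨{a}, Set.finite_singleton a, by simpa⟩)
    ⟨∅, Set.finite_empty, one_mem _⟩ fun _ _ ⟨T, a, b⟩ ⟨U, c, d⟩ => ⟨T ∪ U, a.union c,
      mul_mem (pr_mono Set.subset_union_left b) (pr_mono Set.subset_union_right d)⟩

variable {ι : Type} {V L : ι → Type v} [∀ j, Group (L j)] (φ : ∀ j, G →* L j)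
  (P : ∀ j, V j → Subgroup (L j))

/-- Intersections of preimages of conjugates of parabolic subgroups. -/
def Hs (g : ∀ j, L j) (J : ∀ j, Set (V j)) : Subgroup G :=
  ⨅ j, (MulAut.conj (g j) • ⨆ b ∈ J j, P j b).comap (φ j)

variable {φ P} {E : ∀ j, V j → V j → Prop} {g : ∀ j, L j} {J : ∀ j, Set (V j)} {x : G}

theorem mem_hs : x ∈ Hs φ P g J ↔ ∀ j, (g j)⁻¹ * φ j x * g j ∈ ⨆ b ∈ J j, P j b := by
  simp only [Hs, Subgroup.mem_iInf, Subgroup.mem_comap, mem_cs]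

open Classical in
theorem mem_up {j : ι} {k : L j} {T : Set (V j)} (a : x ∈ Hs φ P g J)
    (b : k⁻¹ * φ j x * k ∈ ⨆ b ∈ T, P j b) : x ∈ Hs φ P (update g j k) (update J j T) :=
  mem_hs.2 fun i => by
    obtain rfl | c := eq_or_ne i j
    · rwa [update_self, update_self]
    · rw [update_of_ne c, update_of_ne c]
      exact mem_hs.1 a i

open Classical in
theorem up_lt {j : ι} {T : Set (V j)} (a : T.ncard < (J j).ncard) :
    (fun i => (update J j T i).ncard) < fun i => (J i).ncard :=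
  Pi.lt_def.2 ⟨fun i => by
    obtain rfl | c := eq_or_ne i j
    · simpa using a.le
    · simp [update_of_ne c], j, by simpa⟩

/-- Sets inside an edge. -/
def Sm (E : ∀ j, V j → V j → Prop) (j : ι) (T : Set (V j)) : Prop := ∃ a b, E j a b ∧ T ⊆ {a, b}

variable (h : ∀ j, Large (P j) (E j))
include h

theorem hs_bl [Finite ι] (f : ∀ j, (J j).Finite) (n : ∀ j, (J j).Nonempty) :
    BlA (Hs φ P g J) {t | ∃ (k : ∀ j, L j) (U : ∀ j, Set (V j)), (∀ j, k j ∈ ⨆ b ∈ J j, P j b ∧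
      U j ⊆ J j ∧ (U j).Nonempty ∧ (Sm E j (J j) ∨ U j ≠ J j)) ∧
        ∀ x ∈ t, x.1 ∈ Hs φ P (g * k) U} := by
  refine (blA_pi (𝒮 := fun j => {t | ∃ (k : L j) (U : Set (V j)), (k ∈ ⨆ b ∈ J j, P j b ∧
      U ⊆ J j ∧ U.Nonempty ∧ (Sm E j (J j) ∨ U ≠ J j)) ∧
        ∀ x ∈ t, (g j * k)⁻¹ * φ j x.1 * (g j * k) ∈ ⨆ b ∈ U, P j b}) fun j => ?_).mono ?_
  · by_cases s : Sm E j (J j)
    · refine blA_one.mono ?_
      rintro _ rfl
      exact ⟨_, ⟨1, J j, ⟨one_mem _, le_rfl, n j, .inl s⟩,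
        fun x _ => by simpa using mem_hs.1 x.2 j⟩, le_rfl⟩
    have t : (J j).Nontrivial := by
      obtain ⟨a, b⟩ := n j
      by_contra c
      exact s ⟨a, a, (h j).2.1 a, fun y z => .inl (Set.not_nontrivial_iff.1 c z b)⟩
    refine (((h j).bl (f j) t s).comap (((MulAut.conj (g j)⁻¹).toMonoidHom.comp
      ((φ j).comp (Hs φ P g J).subtype)).codRestrict _ fun x => by simpa using mem_hs.1 x.2 j)).mono ?_
    rintro _ ⟨_, ⟨a, b, k, c, rfl⟩, rfl⟩
    refine ⟨_, ⟨k, J j \ {a}, ⟨c, Set.sdiff_subset, ?_, .inr fun e => (e.ge b).2 rfl⟩,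
      fun x d => by simpa [mul_assoc] using d⟩, le_rfl⟩
    obtain ⟨y, z, w⟩ := t.exists_ne a
    exact ⟨y, z, w⟩
  · rintro _ ⟨s, a, rfl⟩
    choose k U b c using a
    exact ⟨_, ⟨k, U, b, fun x d => mem_hs.2 fun j => c j x (Set.mem_iInter.1 d j)⟩, le_rfl⟩

theorem hs_rel [Finite ι] {𝓕 : Fam G} {𝒮 : Set (Set G)} (hS : BlA G 𝒮)
    (hT : ∀ s ∈ 𝒮, ∀ g J, (∀ j, Sm E j (J j)) → ∀ D : Subgroup G, (∀ x ∈ D, x ∈ s) →
      D ≤ Hs φ P g J → 𝓕.Tm D)
    (f : ∀ j, (J j).Finite) (n : ∀ j, (J j).Nonempty) : Rel.{v, v, u} 𝓕 (Hs φ P g J) := by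
  classical
  induction e : (fun j => (J j).ncard) using WellFoundedLT.induction generalizing g J with
  | _ m ih =>
  obtain ⟨X, _, _, _, B, _, hX⟩ := (hs_bl (φ := φ) (g := g) h f n).and
    (hS.comap (Hs φ P g J).subtype)
  rw [← (Hs φ P g J).range_subtype]
  refine rel_lat (Hs φ P g J).subtype_injective B fun z => ?_
  obtain ⟨_, ⟨t, ⟨k, U, a, b⟩, _, ⟨s, s1, rfl⟩, rfl⟩, c⟩ := hX z
  replace b : ∀ x ∈ stabilizer (Hs φ P g J) z, x.1 ∈ Hs φ P (g * k) U :=
    fun x d => b x (c x d).1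
  replace c : ∀ x ∈ stabilizer (Hs φ P g J) z, x.1 ∈ s := fun x d => (c x d).2
  generalize stabilizer (Hs φ P g J) z = D at b c
  clear t z hX
  induction e' : (fun j => (U j).ncard) using WellFoundedLT.induction generalizing k U D with
  | _ m' ih' =>
  by_cases o : ∃ j, ¬ Sm E j (J j) ∧ (U j).Nontrivial
  · refine ⟨_, fun D₁ ⟨t, _, ng, le⟩ => ?_⟩
    obtain ⟨j, o1, o2⟩ := o
    obtain ⟨a1, a2, a3, a4⟩ := a j
    obtain ⟨p, p1, p2⟩ := Set.not_subset.1 fun c => a4.resolve_left o1 (a2.antisymm c)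
    have r : U j ⊆ J j \ {p} := fun y z => ⟨a2 z, fun w => p2 (w ▸ z)⟩
    have w : (g j * k j)⁻¹ * φ j t * (g j * k j) ∈ ⨆ b ∈ J j, P j b := by
      simpa [mul_assoc] using mul_mem (mul_mem (inv_mem a1) (mem_hs.1 t.2 j)) a1
    obtain ⟨-, q⟩ | ⟨l, l1, U', u0, u1, u2, q⟩ := (h j).inf (f j) a2 o2 p1 w
    · refine (ng ((rel.{v, v, u} 𝓕).le ?_ (ih _ (e ▸ up_lt (Set.ncard_sdiff_singleton_lt_of_mem p1
        (f j))) (g := update g j (g j * k j)) (J := update J j (J j \ {p})) (fun i => ?_)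
          (fun i => ?_) rfl))).elim
      · refine Subgroup.map_le_iff_le_comap.2 (sup_le (fun x d => ?_) (Subgroup.zpowers_le.2 ?_))
        · exact mem_up x.2 (pr_mono r (mem_hs.1 (b x d) j))
        · exact mem_up t.2 q
      · obtain rfl | c := eq_or_ne i j
        · simpa using (f i).sdiff
        · simpa [update_of_ne c] using f i
      · obtain rfl | c := eq_or_ne i j
        · simpa using a3.mono r
        · simpa [update_of_ne c] using n i
    · refine ih' _ (e' ▸ up_lt u2) (update k j (k j * l)) (update U j U') (fun i => ?_) _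
        (fun x d => ?_) (fun x d => c x (mem_cj.1 (le d)).1) rfl
      · obtain rfl | c := eq_or_ne i j
        · rw [update_self, update_self]
          exact ⟨mul_mem a1 l1, u0, u1,
            .inr fun c => (u2.trans_le (Set.ncard_le_ncard a2 (f i))).ne (congrArg _ c)⟩
        · rw [update_of_ne c, update_of_ne c]
          exact a i
      · obtain ⟨d1, d2⟩ := mem_cj.1 (le d)
        have := q _ (mem_hs.1 (b x d1) j) (pr_mono r (by
          simpa [mul_assoc] using mem_hs.1 (b _ d2) j))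
        rw [show g * update k j (k j * l) = update (g * k) j (g j * (k j * l)) by
          ext i
          obtain rfl | c := eq_or_ne i j <;> simp [*]]
        exact mem_up (b x d1) (by simpa [mul_assoc] using this)
  · refine tm_pull (hyper_ker (Hs φ P g J).subtype_injective) (tm_mono (fun _ => rel_mem)
      (hT s s1 (g * k) U (fun i => ?_) _ ?_ (Subgroup.map_le_iff_le_comap.2 b))) D le_rfl
    · by_cases c : Sm E i (J i)
      · exact c.imp fun _ c => c.imp fun _ c => ⟨c.1, (a i).2.1.trans c.2⟩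
      · exact (a i).2.2.1.elim fun p d => ⟨p, p, (h i).2.1 p, fun _ z =>
          .inl (Set.not_nontrivial_iff.1 (fun w => o ⟨i, c, w⟩) z d)⟩
    · rintro _ ⟨x, d, rfl⟩
      exact c x d

theorem rel_large [Finite ι] [∀ j, Nonempty (V j)] {𝓕 : Fam G} {𝒮 : Set (Set G)} (hS : BlA G 𝒮)
    (hT : ∀ s ∈ 𝒮, ∀ (g : ∀ j, L j) (a b : ∀ j, V j), (∀ j, E j (a j) (b j)) → ∀ D : Subgroup G,
      (∀ x ∈ D, x ∈ s) → (∀ x ∈ D, ∀ j, (g j)⁻¹ * φ j x * g j ∈ P j (a j) ⊔ P j (b j)) → 𝓕.Tm D)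
    (H : Subgroup G) (hH : H.FG) : Rel.{v, v, u} 𝓕 H := by
  obtain ⟨F, rfl⟩ := hH
  choose T t1 t2 using fun j => ex_fin (h j).1
  refine (rel.{v, v, u} 𝓕).le ?_ (hs_rel (φ := φ) h hS (g := 1)
    (J := fun j => insert (Classical.arbitrary _) (⋃ x ∈ F, T j (φ j x))) (fun s a g J b D c d => ?_)
    (fun j => (F.finite_toSet.biUnion fun x _ => t1 j _).insert _) fun j => ⟨_, .inl rfl⟩)
  · rw [Subgroup.closure_le]
    exact fun x d => mem_hs.2 fun j => by
      rw [Pi.one_apply, inv_one, one_mul, mul_one]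
      exact pr_mono (fun y z => .inr (Set.mem_biUnion d z)) (t2 j _)
  · choose x y z w using b
    exact hT s a g x y z D c fun k e j =>
      iSup_pair (f := P j) ▸ pr_mono (w j) (mem_hs.1 (d e) j)

end Pool.Agent.Lib.MP_5d3e93_al.At
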