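import Pool.Agent.Lib.MP_5d3e93_al.At.Dg

/-! The universal group of a chamber system. -/

open Subgroup Relation SemidirectProduct

namespace Pool.Agent.Lib.MP_5d3e93_al.At

universe v

/-- The universal group of the pair groupoid. -/
abbrev Ug (C : Type v) : Type v := PresentedGroup {r : FreeGroup (C × C) |
  ∃ x y z, r = .of (x, y) * .of (y, z) * (FreeGroup.of (x, z))⁻¹}

variable {C : Type v}

/-- The generators. -/
def br (x y : C) : Ug C := PresentedGroup.of (x, y)

theorem br_mul (x y z : C) : br x y * br y z = br x z :=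
  mul_inv_eq_one.1 (PresentedGroup.one_of_mem ⟨x, y, z, rfl⟩)

theorem br_self (x : C) : br x x = 1 := mul_eq_left.1 (br_mul x x x)

theorem br_inv (x y : C) : (br x y)⁻¹ = br y x :=
  inv_eq_of_mul_eq_one_right ((br_mul ..).trans (br_self x))

/-- Homomorphisms from cocycles. -/
def ul {Q : Type*} [Group Q] (f : C → C → Q) (h : ∀ x y z, f x y * f y z = f x z) : Ug C →* Q :=
  PresentedGroup.toGroup (f := fun p => f p.1 p.2) (by
    rintro _ ⟨x, y, z, rfl⟩
    simp [h])

@[simp] theorem ul_br {Q : Type*} [Group Q] {f : C → C → Q} (h) (x y : C) :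
    ul f h (br x y) = f x y := PresentedGroup.toGroup.of _

theorem ug_ext {Q : Type*} [Group Q] {φ ψ : Ug C →* Q} (h : ∀ x y, φ (br x y) = ψ (br x y))
    (u : Ug C) : φ u = ψ u := DFunLike.congr_fun (PresentedGroup.ext fun p => h p.1 p.2) u

/-- The map to a free group. -/
def uk {D : Type v} (k : C → D) : Ug C →* FreeGroup D :=
  ul (fun x y => .of (k x) * (FreeGroup.of (k y))⁻¹) fun _ _ _ => by simp [mul_assoc]

/-- The subgroup of a relation. -/
def Ur (r : C → C → Prop) : Subgroup (Ug C) := closure {u | ∃ x y, r x y ∧ u = br x y}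

/-- Reduced lists of pairs. -/
inductive Rd : List (C × C) → Prop
  | nil : Rd []
  | cons {a b : C} {K : List (C × C)} : a ≠ b → (∀ p ∈ K.head?, b ≠ p.1) → Rd K → Rd ((a, b) :: K)

/-- The value of a list of pairs. -/
def vl (K : List (C × C)) : Ug C := (K.map fun p => br p.1 p.2).prod

theorem vl_cons (a b : C) (K) : vl ((a, b) :: K) = br a b * vl K := rfl

theorem Rd.inj {a b c d : C} {K M} (h : Rd ((a, b) :: K)) (k : Rd ((c, d) :: M))
    (e : vl ((a, b) :: K) = vl ((c, d) :: M)) : a = c ∧ b = d := by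
  classical
  let fl (K : List (C × C)) := K.flatMap fun p => [(p.1, true), (p.2, false)]
  have p (K) : uk id (vl K) = .mk (fl K) := by
    induction K with
    | nil => exact map_one _
    | cons p K ih =>
      rw [vl_cons, map_mul, ih, uk, ul_br]
      rfl
  have q {K : List (C × C)} (h : Rd K) : FreeGroup.IsReduced (fl K) := by
    induction h with
    | nil => exact .nil
    | @cons a b K c d _ ih =>
      refine List.isChain_cons_cons.2 ⟨fun e => (c e).elim, ?_⟩
      obtain _ | ⟨p, K⟩ := K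
      · exact List.isChain_singleton _
      · exact List.isChain_cons_cons.2 ⟨fun e => (d p rfl e).elim, ih⟩
  have := FreeGroup.reduce.sound (((p _).symm.trans (congrArg _ e)).trans (p _))
  rw [(q h).reduce_eq, (q k).reduce_eq] at this
  simpa using And.intro (List.cons.inj this).1 (List.cons.inj (List.cons.inj this).2).1

theorem Rd.pre {a b : C} {K} (h : Rd K) (n : a ≠ b) :
    Rd ((a, b) :: K) ∨ ∃ d M, K = (b, d) :: M := by
  obtain _ | ⟨⟨c, d⟩, K⟩ := K
  · exact .inl (.cons n (by simp) h)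
  obtain rfl | e := eq_or_ne b c
  exacts [.inr ⟨d, K, rfl⟩, .inl (.cons n (by simpa) h)]

theorem ur_nf {r : C → C → Prop} (hr : Equivalence r) {u} (h : u ∈ Ur r) :
    ∃ K, Rd K ∧ (∀ p ∈ K, r p.1 p.2) ∧ vl K = u := by
  have k {a b} (c : r a b) {u} : (∃ K, Rd K ∧ (∀ p ∈ K, r p.1 p.2) ∧ vl K = u) →
      ∃ K, Rd K ∧ (∀ p ∈ K, r p.1 p.2) ∧ vl K = br a b * u := by
    rintro ⟨K, k1, k2, rfl⟩
    obtain rfl | n := eq_or_ne a b
    · exact ⟨K, k1, k2, by rw [br_self, one_mul]⟩
    obtain s | ⟨d, M, rfl⟩ := k1.pre n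
    · exact ⟨_, s, List.forall_mem_cons.2 ⟨c, k2⟩, rfl⟩
    obtain ⟨k3, k4⟩ := List.forall_mem_cons.1 k2
    rw [vl_cons, ← mul_assoc, br_mul]
    obtain - | ⟨-, s, t⟩ := k1
    obtain rfl | m := eq_or_ne a d
    · exact ⟨M, t, k4, by rw [br_self, one_mul]⟩
    · exact ⟨_, .cons m s t, List.forall_mem_cons.2 ⟨hr.trans c k3, k4⟩, rfl⟩
  induction h using closure_induction_left with
  | one => exact ⟨[], .nil, by simp, rfl⟩
  | mul_left x a _ _ ih =>
    obtain ⟨_, _, c, rfl⟩ := a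
    exact k c ih
  | inv_mul_cancel x a _ _ ih =>
    obtain ⟨_, _, c, rfl⟩ := a
    rw [br_inv]
    exact k (hr.symm c) ih

theorem ur_hd {r s : C → C → Prop} (hr : Equivalence r) (hs : Equivalence s)
    (h : ∀ x y, r x y → s x y → x = y) {u w} (a : u ∈ Ur r) (b : w ∈ Ur s) (n : u ≠ 1) :
    ∃ a b d M, Rd ((a, d) :: M) ∧ vl ((a, d) :: M) = u * w ∧ r a b ∧ a ≠ b ∧ s b d := by
  obtain ⟨K, k1, k2, rfl⟩ := ur_nf hr a
  obtain ⟨N, n1, n2, rfl⟩ := ur_nf hs b
  have key : ∀ p ∈ K.head?, ∃ b d M, Rd ((p.1, d) :: M) ∧ vl ((p.1, d) :: M) = vl K * vl N ∧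
      r p.1 b ∧ p.1 ≠ b ∧ s b d := by
    clear n a
    induction k1 with
    | nil => simp
    | @cons a c K e f g ih =>
      rintro _ ⟨⟩
      obtain ⟨k3, k4⟩ := List.forall_mem_cons.1 k2
      obtain _ | ⟨p, K⟩ := K
      · obtain t | ⟨d, M, rfl⟩ := n1.pre e
        · exact ⟨c, c, N, t, by simp [vl], k3, e, hs.refl c⟩
        obtain - | ⟨-, t, o⟩ := n1
        have := n2 _ List.mem_cons_self
        exact ⟨c, d, M, .cons (fun z : a = d => e (h _ _ k3 (hs.symm (by rwa [z])))) t o,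
          by simp [vl, ← mul_assoc, br_mul], k3, e, this⟩
      · obtain ⟨-, d, M, t, o, -⟩ := ih k4 p rfl
        exact ⟨c, c, _, .cons e (by simpa using f p rfl) t, by
          rw [vl_cons, o, vl_cons a c, mul_assoc], k3, e, hs.refl c⟩
  obtain _ | ⟨p, K⟩ := K
  exacts [(n rfl).elim, ⟨_, key p rfl⟩]

theorem ur_girth {r s : C → C → Prop} (hr : Equivalence r) (hs : Equivalence s)
    (h : ∀ x y, r x y → s x y → x = y)
    (k : ∀ a b c d, r a b → s b d → s a c → r c d → a = b ∨ b = d) {u w w' u'} (a : u ∈ Ur r)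
    (b : w ∈ Ur s) (c : w' ∈ Ur s) (d : u' ∈ Ur r) (e : u * w = w' * u') : u = 1 ∨ w' = 1 := by
  by_contra! n
  obtain ⟨x, y, z, M, p1, p2, p3, p4, p5⟩ := ur_hd hr hs h a b n.1
  obtain ⟨x', y', z', M', q1, q2, q3, q4, q5⟩ := ur_hd hs hr (fun x y a b => h x y b a) c d n.2
  obtain ⟨rfl, rfl⟩ := p1.inj q1 (p2.trans (e.trans q2.symm))
  obtain rfl := (k _ _ _ _ p3 p5 q3 q5).resolve_left p4
  exact q4 (h _ _ (hr.trans p3 (hr.symm q5)) q3)

theorem fg_fix {D : Type v} {z : FreeGroup D} (n : z ≠ 1) :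
    ∃ d, ∀ f : D → D, Function.Injective f → FreeGroup.map f z = z → f d = d := by
  classical
  have a := FreeGroup.isReduced_toWord (x := z)
  have b := FreeGroup.mk_toWord (x := z)
  generalize z.toWord = K at a b
  subst b
  obtain _ | ⟨p, K⟩ := K
  · exact (n rfl).elim
  refine ⟨p.1, fun f c e => ?_⟩
  have := FreeGroup.reduce.sound (FreeGroup.map.mk.symm.trans e)
  have b : FreeGroup.IsReduced ((p :: K).map fun x => (f x.1, x.2)) :=
    (List.isChain_map _).2 (List.IsChain.imp (fun _ _ s t => s (c t)) a)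
  rw [a.reduce_eq, b.reduce_eq] at this
  exact congrArg Prod.fst (List.cons.inj this).1

variable {G : Type v} [Group G] [MulAction G C]

/-- The action of one element. -/
def uo (g : G) : Ug C →* Ug C := ul (fun x y => br (g • x) (g • y)) fun _ _ _ => br_mul ..

/-- The action on the universal group. -/
def ua (G C : Type v) [Group G] [MulAction G C] : G →* MulAut (Ug C) where
  toFun g := (uo g).toMulEquiv (uo g⁻¹) (MonoidHom.ext (ug_ext fun x y => by simp [uo]))
    (MonoidHom.ext (ug_ext fun x y => by simp [uo]))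
  map_one' := MulEquiv.ext (ug_ext (φ := uo 1) (ψ := .id _) fun x y => by simp [uo])
  map_mul' a b := MulEquiv.ext (ug_ext (φ := uo (a * b)) (ψ := (uo a).comp (uo b))
    fun x y => by simp [uo, mul_smul])

@[simp] theorem ua_br (g : G) (x y : C) : ua G C g (br x y) = br (g • x) (g • y) :=
  show uo g _ = _ from ul_br ..

/-- The subgroup over an invariant subgroup. -/
def Qs (N : Subgroup (Ug C)) (h : ∀ (g : G), ∀ u ∈ N, ua G C g u ∈ N) :
    Subgroup (Ug C ⋊[ua G C] G) where
  carrier := {l | l.left ∈ N}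
  one_mem' := one_mem N
  mul_mem' a b := mul_mem a (h _ _ b)
  inv_mem' a := h _ _ (inv_mem a)

theorem ur_inv {r : C → C → Prop} (h : ∀ (g : G) x y, r x y → r (g • x) (g • y)) (g : G) :
    ∀ u ∈ Ur r, ua G C g u ∈ Ur r := fun _ a =>
  (show Ur r ≤ (Ur r).comap (ua G C g).toMonoidHom from (closure_le _).2 (by
    rintro _ ⟨x, y, c, rfl⟩
    exact Subgroup.subset_closure ⟨_, _, h g x y c, ua_br ..⟩)) a

theorem ex_large {V : Type v} [Nonempty V] [Nonempty C] (ρ : V → C → C → Prop) (E : V → V → Prop)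
    (hE : ∀ s, E s s) (h0 : ∀ s, Equivalence (ρ s))
    (hG : ∀ s (g : G) x y, ρ s x y → ρ s (g • x) (g • y))
    (h1 : ∀ x y, EqvGen (fun x y => ∃ s, ρ s x y) x y)
    (h2 : ∀ s t, s ≠ t → ∀ x y, ρ s x y → ρ t x y → x = y)
    (h3 : ∀ s t, s ≠ t → ∀ a b c d, ρ s a b → ρ t b d → ρ t a c → ρ s c d → a = b ∨ b = d)
    (h4 : ∀ (Q : Type v) [Group Q] (f : C → C → Q), (∀ s t, E s t → ∃ F : C → C → Q,
      (∀ x y z, EqvGen (fun x y => ρ s x y ∨ ρ t x y) x y →
        EqvGen (fun x y => ρ s x y ∨ ρ t x y) y z → F x y * F y z = F x z) ∧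
      ∀ x y, ρ s x y ∨ ρ t x y → F x y = f x y) →
      ∃ A : C → Q, ∀ s x y, ρ s x y → A x * f x y = A y) :
    ∃ (L : Type v) (_ : Group L) (φ : G →* L) (P : V → Subgroup L), Large P E ∧
      ∀ (l : L) (s t : V), ∃ x : C, ∀ g : G, l⁻¹ * φ g * l ∈ P s ⊔ P t →
        EqvGen (fun x y => ρ s x y ∨ ρ t x y) x (g • x) := by
  classical
  obtain ⟨o⟩ := ‹Nonempty C›
  obtain ⟨s₀⟩ := ‹Nonempty V›
  let P (s : V) := Qs (G := G) (Ur (ρ s)) (ur_inv (hG s))
  have pb {s x y} (a : ρ s x y) : inl (br x y) ∈ P s := Subgroup.subset_closure ⟨x, y, a, rfl⟩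
  have pr (s) (g : G) : inr g ∈ P s := one_mem (Ur (ρ s))
  have pl {s} {u} (a : u ∈ Ur (ρ s)) : inl u ∈ P s := a
  have ge {r : C → C → Prop} {N : Subgroup (Ug C)} (a : ∀ x y, r x y → br x y ∈ N) {x y}
      (b : EqvGen r x y) : br x y ∈ N := by
    induction b with
    | rel x y b => exact a x y b
    | refl x => exact br_self x ▸ one_mem _
    | symm x y _ b => exact br_inv x y ▸ inv_mem b
    | trans x y z _ _ b c => exact br_mul x y z ▸ mul_mem b c
  have tp {N : Subgroup (Ug C)} (a : ∀ s x y, ρ s x y → br x y ∈ N) (u) : u ∈ N :=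
    PresentedGroup.generated_by _ N (fun p => ge (fun x y b => b.elim fun s => a s x y)
      (h1 p.1 p.2)) u
  refine ⟨Ug C ⋊[ua G C] G, inferInstance,
    { toFun := fun g => ⟨br o (g • o), g⟩
      map_one' := SemidirectProduct.ext (by simp [br_self]) rfl
      map_mul' := fun a b => SemidirectProduct.ext (by simp [br_mul, mul_smul]) rfl }, P,
    ⟨eq_top_iff.2 fun l _ => ?_, hE, fun a b c n l d => ?_, fun a b n x p y q x' p' y' q' e => ?_,
      fun Q _ f k => ?_⟩, fun l s t => ?_⟩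
  · rw [← inl_left_mul_inr_right l]
    exact mul_mem (tp (N := (⨆ s, P s).comap inl) (fun s x y a => mem_iSup_of_mem s (pb a)) _)
      (mem_iSup_of_mem s₀ (pr _ _))
  · have := ur_girth (h0 a) (h0 b) (h2 a b n) (h3 a b n) d.1 (one_mem _) d.2 (one_mem _) rfl
    exact show l.left ∈ Ur (ρ c) from or_self_iff.1 this ▸ one_mem _
  · replace e : x * y = y'⁻¹ * x'⁻¹ := by
      rw [← mul_inv_rev, eq_inv_iff_mul_eq_one, ← mul_assoc, e]
    obtain c | c := ur_girth (h0 a) (h0 b) (h2 a b n) (h3 a b n) p (ur_inv (hG b) x.right _ q)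
      (show y'⁻¹ ∈ P b from inv_mem q') (ur_inv (hG a) y'⁻¹.right _
        (show x'⁻¹ ∈ P a from inv_mem p')) (congrArg left e)
    · exact .inl (show x.left ∈ Ur (ρ b) from c ▸ one_mem _)
    · have : y'⁻¹ ∈ P a := show y'⁻¹.left ∈ Ur (ρ a) from c ▸ one_mem _
      exact .inr (eq_inv_mul_of_mul_eq e ▸ mul_mem (inv_mem p) (mul_mem this (inv_mem p')))
  · choose ψ hψ using k
    obtain ⟨A, hA⟩ := h4 Q (fun x y => f (inl (br x y))) fun s t e => by
      have m {x y} (a : EqvGen (fun x y => ρ s x y ∨ ρ t x y) x y) : inl (br x y) ∈ P s ⊔ P t :=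
        ge (N := (P s ⊔ P t).comap inl)
          (fun _ _ b => b.elim (mem_sup_left <| pb ·) (mem_sup_right <| pb ·)) a
      refine ⟨fun x y => if a : inl (br x y) ∈ P s ⊔ P t then ψ s t e ⟨_, a⟩ else 1,
        fun x y z a b => ?_, fun x y a => ?_⟩
      · simp only [dif_pos (m a), dif_pos (m b), dif_pos (m (a.trans _ _ _ b)), ← map_mul]
        exact congrArg _ (Subtype.ext ((map_mul ..).symm.trans (congrArg _ (br_mul ..))))
      · simp only [dif_pos (m (.rel _ _ a))]
        exact hψ s t e _ (a.imp pb pb)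
    have fm {s x y} (a : x ∈ P s) (b : y ∈ P s) : f (x * y) = f x * f y := by
      have := map_mul (ψ s s (hE s)) ⟨x, mem_sup_left a⟩ ⟨y, mem_sup_left b⟩
      rwa [hψ _ _ _ _ (.inl (mul_mem a b)), hψ _ _ _ _ (.inl a), hψ _ _ _ _ (.inl b)] at this
    let α : Ug C →* Q := ul (fun x y => (A x)⁻¹ * A y) fun _ _ _ => by simp [mul_assoc]
    let β : G →* Q := .mk' (fun g => f (inr g)) fun a b => by rw [map_mul, fm (pr s₀ a) (pr s₀ b)]
    have αf {s u} (a : u ∈ Ur (ρ s)) : α u = f (inl u) := by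
      induction a using closure_induction_left with
      | one => rw [map_one, map_one, eq_comm, ← mul_eq_left (a := f 1),
          ← fm (one_mem (P s)) (one_mem _), one_mul]
      | mul_left x a u b ih =>
        obtain ⟨x, y, c, rfl⟩ := a
        rw [map_mul, map_mul, fm (pb c) (pl b), ih, ul_br, ← hA s x y c, inv_mul_cancel_left]
      | inv_mul_cancel x a u b ih =>
        obtain ⟨x, y, c, rfl⟩ := a
        replace c := (h0 s).symm c
        rw [br_inv, map_mul, map_mul, fm (pb c) (pl b), ih, ul_br, ← hA s y x c,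
          inv_mul_cancel_left]
    refine ⟨SemidirectProduct.lift α β fun g => MonoidHom.ext (tp (N := MonoidHom.eqLocus _ _)
      fun s x y a => ?_), fun s l a => ?_⟩
    · change α (ua G C g (br x y)) = β g * α (br x y) * (β g)⁻¹
      rw [αf (ur_inv (hG s) g (br x y) (pb a)), αf (u := br x y) (pb a), inl_aut,
        fm (mul_mem (pr s g) (pb a)) (pr s _), fm (pr s g) (pb a), ← map_inv]
      rfl
    · rw [← inl_left_mul_inr_right l, fm (pl a) (pr s _), map_mul, lift_inl, lift_inr, αf a]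
      rfl
  · let r x y := ρ s x y ∨ ρ t x y
    let m (g : G) : Quot r → Quot r :=
      Quot.map (g • ·) fun _ _ a => a.imp (hG s g _ _) (hG t g _ _)
    have km (g : G) (u) : uk (Quot.mk r) (ua G C g u) = FreeGroup.map (m g) (uk (Quot.mk r) u) :=
      ug_ext (φ := (uk _).comp (ua G C g).toMonoidHom) (ψ := (FreeGroup.map _).comp (uk _))
        (fun x y => by simp [uk, m, Quot.map]) u
    have ks {c} (a : ∀ x y, ρ c x y → r x y) : P c ≤ Qs (G := G) (uk (Quot.mk r)).ker
        fun g u b => by rw [MonoidHom.mem_ker, km, b, map_one] := fun l b =>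
      (show Ur (ρ c) ≤ (uk (Quot.mk r)).ker from (closure_le _).2 (by
        rintro _ ⟨x, y, d, rfl⟩
        simp [uk, Quot.sound (a x y d)])) b
    obtain ⟨⟨x⟩, d⟩ := fg_fix (z := (FreeGroup.of (Quot.mk r o))⁻¹ * uk (Quot.mk r) l.left) (by
      intro e
      let σ : FreeGroup (Quot r) →* Multiplicative ℤ := FreeGroup.lift fun _ => .ofAdd 1
      have := ug_ext (φ := σ.comp (uk (Quot.mk r))) (ψ := 1) (fun x y => by simp [σ, uk]) l.left
      rw [MonoidHom.comp_apply, ← inv_mul_eq_one.1 e] at this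
      simp [σ] at this)
    refine ⟨x, fun g a => (Quot.eqvGen_exact (d (m g) (Function.LeftInverse.injective
      (g := m g⁻¹) (by rintro ⟨y⟩; simp [m, Quot.map])) ?_)).symm _ _⟩
    have b := MonoidHom.mem_ker.1 (sup_le (ks fun _ _ => .inl) (ks fun _ _ => .inr) a)
    generalize e : l⁻¹ * _ * l = n at b
    rw [mul_assoc, inv_mul_eq_iff_eq_mul] at e
    replace e : br o (g • o) * ua G C g l.left = l.left * ua G C l.right n.left := congrArg left e
    replace e := congrArg (uk (Quot.mk r)) e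
    rw [map_mul, map_mul, km, km, b, map_one, mul_one, uk, ul_br, mul_assoc] at e
    rw [map_mul, map_inv, FreeGroup.map.of, eq_inv_mul_iff_mul_eq]
    exact e

end Pool.Agent.Lib.MP_5d3e93_al.At
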