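import Pool.Agent.Lib.MP_5d3e93_al.At.Bd
import Pool.Agent.Lib.MP_5d3e93_al.At.Un
import Pool.Agent.Lib.MP_5d3e93_al.At.Ml

/-! Vanishing for groups that act on products of buildings of large type. -/

open Subgroup Relation MulAction CategoryTheory Limits
open scoped Pointwise

namespace Pool.Agent.Lib.MP_5d3e93_al.At

universe v u

variable {G : Type v} [Group G]

theorem Bld.large {S W : Type} [Group W] {M : CoxeterMatrix S} {cs : CoxeterSystem M W}
    {C : Type v} [MulAction G C] [Nonempty S] [Nonempty C] {δ : C → C → W} (h : Bld cs δ)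
    (hM : ∀ s t, M s t ≠ 2) (hG : ∀ (g : G) x y, δ (g • x) (g • y) = δ x y) :
    ∃ (L : Type v) (_ : Group L) (φ : G →* L) (P : ULift.{v} S → Subgroup L),
      Large P (fun s t => M s.down t.down ≠ 0) ∧ ∀ (l : L) s t, ∃ x : C, ∀ g : G,
        l⁻¹ * φ g * l ∈ P s ⊔ P t →
          g ∈ stabilizer G {y | δ x y ∈ closure (cs.simple '' {s.down, t.down})} := by
  let ρ (s : ULift.{v} S) x y := δ x y ∈ closure (cs.simple '' {s.down})
  have r0 (T) (x) : δ x x ∈ closure (cs.simple '' T) := (h.d1 x x).2 rfl ▸ one_mem _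
  have h0 (s) : Equivalence (ρ s) := ⟨r0 _, h.rsymm, h.rtrans⟩
  have r1 {s x y} (a : δ x y = cs.simple s) : ρ ⟨s⟩ x y := mem_one.2 (.inr a)
  have h2 (s t) (n : s ≠ t) (x y) (a : ρ s x y) (b : ρ t x y) : x = y := by
    refine (h.d1 x y).1 ((mem_one.1 a).elim id fun a => (mem_one.1 b).elim id fun b => ?_)
    exact (simple_ne (cs := cs) (ULift.down_injective.ne n) (by
      rw [← a, ← b, mul_eq_one_iff_eq_inv, ← h.inv, h.symm a, a])).elim
  have eq {s t x y} : EqvGen (fun x y => ρ s x y ∨ ρ t x y) x y ↔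
      δ x y ∈ closure (cs.simple '' {s.down, t.down}) := by
    refine ⟨fun a => ?_, h.rind (P := fun x => EqvGen _ x y) (.refl _) ?_⟩
    · induction a with
      | rel x y a =>
        obtain a | a := a <;> refine Subgroup.closure_mono (Set.image_mono ?_) a <;> simp
      | refl x => exact r0 _ x
      | symm x y _ a => exact h.rsymm a
      | trans x y z _ _ a b => exact h.rtrans a b
    · rintro x z _ (rfl | rfl) a - b
      exacts [.trans _ _ _ (.rel _ _ (.inl (r1 a))) b, .trans _ _ _ (.rel _ _ (.inr (r1 a))) b]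
  refine (ex_large (G := G) ρ (fun s t => M s.down t.down ≠ 0) (by simp) h0
    (fun s g x y a => by simpa only [ρ, hG] using a)
    (fun x y => h.rind (T := .univ) (P := fun x => EqvGen _ x y) (.refl _)
      (fun x z i _ a _ b => .trans _ _ _ (.rel _ _ ⟨_, r1 a⟩) b) ((inP_iff cs).1 (inP_univ _))) h2
    (fun s t n a b c d p q p' q' => ?_) fun Q _ f k => ?_).imp fun L ⟨_, φ, P, a, b⟩ =>
      ⟨_, φ, P, a, fun l s t => (b l s t).imp fun x c g d => ?_⟩
  · have m := ULift.down_injective.ne n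
    refine (mem_one.1 p).elim (fun e => .inl ((h.d1 ..).1 e)) fun e =>
      (mem_one.1 q).elim (fun e => .inr ((h.d1 ..).1 e)) fun e' => ?_
    obtain z | z := h.d2 b d a _ e
    · rw [e'] at z
      obtain w | w := mem_one.1 p'
      · obtain rfl := (h.d1 ..).1 w
        exact ((mem_one.1 q').elim (simple_ne m <| z.symm.trans ·)
          (simple_ns _ _ _ <| z.symm.trans ·)).elim
      · obtain o | o := h.d2 c d a _ w <;> obtain o' | o' := mem_one.1 q' <;> rw [z, o'] at o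
        · exact (simple_ns _ _ _ (o.trans (mul_one _))).elim
        · exact (simple_nc m (hM _ _) o).elim
        · exact (simple_ne m o).elim
        · exact (simple_ns _ _ _ o).elim
    · exact .inl (h2 s t n a b p ((h0 t).trans (r1 (z.trans e')) ((h0 t).symm q)))
  · obtain ⟨A, a⟩ := h.cocycle f fun s t e => (k ⟨s⟩ ⟨t⟩ e).imp fun F b =>
      ⟨fun x y z c d => b.1 x y z (eq.2 c) (eq.2 d), fun x y c => b.2 x y (c.imp r1 r1)⟩
    refine ⟨A, fun s x y b => (mem_one.1 b).elim (fun c => ?_) (a x y _)⟩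
    obtain rfl := (h.d1 ..).1 c
    obtain ⟨F, p, q⟩ := k s s (by simp)
    rw [← q x x (.inl b), mul_eq_left.1 (p x x x (.refl _) (.refl _)), mul_one]
  · replace c := eq.1 (c g d)
    ext y
    rw [Set.mem_smul_set_iff_inv_smul_mem, Set.mem_ofPred, ← hG g, smul_inv_smul]
    exact ⟨h.rtrans c, h.rtrans (h.rsymm c)⟩

theorem tm_of {𝓕 : Fam G} {D : Subgroup G} (d : Acc (fun D₁ D : Subgroup G => ∃ t : G,
    ¬ LocHyper D ∧ ¬ 𝓕.m (D ⊔ zpowers t) ∧ D₁ = D ⊓ MulAut.conj t • D) D) : ∀ E ≤ D, 𝓕.Tm E := by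
  induction d with
  | intro D _ ih =>
    exact fun E k => ⟨_, fun E₁ ⟨t, o, r, s⟩ => ih _ ⟨t, fun c => o (Cl.le (s := LH) k c),
      fun c => r (𝓕.le (sup_le_sup_right k _) c), cj_eq D t⟩ _ fun x hx =>
        mem_cj.2 ⟨k (mem_cj.1 (s hx)).1, k (mem_cj.1 (s hx)).2⟩⟩

theorem kz_bld {𝓕 : Fam G} {X : Type v} [Lattice X] [Nonempty X] [MulAction G X] (B : Bg.Bl X)
    (hB : B.Ac G) {ι : Type} [Finite ι] {S W : ι → Type} [∀ j, Group (W j)] [∀ j, Nonempty (S j)]
    {M : ∀ j, CoxeterMatrix (S j)} {cs : ∀ j, CoxeterSystem (M j) (W j)} {C : ι → Type v}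
    [∀ j, Nonempty (C j)] [∀ j, MulAction G (C j)] {δ : ∀ j, C j → C j → W j}
    (h : ∀ j, Bld (cs j) (δ j)) (hM : ∀ j s t, M j s t ≠ 2)
    (hG : ∀ j (g : G) x y, δ j (g • x) (g • y) = δ j x y)
    (hA : ∀ (x : X) (z : ∀ j, C j) (s t : ∀ j, S j), (∀ j, M j (s j) (t j) ≠ 0) →
      𝓕.Tm (stabilizer G x ⊓
        ⨅ j, stabilizer G {y | δ j (z j) y ∈ closure ((cs j).simple '' {s j, t j})}))
    {D : Type u} [Category.{v} D] [Preadditive D] [HasBinaryBiproducts D] [HasZeroObject D]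
    {σ : Act G D} (hs : Sw σ) (hf : SwF 𝓕 σ) : KZ σ := by
  choose L _ φ P a b using fun j => (h j).large (hM j) (hG j)
  choose z b using b
  refine rel_kz (rel_large (φ := φ) a (𝒮 := .range fun x : X => stabilizer G x)
    ⟨X, _, ‹_›, _, B, hB, fun x => ⟨_, ⟨x, rfl⟩, fun _ => id⟩⟩ ?_) hs hf
  rintro _ ⟨x, rfl⟩ g s t e E p q
  exact tm_conj (hA x (fun j => z j (g j) (s j) (t j)) _ _ e) 1 fun k c => by
    simpa using And.intro (p k c) fun j => b j _ _ _ k (q k c j)

end Pool.Agent.Lib.MP_5d3e93_al.At
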