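import Mathlib

/-! Chamber systems of large type. -/

namespace Pool.Agent.Lib.MP_5d3e93_al.At

universe v

/-- A connected chamber system over `S` whose residues of rank two have girth at least six and
which is simply connected with respect to its residues of type `{s, t}` with `E s t`. -/
def Chs {S : Type} {C : Type v} (ρ : S → C → C → Prop) (E : S → S → Prop) : Prop :=
  (∀ s, E s s) ∧ (∀ s, Equivalence (ρ s)) ∧
  (∀ x y, Relation.EqvGen (fun x y => ∃ s, ρ s x y) x y) ∧
  (∀ s t, s ≠ t → ∀ x y, ρ s x y → ρ t x y → x = y) ∧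
  (∀ s t, s ≠ t → ∀ a b c d, ρ s a b → ρ t b c → ρ s c d → ρ t d a → a = b ∨ b = c) ∧
  ∀ (Q : Type v) [Group Q] (f : C → C → Q),
    (∀ s t, E s t → ∃ A : C → Q, ∀ x y, ρ s x y ∨ ρ t x y → A x * f x y = A y) →
      ∃ A : C → Q, ∀ s x y, ρ s x y → A x * f x y = A y

end Pool.Agent.Lib.MP_5d3e93_al.At
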