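import Pool.Agent.Lib.MP_5d3e93_al.At.Bu
import Pool.Agent.Lib.MP_5d3e93_al.At.Dc

/-! Vanishing for groups that act on products of chamber systems of large type. -/

open Subgroup Relation MulAction CategoryTheory Limits
open scoped Pointwise

namespace Pool.Agent.Lib.MP_5d3e93_al.At

universe v u

variable {G : Type v} [Group G]

theorem Chs.large {S : Type} {C : Type v} [MulAction G C] [Nonempty S] [Nonempty C]
    {ρ : S → C → C → Prop} {E : S → S → Prop} (h : Chs ρ E)
    (hG : ∀ s (g : G) x y, ρ s x y → ρ s (g • x) (g • y)) :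
    ∃ (L : Type v) (_ : Group L) (φ : G →* L) (P : ULift.{v} S → Subgroup L),
      Large P (fun s t => E s.down t.down) ∧ ∀ (l : L) s t, ∃ x : C, ∀ g : G,
        l⁻¹ * φ g * l ∈ P s ⊔ P t →
          g ∈ stabilizer G {y | EqvGen (fun x y => ρ s.down x y ∨ ρ t.down x y) x y} := by
  obtain ⟨h1, h2, h3, h4, h5, h6⟩ := h
  refine (ex_large (G := G) (fun s : ULift.{v} S => ρ s.down) (fun s t => E s.down t.down)
    (fun _ => h1 _) (fun _ => h2 _) (fun _ => hG _)
    (fun x y => (h3 x y).mono fun _ _ ⟨s, a⟩ => ⟨⟨s⟩, a⟩)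
    (fun _ _ n => h4 _ _ (ULift.down_injective.ne n))
    (fun s t n a b c d p q p' q' => h5 _ _ (ULift.down_injective.ne n) a b d c p q
      ((h2 _).symm q') ((h2 _).symm p')) fun Q _ f k => ?_).imp fun L ⟨_, φ, P, a, b⟩ =>
        ⟨_, φ, P, a, fun l s t => (b l s t).imp fun x c g d => ?_⟩
  · refine (h6 Q f fun s t e => ?_).imp fun A a s => a s.down
    obtain ⟨F, a, b⟩ := k ⟨s⟩ ⟨t⟩ e
    let r x y := ρ s x y ∨ ρ t x y
    refine ⟨fun x => F (Quot.mk r x).out x, fun x y c => ?_⟩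
    rw [← b x y c, a _ x y (Quot.eqvGen_exact (Quot.out_eq _)) (.rel _ _ c)]
    exact congrArg (fun z : Quot r => F z.out y) (Quot.sound c)
  · have m (g : G) {x y} (a : EqvGen (fun x y => ρ s.down x y ∨ ρ t.down x y) x y) :
        EqvGen (fun x y => ρ s.down x y ∨ ρ t.down x y) (g • x) (g • y) := by
      induction a with
      | rel x y a => exact .rel _ _ (a.imp (hG _ g x y) (hG _ g x y))
      | refl x => exact .refl _
      | symm x y _ a => exact a.symm _ _
      | trans x y z _ _ a b => exact a.trans _ _ _ b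
    ext y
    rw [Set.mem_smul_set_iff_inv_smul_mem]
    exact ⟨fun e => (c g d).trans _ _ _ (by simpa using m g e),
      fun e => by simpa using m g⁻¹ (((c g d).symm _ _).trans _ _ _ e)⟩

theorem Bld.chs {S W : Type} [Group W] {M : CoxeterMatrix S} {cs : CoxeterSystem M W}
    {C : Type v} {δ : C → C → W} (h : Bld cs δ) (hM : ∀ s t, M s t ≠ 2) :
    Chs (fun s x y => δ x y = 1 ∨ δ x y = cs.simple s) fun s t => M s t ≠ 0 := by
  simp only [← mem_one]
  have r1 {s x y} (a : δ x y = cs.simple s) : δ x y ∈ closure (cs.simple '' {s}) :=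
    mem_one.2 (.inr a)
  have h2 (s t) (n : s ≠ t) (x y) (a : δ x y ∈ closure (cs.simple '' {s}))
      (b : δ x y ∈ closure (cs.simple '' {t})) : x = y := by
    refine (h.d1 x y).1 ((mem_one.1 a).elim id fun a => (mem_one.1 b).elim id fun b => ?_)
    exact (simple_ne (cs := cs) n (by
      rw [← a, ← b, mul_eq_one_iff_eq_inv, ← h.inv, h.symm a, a])).elim
  refine ⟨by simp, fun s => ⟨fun x => mem_one.2 (.inl ((h.d1 x x).2 rfl)), h.rsymm, h.rtrans⟩,
    fun x y => h.rind (T := .univ) (P := fun x => EqvGen _ x y) (.refl _)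
      (fun x z i _ a _ b => .trans _ _ _ (.rel _ _ ⟨_, r1 a⟩) b) ((inP_iff cs).1 (inP_univ _)), h2,
    fun s t m a b d c p q q' p' => ?_, fun Q _ f k => ?_⟩
  · replace p' := h.rsymm p'
    replace q' := h.rsymm q'
    refine (mem_one.1 p).elim (fun e => .inl ((h.d1 ..).1 e)) fun e =>
      (mem_one.1 q).elim (fun e => .inr ((h.d1 ..).1 e)) fun e' => ?_
    obtain z | z := h.d2 b d a _ e
    · rw [e'] at z
      obtain w | w := mem_one.1 p'
      · obtain rfl := (h.d1 ..).1 w
        exact ((mem_one.1 q').elim (simple_ne m <| z.symm.trans ·)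
          (simple_ns _ _ _ <| z.symm.trans ·)).elim
      · obtain o | o := h.d2 c d a _ w <;> obtain o' | o' := mem_one.1 q' <;> rw [z, o'] at o
        · exact (simple_ns _ _ _ (o.trans (mul_one _))).elim
        · exact (simple_nc m (hM _ _) o).elim
        · exact (simple_ne m o).elim
        · exact (simple_ns _ _ _ o).elim
    · exact .inl (h2 s t m a b p (h.rtrans (r1 (z.trans e')) (h.rsymm q)))
  · obtain ⟨A, a⟩ := h.cocycle f fun s t e => (k s t e).elim fun A b =>
      ⟨fun x y => (A x)⁻¹ * A y, fun x y z _ _ => by simp [mul_assoc],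
        fun x y c => inv_mul_eq_of_eq_mul (b x y (c.imp r1 r1)).symm⟩
    refine ⟨A, fun s x y b => (mem_one.1 b).elim (fun c => ?_) (a x y _)⟩
    obtain rfl := (h.d1 ..).1 c
    obtain ⟨F, p⟩ := k s s (by simp)
    rw [mul_eq_left.1 (p x x (.inl b)), mul_one]

theorem kz_chs {𝓕 : Fam G} {X : Type v} [Lattice X] [Nonempty X] [MulAction G X] (B : Bg.Bl X)
    (hB : B.Ac G) {ι : Type} [Finite ι] {S : ι → Type} {C : ι → Type v} [∀ j, Nonempty (S j)]
    [∀ j, Nonempty (C j)] [∀ j, MulAction G (C j)] {ρ : ∀ j, S j → C j → C j → Prop}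
    {E : ∀ j, S j → S j → Prop} (h : ∀ j, Chs (ρ j) (E j))
    (hG : ∀ j s (g : G) x y, ρ j s x y → ρ j s (g • x) (g • y))
    (hA : ∀ (x : X) (z : ∀ j, C j) (s t : ∀ j, S j), (∀ j, E j (s j) (t j)) →
      𝓕.Tm (stabilizer G x ⊓
        ⨅ j, stabilizer G {y | EqvGen (fun x y => ρ j (s j) x y ∨ ρ j (t j) x y) (z j) y}))
    {D : Type u} [Category.{v} D] [Preadditive D] [HasBinaryBiproducts D] [HasZeroObject D]
    {σ : Act G D} (hs : Sw σ) (hf : SwF 𝓕 σ) : KZ σ := by
  choose L _ φ P a b using fun j => (h j).large (hG j)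
  choose z b using b
  refine rel_kz (rel_large (φ := φ) a (𝒮 := .range fun x : X => stabilizer G x)
    ⟨X, _, ‹_›, _, B, hB, fun x => ⟨_, ⟨x, rfl⟩, fun _ => id⟩⟩ ?_) hs hf
  rintro _ ⟨x, rfl⟩ g s t e E p q
  exact tm_conj (hA x (fun j => z j (g j) (s j) (t j)) _ _ e) 1 fun k c => by
    simpa using And.intro (p k c) fun j => b j _ _ _ k (q k c j)

end Pool.Agent.Lib.MP_5d3e93_al.At
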