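import Pool.Agent.Lib.MP_5d3e93_al.At.Ind

/-! Intersections of parabolic subgroups. -/

namespace Pool.Agent.Lib.MP_5d3e93_al.At

universe v

variable {S V : Type v} {c : S → V} {R : Set (FreeGroup S)}

theorem inj_three {a b d : V} (h1 : a ≠ b) (h2 : a ≠ d) (h3 : b ≠ d) {T : Set V} (ha : a ∈ T)
    (hb : b ∈ T) (hd : d ∈ T) : ∃ x : ZMod 3 → V, Function.Injective x ∧ (∀ i, x i ∈ T) ∧
      x 0 = a ∧ x 1 = b ∧ x 2 = d := by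
  refine ⟨(![a, b, d] : Fin 3 → V), fun i j => ?_, fun i => ?_, rfl, rfl, rfl⟩
  · fin_cases i <;> fin_cases j <;> intro e <;>
      first | rfl | exact (h1 e).elim | exact (h2 e).elim | exact (h3 e).elim |
        exact (h1 e.symm).elim | exact (h2 e.symm).elim | exact (h3 e.symm).elim
  · fin_cases i
    exacts [ha, hb, hd]

theorem Pd.inf (h : Pd c R) {G : Type v} [Group G] {q : FreeGroup S →* G} {T U : Set V}
    (hT : T.Finite) (o : Ok c R q T) (e : U ⊆ T) (hU : U.Nontrivial) {a : V} (ha : a ∈ T) {t : G}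
    (ht : t ∈ (Sp c T).map q) : (a ∉ U ∧ t ∈ (Sp c (T \ {a})).map q) ∨
      ∃ g ∈ (Sp c T).map q, ∃ U' ⊆ T, U'.ncard < U.ncard ∧ ∀ x ∈ (Sp c U).map q,
        t⁻¹ * x * t ∈ (Sp c (T \ {a})).map q → g⁻¹ * x * g ∈ (Sp c U').map q := by
  induction hn : T.ncard using Nat.strong_induction_on generalizing T a t with | _ n ih => ?_
  by_cases k : T ⊆ U
  · obtain rfl := e.antisymm k
    exact .inr ⟨t, ht, _, Set.sdiff_subset, Set.ncard_sdiff_singleton_lt_of_mem ha hT, fun _ _ => id⟩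
  obtain ⟨x, x1, x2, x3, x4, i, rfl⟩ : ∃ x : ZMod 3 → V, Function.Injective x ∧ (∀ i, x i ∈ T) ∧
      x 0 ∉ U ∧ (∀ i, i ≠ 0 → x i ∈ U) ∧ ∃ i, x i = a := by
    have z : ∀ i : ZMod 3, i ≠ 0 → i = 1 ∨ i = 2 := by decide
    by_cases l : a ∈ U
    · obtain ⟨y, y1, y2⟩ := Set.not_subset.1 k
      obtain ⟨b, b1, b2⟩ := hU.exists_ne a
      obtain ⟨x, c1, c2, rfl, rfl, rfl⟩ := inj_three (fun r : y = a => y2 (r ▸ l))
        (fun r : y = b => y2 (r ▸ b1)) b2.symm y1 ha (e b1)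
      exact ⟨x, c1, c2, y2, fun i hi => (z i hi).elim (· ▸ l) (· ▸ b1), 1, rfl⟩
    · obtain ⟨b, b1, d, d1, b2⟩ := hU
      obtain ⟨x, c1, c2, rfl, rfl, rfl⟩ := inj_three (fun r : a = b => l (r ▸ b1))
        (fun r : a = d => l (r ▸ d1)) b2 ha (e b1) (e d1)
      exact ⟨x, c1, c2, l, fun i hi => (z i hi).elim (· ▸ b1) (· ▸ d1), 0, rfl⟩
  obtain ⟨𝒯, t1, t2, t3⟩ := h.tri hT x x1 x2
  obtain ⟨j, j1, j2, j3⟩ := o.emb
  have tr {W : Set V} (w : W ⊆ T) (y) :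
      j y ∈ (Sp c W).map q ↔ y ∈ (Sp c W).map (pj c R T) :=
    ⟨fun ⟨k, a, b⟩ => ⟨k, a, j1 ((j2 k (sp_mono w a)).trans b)⟩,
      fun ⟨k, a, b⟩ => ⟨k, a, b ▸ (j2 k (sp_mono w a)).symm⟩⟩
  have hQ (i) : 𝒯.Q i = (Sp c (T \ {x i})).map (pj c R T) := by rw [Tri.Q, t1, t3]
  have e' : U ⊆ T \ {x 0} := fun y hy => ⟨e hy, fun r => x3 (r ▸ hy)⟩
  obtain ⟨t, rfl⟩ : t ∈ j.range := j3 ▸ ht
  rcases 𝒯.m5 t 0 i with ⟨rfl, m⟩ | ⟨g, g1, i', i1, m⟩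
  · exact .inl ⟨x3, (tr Set.sdiff_subset _).2 (hQ 0 ▸ m)⟩
  rcases ih _ (hn ▸ Set.ncard_sdiff_singleton_lt_of_mem (x2 0) hT) (hT.subset Set.sdiff_subset)
    (h.sub hT o Set.sdiff_subset) e' (e' (x4 i' i1)) ((tr Set.sdiff_subset g).2 (hQ 0 ▸ g1)) rfl with
    ⟨r, -⟩ | ⟨g', r1, U', r2, r3, r4⟩
  · exact (r (x4 i' i1)).elim
  refine .inr ⟨g', Subgroup.map_mono (sp_mono Set.sdiff_subset) r1, U', r2.trans Set.sdiff_subset, r3,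
    fun y y1 y2 => r4 y y1 ?_⟩
  obtain ⟨y, rfl⟩ : y ∈ j.range := j3 ▸ Subgroup.map_mono (sp_mono e) y1
  have y3 : y ∈ 𝒯.Q 0 := hQ 0 ▸ Subgroup.map_mono (sp_mono e') ((tr e y).1 y1)
  rw [← map_inv, ← map_mul, ← map_mul] at y2 ⊢
  have y4 := m y y3 (hQ i ▸ (tr Set.sdiff_subset _).1 y2)
  have y5 : g⁻¹ * y * g ∈ 𝒯.Q 0 := mul_mem (mul_mem (inv_mem g1) y3) g1
  rw [tr (Set.sdiff_subset.trans Set.sdiff_subset)]
  rcases (by decide : ∀ i : ZMod 3, i ≠ 0 → i = 1 ∨ i = 2) i' i1 with rfl | rfl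
  · have := 𝒯.m2 0 ⟨y5, y4⟩
    rwa [t2, t3] at this
  · have := 𝒯.m2 2 ⟨y4, y5⟩
    rwa [t2, t3, Set.sdiff_sdiff_comm] at this

theorem Pd.bl (h : Pd c R) {T : Set V} (hT : T.Finite) (h3 : 3 ≤ T.ncard) :
    ∃ (X : Type v) (_ : Lattice X) (_ : Nonempty X) (_ : MulAction (PresentedGroup (Rs c R T)) X)
      (B : Bg.Bl X), B.Ac (PresentedGroup (Rs c R T)) ∧ ∀ z : X, ∃ a ∈ T, ∃ g,
        ∀ k : PresentedGroup (Rs c R T), k • z = z →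
          g⁻¹ * k * g ∈ (Sp c (T \ {a})).map (pj c R T) := by
  obtain ⟨a, b, d, ha, hb, hd, h1, h2, h4⟩ := (Set.two_lt_ncard_iff hT).1 h3
  obtain ⟨x, x1, x2, -⟩ := inj_three h1 h2 h4 ha hb hd
  obtain ⟨𝒯, t1, -, t3⟩ := h.tri hT x x1 x2
  obtain ⟨X, _, _, _, B, b1, b2⟩ := 𝒯.m6
  refine ⟨X, _, ‹_›, _, B, b1, fun z => ?_⟩
  obtain ⟨i, g, k⟩ := b2 z
  refine ⟨x i, x2 i, g, fun y r => ?_⟩
  have := k y r
  rwa [Tri.Q, t1, t3] at this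

end Pool.Agent.Lib.MP_5d3e93_al.At
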