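import Pool.Agent.Lib.MP_5d3e93_al.Br.TE

/-! The Farrell-Jones property is invariant under isomorphisms. -/

open CategoryTheory Limits Function MulAction

namespace Pool.Agent.Lib.MP_5d3e93_al.At

open As Br Gr Am A2

universe v u v' u'

/-- Bijectivity passes along two comparisons. -/
theorem bij_tr {K : (Dl ⥤ Tp.{v, max 1 u}) ⥤ Pre.{max u v}} (h : KT K)
    (τ : KR.{v, max u v} ⟶ wh AM.{v, u} ⋙ K) (hτ : ∀ D n, Bijective (Pre.map n (τ.app D)))
    {J : Type u'} [Category.{v'} J] {X X' : Dl ⥤ J} (α : X ⟶ X')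
    {E : J ⥤ AC.{v, max u v}} {D D' F F' : As.SA.{v, max u v}} {φ : D ⟶ D'} {ψ : F ⟶ F'}
    {P : X ⋙ E ⟶ D} {P' : X' ⋙ E ⟶ D'} {Q : X ⋙ E ⟶ F} {Q' : X' ⋙ E ⟶ F'} (a : Good P)
    (a' : Good P') (b : Good Q) (b' : Good Q') (e : Functor.whiskerRight α E ≫ P' = P ≫ φ)
    (e' : Functor.whiskerRight α E ≫ Q' = Q ≫ ψ) (c : ∀ n, Bij φ n) (n : ℤ) : Bij ψ n := by
  have z := zs_of_bij.{v, u} h τ hτ α a a' e c
  exact bij_of_tw h am_z.{v, u} am_o.{v, u} τ hτ
    (T := fj E) (F := 𝟭 _) (E := wA.{v, u}) rfl (α := α) (g := tzH Q) (g' := tzH Q')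
    (fun k => ⟨tz_a e' k, tz_step (E := E ⋙ sk k) cone (tz_a e' k)⟩)
    (fun k n => (tz_good b k).bij.{_, v, u} h n) (fun k n => (tz_good b' k).bij.{_, v, u} h n)
    (h := ((fj_fo E).ok (h.pre X))) (k := ((fj_fo E).ok (h.pre X'))) z n

variable {G L : Type v} [Group G] [Group L]

/-- Restriction of the action as a functor. -/
def grF (j : G →* L) : GS L ⥤ GS G where
  obj := gres j
  map f := ⟨f.f, fun g => f.eqv (j g)⟩

section
variable (f : G ≃* L) {A : AC.{v, u}} (ρ : Act L A.C) (T : GS L)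

/-- The comparison functor of an isomorphism. -/
noncomputable def eqF : As.St (A := A) (ρ.comap f.toMonoidHom) (gres f.toMonoidHom T) ⥤
    As.St (A := A) ρ T where
  obj x := ⟨⟨x.A.as⟩, x.t⟩
  map a := ⟨Tw.push f.toMonoidHom a.f, fun g k => by
    obtain ⟨g, rfl⟩ := f.surjective g
    exact (Tw.co_push (j := f.toMonoidHom) f.injective g a.f).trans (a.sp g k)⟩
  map_id x := As.St.Mor.ext (Tw.push_id f.toMonoidHom x.A)
  map_comp a b := As.St.Mor.ext (Tw.push_comp f.toMonoidHom a.f b.f)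

instance : (eqF f ρ T).Additive := ⟨fun {_ _ a b} =>
  As.St.Mor.ext (map_add (Tw.push (ρ := ρ) f.toMonoidHom) a.f b.f)⟩

theorem push_surj {X Y : Tw (ρ.comap f.toMonoidHom)} :
    Surjective (Tw.push f.toMonoidHom : (X ⟶ Y) → _) := fun b => by
  induction b using Tw.ind' with
  | h0 => exact ⟨0, map_zero _⟩
  | h1 c d k l =>
    obtain ⟨c, rfl⟩ := k
    obtain ⟨d, rfl⟩ := l
    exact ⟨c + d, map_add ..⟩
  | h2 g c =>
    obtain ⟨g, rfl⟩ := f.surjective g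
    exact ⟨Tw.sg g c, Tw.push_sg f.toMonoidHom g c⟩

theorem ex_eq : ∃ p : grF f.toMonoidHom ⋙ star (A := A) (ρ.comap f.toMonoidHom) ⟶ star (A := A) ρ,
    ∀ T, Ke (p.app T) := by
  refine ⟨⟨fun T => @AC.Hom.mk (As.St.ob (A := A) (ρ.comap f.toMonoidHom) (gres f.toMonoidHom T))
    (As.St.ob (A := A) ρ T) (eqF f ρ T) (inferInstanceAs (eqF f ρ T).Additive),
    fun T T' s => AC.ext rfl⟩, fun T => ⟨fun x y => ⟨fun a b e => As.St.Mor.ext
      (Tw.co_ext fun g => (Tw.co_push (j := f.toMonoidHom) f.injective g a.f).symm.trans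
        ((congrArg (fun k => Tw.co (f g) k.f) e).trans
          (Tw.co_push (j := f.toMonoidHom) f.injective g b.f))), fun b => ?_⟩,
      fun ⟨⟨y⟩, t⟩ => ⟨⟨⟨y⟩, t⟩, rfl⟩⟩⟩
  obtain ⟨a, e⟩ := push_surj f ρ (X := x.A) (Y := y.A) b.f
  exact ⟨⟨a, fun g k => (Tw.co_push (j := f.toMonoidHom) f.injective g a).symm.trans
    ((congrArg (Tw.co (f g)) e).trans (b.sp (f g) k))⟩, As.St.Mor.ext e⟩

end

theorem fj_equiv {G L : Type v} [Group G] [Group L] (f : G ≃* L) (h : FJ.{v, u} G) :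
    FJ.{v, u} L := by
  intro S hS hI A ρ n
  obtain ⟨p, c⟩ := ex_eq f ρ
  refine bij_tr.{v, max 1 u v} kt_kp.{v, max 1 u v} tau.{v, max u v} tau_bij.{v, max u v}
    (As.pr (As.cech S))
    (E := grF f.toMonoidHom ⋙ star (A := A) (ρ.comap f.toMonoidHom)) (P := 𝟙 _) (P' := 𝟙 _)
    (φ := Functor.whiskerRight (As.pr (As.cech (gres f.toMonoidHom S)))
      (star (A := A) (ρ.comap f.toMonoidHom)))
    (Q := (As.cech S).whiskerLeft p) (Q' := (cpt L).whiskerLeft p)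
    (.eqv _ fun _ => ⟨fun _ _ => bijective_id, fun y => ⟨y, rfl⟩⟩)
    (.eqv _ fun _ => ⟨fun _ _ => bijective_id, fun y => ⟨y, rfl⟩⟩)
    (.eqv _ fun _ => c _) (.eqv _ fun _ => c _) rfl
    (Functor.whiskerLeft_comp_whiskerRight (As.pr (As.cech S)) p).symm
    (h (gres f.toMonoidHom S) (fun H x a => ?_) (fun s => ?_) A _) n
  · exact (vc_equiv (H.equivMapOfInjective f.toMonoidHom f.injective) ⟨x, a⟩).elim fun y b =>
      (hS _ y b).imp fun _ k g c => k (f g) ⟨g, c, rfl⟩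
  · exact vc_equiv (Subgroup.equivMapOfInjective _ f.toMonoidHom f.injective).symm
      (vc_sub (by rintro _ ⟨g, c, rfl⟩; exact c) (hI s))

end Pool.Agent.Lib.MP_5d3e93_al.At
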