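import Pool.Agent.Lib.MP_5d3e93_al.At.Rel
import Pool.Agent.Lib.MP_5d3e93_al.At.Eqv

/-! Systems of parabolic subgroups; almost malnormal subgroups. -/

open CategoryTheory Limits MulAction

namespace Pool.Agent.Lib.MP_5d3e93_al.At

open As

universe w v u

theorem lh_fi {G : Type w} [Group G] {U H : Subgroup G} (h : LocHyper U) (a : Fi U H) :
    LocHyper H := fun K b =>
  have : (U.subgroupOf H).FiniteIndex := ⟨a⟩
  have : Group.FG K := (Group.fg_iff_subgroup_fg _).2 b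
  have c : LocHyper ((U.subgroupOf H).subgroupOf K) := LH.inj
    ((H.subtype.comp (K.subtype.comp (Subgroup.subtype _))).codRestrict U fun x => x.2)
    (fun _ _ e => Subtype.ext (Subtype.ext (Subtype.ext (Subtype.mk.inj e)))) h
  Hyper.fi (U := (U.subgroupOf H).subgroupOf K) ((c ⊤ Group.FG.out).equiv Subgroup.topEquiv)

theorem lh_conj {G : Type w} [Group G] {U H : Subgroup G} (h : LocHyper U) (g : G)
    (a : ∀ x ∈ H, g⁻¹ * x * g ∈ U) : LocHyper H :=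
  LocHyper.pull (i := (MulAut.conj g⁻¹).toMonoidHom) (hyper_ker (MulEquiv.injective _)) (by
    rintro _ ⟨x, e, rfl⟩
    simpa using a x e) h

section
variable {G V : Type w} [Group G] (P : Set V → Subgroup G)

/-- The subgroup of `T` acts on a lattice with stabilisers in smaller subgroups. -/
def PBl (T : Set V) : Prop := ∃ (L : Type w) (_ : Group L) (j : L →* G), Function.Injective j ∧
  j.range = P T ∧ ∃ (X : Type w) (_ : Lattice X) (_ : Nonempty X) (_ : MulAction L X)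
    (B : Bg.Bl X), B.Ac L ∧ ∀ z : X, ∃ U ⊂ T, ∃ g : L, ∀ k : L, k • z = z → j (g⁻¹ * k * g) ∈ P U

/-- Intersections of conjugates lie in smaller subgroups. -/
def PInf (T : Set V) : Prop := ∀ U ⊂ T, LocHyper (P U) ∨ ∀ t ∈ P T,
  (∃ W ⊂ T, U ⊆ W ∧ t ∈ P W) ∨ ∃ g ∈ P T, ∃ U' ⊆ T, U'.ncard < U.ncard ∧
    ∀ x ∈ P U, t⁻¹ * x * t ∈ P U → g⁻¹ * x * g ∈ P U'

variable {P}

theorem rel_par {𝓕 : Fam G} (m : Monotone P)
    (h : ∀ T, T.Finite → Rel.{w, v, u} 𝓕 (P T) ∨ PBl P T ∧ PInf P T) {T : Set V} (hT : T.Finite) :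
    Rel.{w, v, u} 𝓕 (P T) := by
  induction hn : T.ncard using Nat.strong_induction_on generalizing T with | _ n ih => ?_
  obtain a | ⟨⟨L, _, j, j1, j2, X, _, _, _, B, _, b⟩, a⟩ := h T hT
  · exact a
  have k (U) (e : U ⊂ T) : ((rel.{w, v, u} 𝓕).comap j).Tm ((P U).comap j) := by
    induction hk : U.ncard using Nat.strong_induction_on generalizing U with | _ k ik => ?_
    refine ⟨_, fun D ⟨t, c, d, f⟩ => ?_⟩
    obtain l | l := a U e
    · exact (c (l.pull (hyper_ker j1) (Subgroup.map_comap_le _ _))).elim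
    obtain ⟨W, r1, r2, r3⟩ | ⟨g, r1, U', r2, r3, r4⟩ := l (j t) (j2 ▸ ⟨t, rfl⟩)
    · refine (d ((rel.{w, v, u} 𝓕).le ?_
        (ih _ (hn ▸ Set.ncard_lt_ncard r1 hT) (hT.subset r1.le) rfl))).elim
      rw [Subgroup.map_le_iff_le_comap]
      exact sup_le (Subgroup.comap_mono (m r2)) (Subgroup.zpowers_le.2 r3)
    obtain ⟨g, rfl⟩ : g ∈ j.range := j2 ▸ r1
    refine tm_conj (ik _ (hk ▸ r3) U' (r2.ssubset_of_ne fun s => ?_) rfl) g fun x s => ?_
    · exact (s ▸ r3).not_gt (Set.ncard_lt_ncard e hT)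
    · obtain ⟨p, q⟩ := mem_cj.1 (f s)
      simpa using r4 (j x) p (by simpa using q)
  refine j2 ▸ rel_lat j1 B fun z => ?_
  obtain ⟨U, e, g, c⟩ := b z
  exact tm_conj (k U e) g c

theorem rel_fg {𝓕 : Fam G} (m : Monotone P) (c : ∀ g, ∃ T, T.Finite ∧ g ∈ P T)
    (h : ∀ T, T.Finite → Rel.{w, v, u} 𝓕 (P T)) (H : Subgroup G) (a : H.FG) :
    Rel.{w, v, u} 𝓕 H := by
  obtain ⟨s, rfl, b⟩ := (Subgroup.fg_iff _).1 a
  choose T d e using c
  exact (rel.{w, v, u} 𝓕).le ((Subgroup.closure_le _).2 fun g k =>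
    m (Set.subset_biUnion_of_mem k) (e g)) (h _ (b.biUnion fun g _ => d g))

end

/-- The property passes from almost malnormal subgroups to the group, given relative vanishing. -/
theorem fj_mal {G : Type v} [Group G] {𝓛 : Set (Subgroup G)}
    (h₁ : ∀ L ∈ 𝓛, FJ.{v, max 1 u v} L) (h₂ : ∀ L ∈ 𝓛, ∀ t, t ∈ L ∨ LocHyper (cj L t))
    (h : ∀ 𝓕 : Fam G, (∀ L ∈ 𝓛, 𝓕.m L) → ∀ H : Subgroup G, H.FG → Rel.{v, v, max 1 u v} 𝓕 H) :
    FJ.{v, u} G := by
  let Y := Σ L : {L : Subgroup G // LocHyper L ∨ L ∈ 𝓛}, G ⧸ L.1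
  have s (L) (g x : G) : x • (⟨L, (g : G ⧸ L.1)⟩ : Y) = ⟨L, (g : G ⧸ L.1)⟩ ↔ g⁻¹ * x * g ∈ L.1 := by
    rw [Sigma.smul_mk, Sigma.mk.inj_iff, heq_eq_eq, eq_self, true_and, Quotient.smul_coe, eq_comm,
      QuotientGroup.eq, smul_eq_mul, mul_assoc]
  have z (L) (H : Subgroup G) (a : H ≤ L.1) : ∃ y : Y, ∀ g ∈ H, g • y = y :=
    ⟨⟨L, ((1 : G) : G ⧸ L.1)⟩, fun g b => (s L 1 g).2 (by simpa using a b)⟩
  refine Br.fj_of (Y := Y) ?_ ?_ fun D _ _ _ _ σ hs hf =>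
    rel_kz.{v, v, max 1 u v} (h _ fun L a => z ⟨L, .inr a⟩ L le_rfl) hs hf
  · rintro H ⟨L, y⟩ a
    obtain ⟨g, rfl⟩ := QuotientGroup.mk_surjective y
    by_cases b : LocHyper H
    · exact z ⟨H, .inl b⟩ H le_rfl
    have c : Fi (stabilizer G (⟨L, (g : G ⧸ L.1)⟩ : Y)) H := by
      have := a.to_subtype
      have : Finite (H ⧸ stabilizer H (⟨L, (g : G ⧸ L.1)⟩ : Y)) :=
        .of_equiv _ (orbitEquivQuotientStabilizer H _)
      exact (Subgroup.finiteIndex_of_finite_quotient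
        (H := stabilizer H (⟨L, (g : G ⧸ L.1)⟩ : Y))).index_ne_zero
    obtain d | d := L.2
    · exact (b (lh_fi (lh_conj d g fun x => (s L g x).1) c)).elim
    refine ⟨_, fun t e => (s L g t).2 ((h₂ _ d _).resolve_right fun f => b (lh_fi (lh_conj f g
      (H := (H ⊓ (stabilizer G (⟨L, (g : G ⧸ L.1)⟩ : Y)).comap (MulAut.conj t⁻¹).toMonoidHom) ⊓
        stabilizer G (⟨L, (g : G ⧸ L.1)⟩ : Y)) fun x k => mem_cj.2 ⟨(s L g x).1 k.2, ?_⟩)
      ((c.comap ?_).inf c)))⟩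
    · simpa [mul_assoc] using (s L g _).1 k.1.2
    · rintro _ ⟨x, k, rfl⟩
      simpa using mul_mem (mul_mem (inv_mem e) k) e
  · rintro ⟨L, y⟩
    obtain ⟨g, rfl⟩ := QuotientGroup.mk_surjective y
    have e : L.1.map (MulAut.conj g).toMonoidHom = stabilizer G (⟨L, (g : G ⧸ L.1)⟩ : Y) :=
      Subgroup.ext fun x => ⟨fun ⟨y, a, b⟩ => (s L g x).2 (by simpa [← b, mul_assoc] using a),
        fun a => ⟨_, (s L g x).1 a, by simp [mul_assoc]⟩⟩
    refine fj_equiv ((L.1.equivMapOfInjective _ (MulAut.conj g).injective).trans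
      (MulEquiv.subgroupCongr e)) (L.2.elim (fun a => ?_) (h₁ _))
    exact Br.fj_kz.{v, max 1 u v} fun _ _ _ _ _ _ k => kz_lh k a

end Pool.Agent.Lib.MP_5d3e93_al.At
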