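import Pool.Agent.Lib.MP_5d3e93_al.At.CqB
import Pool.Agent.Lib.MP_5d3e93_al.At.Par
import Pool.Agent.Lib.MP_5d3e93_al.At.Inf
import Pool.Agent.Lib.MP_5d3e93_al.At.Dh2
import Pool.Agent.Lib.MP_5d3e93_al.At.ArtA

/-! Artin groups whose cliques are of large type or right-angled. -/

open CoxeterSystem

namespace Pool.Agent.Lib.MP_5d3e93_al.At

open As
open Pool.Agent.Lib.MP_35cce7_an renaming Ar → AG
open Pool.Agent.Lib.MP_35cce7_an (gn par par_mono rels alt ra alt_iff alift alift_gn braid subE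
  sub)

universe v u

variable {B : Type} {M : CoxeterMatrix B}

theorem cq_ra {P : Type} [Group P] (n : ℕ) (a b : P) :
    ra n a b = (alternatingWord b a n).prod := by
  induction n generalizing a b with
  | zero => rfl
  | succ n ih => rw [ra, ih, alternatingWord_succ, List.prod_concat]

theorem cq_rel {P : Type} [Group P] (φ : FreeGroup B →* P) (s t : B) :
    φ (((braidWord M s t).map FreeGroup.of).prod * ((braidWord M t s).map FreeGroup.of).prod⁻¹) =
      1 ↔ alt (M s t) (φ (.of s)) (φ (.of t)) = alt (M s t) (φ (.of t)) (φ (.of s)) := by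
  rw [map_mul, map_inv, art_hom, art_hom, M.symmetric t s, mul_inv_eq_one, alt_iff, cq_ra, cq_ra,
    eq_comm]

theorem cq_braid (i j : B) : alt (M i j) (gn M i) (gn M j) = alt (M i j) (gn M j) (gn M i) := by
  by_cases h : M i j = 0
  · rw [h]
    rfl
  · exact braid h

/-- The two presentations agree. -/
theorem cq_eqv : Nonempty (AG M ≃* PresentedGroup (artR M)) :=
  ⟨MonoidHom.toMulEquiv (alift PresentedGroup.of fun s t _ _ =>
      (cq_rel (PresentedGroup.mk _) s t).1 (PresentedGroup.one_of_mem ⟨s, t, rfl⟩))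
    (PresentedGroup.toGroup (f := gn M) (by
      rintro _ ⟨s, t, rfl⟩
      rw [cq_rel, FreeGroup.lift_apply_of, FreeGroup.lift_apply_of]
      exact cq_braid s t))
    (PresentedGroup.ext fun s => by simp) (PresentedGroup.ext fun s => by simp)⟩

open Classical in
variable (M) in
/-- All labels outside `T` are replaced by infinity. -/
noncomputable def cutM (T : Set B) : CoxeterMatrix B where
  M := Matrix.of fun s t => if (s ∈ T ∧ t ∈ T) ∨ s = t then M s t else 0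
  isSymm := Matrix.IsSymm.ext fun s t => by
    simp only [Matrix.of_apply, M.symmetric t s, and_comm, eq_comm]
  diagonal s := by simp
  off_diagonal s t h := by
    rw [Matrix.of_apply]
    split_ifs
    exacts [M.off_diagonal s t h, zero_ne_one]

theorem cut_in {T : Set B} {s t : B} (a : s ∈ T) (b : t ∈ T) : cutM M T s t = M s t :=
  if_pos (.inl ⟨a, b⟩)

theorem cut_or (T : Set B) (s t : B) :
    (cutM M T s t = M s t ∧ ((s ∈ T ∧ t ∈ T) ∨ s = t)) ∨ cutM M T s t = 0 :=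
  (em _).imp (fun a => ⟨if_pos a, a⟩) fun a => if_neg a

theorem cq_ok (T : Set B) : Ok id (artR (cutM M T)) (PresentedGroup.mk (rels M)) T := by
  refine fun k a => ⟨fun e => ?_, pj_kill ?_ a⟩
  · let ψ : AG (sub M (· ∈ T)) →* _ := alift (fun i => pj id (artR (cutM M T)) T (.of i.1))
      fun i j _ _ => by
        have := (cq_rel _ _ _).1 (pdk_rel (R := artR (cutM M T)) ⟨i.1, j.1, rfl⟩
          (sp_mono (T := T) (by rintro _ (rfl | rfl) <;> simp) (art_sp _ i.1 j.1)))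
        rwa [cut_in i.2 j.2] at this
    obtain ⟨x, p, q⟩ : ∃ x, (subE M (· ∈ T)).hom x = PresentedGroup.mk (rels M) k ∧
        ψ x = pj id (artR (cutM M T)) T k := by
      clear e
      induction a using Subgroup.closure_induction with
      | mem x a =>
        obtain ⟨s, a, rfl⟩ := a
        exact ⟨gn _ ⟨s, a⟩, (subE M (· ∈ T)).hom_gn _, alift_gn ..⟩
      | one => exact ⟨1, by simp, by simp⟩
      | mul x y _ _ p q =>
        obtain ⟨x, p, p'⟩ := p
        obtain ⟨y, q, q'⟩ := q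
        exact ⟨x * y, by simp [p, q], by simp [p', q']⟩
      | inv x _ p =>
        obtain ⟨x, p, p'⟩ := p
        exact ⟨x⁻¹, by simp [p], by simp [p']⟩
    rw [← q, (subE M (· ∈ T)).hom_inj (p.trans (e.trans (map_one _).symm)), map_one]
  · rintro _ ⟨s, t, rfl⟩ -
    rw [cq_rel]
    obtain ⟨e, -⟩ | e := cut_or (M := M) T s t <;> rw [e]
    exacts [cq_braid s t, rfl]

theorem cq_sp (T : Set B) : (Sp id T).map (PresentedGroup.mk (rels M)) = par M T := cq_map T

theorem cq_ab {T : Set B} (h : ∀ s ∈ T, ∀ t ∈ T, s ≠ t → M s t = 2) {D : Subgroup (AG M)}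
    (d : D ≤ par M T) : LocHyper D := by
  have s : ∀ u ∈ D, u ∈ Subgroup.centralizer (Subgroup.centralizer (gn M '' T) : Set (AG M)) :=
    fun u p => Subgroup.closure_le_centralizer_centralizer _ (d p)
  refine (hyper_comm fun x y => Subtype.ext (s _ y.2 _ fun z p => (s _ x.2 z ?_))).loc
  obtain ⟨i, p, rfl⟩ := p
  rintro _ ⟨j, q, rfl⟩
  by_cases e : j = i
  · rw [e]
  · simpa [h j q i p e, alt, List.range_succ] using cq_braid (M := M) j i

theorem cut_ne {T : Set B} (h : ∀ s ∈ T, ∀ t ∈ T, M s t ≠ 2) (s t : B) : cutM M T s t ≠ 2 := by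
  obtain ⟨e, p | rfl⟩ | e := cut_or (M := M) T s t <;> rw [e]
  exacts [h s p.1 t p.2, by simp, by simp]

theorem mal_ab {T : Set B} (h : ∀ s ∈ T, ∀ t ∈ T, s ≠ t → M s t = 2) : Mal M Rig T :=
  fun _ a _ _ b c => (c.1 (cq_ab h (b.trans (par_mono a)))).elim

theorem mal_lg {T : Set B} (hT : T.Finite) (q : Cq M T) (h : ∀ s ∈ T, ∀ t ∈ T, M s t ≠ 2) :
    Mal M Rig T := by
  intro Q q1 _ D d1 d2 s s1 t t1 t2
  obtain k | k := Q.subsingleton_or_nontrivial
  · exact (d2.1 (cq_ab (fun _ a _ b e => (e (k a b)).elim) d1)).elim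
  have := (art_pd (cut_ne h)).inf hT (cq_ok T) q1 k s1 (cq_sp (M := M) T ▸ t1)
  simp only [cq_sp] at this
  obtain a | ⟨g, -, U, u1, u2, u3⟩ := this
  · exact a
  · exact (u2.not_ge (d2.2 U (hT.subset u1) (fun _ a _ b => q _ (u1 a) _ (u1 b))
      ⟨g, fun d p => u3 d (d1 p) (t2 d p)⟩)).elim

theorem cbl_lg {T : Set B} (hT : T.Finite) (q : Cq M T) (h : ∀ s ∈ T, ∀ t ∈ T, M s t ≠ 2)
    (h3 : 3 ≤ T.ncard) : CBl M T := by
  obtain ⟨j, j1, j2, j3⟩ := (cq_ok (M := M) T).emb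
  obtain ⟨X, _, _, _, E, b1, b2⟩ := (art_pd (cut_ne h)).bl hT h3
  refine ⟨_, _, j, j1, j3.trans (cq_sp T), X, _, ‹_›, _, E, b1, fun z => ?_⟩
  obtain ⟨a, p, g, k⟩ := b2 z
  refine ⟨_, ⟨_, Set.sdiff_singleton_ssubset.2 p, fun _ a _ b => q _ a.1 _ b.1, j g, rfl⟩,
    fun x r => ?_⟩
  obtain ⟨y, s, t⟩ := k x r
  rw [Set.mem_ofPred, ← map_inv, ← map_mul, ← map_mul, ← t, j2 y (sp_mono Set.sdiff_subset s),
    ← cq_sp]
  exact ⟨y, s, rfl⟩

theorem rel_two {𝓕 : Fam (AG M)} {a b : B} (e : a ≠ b) (h : M a b ≠ 2) :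
    Rel.{0, v, u} 𝓕 (par M {a, b}) := by
  have hN := cut_ne (M := M) (T := {a, b}) (by
    have h' := (M.symmetric ..).trans_ne h
    rintro _ (rfl | rfl) _ (rfl | rfl) <;> simp [h, h'])
  obtain ⟨j, j1, -, j3⟩ := (cq_ok (M := M) {a, b}).emb
  obtain ⟨X, _, _, _, E, _, k⟩ := dih_bl _ _ (cutM M {a, b} a b) art_gen art_rel
    fun _ _ x y => art_un hN e x y
  exact (j3.trans (cq_sp _)) ▸ rel_lat j1 E fun z => Fam.tm_lh fun _ _ =>
    hyper_comm fun p q => Subtype.ext (Subtype.ext (k z _ _ p.1.2 q.1.2))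

theorem rel_lg {𝓕 : Fam (AG M)} {T : Set B} (hT : T.Finite) (q : Cq M T)
    (h : ∀ s ∈ T, ∀ t ∈ T, M s t ≠ 2) : Rel.{0, v, u} 𝓕 (par M T) ∨ CBl M T := by
  by_cases k : 3 ≤ T.ncard
  · exact .inr (cbl_lg hT q h k)
  by_cases l : T.ncard = 2
  · obtain ⟨a, b, e, rfl⟩ := Set.ncard_eq_two.1 l
    exact .inl (rel_two e (h a (by simp) b (by simp)))
  · exact .inl (rel_lh (cq_ab
      (fun _ a _ b e => (e ((Set.ncard_le_one hT).1 (by omega) _ a _ b)).elim) le_rfl))

/-- Reduction to cliques. -/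
theorem fj_of_cq (hM : ∀ T, T.Finite → Cq M T → Mal M Rig T)
    (hB : ∀ T, T.Finite → Cq M T →
      Rel.{0, 0, max 1 u} (Fam.emp _) (par M T) ∨ CBl M T) :
    FJ.{0, u} (PresentedGroup (artR M)) :=
  cq_eqv.elim fun e => fj_equiv e (Br.fj_kz fun _ _ _ _ _ _ hs =>
    rel_kz.{0, 0, max 1 u} (𝓕 := Fam.emp _)
      (rel_fg (P := par M) (fun _ _ => par_mono) cq_fin fun _ => rel_cq hM hB) hs fun _ f => f.elim)

theorem cq_or (hM : ∀ s t r, r ≠ s → M s t = 2 → M s r ≠ 0 → M t r ≠ 0 → M s r = 2) {T : Set B}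
    (q : Cq M T) : (∀ s ∈ T, ∀ t ∈ T, s ≠ t → M s t = 2) ∨ ∀ s ∈ T, ∀ t ∈ T, M s t ≠ 2 := by
  refine (em _).imp_right fun h a p b r e => h fun s x t y k => ?_
  by_cases l : s = a
  · exact l ▸ hM a b t (l ▸ k.symm) e (q _ p _ y) (q _ r _ y)
  · exact hM s a t k.symm ((M.symmetric ..).trans (hM a b s l e (q _ p _ x) (q _ r _ x)))
      (q _ x _ y) (q _ p _ y)

/-- Artin groups in which every triangle of finite labels has no label two or only labels two. -/
theorem fj_cq {S : Type} (M : CoxeterMatrix S)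
    (hM : ∀ s t r, r ≠ s → M s t = 2 → M s r ≠ 0 → M t r ≠ 0 → M s r = 2) :
    FJ.{0, u} (PresentedGroup {r | ∃ s t, r = ((braidWord M s t).map FreeGroup.of).prod *
      ((braidWord M t s).map FreeGroup.of).prod⁻¹}) :=
  fj_of_cq (fun _ a b => (cq_or hM b).elim mal_ab (mal_lg a b)) fun _ a b =>
    (cq_or hM b).elim (fun c => .inl (rel_lh (cq_ab c le_rfl))) (rel_lg a b)

end Pool.Agent.Lib.MP_5d3e93_al.At
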