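import Pool.Agent.Lib.MP_5d3e93_al.At.St
import Pool.Agent.Lib.MP_5d3e93_al.Bg.Lat

/-! The limit of the free completion is a modular lattice with a shift. -/

namespace Pool.Agent.Lib.MP_5d3e93_al.At

universe w

variable {Γ : Type w} [Group Γ] {p : Γ} {𝒮 : Set (Set Γ)}

section Limit

variable {S : ℕ → Ob Γ p 𝒮} (F : ∀ n, (S n).X →[Γ] (S (n + 1)).X)

/-- Transition maps. -/
def limTr (i j : ℕ) (h : i ≤ j) : (S i).X →[Γ] (S j).X :=
  Nat.leRec (motive := fun j _ => (S i).X →[Γ] (S j).X) (.id Γ) (fun k _ φ => (F k).comp φ) h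

theorem limTr_self (i : ℕ) (x : (S i).X) : limTr F i i le_rfl x = x := by
  rw [limTr, Nat.leRec_self]; rfl

theorem limTr_succ {i j : ℕ} (h : i ≤ j) (x : (S i).X) :
    limTr F i (j + 1) (h.trans j.le_succ) x = F j (limTr F i j h x) := by
  rw [limTr, Nat.leRec_succ _ _ h]; rfl

instance : DirectedSystem (fun n => (S n).X) (limTr F · · ·) where
  map_self := limTr_self F
  map_map k j i hij hjk x := by
    induction k, hjk using Nat.le_induction with
    | base => rw [limTr_self]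
    | succ k hk ih => rw [limTr_succ F hk, ih, limTr_succ]

theorem lim_ob (hF : ∀ n, Mor (F n) ∧ Dn (F n) ∧ Up (F n)) :
    ∃ O : Ob Γ p 𝒮, Dn (O := O) id ∧ Up (O := O) id := by
  have t1 (i j : ℕ) (h : i ≤ j) (x y : (S i).X) : limTr F i j h x ≤ limTr F i j h y ↔ x ≤ y := by
    induction j, h using Nat.le_induction with
    | base => rw [limTr_self, limTr_self]
    | succ k hk ih => rw [limTr_succ F hk, limTr_succ F hk, (hF k).1.le, ih]
  have t2 (i j : ℕ) (h : i ≤ j) (x : (S i).X) : (S i).r x = (S j).r (limTr F i j h x) := by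
    induction j, h using Nat.le_induction with
    | base => rw [limTr_self]
    | succ k hk ih => rw [limTr_succ F hk, (hF k).1.rk, ih]
  let Y := DirectLimit (fun n => (S n).X) (limTr F)
  let mk (n : ℕ) (x : (S n).X) : Y := ⟦⟨n, x⟩⟧
  let r : Y → Y → Prop := DirectLimit.lift₂ (limTr F) (limTr F) (fun _ x y => x ≤ y)
    fun i j h x y => propext (t1 i j h x y).symm
  have hr (n : ℕ) (x y : (S n).X) : r (mk n x) (mk n y) ↔ x ≤ y :=
    (DirectLimit.lift₂_def ..).to_iff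
  let d : Y → ℤ := DirectLimit.lift (limTr F) (fun n => (S n).r) t2
  have hn (n : ℕ) (x : (S n).X) : mk n x = mk (n + 1) (F n x) := by
    have := DirectLimit.mk_apply (f := limTr F) n (n + 1) x n.le_succ
    rw [limTr_succ F le_rfl, limTr_self] at this
    exact this.symm
  have e4 (a b u v : Y) : ∃ n a' b' u' v', a = mk n a' ∧ b = mk n b' ∧ u = mk n u' ∧
      v = mk n v' := by
    obtain ⟨i, a, b, rfl, rfl⟩ := DirectLimit.exists_eq_mk₂ _ a b
    obtain ⟨j, u, v, rfl, rfl⟩ := DirectLimit.exists_eq_mk₂ _ u v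
    exact ⟨max i j, _, _, _, _, DirectLimit.eq_of_le _ _ (le_max_left ..),
      DirectLimit.eq_of_le _ _ (le_max_left ..), DirectLimit.eq_of_le _ _ (le_max_right ..),
      DirectLimit.eq_of_le _ _ (le_max_right ..)⟩
  have e1 (a : Y) : ∃ n a', a = mk n a' := DirectLimit.exists_eq_mk _ a
  have e2 (a b : Y) : ∃ n a' b', a = mk n a' ∧ b = mk n b' := DirectLimit.exists_eq_mk₂ _ a b
  have e3 (a b u : Y) : ∃ n a' b' u', a = mk n a' ∧ b = mk n b' ∧ u = mk n u' :=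
    DirectLimit.exists_eq_mk₃ _ a b u
  let po : Preorder Y :=
    { le := r
      lt := fun a b => r a b ∧ ¬ r b a
      le_refl := fun a => by
        obtain ⟨n, a, rfl⟩ := e1 a
        exact (hr n a a).2 le_rfl
      le_trans := fun a b u h1 h2 => by
        obtain ⟨n, a, b, u, rfl, rfl, rfl⟩ := e3 a b u
        exact (hr ..).2 (((hr ..).1 h1).trans ((hr ..).1 h2)) }
  refine ⟨{ X := Y, po := po, ne := ⟨mk 0 (S 0).ne.some⟩, r := d
            hm := fun g a b h => ?_, rk := fun g a b => ?_, rp := fun a => ?_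
            sm := fun {a b} h => ?_, eq := fun {a b} h k => ?_, gr := fun {a b} m h k l => ?_
            cv := fun {a b} h k => ?_, pl := fun a => ?_, ar := fun a b => ?_
            rz := fun {a b u v} h1 h2 h3 h4 => ?_, st := fun a => ?_ },
    fun x a b a1 b1 a2 b2 => ?_, fun x a b a1 b1 a2 b2 => ?_⟩
  · obtain ⟨n, a, b, rfl, rfl⟩ := e2 a b
    exact (hr ..).2 ((S n).hm g ((hr ..).1 h))
  · obtain ⟨n, a, b, rfl, rfl⟩ := e2 a b
    exact (S n).rk g a b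
  · obtain ⟨n, a, rfl⟩ := e1 a
    exact (S n).rp a
  · obtain ⟨n, a, b, rfl, rfl⟩ := e2 a b
    exact (S n).sm ((hr ..).1 h)
  · obtain ⟨n, a, b, rfl, rfl⟩ := e2 a b
    exact (hr ..).2 ((S n).eq ((hr ..).1 h) k)
  · obtain ⟨n, a, b, rfl, rfl⟩ := e2 a b
    obtain ⟨z, z1, z2, z3⟩ := (S n).gr m ((hr ..).1 h) k l
    exact ⟨mk n z, (hr ..).2 z1, (hr ..).2 z2, z3⟩
  · obtain ⟨n, a, b, rfl, rfl⟩ := e2 a b
    exact (hr n _ a).2 ((S n).cv ((hr ..).1 h) k)
  · obtain ⟨n, a, rfl⟩ := e1 a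
    exact (hr n _ a).2 ((S n).pl a)
  · obtain ⟨n, a, b, rfl, rfl⟩ := e2 a b
    exact ((S n).ar a b).imp fun m k => (hr n _ b).2 k
  · obtain ⟨n, a, b, u, v, rfl, rfl, rfl, rfl⟩ := e4 a b u v
    obtain ⟨z, z1, z2, z3, z4⟩ := (S n).rz ((hr ..).1 h1) ((hr ..).1 h2) ((hr ..).1 h3)
      ((hr ..).1 h4)
    exact ⟨mk n z, (hr ..).2 z1, (hr ..).2 z2, (hr ..).2 z3, (hr ..).2 z4⟩
  · obtain ⟨n, a, rfl⟩ := e1 a
    exact ((S n).st a).imp fun s k => ⟨k.1, fun g u v => k.2 g ((hr n _ a).1 u) ((hr n a _).1 v)⟩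
  · obtain ⟨n, x, a, b, rfl, rfl, rfl⟩ := e3 x a b
    obtain ⟨z, z1, z2, z3⟩ := (hF n).2.1 x a b ((hr ..).1 a1) ((hr ..).1 b1) a2 b2
    exact ⟨mk _ z, (hn n a).symm ▸ (hr ..).2 z1, (hn n b).symm ▸ (hr ..).2 z2, z3⟩
  · obtain ⟨n, x, a, b, rfl, rfl, rfl⟩ := e3 x a b
    obtain ⟨z, z1, z2, z3⟩ := (hF n).2.2 x a b ((hr ..).1 a1) ((hr ..).1 b1) a2 b2
    exact ⟨mk _ z, (hn n a).symm ▸ (hr ..).2 z1, (hn n b).symm ▸ (hr ..).2 z2, z3⟩

end Limit

theorem Ob.glb (O : Ob Γ p 𝒮) (a b : O.X) : ∃ m, ∀ z, z ≤ m ↔ z ≤ a ∧ z ≤ b := by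
  have pw (m : ℕ) (x : O.X) : p ^ m • x ≤ x := by
    induction m with
    | zero => simp
    | succ m ih => rw [pow_succ', mul_smul]; exact (O.pl _).trans ih
  obtain ⟨_, ⟨m, m1, m2, rfl⟩, k⟩ := Int.exists_greatest_of_bdd
    (P := fun n => ∃ z, z ≤ a ∧ z ≤ b ∧ O.r z = n)
    ⟨O.r a, by rintro _ ⟨z, z1, -, rfl⟩; exact O.sm z1⟩
    (by obtain ⟨m, k⟩ := O.ar a b; exact ⟨_, _, pw m a, k, rfl⟩)
  refine ⟨m, fun z => ⟨fun r => ⟨r.trans m1, r.trans m2⟩, fun ⟨z1, z2⟩ => ?_⟩⟩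
  obtain ⟨e, e1, e2, e3, e4⟩ := O.rz m1 m2 z1 z2
  exact e2.trans (O.eq e1 (k _ ⟨e, e3, e4, rfl⟩))

theorem lim_semi {X : Type w} [Lattice X] {c : X → ℤ} (mono : StrictMono c)
    (gr : ∀ {x y} (n : ℤ), x ≤ y → c x ≤ n → n ≤ c y → ∃ z, x ≤ z ∧ z ≤ y ∧ c z = n)
    (k : ∀ v a b, a ≤ v → b ≤ v → c v = c a + 1 → c v = c b + 1 →
      ∃ e, e ≤ a ∧ e ≤ b ∧ c v - 2 ≤ c e) (x y : X) : c x + c y ≤ c (x ⊔ y) + c (x ⊓ y) := by
  have A (n : ℕ) : ∀ x a y : X, a ≤ x → c x = c a + 1 → y ≤ x → c x - c y ≤ n →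
      c y ≤ c (a ⊓ y) + 1 := by
    induction n with
    | zero =>
      intro x a y a1 a2 b1 b2
      obtain rfl := b1.eq_or_lt.resolve_right fun r => by have := mono r; omega
      rw [inf_eq_left.2 a1, a2]
    | succ n ih =>
      intro x a y a1 a2 b1 b2
      rcases b1.eq_or_lt with rfl | r
      · rw [inf_eq_left.2 a1, a2]
      have := mono r
      obtain ⟨z, z1, z2, z3⟩ := gr (c x - 1) b1 (by omega) (by omega)
      obtain ⟨e, e1, e2, e3⟩ := k x a z a1 z2 a2 (by omega)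
      rcases e2.eq_or_lt with rfl | l
      · rw [inf_eq_right.2 (z1.trans e1)]; omega
      have := mono l
      have := ih z e y e2 (by omega) z1 (by omega)
      have := mono.monotone (inf_le_inf_right y e1)
      omega
  have B (u : X) (hu : y ≤ u) (n : ℕ) : ∀ x : X, x ≤ u → c u - c x ≤ n →
      c x + c y ≤ c u + c (x ⊓ y) := by
    induction n with
    | zero =>
      intro x a b
      obtain rfl := a.eq_or_lt.resolve_right fun r => by have := mono r; omega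
      rw [inf_eq_right.2 hu]
    | succ n ih =>
      intro x a b
      rcases a.eq_or_lt with rfl | r
      · rw [inf_eq_right.2 hu]
      have := mono r
      obtain ⟨z, z1, z2, z3⟩ := gr (c x + 1) a (by omega) (by omega)
      have := ih z z2 (by omega)
      have := A _ z x (z ⊓ y) z1 z3 inf_le_left (Int.self_le_toNat _)
      rw [← inf_assoc, inf_eq_left.2 z1] at this
      omega
  exact B _ le_sup_right _ x le_sup_left (Int.self_le_toNat _)

theorem ob_bl (hp : ∀ g, g * p = p * g) (O : Ob Γ p 𝒮) : ∃ (X : Type w) (_ : Lattice X)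
    (_ : Nonempty X) (_ : MulAction Γ X) (B : Bg.Bl X), B.Ac Γ ∧
      ∀ z : X, ∃ s ∈ 𝒮, ∀ g : Γ, g • z = z → g ∈ s := by
  choose T F hF using fun O : Ob Γ p 𝒮 => step2 O hp
  obtain ⟨P, k1, k2⟩ := lim_ob (S := fun n => Nat.rec O (fun _ => T) n)
    (fun n => ⟨F _, (hF _).1.sm⟩) fun n => hF _
  obtain ⟨Q, f, m, s, a⟩ := P.anti
  choose i hi using Q.glb
  choose j hj using (Q.dual (inv_mul_cancel p)).glb
  let L : Lattice Q.X :=
    { Q.po with
      le_antisymm := a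
      inf := i
      sup := j
      inf_le_left := fun a b => ((hi a b _).1 le_rfl).1
      inf_le_right := fun a b => ((hi a b _).1 le_rfl).2
      le_inf := fun a b u h1 h2 => (hi b u a).2 ⟨h1, h2⟩
      le_sup_left := fun a b => ((hj a b _).1 le_rfl).1
      le_sup_right := fun a b => ((hj a b _).1 le_rfl).2
      sup_le := fun a b u h1 h2 => (hj a b u).2 ⟨h1, h2⟩ }
  have mono : StrictMono Q.r := fun x y h =>
    not_le.1 fun k => (lt_iff_le_not_ge.1 h).2 (Q.eq h.le k)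
  have l1 := @lim_semi Q.X L Q.r mono Q.gr fun v x y => by
    obtain ⟨v, rfl⟩ := s v
    obtain ⟨x, rfl⟩ := s x
    obtain ⟨y, rfl⟩ := s y
    simp only [m.rk]
    exact fun a1 b1 a2 b2 => (k1 v x y (m.le.1 a1) (m.le.1 b1) a2 b2).elim fun e k =>
      ⟨f e, m.le.2 k.1, m.le.2 k.2.1, (m.rk e).symm ▸ k.2.2⟩
  have l2 := @lim_semi Q.Xᵒᵈ (@OrderDual.instLattice _ L) (fun x => -Q.r x)
    (fun x y h => neg_lt_neg (mono h)) (Q.dual (inv_mul_cancel p)).gr fun v x y => by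
    obtain ⟨v, rfl⟩ := s v
    obtain ⟨x, rfl⟩ := s x
    obtain ⟨y, rfl⟩ := s y
    simp only [m.rk]
    exact fun a1 b1 a2 b2 => (k2 v x y (m.le.1 a1) (m.le.1 b1) (by omega) (by omega)).elim
      fun e k => ⟨f e, m.le.2 k.1, m.le.2 k.2.1, by have := k.2.2; rw [m.rk]; omega⟩
  let σ : Q.X ≃o Q.X := ⟨MulAction.toPerm p, Q.hi p⟩
  have σm (n : ℕ) (y : Q.X) : (σ ^ n) y = p ^ n • y := by
    induction n with
    | zero => simp
    | succ n ih => rw [pow_succ', pow_succ', mul_smul, ← ih]; rfl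
  obtain ⟨x₀⟩ := Q.ne
  obtain ⟨X, _, _, _, B, b1, b2⟩ := @Bg.ex_bl Q.X L Γ _ _ _ σ (fun x => -Q.r x)
    (fun g => Q.r x₀ - Q.r (g • x₀)) 3 (by omega) (fun g _ _ => Q.hm g)
    (fun g x => by change p • g • x = g • p • x; rw [smul_smul, smul_smul, hp]) Q.pl
    (fun x y => (Q.ar x y).imp fun n k => σm n x ▸ k) (fun x y h => neg_lt_neg (mono h))
    (fun x y => by
      have := l1 x y
      have : -Q.r x + -Q.r y ≤ -Q.r (x ⊓ y) + -Q.r (x ⊔ y) := l2 x y
      omega)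
    (fun x => by have := Q.rp x; change -Q.r (p • x) = _; omega)
    fun g x => by have := Q.rk g x x₀; omega
  refine ⟨X, _, ‹_›, _, B, b1, fun z => ?_⟩
  obtain ⟨x, hx⟩ := b2 z
  exact (Q.st x).imp fun s k => ⟨k.1, fun g e => k.2 g (hx g e).le (hx g e).ge⟩

end Pool.Agent.Lib.MP_5d3e93_al.At
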