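import Pool.Agent.Lib.MP_5d3e93_al.At.Wd
import Pool.Agent.Lib.MP_5d3e93_al.At.Lim

/-! The ordered set of a triangle of groups. -/

namespace Pool.Agent.Lib.MP_5d3e93_al.At

universe a w

theorem rz_of_lj {X : Type*} [Preorder X] (r : X → ℤ) (sm : ∀ {x y}, x ≤ y → r x ≤ r y)
    (eq : ∀ {x y}, x ≤ y → r y ≤ r x → y ≤ x)
    (gr : ∀ {x y} (n : ℤ), x ≤ y → r x ≤ n → n ≤ r y → ∃ z, x ≤ z ∧ z ≤ y ∧ r z = n)
    (lj : ∀ x a b, x ≤ a → x ≤ b → r a = r x + 1 → r b = r x + 1 →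
      ∃ j, a ≤ j ∧ b ≤ j ∧ ∀ y, a ≤ y → b ≤ y → j ≤ y) (c d : X) (n : ℕ) :
    ∀ x a b, r c - r x ≤ n → x ≤ a → x ≤ b → a ≤ c → a ≤ d → b ≤ c → b ≤ d →
      ∃ m, a ≤ m ∧ b ≤ m ∧ m ≤ c ∧ m ≤ d := by
  induction n with
  | zero =>
    intro x a b h xa xb ac ad bc bd
    have := sm ac
    exact ⟨b, (eq xa (by omega)).trans xb, le_rfl, bc, bd⟩
  | succ n ih =>
    intro x a b h xa xb ac ad bc bd
    by_cases h1 : r a ≤ r x
    · exact ⟨b, (eq xa h1).trans xb, le_rfl, bc, bd⟩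
    by_cases h2 : r b ≤ r x
    · exact ⟨a, le_rfl, (eq xb h2).trans xa, ac, ad⟩
    obtain ⟨p, xp, pa, rp⟩ := gr (r x + 1) xa (by omega) (by omega)
    obtain ⟨q, xq, qb, rq⟩ := gr (r x + 1) xb (by omega) (by omega)
    obtain ⟨j, pj, qj, hj⟩ := lj x p q xp xq rp rq
    obtain ⟨e, ae, je, ec, ed⟩ := ih p a j (by push_cast at h; omega) pa pj ac ad
      (hj c (pa.trans ac) (qb.trans bc)) (hj d (pa.trans ad) (qb.trans bd))
    obtain ⟨m, em, bm, mc, md⟩ := ih q e b (by push_cast at h; omega) (qj.trans je) qb ec ed bc bd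
    exact ⟨m, ae.trans em, bm, mc, md⟩

variable {G : Type w} [Group G] (P : ZMod 3 → Subgroup G)

/-- Products of `n + 1` consecutive subgroups. -/
def Pr : ℕ → ZMod 3 → G → Prop
  | 0, k, g => g ∈ P k
  | n + 1, k, g => ∃ a ∈ P k, Pr n (k + 1) (a⁻¹ * g)

variable {P}

theorem Pr.left {n : ℕ} {k : ZMod 3} {a g : G} (ha : a ∈ P k) (h : Pr P n k g) :
    Pr P n k (a * g) := by
  cases n with
  | zero => exact (P k).mul_mem ha h
  | succ n =>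
    obtain ⟨b, hb, h⟩ := h
    exact ⟨a * b, (P k).mul_mem ha hb, by simpa [mul_assoc] using h⟩

theorem Pr.up {n : ℕ} {k : ZMod 3} {g : G} (h : Pr P n (k + 1) g) : Pr P (n + 1) k g :=
  ⟨1, (P k).one_mem, by simpa using h⟩

theorem Pr.one (n : ℕ) : ∀ k, Pr P n k 1 := by
  induction n with
  | zero => exact fun k => (P k).one_mem
  | succ n ih => exact fun k => (ih _).up

theorem Pr.mul {n m : ℕ} {k : ZMod 3} {g h : G} (a : Pr P n k g) (b : Pr P m (k + n) h) :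
    Pr P (n + m) k (g * h) := by
  induction n generalizing k g with
  | zero => simpa using Pr.left a (by simpa using b)
  | succ n ih =>
    obtain ⟨c, hc, a⟩ := a
    rw [Nat.add_right_comm]
    refine ⟨c, hc, ?_⟩
    rw [← mul_assoc]
    refine ih a ?_
    rwa [Nat.cast_succ, add_comm (n : ZMod 3), ← add_assoc] at b

theorem Pr.split {n m : ℕ} {k : ZMod 3} {g : G} (a : Pr P (n + m) k g) :
    ∃ c, Pr P n k c ∧ Pr P m (k + n) (c⁻¹ * g) := by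
  induction n generalizing k g with
  | zero => exact ⟨1, (P k).one_mem, by simpa using a⟩
  | succ n ih =>
    rw [Nat.add_right_comm] at a
    obtain ⟨c, hc, a⟩ := a
    obtain ⟨d, hd, a⟩ := ih a
    refine ⟨c * d, ⟨c, hc, by simpa using hd⟩, ?_⟩
    rw [Nat.cast_succ, add_comm (n : ZMod 3), ← add_assoc]
    simpa [mul_assoc] using a

theorem Pr.all (hg : ⨆ k, P k = ⊤) (g : G) (k : ZMod 3) : ∃ n, Pr P (3 * n) k g := by
  have hm : g ∈ ⨆ k, P k := hg ▸ Subgroup.mem_top g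
  induction hm using Subgroup.iSup_induction' with
  | hp i x hx =>
    have : ∀ i k : ZMod 3, i = k ∨ i = k + 1 ∨ i = k + 1 + 1 := by decide
    rcases this i k with rfl | rfl | rfl
    · exact ⟨0, hx⟩
    · exact ⟨1, Pr.up (by simpa using Pr.left hx (Pr.one 2 _))⟩
    · exact ⟨1, Pr.up (Pr.up (by simpa using Pr.left hx (Pr.one 1 _)))⟩
  | h1 => exact ⟨0, (P k).one_mem⟩
  | hmul x y _ _ a b =>
    obtain ⟨n, a⟩ := a
    obtain ⟨m, b⟩ := b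
    refine ⟨n + m, ?_⟩
    rw [mul_add]
    refine a.mul ?_
    have : ((3 * n : ℕ) : ZMod 3) = 0 := (ZMod.natCast_eq_zero_iff _ _).2 ⟨n, rfl⟩
    rwa [this, add_zero]

/-- Points: a group element and a level. -/
structure Pt (P : ZMod 3 → Subgroup G) where
  g : G
  c : ℤ

instance : Preorder (Pt P) where
  le x y := ∃ n : ℕ, y.c = x.c + n ∧ Pr P n x.c (x.g⁻¹ * y.g)
  le_refl x := ⟨0, by simp, by simpa using Pr.one 0 _⟩
  le_trans x y z a b := by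
    obtain ⟨n, e, a⟩ := a
    obtain ⟨m, f, b⟩ := b
    refine ⟨n + m, by push_cast; omega, ?_⟩
    rw [e] at b
    simpa [mul_assoc] using a.mul (h := y.g⁻¹ * z.g) (by simpa using b)

instance : MulAction (G × Multiplicative ℤ) (Pt P) where
  smul γ x := ⟨γ.1 * x.g, x.c - 3 * γ.2.toAdd⟩
  one_smul x := by
    change Pt.mk _ _ = x
    simp
  mul_smul a b x := by
    change Pt.mk _ _ = Pt.mk (a.1 * (b.1 * x.g)) (x.c - 3 * b.2.toAdd - 3 * a.2.toAdd)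
    simp only [Prod.fst_mul, Prod.snd_mul, toAdd_mul, mul_assoc]
    congr 1
    ring

theorem Pt.le_def {x y : Pt P} :
    x ≤ y ↔ ∃ n : ℕ, y.c = x.c + n ∧ Pr P n x.c (x.g⁻¹ * y.g) := Iff.rfl

theorem Pt.sg (γ : G × Multiplicative ℤ) (x : Pt P) : (γ • x).g = γ.1 * x.g := rfl

theorem Pt.sc (γ : G × Multiplicative ℤ) (x : Pt P) : (γ • x).c = x.c - 3 * γ.2.toAdd := rfl

theorem cast3 (c t : ℤ) : ((c - 3 * t : ℤ) : ZMod 3) = c := by
  push_cast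
  rw [show (3 : ZMod 3) = 0 from rfl]
  simp

theorem Pt.sm {x y : Pt P} (h : x ≤ y) : x.c ≤ y.c := by
  obtain ⟨n, e, -⟩ := h
  omega

theorem Pt.eq {x y : Pt P} (h : x ≤ y) (k : y.c ≤ x.c) : y ≤ x := by
  obtain ⟨n, e, a⟩ := h
  obtain rfl : n = 0 := by omega
  refine ⟨0, by omega, ?_⟩
  rw [e]
  simpa [Pr] using (P _).inv_mem a

theorem Pt.gr {x y : Pt P} (n : ℤ) (h : x ≤ y) (a : x.c ≤ n) (b : n ≤ y.c) :
    ∃ z, x ≤ z ∧ z ≤ y ∧ z.c = n := by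
  obtain ⟨m, e, h⟩ := h
  obtain ⟨i, rfl⟩ := Int.le.dest a
  obtain ⟨j, rfl⟩ : ∃ j, m = i + j := ⟨m - i, by omega⟩
  obtain ⟨c, u, v⟩ := h.split
  exact ⟨⟨x.g * c, x.c + i⟩, ⟨i, rfl, by simpa using u⟩,
    ⟨j, by push_cast at e ⊢; omega, by simpa [mul_assoc] using v⟩, rfl⟩

/-- Local joins. -/
theorem Pt.lj
    (hD : ∀ (n : ℕ) (k : ZMod 3) (g y : G), g ∈ P k → Pr P n (k + 1) y → Pr P n (k + 1) (g⁻¹ * y) →
      g ∈ P (k + 1) ∨ (∃ m, n = m + 1 ∧ ∃ c d b, c ∈ P k ∧ c ∈ P (k + 1) ∧ d ∈ P k ∧ d ∈ P (k + 1) ∧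
        b ∈ P k ∧ b ∈ P (k + 1 + 1) ∧ g * c = d * b ∧ Pr P m (k + 1 + 1) ((g * c)⁻¹ * y)) ∨
        ∃ m, n = m + 2 ∧ Pr P m k y)
    (h4 : ∀ (k : ZMod 3) (a b a' b' : G), a ∈ P k → a ∈ P (k + 1) → b ∈ P k → b ∈ P (k + 1 + 1) →
      a' ∈ P k → a' ∈ P (k + 1) → b' ∈ P k → b' ∈ P (k + 1 + 1) → a * b * a' * b' = 1 →
      a ∈ P (k + 1 + 1) ∨ b ∈ P (k + 1))
    (x a b : Pt P) (xa : x ≤ a) (xb : x ≤ b) (ra : a.c = x.c + 1) (rb : b.c = x.c + 1) :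
    ∃ j, a ≤ j ∧ b ≤ j ∧ ∀ y, a ≤ y → b ≤ y → j ≤ y := by
  obtain ⟨n, e, xa⟩ := xa
  obtain rfl : n = 1 := by omega
  obtain ⟨n, f, xb⟩ := xb
  obtain rfl : n = 1 := by omega
  obtain ⟨s, hs, xa⟩ := xa
  obtain ⟨t, ht, xb⟩ := xb
  obtain ⟨k, hk⟩ : ∃ k : ZMod 3, k = (x.c : ZMod 3) := ⟨_, rfl⟩
  rw [← hk] at hs ht xa xb
  have ka : (a.c : ZMod 3) = k + 1 := by rw [ra]; simp [hk]
  have kb : (b.c : ZMod 3) = k + 1 := by rw [rb]; simp [hk]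
  change _ ∈ _ at xa xb
  have h3 : k + 1 + 1 + 1 = k := by
    generalize k = k
    revert k
    decide
  have hg : s⁻¹ * t ∈ P k := (P k).mul_mem ((P k).inv_mem hs) ht
  have key : ∀ y, a ≤ y → b ≤ y → ∃ n : ℕ, y.c = x.c + 1 + n ∧
      Pr P n (k + 1) ((x.g * s)⁻¹ * y.g) ∧ Pr P n (k + 1) ((s⁻¹ * t)⁻¹ * ((x.g * s)⁻¹ * y.g)) := by
    rintro y ⟨n, e1, u⟩ ⟨m, e2, v⟩
    obtain rfl : n = m := by omega
    rw [ka] at u
    rw [kb] at v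
    exact ⟨n, by omega, by simpa [mul_assoc] using u.left xa, by simpa [mul_assoc] using v.left xb⟩
  have up : ∀ (z : Pt P) (u : G) (n : ℕ) (y : Pt P), u⁻¹ * (x.g⁻¹ * z.g) ∈ P (k + 1) →
      z.c = x.c + 1 → y.c = x.c + 1 + n → Pr P n (k + 1) ((x.g * u)⁻¹ * y.g) → z ≤ y := by
    intro z u n y h1 h2 h3 h5
    refine ⟨n, by omega, ?_⟩
    rw [show (z.c : ZMod 3) = k + 1 by rw [h2]; simp [hk]]
    simpa [mul_assoc] using h5.left ((P _).inv_mem h1)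
  by_cases h1 : s⁻¹ * t ∈ P (k + 1)
  · refine ⟨b, up a s 0 b xa ra (by omega) ?_, le_rfl, fun _ _ h => h⟩
    change _ ∈ _
    simpa [mul_assoc] using (P _).mul_mem h1 xb
  have top : ∀ y : Pt P, ∀ m : ℕ, y.c = x.c + 1 + (m + 2 : ℕ) → Pr P m k ((x.g * s)⁻¹ * y.g) →
      (⟨x.g, x.c + 3⟩ : Pt P) ≤ y := by
    intro y m e1 u
    refine ⟨m, by push_cast at e1 ⊢; omega, ?_⟩
    have : ((x.c + 3 : ℤ) : ZMod 3) = k := by
      rw [hk, ← cast3 x.c (-1)]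
      congr 1
    simp only [this]
    simpa [mul_assoc] using u.left hs
  by_cases h2 : ∃ c d b, c ∈ P k ∧ c ∈ P (k + 1) ∧ d ∈ P k ∧ d ∈ P (k + 1) ∧
      b ∈ P k ∧ b ∈ P (k + 1 + 1) ∧ s⁻¹ * t * c = d * b
  · obtain ⟨c, d, b0, c1, c2, d1, d2, b1, b2, eq0⟩ := h2
    have k2 : ((x.c + 2 : ℤ) : ZMod 3) = k + 1 + 1 := by simp [hk, add_assoc, one_add_one_eq_two]
    refine ⟨⟨x.g * t * c, x.c + 2⟩, up a s 1 _ xa ra (by simp; omega) ⟨d, d2, ?_⟩,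
      up b t 1 _ xb rb (by simp; omega) ⟨c, c2, by simpa [mul_assoc] using Pr.one 0 _⟩, ?_⟩
    · have : d⁻¹ * ((x.g * s)⁻¹ * (x.g * t * c)) = b0 := by
        rw [inv_mul_eq_iff_eq_mul, ← eq0]; group
      simp only [this]
      exact b2
    intro y ay by'
    obtain ⟨n, e1, u, v⟩ := key y ay by'
    rcases hD n k _ _ hg u v with h | ⟨m, rfl, c', d', b', c3, c4, d3, d4, b3, b4, eq1, w⟩ |
      ⟨m, rfl, w⟩
    · exact (h1 h).elim
    · have rel : c'⁻¹ * c * b0⁻¹ * (d⁻¹ * d') * b' = 1 := by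
        have e2 : d = s⁻¹ * t * c * b0⁻¹ := by rw [eq0]; group
        have e3 : d' = s⁻¹ * t * c' * b'⁻¹ := by rw [eq1]; group
        rw [e2, e3]; group
      rcases h4 k _ _ _ _ ((P _).mul_mem ((P _).inv_mem c3) c1)
        ((P _).mul_mem ((P _).inv_mem c4) c2) ((P _).inv_mem b1) ((P _).inv_mem b2)
        ((P _).mul_mem ((P _).inv_mem d1) d3) ((P _).mul_mem ((P _).inv_mem d2) d4) b3 b4 rel
        with h | h
      · refine ⟨m, by push_cast at e1 ⊢; omega, ?_⟩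
        simp only [k2]
        simpa [mul_assoc] using w.left ((P _).inv_mem h)
      · refine (h1 ?_).elim
        have : s⁻¹ * t = d * (b0⁻¹)⁻¹ * c⁻¹ := by rw [inv_inv, ← eq0]; group
        rw [this]
        exact (P _).mul_mem ((P _).mul_mem d2 ((P _).inv_mem h)) ((P _).inv_mem c2)
    · refine le_trans ⟨1, by simp; omega, ?_⟩ (top y m e1 w)
      simp only [k2]
      refine ⟨1, (P _).one_mem, ?_⟩
      change _ ∈ _
      rw [h3]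
      simpa [mul_assoc] using (P k).inv_mem ((P k).mul_mem ht c1)
  · have tp : ∀ (z : Pt P) (u : G), u ∈ P k → u⁻¹ * (x.g⁻¹ * z.g) ∈ P (k + 1) → z.c = x.c + 1 →
        z ≤ ⟨x.g, x.c + 3⟩ := by
      intro z u hu h5 h6
      refine up z u 2 _ h5 h6 (by simp; omega) (Pr.up (Pr.up ?_))
      change _ ∈ _
      rw [h3]
      simpa [mul_assoc] using (P k).inv_mem hu
    refine ⟨⟨x.g, x.c + 3⟩, tp a s hs xa ra, tp b t ht xb rb, fun y ay by' => ?_⟩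
    obtain ⟨n, e1, u, v⟩ := key y ay by'
    rcases hD n k _ _ hg u v with h | ⟨m, rfl, c', d', b', c3, c4, d3, d4, b3, b4, eq1, w⟩ |
      ⟨m, rfl, w⟩
    · exact (h1 h).elim
    · exact (h2 ⟨c', d', b', c3, c4, d3, d4, b3, b4, eq1⟩).elim
    · exact top y m e1 w

/-- The object of a group with three subgroups and local joins. -/
def Pt.ob (hg : ⨆ k, P k = ⊤) {𝒮 : Set (Set (G × Multiplicative ℤ))}
    (hS : ∀ (g : G) (k : ZMod 3), ∃ s ∈ 𝒮, ∀ γ : G × Multiplicative ℤ,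
      g⁻¹ * γ.1 * g ∈ P k → γ.2 = 1 → γ ∈ s)
    (lj : ∀ x a b : Pt P, x ≤ a → x ≤ b → a.c = x.c + 1 → b.c = x.c + 1 →
      ∃ j, a ≤ j ∧ b ≤ j ∧ ∀ y, a ≤ y → b ≤ y → j ≤ y) :
    Ob (G × Multiplicative ℤ) (1, Multiplicative.ofAdd 1) 𝒮 :=
  have ar : ∀ x y : Pt P, ∃ k : ℕ, ((1, Multiplicative.ofAdd 1) : G × Multiplicative ℤ) ^ k • x ≤ y := by
    intro x y
    obtain ⟨n, h⟩ := Pr.all hg (x.g⁻¹ * y.g) x.c
    refine ⟨n + (x.c - y.c).toNat, 3 * n + (y.c - x.c + 3 * (x.c - y.c).toNat).toNat, ?_, ?_⟩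
    · simp only [Pt.sc, Prod.pow_snd, toAdd_pow, toAdd_ofAdd, nsmul_eq_mul]
      push_cast
      omega
    · rw [Pt.sc, cast3, Pt.sg]
      simpa using h.mul (Pr.one _ _)
  have pl : ∀ x : Pt P, ((1, Multiplicative.ofAdd 1) : G × Multiplicative ℤ) • x ≤ x := fun x =>
    ⟨3, by simp [Pt.sc], by simpa [Pt.sg] using Pr.one 3 _⟩
  { X := Pt P
    ne := ⟨⟨1, 0⟩⟩
    r := Pt.c
    hm := by
      rintro γ x y ⟨n, e, h⟩
      refine ⟨n, by simp only [Pt.sc]; omega, ?_⟩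
      rw [Pt.sc, cast3]
      simpa [Pt.sg, mul_assoc] using h
    rk := fun γ x y => by simp only [Pt.sc]; omega
    rp := fun x => by simp [Pt.sc]
    sm := Pt.sm
    eq := Pt.eq
    gr := Pt.gr
    cv := by
      rintro x y ⟨n, e, h⟩ f
      obtain rfl : n = 1 := by omega
      obtain ⟨a, ha, h⟩ := h
      have h3 : ∀ k : ZMod 3, k + 1 + 1 + 1 = k := by decide
      refine ⟨2, by simp [Pt.sc]; omega, ?_⟩
      rw [Pt.sc, cast3, f, Pt.sg]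
      push_cast
      refine ⟨_, (P _).inv_mem h, Pr.up ?_⟩
      change _ ∈ _
      rw [h3]
      simpa [mul_assoc] using (P _).inv_mem ha
    pl := pl
    ar := ar
    rz := by
      intro a b c d ac ad bc bd
      obtain ⟨k, h⟩ := ar a b
      have : ∀ k : ℕ, ((1, Multiplicative.ofAdd 1) : G × Multiplicative ℤ) ^ k • a ≤ a := by
        intro k
        induction k with
        | zero => simp
        | succ k ih =>
          rw [pow_succ', mul_smul]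
          exact (pl _).trans ih
      exact rz_of_lj Pt.c Pt.sm Pt.eq Pt.gr lj c d _ _ a b (Int.self_le_toNat _) (this k) h
        ac ad bc bd
    st := fun x => by
      obtain ⟨s, hs, h⟩ := hS x.g x.c
      refine ⟨s, hs, fun γ a b => ?_⟩
      have e := (Pt.sm a).antisymm (Pt.sm b)
      obtain ⟨n, f, b⟩ := b
      obtain rfl : n = 0 := by omega
      rw [Pt.sc] at e
      refine h γ (by simpa [Pt.sg, mul_assoc, Pr] using b) (toAdd_eq_zero.1 (by omega)) }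

theorem Ob.lub {Γ : Type w} [Group Γ] {p : Γ} {𝒮 : Set (Set Γ)} (O : Ob Γ p 𝒮) (a b c : O.X)
    (ac : a ≤ c) (bc : b ≤ c) : ∃ m, a ≤ m ∧ b ≤ m ∧ ∀ d, a ≤ d → b ≤ d → m ≤ d := by
  obtain ⟨n, ⟨m, am, bm, rfl⟩, h⟩ := Int.exists_least_of_bdd
    (P := fun n => ∃ m, a ≤ m ∧ b ≤ m ∧ O.r m = n)
    ⟨O.r a, by rintro _ ⟨m, am, -, rfl⟩; exact O.sm am⟩ ⟨_, c, ac, bc, rfl⟩
  refine ⟨m, am, bm, fun d ad bd => ?_⟩
  obtain ⟨e, ae, be, em, ed⟩ := O.rz am ad bm bd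
  exact (O.eq em (h _ ⟨e, ae, be, rfl⟩)).trans ed

namespace Tri

variable {J : Type a} [Group J] {H : ZMod 3 → Type a} [∀ i, Group (H i)] (T : Tri J H G)

theorem d_iff {n m : ℤ} {x : G} : T.D n x m ↔ ∃ i : ℕ, m = n + i ∧ Pr T.Q i n x := by
  constructor
  · intro h
    induction h with
    | one n => exact ⟨0, by simp, Pr.one 0 _⟩
    | mul hk _ ih => exact ih.imp fun i a => ⟨a.1, a.2.left ⟨_, hk, rfl⟩⟩
    | up _ ih =>
      obtain ⟨i, e, a⟩ := ih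
      exact ⟨i + 1, by push_cast; omega, Pr.up (by simpa using a)⟩
  · rintro ⟨i, rfl, h⟩
    induction i generalizing n x with
    | zero =>
      obtain ⟨k, hk, rfl⟩ := h
      simpa using D.mul hk (D.one n)
    | succ i ih =>
      obtain ⟨_, ⟨k, hk, rfl⟩, h⟩ := h
      have := D.mul hk (D.up (ih (n := n + 1) (by simpa using h)))
      rw [mul_inv_cancel_left] at this
      convert this using 1
      push_cast
      ring

theorem qf {i : ZMod 3} {x y : J} (hx : x ∈ T.K i) (hy : y ∈ T.K i) (h : T.p i x = T.p i y) :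
    T.q x = T.q y := by
  have := T.kq i (x⁻¹ * y) ((T.K i).mul_mem ((T.K i).inv_mem hx) hy) (by simp [h])
  rwa [map_mul, map_inv, inv_mul_eq_one] at this

theorem e3 (i : ZMod 3) : T.E (i + 2) ≤ T.K i := by
  have := T.e2 (i + 2)
  rwa [add_assoc, show (2 + 1 : ZMod 3) = 0 from rfl, add_zero] at this

theorem lj (x a b : Pt T.Q) (xa : x ≤ a) (xb : x ≤ b) (ra : a.c = x.c + 1) (rb : b.c = x.c + 1) :
    ∃ j, a ≤ j ∧ b ≤ j ∧ ∀ y, a ≤ y → b ≤ y → j ≤ y := by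
  have two : ∀ k : ZMod 3, k + 1 + 1 = k + 2 := fun k => by ring
  refine Pt.lj ?_ ?_ x a b xa xb ra rb
  · rintro n k _ y ⟨g, hg, rfl⟩ u v
    obtain ⟨k, rfl⟩ := ZMod.intCast_surjective k
    rcases T.hd (n := k) (m := k + 1 + n) (x := y) (T.K _).one_mem hg
      (T.d_iff.2 ⟨n, rfl, by simpa using u⟩) (T.d_iff.2 ⟨n, rfl, by simpa using v⟩) with
      h | ⟨e, he, h⟩ | ⟨a, ha, a', ha', e, he, h, w⟩
    · obtain ⟨i, e, h⟩ := T.d_iff.1 h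
      refine .inr (.inr ⟨i, by omega, ?_⟩)
      rwa [show k + 3 = k - 3 * (-1) by ring, cast3] at h
    · rw [one_mul] at h
      exact .inl ⟨e, T.e2 _ he, (T.qf hg (T.e1 _ he) h).symm⟩
    · obtain ⟨i, f, w⟩ := T.d_iff.1 w
      rw [one_mul] at h w
      have := T.qf ((T.K _).mul_mem hg (T.e1 _ ha')) ((T.K _).mul_mem (T.e1 _ ha) (T.e3 _ he)) h
      rw [map_mul, map_mul] at this
      have hb : T.q e ∈ T.Q (k + 1 + 1) := ⟨e, two _ ▸ T.e1 _ he, rfl⟩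
      refine .inr (.inl ⟨i, by omega, T.q a', T.q a, T.q e, ⟨_, T.e1 _ ha', rfl⟩,
        ⟨_, T.e2 _ ha', rfl⟩, ⟨_, T.e1 _ ha, rfl⟩, ⟨_, T.e2 _ ha, rfl⟩, ⟨_, T.e3 _ he, rfl⟩, hb,
        this, ?_⟩)
      rw [this, mul_inv_rev, mul_assoc]
      refine Pr.left ((T.Q _).inv_mem hb) ?_
      simpa [two] using w
  · intro k a b a' b' a1 a2 b1 b2 a3 a4 b3 b4 h
    have h3 : k + 2 + 1 = k := by
      rw [add_assoc, show (2 + 1 : ZMod 3) = 0 from rfl, add_zero]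
    rw [two] at b2 b4 ⊢
    obtain ⟨a, ha, rfl⟩ := T.m2 k ⟨a1, a2⟩
    obtain ⟨a', ha', rfl⟩ := T.m2 k ⟨a3, a4⟩
    obtain ⟨b, hb, rfl⟩ := T.m2 (k + 2) ⟨b2, h3.symm ▸ b1⟩
    obtain ⟨b', hb', rfl⟩ := T.m2 (k + 2) ⟨b4, h3.symm ▸ b3⟩
    have := T.m1 ((T.K k).mul_mem ((T.K k).mul_mem ((T.K k).mul_mem (T.e1 _ ha) (T.e3 _ hb))
      (T.e1 _ ha')) (T.e3 _ hb')) (by simpa using h)
    rcases T.gi k b⁻¹ ((T.E _).inv_mem hb) a⁻¹ ((T.E _).inv_mem ha) a' ha' b' hb'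
      (by
        simp only [map_mul, map_inv] at this ⊢
        rw [← mul_inv_rev, inv_eq_iff_mul_eq_one, ← mul_assoc, this]) with
      ⟨y, hy, e⟩ | ⟨y, hy, e⟩
    · have := T.qf ((T.K k).inv_mem (T.e3 _ hb)) (T.e1 _ hy) e
      rw [map_inv] at this
      exact .inr ((T.Q _).inv_mem_iff.1 ⟨y, T.e2 _ hy, this.symm⟩)
    · have := T.qf ((T.K k).inv_mem (T.e1 _ ha)) (T.e3 _ hy) e
      rw [map_inv] at this
      exact .inl ((T.Q _).inv_mem_iff.1 ⟨y, T.e1 _ hy, this.symm⟩)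

/-- The object of a triangle of groups. -/
def ob : Ob (G × Multiplicative ℤ) (1, Multiplicative.ofAdd 1)
    {s | ∃ i g, s = {γ | g⁻¹ * γ.1 * g ∈ T.Q i}} :=
  Pt.ob T.gen (fun g k => ⟨_, ⟨k, g, rfl⟩, fun _ h _ => h⟩) T.lj

theorem m3 {i : ZMod 3} {r l l' r' : G} (a : r ∈ T.Q i) (b : l ∈ T.Q (i + 1))
    (c : l' ∈ T.Q (i + 1)) (d : r' ∈ T.Q i) (e : r * l = l' * r') :
    r ∈ T.Q (i + 1) ∨ l ∈ T.Q i := by
  obtain ⟨i, rfl⟩ := ZMod.intCast_surjective i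
  obtain ⟨m, h1, h2, h3, h4⟩ : ∃ m : Pt T.Q, ⟨1, i⟩ ≤ m ∧ ⟨l', i⟩ ≤ m ∧ m ≤ ⟨1, i + 1⟩ ∧
      m ≤ ⟨r, i + 1⟩ :=
    T.ob.rz ⟨1, rfl, by simpa using Pr.one 1 _⟩ ⟨1, rfl, r, a, by simpa using Pr.one 0 _⟩
      ⟨1, rfl, Pr.up (by simpa [Pr] using c)⟩
      ⟨1, rfl, r', d, by
        have : r'⁻¹ * (l'⁻¹ * r) = l⁻¹ := by
          rw [← mul_assoc, ← mul_inv_rev, ← e]; group
        simpa [Pr, this] using b⟩
  by_cases h : m.c ≤ i
  · obtain ⟨n, f, h⟩ := h1.trans (Pt.eq h2 h)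
    obtain rfl : n = 0 := by simpa using f
    have : l = r⁻¹ * (l' * r') := by rw [← e]; group
    rw [this]
    exact .inr ((T.Q _).mul_mem ((T.Q _).inv_mem a) ((T.Q _).mul_mem (by simpa [Pr] using h) d))
  · obtain ⟨n, f, h⟩ := (Pt.eq h3 (by simp; omega)).trans h4
    obtain rfl : n = 0 := by simpa using f
    exact .inl (by simpa [Pr] using h)

theorem m5 (x : G) (i j : ZMod 3) : (j = i ∧ x ∈ T.Q i) ∨ ∃ h ∈ T.Q i, ∃ j', j' ≠ i ∧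
    ∀ k ∈ T.Q i, x⁻¹ * k * x ∈ T.Q j → h⁻¹ * k * h ∈ T.Q j' := by
  obtain ⟨i, rfl⟩ := ZMod.intCast_surjective i
  obtain ⟨j, rfl⟩ := ZMod.intCast_surjective j
  obtain ⟨t, ht, hm⟩ := Int.exists_least_of_bdd
    (P := fun t => (⟨x, j - 3 * t⟩ : Pt T.Q) ≤ ⟨1, i⟩)
    ⟨(j - i) / 3, fun t h => by
      have := Pt.sm h
      simp only at this
      omega⟩
    (by
      obtain ⟨k, n, e, h⟩ : ∃ k : ℕ, ((1, Multiplicative.ofAdd 1) : G × Multiplicative ℤ) ^ k •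
        (⟨x, j⟩ : Pt T.Q) ≤ ⟨1, i⟩ := T.ob.ar (⟨x, j⟩ : Pt T.Q) (⟨1, i⟩ : Pt T.Q)
      refine ⟨k, n, by simpa [Pt.sc] using e, ?_⟩
      rw [Pt.sc, cast3, Pt.sg] at h
      simpa only [cast3, Prod.pow_fst, one_pow, one_mul] using h)
  by_cases h : i ≤ j - 3 * t
  · obtain ⟨n, f, h⟩ := Pt.eq ht h
    have := Pt.sm ht
    simp only at f this
    obtain rfl : n = 0 := by omega
    refine .inl ⟨?_, by simpa [Pr] using h⟩
    rw [← cast3 j t, f]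
    simp
  right
  obtain ⟨z, wz, zv, rz⟩ := Pt.gr (i - 1) ht (by simp; omega) (by simp)
  have vz : (⟨1, i - 3⟩ : Pt T.Q) ≤ z := by
    obtain ⟨n, f, u⟩ : ((1, Multiplicative.ofAdd 1) : G × Multiplicative ℤ) • (⟨1, i⟩ : Pt T.Q) ≤ z :=
      T.ob.cv (x := z) (y := (⟨1, i⟩ : Pt T.Q)) zv (by change i = z.c + 1; omega)
    exact ⟨n, by simpa [Pt.sc] using f, by simpa [Pt.sc, Pt.sg] using u⟩
  obtain ⟨m, wm, vm, hl⟩ : ∃ m : Pt T.Q, ⟨x, j - 3 * t⟩ ≤ m ∧ ⟨1, i - 3⟩ ≤ m ∧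
    ∀ d : Pt T.Q, ⟨x, j - 3 * t⟩ ≤ d → ⟨1, i - 3⟩ ≤ d → m ≤ d := T.ob.lub _ _ z wz vz
  have mz := hl z wz vz
  have r1 := Pt.sm mz
  have r2 : i - 3 < m.c := by
    by_contra hc
    obtain ⟨n, f, u⟩ := wm.trans (Pt.eq vm (not_lt.1 hc))
    have := hm (t - 1) ⟨n, by simp only at f ⊢; omega, by simpa only [cast3] using u⟩
    omega
  have c3 : ((i - 3 : ℤ) : ZMod 3) = i := by simpa only [mul_one] using cast3 i 1
  obtain ⟨h, hh, hu⟩ : ∃ h ∈ T.Q i, h⁻¹ * m.g ∈ T.Q m.c := by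
    by_cases e : m.c = i - 2
    · obtain ⟨n, f, u⟩ := vm
      simp only at f
      obtain rfl : n = 1 := by omega
      obtain ⟨h, hh, u⟩ := u
      refine ⟨h, c3 ▸ hh, ?_⟩
      rw [f]
      simpa [Pr] using u
    · obtain ⟨n, f, u⟩ := mz.trans zv
      simp only at f
      obtain rfl : n = 1 := by omega
      obtain ⟨c, hc, u⟩ := u
      refine ⟨m.g * c, ?_, by simpa using hc⟩
      rw [f, ← (T.Q _).inv_mem_iff]
      simpa [Pr] using u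
  refine ⟨h, hh, m.c, fun e => ?_, fun k hk hx => ?_⟩
  · have := (ZMod.intCast_eq_intCast_iff_dvd_sub _ _ _).1 e
    omega
  have key : ∀ (y : G) (c : ℤ), y⁻¹ * k * y ∈ T.Q c → (⟨y, c⟩ : Pt T.Q) ≤ m →
      (⟨y, c⟩ : Pt T.Q) ≤ ⟨k * m.g, m.c⟩ := by
    rintro y c hy ⟨n, f, u⟩
    exact ⟨n, f, by simpa [mul_assoc] using u.left hy⟩
  obtain ⟨n, f, u⟩ := hl _ (key _ _ (by rwa [cast3]) wm) (key _ _ (by simpa [c3] using hk) vm)
  obtain rfl : n = 0 := by simpa using f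
  simpa [mul_assoc] using (T.Q _).mul_mem ((T.Q _).mul_mem hu u) ((T.Q _).inv_mem hu)

theorem m6 : ∃ (X : Type w) (_ : Lattice X) (_ : Nonempty X) (_ : MulAction G X) (B : Bg.Bl X),
    B.Ac G ∧ ∀ z : X, ∃ i g, ∀ h : G, h • z = z → g⁻¹ * h * g ∈ T.Q i := by
  obtain ⟨X, _, _, _, B, A, h⟩ := ob_bl (fun g => by ext <;> simp [mul_comm]) T.ob
  let := MulAction.compHom X (MonoidHom.inl G (Multiplicative ℤ))
  refine ⟨X, ‹_›, ‹_›, this, B, ⟨fun g => A.hm (g, 1), fun g => A.hπ (g, 1), fun g => A.hc (g, 1)⟩,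
    fun z => ?_⟩
  obtain ⟨_, ⟨i, g, rfl⟩, h⟩ := h z
  exact ⟨i, g, fun k e => h (k, 1) e⟩

end Tri

end Pool.Agent.Lib.MP_5d3e93_al.At
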