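import Pool.Agent.Lib.MP_35cce7_an.SysPar
import Pool.Agent.Lib.MP_5d3e93_al.At.Am
import Pool.Agent.Lib.MP_5d3e93_al.At.Bp
import Pool.Agent.Lib.MP_5d3e93_al.At.Po
import Pool.Agent.Lib.MP_5d3e93_al.At.Gl

/-! Artin groups split along pairs of generators without a relation. -/

namespace Pool.Agent.Lib.MP_5d3e93_al.At

open Pool.Agent.Lib.MP_35cce7_an

variable {B : Type} {M : CoxeterMatrix B}

variable (M) in
/-- Sets of generators in which all labels are finite. -/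
def Cq (Q : Set B) : Prop := ∀ s ∈ Q, ∀ t ∈ Q, M s t ≠ 0

variable (M) in
/-- The two factors of the splitting along the pair `c`. -/
abbrev cqA (c : Bool → B) (j : Bool) : Subgroup (Ar M) := par M {u | u ≠ c j}

variable {c : Bool → B}

theorem cq_ne (h : M (c true) (c false) = 0) (j : Bool) : c j ≠ c (!j) := fun e => by
  cases j <;> simp only [Bool.not_true, Bool.not_false] at e <;> simp [e] at h

theorem cq_side (h : M (c true) (c false) = 0) {Q : Set B} (q : Cq M Q) : ∃ j, c j ∉ Q := by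
  by_contra! k
  exact q _ (k true) _ (k false) h

theorem cq_pair (h : M (c true) (c false) = 0) {u w : B} (k : M u w ≠ 0) :
    ∃ i, u ≠ c i ∧ w ≠ c i := by
  obtain ⟨j, a⟩ := cq_side h (Q := {u, w}) (by
    have k' := (M.symmetric ..).trans_ne k
    rintro _ (rfl | rfl) _ (rfl | rfl) <;> simp [k, k'])
  exact ⟨j, fun e => a (.inl e.symm), fun e => a (.inr e.symm)⟩

theorem cq_gen (h : M (c true) (c false) = 0) (T : Set B) : AmG (cqA M c) (par M T) := by
  refine fun Q a b x k => par_ind a (fun i p x q => ?_) k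
  obtain ⟨j, r, -⟩ := cq_pair h (u := i) (w := i) (by simp)
  exact ⟨b _ (gn_mem p) j (gn_mem r) x q, b _ (inv_mem (gn_mem p)) j (inv_mem (gn_mem r)) x q⟩

theorem cq_am (h : M (c true) (c false) = 0) : Am (cqA M c) (par M {u | ∀ i, u ≠ c i}) := by
  classical
  have hC (i) : par M {u | ∀ i, u ≠ c i} ≤ cqA M c i := par_mono fun _ a => a i
  refine ⟨hC, fun i g a b => par_mono (fun u k j => ?_) (par_inf a b),
    nf_of_univ _ _ hC fun K _ f hf => ?_⟩
  · obtain rfl | rfl := am_bool j i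
    exacts [k.1, k.2]
  have hc := cq_ne h true
  let v : B → K := fun u =>
    if e : u = c true then f false ⟨_, gn_mem (i := u) (e ▸ hc)⟩ else f true ⟨_, gn_mem e⟩
  have hv : ∀ i u (hu : u ≠ c i), v u = f i ⟨_, gn_mem hu⟩ := by
    rintro (_ | _) u hu
    · by_cases e : u = c true
      · exact dif_pos e
      · exact (dif_neg e).trans (hf _ (gn_mem (by rintro (_ | _) <;> assumption)))
    · exact dif_neg hu
  have hb : ∀ u w, u ≠ w → M u w ≠ 0 → alt (M u w) (v u) (v w) = alt (M u w) (v w) (v u) := by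
    intro u w _ h1
    obtain ⟨i, a, b⟩ := cq_pair h h1
    rw [hv i u a, hv i w b, ← map_alt, ← map_alt]
    refine congrArg _ ((cqA M c i).subtype_injective ?_)
    rw [map_alt, map_alt]
    exact braid h1
  refine ⟨alift v hb, fun i ⟨x, a⟩ => ?_⟩
  induction a using Subgroup.closure_induction with
  | mem x a =>
    obtain ⟨u, a, rfl⟩ := a
    exact (alift_gn ..).trans (hv i u a)
  | one => exact (map_one _).trans (map_one (f i)).symm
  | mul x y a b p q => exact (map_mul ..).trans ((congrArg₂ _ p q).trans (map_mul (f i) ..).symm)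
  | inv x a p => exact (map_inv ..).trans ((congrArg _ p).trans (map_inv (f i) _).symm)

theorem cq_red (h : M (c true) (c false) = 0) (g : Ar M) :
    ∃ n j, Red (cqA M c) (par M {u | ∀ i, u ≠ c i}) n j g := by
  obtain a | ⟨j, y, -, a, b, n, d⟩ := (cq_am h).fl (cq_gen h .univ) (par_univ g)
  exacts [⟨0, true, a⟩, ⟨n + 1, j, y, a, b, d⟩]

theorem cq_alt {K : Type} [Group K] {N : Subgroup K} {x y : K} (a : x ∈ N) (b : y ∈ N) (n : ℕ) :
    alt n x y ∈ N := by
  induction n with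
  | zero => exact one_mem _
  | succ n ih =>
    rw [alt_succ]
    split_ifs
    exacts [mul_mem ih a, mul_mem ih b]

theorem cq_map (T : Set B) : (Subgroup.closure (FreeGroup.of '' T)).map
    (PresentedGroup.mk (rels M)) = par M T := by
  rw [MonoidHom.map_closure, Set.image_image]
  rfl

theorem cq_bl (h : M (c true) (c false) = 0) :
    BlA (Ar M) {s | ∃ j g, s = {k | g⁻¹ * k * g ∈ cqA M c j}} := by
  let A : ZMod 3 → Set B := fun i => {u | (i ≠ 1 → u ≠ c true) ∧ (i ≠ 0 → u ≠ c false)}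
  have e (i) : A i ∩ A (i + 1) = A 2 := by
    have : ∀ i : ZMod 3, (i ≠ 1 ∨ i + 1 ≠ 1) ∧ (i ≠ 0 ∨ i + 1 ≠ 0) := by decide
    exact Set.ext fun u => ⟨fun k => ⟨fun _ => (this i).1.elim k.1.1 k.2.1,
      fun _ => (this i).2.elim k.1.2 k.2.2⟩, fun k => ⟨⟨fun _ => k.1 (by decide),
        fun _ => k.2 (by decide)⟩, fun _ => k.1 (by decide), fun _ => k.2 (by decide)⟩⟩
  have m : ∀ u w, M u w ≠ 0 → ∃ i, u ∈ A i ∧ w ∈ A i := fun u w k => by
    obtain ⟨_ | _, a, b⟩ := cq_pair h k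
    exacts [⟨1, ⟨fun e => (e rfl).elim, fun _ => a⟩, fun e => (e rfl).elim, fun _ => b⟩,
      ⟨0, ⟨fun _ => a, fun e => (e rfl).elim⟩, fun _ => b, fun e => (e rfl).elim⟩]
  obtain ⟨T, hK, -, -, hq⟩ := ex_tri (H := fun _ => Ar M) A (fun _ => PresentedGroup.mk _)
    (PresentedGroup.mk (rels M)) (fun i => Subgroup.closure (FreeGroup.of '' A i))
    (fun _ => Subgroup.closure (FreeGroup.of '' A 2)) (fun _ => rfl) (fun i => by rw [e])
    (fun _ _ _ => Iff.rfl) (fun _ x a _ _ _ => ⟨x, fun _ => a, rfl⟩)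
    (fun _ r a _ _ _ _ _ _ _ => .inl ⟨r, a, rfl⟩) (fun _ _ _ a => a)
    (PresentedGroup.mk_surjective _)
    (fun s a => (m s s (by simp)).elim fun i b => (a i b.1).elim)
    (fun N _ a _ k b => Subgroup.normalClosure_le_normal (fun r d => by
      obtain ⟨u, w, f, p⟩ := d
      obtain ⟨i, q, s⟩ := m u w f
      have q' := Subgroup.subset_closure (k := FreeGroup.of '' A i) ⟨u, q, rfl⟩
      have s' := Subgroup.subset_closure (k := FreeGroup.of '' A i) ⟨w, s, rfl⟩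
      exact a i r (p ▸ mul_mem (cq_alt q' s' _) (inv_mem (cq_alt s' q' _)))
        (PresentedGroup.one_of_mem ⟨u, w, f, p⟩)) (PresentedGroup.mk_eq_one_iff.1 b))
  obtain ⟨X, _, _, _, L, hL, hX⟩ := T.m6
  refine ⟨X, _, ‹_›, _, L, hL, fun z => ?_⟩
  obtain ⟨i, g, k⟩ := hX z
  rw [Tri.Q, hK, hq, cq_map] at k
  by_cases l : i = 1
  · exact ⟨_, ⟨false, g, rfl⟩, fun x a => par_mono (fun _ b => b.2 (l ▸ by decide)) (k x a)⟩
  · exact ⟨_, ⟨true, g, rfl⟩, fun x a => par_mono (fun _ b => b.1 l) (k x a)⟩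

theorem cq_not {T : Set B} (h : ¬ Cq M T) :
    ∃ c : Bool → B, (∀ j, c j ∈ T) ∧ M (c true) (c false) = 0 := by
  simp only [Cq, not_forall, not_not] at h
  obtain ⟨s, a, t, b, e⟩ := h
  exact ⟨fun j => cond j s t, by rintro (_ | _) <;> assumption, e⟩

theorem cq_le {Q : Set B} {x : B} (a : x ∉ Q) : par M Q ≤ par M {u | u ≠ x} :=
  par_mono fun _ r (s : _ = x) => a (s ▸ r)

theorem cq_cut {T : Set B} {x : B} {g : Ar M} (a : g ∈ par M T) (b : g ∈ par M {u | u ≠ x}) :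
    g ∈ par M (T \ {x}) := par_inf a b

/-- A set that fixes a vertex in each of the trees lies in the subgroup of a clique. -/
theorem cq_stab {T : Set B} (hT : T.Finite) {D : Set (Ar M)} {t : Ar M}
    (a : ∀ d ∈ D, t⁻¹ * d * t ∈ par M T) (b : ∀ c : Bool → B, (∀ j, c j ∈ T) →
      M (c true) (c false) = 0 → ∃ j g, ∀ d ∈ D, g⁻¹ * d * g ∈ cqA M c j) :
    ∃ Q ⊆ T, Cq M Q ∧ ∃ g, ∀ d ∈ D, g⁻¹ * d * g ∈ par M Q := by
  induction hn : T.ncard using Nat.strong_induction_on generalizing T t with | _ n ih => ?_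
  by_cases k : Cq M T
  · exact ⟨T, le_rfl, k, t, a⟩
  obtain ⟨c, c1, c2⟩ := cq_not k
  obtain ⟨j, g, e⟩ := b c c1 c2
  obtain ⟨m, l, f⟩ := cq_red c2 (t⁻¹ * g)
  obtain ⟨s, s1, i, s2⟩ := (cq_am c2).proj (cq_gen c2 T) f (i := j)
    (D := (fun d => t⁻¹ * d * t) '' D) (by
      rintro _ ⟨d, p, rfl⟩
      exact a d p) (by
      rintro _ ⟨d, p, rfl⟩
      simpa [mul_assoc] using e d p)
  obtain ⟨Q, q⟩ := ih _ (hn ▸ Set.ncard_sdiff_singleton_lt_of_mem (c1 i) hT) hT.sdiff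
    (t := t * s) (fun d p => by
      simpa [mul_assoc] using cq_cut (mul_mem (mul_mem (inv_mem s1) (a d p)) s1) (s2 _ ⟨d, p, rfl⟩))
    (fun c' p => b c' fun j => (p j).1) rfl
  exact ⟨Q, q.1.trans Set.sdiff_subset, q.2⟩

variable (M) in
/-- Subgroups of the class `R Q` that can be conjugated into a maximal parabolic subgroup. -/
def Mal (R : Set B → Subgroup (Ar M) → Prop) (T : Set B) : Prop := ∀ Q ⊆ T, Cq M Q →
  ∀ D ≤ par M Q, R Q D → ∀ s ∈ T, ∀ t ∈ par M T,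
    (∀ d ∈ D, t⁻¹ * d * t ∈ par M (T \ {s})) → s ∉ Q ∧ t ∈ par M (T \ {s})

theorem mal_all {R : Set B → Subgroup (Ar M) → Prop} (h : ∀ T, T.Finite → Cq M T → Mal M R T)
    {T : Set B} (hT : T.Finite) : Mal M R T := by
  induction hn : T.ncard using Nat.strong_induction_on generalizing T with | _ n ih => ?_
  by_cases k : Cq M T
  · exact h T hT k
  intro Q q1 q2 D d1 d2
  have g (x) (a : x ∈ T) : Mal M R (T \ {x}) :=
    ih _ (hn ▸ Set.ncard_sdiff_singleton_lt_of_mem a hT) hT.sdiff rfl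
  have one (c : Bool → B) (c1 : ∀ j, c j ∈ T) (c2 : M (c true) (c false) = 0) (i) (t)
      (a : t ∈ par M T) (b : ∀ d ∈ D, t⁻¹ * d * t ∈ cqA M c i) :
      c i ∉ Q ∧ t ∈ par M (T \ {c i}) := by
    obtain ⟨j, e⟩ := cq_side c2 q2
    refine ((cq_am c2).fix (cq_gen c2 T) (D := D) (p := fun j => c j ∉ Q)
      (fun j p d f => cq_le p (d1 f)) (fun j p x x1 x2 x3 => ?_) e a b).imp_right (cq_cut a)
    have w : Q ⊆ T \ {c j} := fun u r => ⟨q1 r, fun s => p (s ▸ r)⟩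
    refine (g _ (c1 j) Q w q2 D d1 d2 _ ⟨c1 _, (cq_ne c2 j).symm⟩ x (cq_cut x1 x2)
      fun d f => cq_cut (cq_cut (mul_mem (mul_mem (inv_mem x1) (par_mono q1 (d1 f))) x1)
        ((cq_am c2).le j (x3 d f))) ((cq_am c2).le _ (x3 d f))).imp_right
      fun z => par_mono (fun u r l => ?_) z
    obtain rfl | rfl := am_bool l j
    exacts [r.1.2, r.2]
  intro x x1 t t1 t2
  by_cases l : ∃ y ∈ T, M x y = 0
  · obtain ⟨y, y1, y2⟩ := l
    exact one (fun j => cond j x y) (by rintro (_ | _) <;> assumption) y2 true t t1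
      fun d f => par_mono (fun _ r => r.2) (t2 d f)
  obtain ⟨c, c1, c2⟩ := cq_not k
  have c3 (j) : x ≠ c j := by
    rintro rfl
    cases j
    exacts [l ⟨_, c1 true, (M.symmetric ..).trans c2⟩, l ⟨_, c1 false, c2⟩]
  obtain ⟨j, e⟩ := cq_side c2 q2
  obtain ⟨m, i, f⟩ := cq_red c2 t⁻¹
  obtain ⟨s, s1, i, s2⟩ := (cq_am c2).proj (cq_gen c2 (T \ {x})) f (i := j)
    (D := (fun d => t⁻¹ * d * t) '' D) (by
      rintro _ ⟨d, p, rfl⟩
      exact t2 d p) (by
      rintro _ ⟨d, p, rfl⟩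
      simpa [mul_assoc] using cq_le e (d1 p))
  have s3 (d) (p : d ∈ D) : (t * s)⁻¹ * d * (t * s) ∈ cqA M c i := by
    simpa [mul_assoc] using s2 _ ⟨d, p, rfl⟩
  obtain ⟨r1, r2⟩ := one c c1 c2 i _ (mul_mem t1 (par_mono Set.sdiff_subset s1)) s3
  obtain ⟨r3, r4⟩ := g _ (c1 i) Q (fun u r => ⟨q1 r, fun s => r1 (s ▸ r)⟩) q2 D d1 d2 x
    ⟨x1, c3 i⟩ _ r2 fun d p => by
      rw [Set.sdiff_sdiff_comm]
      refine cq_cut ?_ (s3 d p)
      simpa [mul_assoc] using mul_mem (mul_mem (inv_mem s1) (t2 d p)) s1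
  exact ⟨r3, (Subgroup.mul_mem_cancel_right _ s1).1
    (par_mono (T := T \ {x}) (fun u r => ⟨r.1.1, r.2⟩) r4)⟩

theorem mal_in {R : Set B → Subgroup (Ar M) → Prop} (h : ∀ T, T.Finite → Mal M R T) {Q : Set B}
    (q : Cq M Q) {D : Subgroup (Ar M)} (d1 : D ≤ par M Q) (d2 : R Q D) {t : Ar M}
    (a : ∀ d ∈ D, t⁻¹ * d * t ∈ par M Q) {T : Set B} (hT : T.Finite) (e : Q ⊆ T)
    (b : t ∈ par M T) : t ∈ par M Q := by
  induction hn : T.ncard using Nat.strong_induction_on generalizing T with | _ n ih => ?_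
  by_cases k : T ⊆ Q
  · exact par_mono k b
  obtain ⟨x, x1, x2⟩ := Set.not_subset.1 k
  have w : Q ⊆ T \ {x} := fun u r => ⟨e r, fun s => x2 (s ▸ r)⟩
  exact ih _ (hn ▸ Set.ncard_sdiff_singleton_lt_of_mem x1 hT) hT.sdiff w
    (h T hT Q e q D d1 d2 x x1 t b fun d p => par_mono w (a d p)).2 rfl

theorem cq_fin (g : Ar M) : ∃ T : Set B, T.Finite ∧ g ∈ par M T := by
  refine par_ind (Q := fun g => ∃ T : Set B, T.Finite ∧ g ∈ par M T)
    ⟨∅, Set.finite_empty, one_mem _⟩ (fun i _ x ⟨T, a, b⟩ => ?_) (par_univ g)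
  have p : gn M i ∈ par M (insert i T) := gn_mem (.inl rfl)
  have q := par_mono (Set.subset_insert i T) b
  exact ⟨⟨_, a.insert i, mul_mem p q⟩, _, a.insert i, mul_mem (inv_mem p) q⟩

end Pool.Agent.Lib.MP_5d3e93_al.At
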