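import Pool.Agent.Lib.MP_5d3e93_al.At.CqA
import Pool.Agent.Lib.MP_5d3e93_al.At.Rel

/-! Reduction to the sets of generators with finite labels. -/

namespace Pool.Agent.Lib.MP_5d3e93_al.At

open Pool.Agent.Lib.MP_35cce7_an (par par_mono)
open Pool.Agent.Lib.MP_35cce7_an renaming Ar → AG

universe v u

variable {B : Type} {M : CoxeterMatrix B}

/-- Large subgroups that do not lie in a conjugate of the subgroup of a smaller clique. -/
def Rig (Q : Set B) (D : Subgroup (AG M)) : Prop := ¬ LocHyper D ∧ ∀ U, U.Finite → Cq M U →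
  (∃ g, ∀ d ∈ D, g⁻¹ * d * g ∈ par M U) → Q.ncard ≤ U.ncard

theorem tm_cq {𝓕 : Fam (AG M)} (h : ∀ T, T.Finite → Mal M Rig T) {Q : Set B} (hQ : Q.Finite)
    (q : Cq M Q) (r : ∀ U, U.Finite → U.ncard ≤ Q.ncard → 𝓕.m (par M U)) : 𝓕.Tm (par M Q) := by
  induction hn : Q.ncard using Nat.strong_induction_on generalizing Q with | _ n ih => ?_
  refine ⟨_, fun D ⟨t, _, b, c⟩ => ?_⟩
  by_cases k : Rig Q D
  · obtain ⟨T, t1, t2⟩ := cq_fin t
    exact (b (𝓕.le (sup_le le_rfl (Subgroup.zpowers_le.2 (mal_in h q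
      (fun x p => (mem_cj.1 (c p)).1) k (fun x p => (mem_cj.1 (c p)).2) (t1.union hQ)
        Set.subset_union_right (par_mono Set.subset_union_left t2)))) (r Q hQ le_rfl))).elim
  by_cases l : LocHyper D
  · exact Fam.tm_lh l
  obtain ⟨U, u1, u2, ⟨g, u3⟩, u4⟩ : ∃ U : Set B, U.Finite ∧ Cq M U ∧
      (∃ g, ∀ d ∈ D, g⁻¹ * d * g ∈ par M U) ∧ U.ncard < Q.ncard := by
    by_contra! f
    exact k ⟨l, f⟩
  exact tm_conj (ih _ (hn ▸ u4) u1 u2 (fun W a b => r W a (b.trans u4.le)) rfl) g u3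

variable (M) in
/-- The subgroup of `T` acts on a lattice with stabilisers in subgroups of smaller cliques. -/
def CBl (T : Set B) : Prop := ∃ (L : Type) (_ : Group L) (j : L →* AG M), Function.Injective j ∧
  j.range = par M T ∧ BlA L {s | ∃ U ⊂ T, Cq M U ∧ ∃ g, s = {k | g⁻¹ * j k * g ∈ par M U}}

theorem cbl_not {T : Set B} (hT : T.Finite) (k : ¬ Cq M T) : CBl M T := by
  have : Finite {c : Bool → B | (∀ j, c j ∈ T) ∧ M (c true) (c false) = 0} :=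
    (Set.Finite.pi' fun _ => hT).subset fun _ a => a.1
  refine ⟨_, _, (par M T).subtype, Subtype.val_injective, Subgroup.range_subtype _,
    ((blA_pi fun c : {c : Bool → B | (∀ j, c j ∈ T) ∧ M (c true) (c false) = 0} =>
      cq_bl c.2.2).comap (par M T).subtype).mono ?_⟩
  rintro _ ⟨_, ⟨s, a, rfl⟩, rfl⟩
  obtain ⟨Q, q1, q2, g, q3⟩ := cq_stab (M := M) hT (D := (⋂ i, s i) ∩ par M T) (t := 1)
    (fun d p => by simpa using p.2) fun c c1 c2 => by
      obtain ⟨j, g, e⟩ := a ⟨c, c1, c2⟩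
      exact ⟨j, g, fun d p => e.le (Set.mem_iInter.1 p.1 _)⟩
  exact ⟨_, ⟨Q, q1.ssubset_of_ne fun e => k (e ▸ q2), q2, g, rfl⟩, fun x p => q3 x ⟨p, x.2⟩⟩

theorem rel_cq {𝓕 : Fam (AG M)} (hM : ∀ T, T.Finite → Cq M T → Mal M Rig T)
    (hB : ∀ T, T.Finite → Cq M T → Rel.{0, v, u} 𝓕 (par M T) ∨ CBl M T) {T : Set B}
    (hT : T.Finite) : Rel.{0, v, u} 𝓕 (par M T) := by
  induction hn : T.ncard using Nat.strong_induction_on generalizing T with | _ n ih => ?_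
  obtain a | ⟨L, _, j, j1, j2, X, _, _, _, E, _, b⟩ :=
    (em _).elim (hB T hT) fun k => .inr (cbl_not hT k)
  · exact a
  refine j2 ▸ rel_lat j1 E fun z => ?_
  obtain ⟨_, ⟨U, u1, u2, g, rfl⟩, c⟩ := b z
  refine tm_pull (hyper_ker j1) (tm_conj (tm_cq (𝓕 := rel.{0, v, u} 𝓕)
    (fun _ => mal_all hM) (hT.subset u1.le) u2 fun W p q =>
      ih _ (hn ▸ q.trans_lt (Set.ncard_lt_ncard u1 hT)) p rfl) g ?_) _ le_rfl
  rintro _ ⟨x, p, rfl⟩
  exact c x p

end Pool.Agent.Lib.MP_5d3e93_al.At
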