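import Pool.Agent.Lib.MP_5d3e93_al.At.Bd

/-! Parabolic subgroups of Coxeter groups: supports, products and cores. -/

namespace Pool.Agent.Lib.MP_5d3e93_al.At

open CoxeterSystem MP_35cce7_an

variable {B W : Type} [Group W] {M : CoxeterMatrix B} {cs : CoxeterSystem M W}
  {J K : Set B} {a b : B} {u v w : W}

theorem simple_inj (e : cs.simple a = cs.simple b) : a = b := by
  by_contra n
  exact simple_ne (cs := cs) n (by simp [e])

theorem inP_simple (h : InP cs J (cs.simple a)) : a ∈ J := by
  obtain ⟨i, c, l⟩ := inP_desc h (simple_ne_one a)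
  rw [length_simple, Nat.lt_one_iff, length_eq_zero_iff] at l
  by_contra n
  exact simple_ne (fun e : i = a => n (e ▸ c)) l

theorem inP_mono (h : InP cs J w) (e : J ⊆ K) : InP cs K w :=
  h.imp fun _ c => ⟨fun i d => e (c.1 i d), c.2⟩

theorem inP_asc (h : InP cs J u) (n : a ∉ J) : cs.length u < cs.length (cs.simple a * u) := by
  rcases cs.length_simple_mul u a with l | l
  · omega
  obtain ⟨ω, c, rfl⟩ := h
  obtain ⟨j, -, e⟩ := strong_exchange_left cs ω (cs.isReflection_simple a) (by omega)
  have : InP cs J (cs.simple a * cs.wordProd ω * (cs.wordProd ω)⁻¹) :=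
    InP.mul ⟨_, fun i d => c i (List.mem_of_mem_eraseIdx d), e⟩ (InP.inv ⟨ω, c, rfl⟩)
  exact (n (inP_simple (by simpa using this))).elim

theorem inP_inter (h : InP cs J w) (k : InP cs K w) : InP cs (J ∩ K) w := by
  induction hn : cs.length w using Nat.strong_induction_on generalizing w with
  | _ n ih =>
    by_cases e : w = 1
    · exact e ▸ InP.one _
    obtain ⟨i, c, l⟩ := inP_desc h e
    have d : i ∈ K := by_contra fun n => (inP_asc k n).not_gt l
    simpa using (InP.simple (J := J ∩ K) ⟨c, d⟩).mul
      (ih _ (hn ▸ l) ((InP.simple c).mul h) ((InP.simple d).mul k) rfl)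

theorem inP_minC (K : Set B) (h : InP cs J u) :
    ∃ p q, InP cs J p ∧ InP cs K q ∧ IsMinC cs K p ∧ u = p * q := by
  obtain ⟨ω, c, rfl⟩ := h
  induction ω with
  | nil => exact ⟨1, 1, .one _, .one _, .one _, by simp⟩
  | cons i ω ih =>
    obtain ⟨p, q, h1, h2, h3, e⟩ := ih fun j d => c j (by simp [d])
    have s := (InP.simple (cs := cs) (c i (by simp))).mul h1
    rw [wordProd_cons, e, ← mul_assoc]
    rcases cs.length_simple_mul p i with l | l
    · rcases h3.up (i := i) (by omega) with m | ⟨j, d, m⟩
      · exact ⟨_, q, s, h2, m, rfl⟩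
      · exact ⟨p, _, h1, (InP.simple d).mul h2, h3, by rw [m, mul_assoc]⟩
    · exact ⟨_, q, s, h2, h3.down (by omega), rfl⟩

theorem min_of (h : ∀ i ∈ J, cs.length w < cs.length (cs.simple i * w)) (k : InP cs J u) :
    cs.length (u * w) = cs.length u + cs.length w := by
  obtain ⟨p, q, c, rfl, d⟩ := ex_min (cs := cs) J w
  by_cases e : p = 1
  · simpa [e] using d u k
  obtain ⟨i, m, l⟩ := inP_desc c e
  have := h i m
  rw [← mul_assoc, d _ c, d _ ((InP.simple m).mul c)] at this
  omega

theorem len_two (n : a ≠ b) : cs.length (cs.simple a * cs.simple b) = 2 := by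
  have := cs.length_simple_mul (cs.simple b) a
  have := mt cs.length_eq_zero_iff.1 (simple_ne (cs := cs) n)
  rw [length_simple] at *
  omega

theorem desc_a (n : a ≠ b) (h : cs.length w < cs.length (cs.simple a * w))
    (k : cs.length w < cs.length (cs.simple b * w)) :
    cs.length (cs.simple a * w) < cs.length (cs.simple b * (cs.simple a * w)) := by
  have := min_of (cs := cs) (J := {a, b}) (w := w) (by simp [h, k])
    ((InP.simple (i := b) (by simp)).mul (InP.simple (i := a) (by simp)))
  have := cs.length_simple_mul w a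
  rw [← mul_assoc, ‹cs.length (_ * _ * w) = _›, len_two n.symm]
  omega

theorem desc_b (n : a ≠ b) (m : M a b ≠ 2) (h : cs.length w < cs.length (cs.simple a * w))
    (k : cs.length w < cs.length (cs.simple b * w)) :
    cs.length (cs.simple b * (cs.simple a * w)) <
      cs.length (cs.simple a * (cs.simple b * (cs.simple a * w))) := by
  have p : InP cs {a, b} (cs.simple b * cs.simple a) :=
    (InP.simple (by simp)).mul (InP.simple (by simp))
  have q := (InP.simple (cs := cs) (i := a) (by simp)).mul p
  have e1 := min_of (w := w) (by simp [h, k]) p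
  have e2 := min_of (w := w) (by simp [h, k]) q
  simp only [mul_assoc, len_two n.symm] at e1 e2
  rcases cs.length_simple_mul (cs.simple b * cs.simple a) a with l | l <;>
    rw [len_two n.symm] at l
  · omega
  obtain ⟨i, c⟩ := cs.length_eq_one_iff.1 (Nat.succ_injective l)
  obtain rfl | rfl := inP_simple (c ▸ q)
  · exact (simple_ne n.symm (by simpa using c)).elim
  · exact (simple_nc (cs := cs) n m (by nth_rw 1 [← c]; simp)).elim

theorem cen_one (h : InP cs J u) (n : a ∉ J) (e : cs.simple a * u = u * cs.simple a)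
    (l : cs.length (cs.simple b * u) < cs.length u) : M b a = 2 := by
  by_contra m
  have c : b ∈ J := by_contra fun c => (inP_asc h c).not_gt l
  have := desc_b (w := cs.simple b * u) (fun e : b = a => n (e ▸ c)) m (by simpa using l)
    (inP_asc ((InP.simple c).mul h) n)
  rw [simple_mul_simple_cancel_left, e, ← mul_assoc] at this
  have := cs.length_mul_simple (cs.simple b * u) a
  have := inP_asc h n
  rw [e] at this
  omega

theorem ord_two (m : M b a ≠ 2) (h : ∃ p q, InP cs {a}ᶜ p ∧ InP cs {b}ᶜ q ∧ w = p * q)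
    (k : ∃ p q, InP cs {b}ᶜ p ∧ InP cs {a}ᶜ q ∧ w = p * q) : InP cs {a}ᶜ w ∨ InP cs {b}ᶜ w := by
  induction hn : cs.length w using Nat.strong_induction_on generalizing w with
  | _ n ih =>
    by_cases o : ∃ r, r ≠ a ∧ r ≠ b ∧ cs.length (cs.simple r * w) < cs.length w
    · obtain ⟨r, r1, r2, l⟩ := o
      obtain ⟨p, q, h1, h2, e⟩ := h
      obtain ⟨p', q', k1, k2, e'⟩ := k
      refine (ih _ (hn ▸ l) ⟨_, q, (InP.simple (i := r) r1).mul h1, h2, by rw [e, mul_assoc]⟩
        ⟨_, q', (InP.simple (i := r) r2).mul k1, k2, by rw [e', mul_assoc]⟩ rfl).imp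
          (fun c => ?_) fun c => ?_
      · simpa using (InP.simple (i := r) r1).mul c
      · simpa using (InP.simple (i := r) r2).mul c
    have key : ∀ a b : B, (∀ r, r ≠ a → cs.length (cs.simple r * w) < cs.length w → r = b) →
        (∃ p q, InP cs {a}ᶜ p ∧ InP cs {b}ᶜ q ∧ w = p * q) → InP cs {b}ᶜ w ∨ ∃ p q,
          InP cs {a}ᶜ p ∧ InP cs {b}ᶜ q ∧ w = p * q ∧ IsMinC cs {b}ᶜ p ∧
            cs.length (cs.simple b * p) < cs.length p ∧
              cs.length (cs.simple b * w) < cs.length w := by
      rintro a b o ⟨u, v, h1, h2, rfl⟩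
      obtain ⟨p, q, c, d, e, rfl⟩ := inP_minC {b}ᶜ h1
      rw [mul_assoc] at o ⊢
      by_cases z : p = 1
      · exact .inl (by simpa [z] using d.mul h2)
      obtain ⟨i, f, l⟩ := inP_desc c z
      have l' : cs.length (cs.simple i * (p * (q * v))) < cs.length (p * (q * v)) := by
        have := cs.length_mul_le (cs.simple i * p) (q * v)
        rw [← mul_assoc, e.length_mul (d.mul h2)]
        omega
      obtain rfl := o i f l'
      exact .inr ⟨p, _, c, d.mul h2, rfl, e, l, l'⟩
    obtain c | ⟨p, q, h1, h2, rfl, h3, l, -⟩ :=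
      key a b (fun r c d => by_contra fun e => o ⟨r, c, e, d⟩) h
    · exact .inr c
    obtain c | ⟨-, -, -, -, -, -, -, l'⟩ :=
      key b a (fun r c d => by_contra fun e => o ⟨r, e, c, d⟩) k
    · exact .inl c
    have s := inP_asc h1 (a := a) (by simp)
    obtain c | ⟨j, -, c⟩ := h3.up s
    · rw [← mul_assoc, c.length_mul h2, h3.length_mul h2] at l'
      omega
    obtain rfl : j = a := by_contra fun e => inP_simple (cs := cs) (J := {a}ᶜ) (by
      have := (h1.mul (InP.simple (i := j) e)).mul h1.inv
      rwa [← c, mul_inv_cancel_right] at this) rfl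
    exact (m (cen_one h1 (by simp) c l)).elim

theorem kilm (h : ∀ i ∈ J, cs.length w < cs.length (cs.simple i * w)) (k : IsMinC cs K w)
    (hu : InP cs J u) (hv : InP cs K v) (e : u * w = w * v) :
    InP cs {s ∈ J | ∃ t ∈ K, cs.simple s * w = w * cs.simple t} u := by
  induction hn : cs.length u using Nat.strong_induction_on generalizing u v with
  | _ n ih =>
    by_cases z : u = 1
    · exact z ▸ InP.one _
    obtain ⟨i, c, l⟩ := inP_desc hu z
    have s := (InP.simple c).mul hu
    obtain m | ⟨j, d, m⟩ := k.up (h i c)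
    · have e1 := min_of h s
      have e2 := min_of h hu
      have := h i c
      rw [mul_assoc, e, ← mul_assoc, m.length_mul hv] at e1
      rw [e, k.length_mul hv] at e2
      omega
    · simpa using (InP.simple (J := {s ∈ J | ∃ t ∈ K, cs.simple s * w = w * cs.simple t})
        ⟨c, j, d, m⟩).mul (ih _ (hn ▸ l) s ((InP.simple d).mul hv)
          (by rw [mul_assoc, e, ← mul_assoc, m, mul_assoc]) rfl)

variable (M) in
/-- A core: three generators no two of which commute, or two with label infinity. -/
def Core (K : Set B) : Prop := K.Nonempty ∧ (∀ a ∈ K, ∀ b ∈ K, M a b ≠ 2) ∧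
  (∀ a ∈ K, ∀ b ∈ K, K ⊆ {a, b} → M a b = 0) ∧
    ∀ a ∈ K, ∃ b ∈ K, ∃ c ∈ K, a ≠ b ∧ a ≠ c ∧ K ⊆ {a, b, c}

theorem Core.pow (h : Core M K) (m : a ∈ K) : ∃ g, InP cs K g ∧
    ∀ n, cs.length (cs.simple a * g ^ (n + 1)) < cs.length (g ^ (n + 1)) := by
  obtain ⟨-, h1, h2, h3⟩ := h
  obtain ⟨b, hb, c, hc, n1, n2, s⟩ := h3 a m
  let A (i) (w : W) := cs.length w < cs.length (cs.simple i * w)
  by_cases e : b = c
  · subst e
    have z := h2 a m b hb (by simpa using s)
    have st : ∀ a b w, a ≠ b → M a b = 0 → InP cs {a, b} w → A a w → A b (cs.simple a * w) := by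
      intro a b w n z p l
      rcases cs.length_simple_mul (cs.simple a * w) b with l' | l'
      · exact l'.ge
      · exact (two_desc n ((InP.simple (by simp)).mul p) (by simpa using l) l'.le z).elim
    have key : ∀ n, InP cs {b, a} ((cs.simple a * cs.simple b) ^ n) ∧
        A b ((cs.simple a * cs.simple b) ^ n) := fun n => by
      induction n with
      | zero => exact ⟨pow_zero (M := W) _ ▸ .one _, by simp [A]⟩
      | succ n ih =>
        have p := (InP.simple (i := b) (by simp)).mul ih.1
        rw [pow_succ', mul_assoc]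
        exact ⟨(InP.simple (by simp)).mul p, st a b _ n1 z (Set.pair_comm a b ▸ p)
          (st b a _ n1.symm (M.symmetric a b ▸ z) ih.1 ih.2)⟩
    refine ⟨_, (InP.simple m).mul (InP.simple hb), fun n => ?_⟩
    rw [pow_succ', mul_assoc, simple_mul_simple_cancel_left]
    exact st b a _ n1.symm (M.symmetric a b ▸ z) (key n).1 (key n).2
  have st : ∀ d a b w, a ≠ b → d ≠ a → M d a ≠ 2 → A d w ∧ A a w ∧ A b (cs.simple d * w) →
      A a (cs.simple d * w) ∧ A b (cs.simple d * w) ∧
        A d (cs.simple a * (cs.simple d * w)) :=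
    fun d a b w n n' m ⟨p, q, r⟩ => ⟨desc_a n' p q, r, desc_b n' m p q⟩
  have s1 := fun w => st c b a w n1.symm (Ne.symm e) (h1 c hc b hb)
  have s2 := fun w => st b a c w n2 n1.symm (h1 b hb a m)
  have key : ∀ n, A c ((cs.simple a * (cs.simple b * cs.simple c)) ^ n) ∧
      A b ((cs.simple a * (cs.simple b * cs.simple c)) ^ n) ∧
        A a (cs.simple c * (cs.simple a * (cs.simple b * cs.simple c)) ^ n) := fun n => by
    induction n with
    | zero => simp [A, len_two n2]
    | succ n ih =>
      rw [pow_succ', mul_assoc, mul_assoc]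
      exact st a c b _ (Ne.symm e) n2 (h1 a m c hc) (s2 _ (s1 _ ih))
  refine ⟨_, (InP.simple m).mul ((InP.simple hb).mul (InP.simple hc)), fun n => ?_⟩
  rw [pow_succ', mul_assoc, mul_assoc, simple_mul_simple_cancel_left]
  exact (s2 _ (s1 _ (key n))).1

theorem Core.cen (h : Core M K) (k : ∀ s ∈ K, cs.length w < cs.length (cs.simple s * w) ∧
    ∃ t, cs.simple s * w = w * cs.simple t) : ∀ s ∈ K, cs.simple s * w = w * cs.simple s := by
  induction hn : cs.length w using Nat.strong_induction_on generalizing w with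
  | _ n ih =>
    by_cases z : w = 1
    · simp [z]
    obtain ⟨r, -, l⟩ := inP_desc (inP_univ (cs := cs) w) z
    have nr : r ∉ K := fun c => (k r c).1.not_gt l
    obtain ⟨τ, hτ, rfl⟩ := cs.exists_isReduced w
    have fin : ∀ u, InP cs K u → ∃ j : Fin τ.length,
        cs.simple r * u * cs.wordProd τ = u * cs.wordProd (τ.eraseIdx j) := by
      intro u hu
      have e0 := min_of (fun s c => (k s c).1) hu
      obtain ⟨ω, c, d, rfl⟩ := hu.exists_reduced
      obtain ⟨v, p, q⟩ : ∃ v, cs.wordProd ω * cs.wordProd τ = cs.wordProd τ * v ∧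
          cs.length v ≤ ω.length := by
        clear * - c k
        induction ω with
        | nil => exact ⟨1, by simp⟩
        | cons i ω ih =>
          obtain ⟨v, p, q⟩ := ih fun j d => c j (by simp [d])
          obtain ⟨t, e⟩ := (k i (c i (by simp))).2
          have := cs.length_simple_mul v t
          exact ⟨cs.simple t * v, by rw [wordProd_cons, mul_assoc, p, ← mul_assoc, e, mul_assoc],
            by rw [List.length_cons]; omega⟩
      obtain ⟨j, j1, j2⟩ := strong_exchange_left cs (ω ++ τ) (cs.isReflection_simple r) (by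
        have := cs.length_mul_le (cs.simple r * cs.wordProd τ) v
        rw [wordProd_append, e0, p, ← mul_assoc, d.eq]
        omega)
      rw [wordProd_append, ← mul_assoc] at j2
      rcases lt_or_ge j ω.length with o | o
      · rw [List.eraseIdx_append_of_lt_length o, wordProd_append, mul_left_inj] at j2
        have := InP.mul ⟨_, fun i d => c i (List.mem_of_mem_eraseIdx d), j2⟩ hu.inv
        exact (nr (inP_simple (by simpa using this))).elim
      · rw [List.eraseIdx_append_of_length_le o, wordProd_append] at j2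
        exact ⟨⟨_, by rw [List.length_append] at j1; omega⟩, j2⟩
    have cm : ∀ s ∈ K, cs.simple s * cs.simple r = cs.simple r * cs.simple s := by
      intro s c
      obtain ⟨g, g1, g2⟩ := h.pow (cs := cs) c
      have g3 : ∀ n, InP cs K (g ^ n) := fun n => by
        induction n with
        | zero => exact pow_zero (M := W) _ ▸ .one _
        | succ n ih => exact pow_succ g n ▸ ih.mul g1
      choose f hf using fun n => fin _ (g3 n)
      obtain ⟨x, -, y, -, o, e⟩ := (Set.infinite_univ (α := ℕ)).exists_lt_map_eq_of_mapsTo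
        (f := f) (Set.mapsTo_univ _ _) Set.finite_univ
      obtain ⟨d, rfl⟩ := Nat.exists_eq_add_of_lt o
      have p := hf (x + d + 1)
      rw [← e, add_assoc, add_comm, pow_add, mul_assoc (g ^ _), ← hf x, ← mul_assoc,
        ← mul_assoc, ← mul_assoc, mul_left_inj, mul_left_inj] at p
      have := cs.simple_mul_simple_pow s r
      rw [cen_one (g3 _) nr p (g2 d), pow_two, mul_eq_one_iff_eq_inv] at this
      simpa using this
    have := ih _ (hn ▸ l) (w := cs.simple r * cs.wordProd τ) (fun s c => by
      obtain ⟨p, t, q⟩ := k s c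
      have := cs.length_simple_mul (cs.simple s * cs.wordProd τ) r
      have := cs.length_simple_mul (cs.wordProd τ) r
      rw [← mul_assoc, cm s c, mul_assoc]
      exact ⟨by omega, t, by rw [q, mul_assoc]⟩) rfl
    intro s c
    have := this s c
    rwa [← mul_assoc, cm s c, mul_assoc, mul_assoc, mul_right_inj] at this

end Pool.Agent.Lib.MP_5d3e93_al.At
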