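import Pool.Agent.Lib.MP_5d3e93_al.At.Cw

/-! A core is not conjugate into a parabolic subgroup that misses one of its generators. -/

namespace Pool.Agent.Lib.MP_5d3e93_al.At

open CoxeterSystem MP_35cce7_an

variable {B W : Type} [Group W] {M : CoxeterMatrix B} {cs : CoxeterSystem M W} {K : Set B}

theorem Core.not_conj (k : Core M K) {a : B} (m : a ∈ K) (w : W) :
    ¬ ∀ s ∈ K, InP cs {a}ᶜ (w * cs.simple s * w⁻¹) := by
  classical
  intro h
  have ex : ∃ n, ∃ x : W, (∀ s ∈ K, InP cs {a}ᶜ (x⁻¹ * cs.simple s * x)) ∧ cs.length x = n :=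
    ⟨_, w⁻¹, by simpa using h, rfl⟩
  obtain ⟨x, c, l⟩ := Nat.find_spec ex
  have mn : ∀ y : W, (∀ s ∈ K, InP cs {a}ᶜ (y⁻¹ * cs.simple s * y)) → cs.length x ≤ cs.length y :=
    fun y d => l ▸ Nat.find_min' ex ⟨y, d, rfl⟩
  have m2 : IsMinC cs {a}ᶜ x := fun u d => mn _ fun s e => by
    simpa [mul_assoc] using (d.inv.mul (c s e)).mul d
  have m1 : ∀ s ∈ K, cs.length x < cs.length (cs.simple s * x) ∧
      ∃ t ∈ ({a}ᶜ : Set B), cs.simple s * x = x * cs.simple t := fun s d => by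
    have := mn (cs.simple s * x) fun t e => by
      simpa [mul_assoc] using ((c s d).mul (c t e)).mul (c s d)
    have := cs.length_simple_mul x s
    refine ⟨by omega, (m2.up (by omega)).resolve_left fun o => ?_⟩
    have := o _ (c s d)
    have := m2 _ (c s d)
    simp only [mul_assoc, mul_inv_cancel_left, simple_mul_simple_cancel_left] at *
    omega
  obtain ⟨-, t, n, o⟩ := m1 a m
  rw [k.cen (fun i d => ⟨(m1 i d).1, (m1 i d).2.imp fun _ => And.right⟩) a m, mul_right_inj] at o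
  exact n (simple_inj o).symm

theorem tri_not_conj {a y z : B} (n1 : a ≠ y) (n2 : a ≠ z) (n3 : y ≠ z) (m1 : M a y ≠ 2)
    (m2 : M a z ≠ 2) (m3 : M y z ≠ 2) (w : W) :
    ¬ ∀ s ∈ ({a, y, z} : Set B), InP cs {a}ᶜ (w * cs.simple s * w⁻¹) := by
  have sy := M.symmetric
  refine Core.not_conj ⟨by simp, ?_, ?_, ?_⟩ (by simp) w
  · simp [m1, m2, m3, sy y a, sy z a, sy z y]
  · simp [n1, n2, n3, n1.symm, n2.symm, n3.symm, Set.insert_subset_iff]
  · rintro _ (rfl | rfl | rfl)
    · exact ⟨y, by simp, z, by simp, n1, n2, by simp⟩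
    · exact ⟨a, by simp, z, by simp, n1.symm, n3, by simp [Set.insert_subset_iff]⟩
    · exact ⟨a, by simp, y, by simp, n2.symm, n3.symm, by simp [Set.insert_subset_iff]⟩

end Pool.Agent.Lib.MP_5d3e93_al.At
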