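import Pool.Agent.Lib.MP_5d3e93_al.At.Cw
import Pool.Agent.Lib.MP_5d3e93_al.At.Bv

/-! Buildings of any type: the coarse chamber system of a core. -/

namespace Pool.Agent.Lib.MP_5d3e93_al.At

open CoxeterSystem MP_35cce7_an Relation MulAction
open scoped Pointwise

universe v

variable {B W : Type} [Group W] {M : CoxeterMatrix B} {cs : CoxeterSystem M W} {C : Type v}
  {δ : C → C → W} (h : Bld cs δ) {J K : Set B} {x y z : C}
include h

theorem Bld.prefl (J : Set B) (x : C) : InP cs J (δ x x) := (h.d1 x x).2 rfl ▸ .one _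

theorem Bld.psymm (a : InP cs J (δ x y)) : InP cs J (δ y x) := h.inv x y ▸ a.inv

theorem Bld.add (e : cs.length (δ x y * δ y z) = cs.length (δ x y) + cs.length (δ y z)) :
    δ x z = δ x y * δ y z := by
  refine h.pind (T := .univ) (y := y) (P := fun x => cs.length (δ x y * δ y z) =
    cs.length (δ x y) + cs.length (δ y z) → δ x z = δ x y * δ y z)
    (fun _ => by simp [(h.d1 y y).2 rfl]) (fun x x' i _ a b l _ ih e => ?_) (inP_univ _) e
  have l1 := cs.length_simple_mul (δ x y * δ y z) i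
  have l2 := cs.length_simple_mul (δ x y) i
  have l3 := cs.length_mul_le (δ x' y) (δ y z)
  rw [← mul_assoc] at l1
  rw [← b] at l1 l2
  have := ih (by omega)
  rw [h.up a (by rw [this, b, mul_assoc, simple_mul_simple_cancel_left, ← mul_assoc, ← b]; omega),
    this, b, mul_assoc, simple_mul_simple_cancel_left]

theorem Bld.prod (a : InP cs J (δ x y)) (b : InP cs K (δ y z)) :
    ∃ p q, InP cs J p ∧ InP cs K q ∧ δ x z = p * q := by
  refine h.pind (P := fun x => ∃ p q, InP cs J p ∧ InP cs K q ∧ δ x z = p * q)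
    ⟨1, _, .one _, b, by simp⟩ (fun x x' i c d _ _ _ ⟨p, q, e, f, g⟩ => ?_) a
  obtain k | k := h.d2 x' z x i d
  · exact ⟨_, q, (InP.simple c).mul e, f, by rw [k, g, mul_assoc]⟩
  · exact ⟨p, q, e, f, k.trans g⟩

/-- Residues of type `J`. -/
def Bld.res (J : Set B) : Setoid C := ⟨fun x y => InP cs J (δ x y), h.prefl J, h.psymm, h.ptrans⟩

theorem Bld.coarse (k : Core M K) : Chs (S := K) (C := Quotient (h.res Kᶜ))
    (fun s x y => InP cs (insert s.1 Kᶜ) (δ x.out y.out)) fun s t => M s t ≠ 0 := by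
  have mk {J} (e : Kᶜ ⊆ J) {x y} (a : InP cs J (δ x y)) :
      InP cs J (δ (Quotient.mk (h.res Kᶜ) x).out (Quotient.mk (h.res Kᶜ) y).out) :=
    h.ptrans (inP_mono (Quotient.mk_out (s := h.res Kᶜ) x) e)
      (h.ptrans a (h.psymm (inP_mono (Quotient.mk_out (s := h.res Kᶜ) y) e)))
  have r {s : K} {i x y} (e : i ∈ insert s.1 Kᶜ) (a : δ x y = cs.simple i) :=
    mk (Set.subset_insert _ _) (a ▸ InP.simple e : InP cs (insert s.1 Kᶜ) (δ x y))
  have h4 (s t : K) (n : s ≠ t) (x y : Quotient (h.res Kᶜ))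
      (a : InP cs (insert s.1 Kᶜ) (δ x.out y.out)) (b : InP cs (insert t.1 Kᶜ) (δ x.out y.out)) :
      x = y := Quotient.out_equiv_out.1 (inP_mono (inP_inter a b) (by
    rintro i ⟨rfl | c, d | d⟩
    exacts [(n (Subtype.ext d)).elim, d, c, c]))
  have pk (i : B) : ∃ s : K, i ∈ insert s.1 Kᶜ :=
    (em (i ∈ K)).elim (fun c => ⟨⟨i, c⟩, .inl rfl⟩) fun c => ⟨⟨_, k.1.some_mem⟩, .inr c⟩
  refine ⟨by simp, fun s => ⟨fun x => h.prefl _ _, h.psymm, h.ptrans⟩, fun x y => ?_, h4,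
    fun s t n a b c d p q p' q' => ?_, fun Q _ f e => ?_⟩
  · rw [← x.out_eq, ← y.out_eq]
    exact h.pind (T := .univ) (P := fun x => EqvGen _ (Quotient.mk (h.res Kᶜ) x) (.mk _ y.out))
      (.refl _) (fun x z i _ a _ _ _ b => (pk i).elim fun s c =>
        .trans _ _ _ (.rel _ _ ⟨s, r c a⟩) b) (inP_univ _)
  · have m {s t : K} (n : s ≠ t) : insert s.1 Kᶜ ⊆ {t.1}ᶜ := by
      rintro i (rfl | c) d
      exacts [n (Subtype.ext d), c (d ▸ t.2)]
    have u {s t : K} {x y z : C} (a : InP cs (insert s.1 Kᶜ) (δ x y))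
        (b : InP cs (insert t.1 Kᶜ) (δ y z)) (c : InP cs {t.1}ᶜ (δ x z)) :
        InP cs (insert s.1 Kᶜ) (δ x z) := inP_mono (inP_inter c (h.ptrans
          (inP_mono a (Set.subset_union_left (t := insert t.1 Kᶜ)))
          (inP_mono b Set.subset_union_right))) (by
      rintro i ⟨d, e | e | e⟩
      exacts [e, (d e).elim, .inr e])
    obtain ⟨p1, p2, e1, e2, e3⟩ := h.prod p q
    obtain ⟨q1, q2, f1, f2, f3⟩ := h.prod (h.psymm q') (h.psymm p')
    obtain o | o := ord_two (k.2.1 s s.2 t t.2) ⟨_, _, inP_mono e1 (m n), inP_mono e2 (m n.symm), e3⟩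
      ⟨_, _, inP_mono f1 (m n.symm), inP_mono f2 (m n), f3⟩
    · exact .inr (h4 s t n _ _ (h.ptrans (h.psymm p) (u p q o)) q)
    · exact .inl (h4 s t n _ _ p (h.ptrans (u (h.psymm q') (h.psymm p') o) (h.psymm q)))
  · obtain ⟨A, a⟩ := h.cocycle (fun x y => f (.mk _ x) (.mk _ y)) fun s t m => by
      obtain ⟨s', t', c, d, m'⟩ : ∃ s' t' : K, (s ∈ insert s'.1 Kᶜ ∨ s ∈ insert t'.1 Kᶜ) ∧
          (t ∈ insert s'.1 Kᶜ ∨ t ∈ insert t'.1 Kᶜ) ∧ M s' t' ≠ 0 := by
        by_cases c : s ∈ K <;> by_cases d : t ∈ K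
        · exact ⟨⟨s, c⟩, ⟨t, d⟩, by simp, by simp, m⟩
        · exact ⟨⟨s, c⟩, ⟨s, c⟩, by simp, by simp [d], by simp⟩
        · exact ⟨⟨t, d⟩, ⟨t, d⟩, by simp [c], by simp, by simp⟩
        · exact ⟨⟨_, k.1.some_mem⟩, ⟨_, k.1.some_mem⟩, by simp [c], by simp [d], by simp⟩
      obtain ⟨A, b⟩ := e s' t' m'
      exact ⟨fun x y => (A (.mk _ x))⁻¹ * A (.mk _ y), fun x y z _ _ => by simp [mul_assoc],
        fun x y o => inv_mul_eq_of_eq_mul (b _ _ (o.elim (fun o => c.imp (r · o) (r · o))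
          fun o => d.imp (r · o) (r · o))).symm⟩
    refine ⟨fun x => A x.out, fun s x y b => ?_⟩
    obtain ⟨F, p⟩ := e s s (by simp)
    have q {x y} (b : InP cs (insert s.1 Kᶜ) (δ x y)) :=
      eq_inv_mul_of_mul_eq (p _ _ (.inl (mk (Set.subset_insert _ _) b)))
    suffices A x.out * f (.mk _ x.out) (.mk _ y.out) = A y.out by simpa using this
    refine h.pind (P := fun x => A x * f (.mk _ x) (.mk _ y.out) = A y.out)
      (by rw [q (h.prefl _ _), inv_mul_cancel, mul_one]) (fun x z i c d e' _ g ih => ?_) b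
    rw [← ih, ← a x z i d, q g, q (d ▸ InP.simple c), q (e' ▸ (InP.simple c).mul g)]
    simp [mul_assoc]

variable {G : Type v} [Group G] [MulAction G C] (hG : ∀ (g : G) x y, δ (g • x) (g • y) = δ x y)
include hG

theorem Bld.shrink (k : Core M K) {a : B} (m : a ∈ K) (e : K ⊆ J) {D : Set G}
    (p : ∀ g ∈ D, InP cs J (δ x (g • x))) (q : ∀ g ∈ D, InP cs {a}ᶜ (δ y (g • y))) :
    ∃ U ⊂ J, ∃ z, ∀ g ∈ D, InP cs U (δ z (g • z)) := by
  classical
  have ex : ∃ n, ∃ x' y', InP cs J (δ x x') ∧ InP cs {a}ᶜ (δ y y') ∧ cs.length (δ x' y') = n :=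
    ⟨_, x, y, h.prefl _ _, h.prefl _ _, rfl⟩
  obtain ⟨x', y', c, d, l⟩ := Nat.find_spec ex
  have mn : ∀ x₁ y₁, InP cs J (δ x' x₁) → InP cs {a}ᶜ (δ y' y₁) →
      cs.length (δ x' y') ≤ cs.length (δ x₁ y₁) := fun x₁ y₁ s t =>
    l ▸ Nat.find_min' ex ⟨x₁, y₁, h.ptrans c s, h.ptrans d t, rfl⟩
  have m1 : ∀ i ∈ J, cs.length (δ x' y') < cs.length (cs.simple i * δ x' y') := fun i s => by
    obtain ⟨z, t, u⟩ := h.d3 x' y' i
    have := mn z y' (h.symm t ▸ InP.simple s) (h.prefl _ _)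
    have := cs.length_simple_mul (δ x' y') i
    rw [u] at *
    omega
  have m2 : IsMinC cs {a}ᶜ (δ x' y') := fun u s => by
    have := min_of (cs := cs) (w := δ y' x') (fun i s => by
      obtain ⟨z, t, u⟩ := h.d3 y' x' i
      have := mn x' z (h.prefl _ _) (h.symm t ▸ InP.simple s)
      have := cs.length_simple_mul (δ y' x') i
      rw [h.inv z, h.inv y', length_inv, length_inv, u] at *
      omega) s.inv
    rw [h.inv x', ← mul_inv_rev, length_inv, length_inv, length_inv] at this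
    omega
  refine ⟨{s ∈ J | ∃ t ∈ ({a}ᶜ : Set B), cs.simple s * δ x' y' = δ x' y' * cs.simple t},
    ⟨fun _ s => s.1, fun s => ?_⟩, x', fun g s => ?_⟩
  · obtain ⟨-, t, n, o⟩ := s (e m)
    rw [k.cen (fun i c => ⟨m1 i (e c), (s (e c)).2.imp fun _ => And.right⟩) a m,
      mul_right_inj] at o
    exact n (simple_inj o).symm
  · have u := h.ptrans (h.psymm c) (h.ptrans (p g s) (hG g x x' ▸ c))
    have w := h.ptrans (h.psymm d) (h.ptrans (q g s) (hG g y y' ▸ d))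
    refine kilm m1 m2 u w ?_
    rw [← h.add (m2.length_mul w), h.add (y := g • x') (z := g • y')
      (by rw [hG]; exact min_of m1 u), hG]

theorem Bld.core_bl [Nonempty C] (k : Core M K) :
    BlA G {s | ∃ a ∈ K, ∃ x, s = {g | InP cs {a}ᶜ (δ x (g • x))}} := by
  let _ : MulAction G (Quotient (h.res Kᶜ)) :=
    { smul := fun g => Quotient.map (g • ·) fun x y (e : InP ..) => (hG g x y ▸ e : InP ..)
      one_smul := fun x => x.inductionOn fun x => congrArg (Quotient.mk _) (one_smul G x)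
      mul_smul := fun f g x => x.inductionOn fun x => congrArg (Quotient.mk _) (mul_smul f g x) }
  have o (g : G) (x : Quotient (h.res Kᶜ)) : InP cs Kᶜ (δ (g • x).out (g • x.out)) := by
    nth_rw 1 [← x.out_eq]
    exact Quotient.mk_out (s := h.res Kᶜ) _
  have := k.1.to_subtype
  have := ‹Nonempty C›.map (Quotient.mk (h.res Kᶜ))
  obtain ⟨L, _, φ, P, a, b⟩ := (h.coarse k).large (G := G) fun s g x y e =>
    h.ptrans (inP_mono (o g x) (Set.subset_insert _ _)) (h.ptrans ((hG g _ _).symm ▸ e)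
      (h.psymm (inP_mono (o g y) (Set.subset_insert _ _))))
  obtain ⟨s, hs⟩ := k.1
  obtain ⟨t, ht, u, -, n, -, e⟩ := k.2.2.2 s hs
  have : Finite K := (Set.toFinite _).subset e
  refine ((a.bl (T := .univ) Set.finite_univ ⟨⟨⟨s, hs⟩⟩, trivial, ⟨⟨t, ht⟩⟩, trivial, by simpa⟩
    fun ⟨p, q, c, d⟩ => c (k.2.2.1 _ p.1.2 _ q.1.2 fun i m => ?_)).comap
      (φ.codRestrict _ fun g => by simp [a.1])).mono ?_
  · obtain rfl | rfl := d (Set.mem_univ ⟨⟨i, m⟩⟩) <;> simp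
  rintro _ ⟨_, ⟨p, -, l, -, rfl⟩, rfl⟩
  obtain ⟨s, hs, t, ht, n1, n2, e⟩ := k.2.2.2 _ p.1.2
  obtain ⟨x, c⟩ := b l ⟨⟨s, hs⟩⟩ ⟨⟨t, ht⟩⟩
  refine ⟨_, ⟨_, p.1.2, x.out, rfl⟩, fun g d => ?_⟩
  have m {i} (n : p.1.1 ≠ i) : insert i Kᶜ ⊆ {p.1.1}ᶜ := by
    rintro j (rfl | c) rfl
    exacts [n rfl, c p.1.2]
  have := c g ((iSup₂_le fun i q => ?_ : ⨆ b ∈ Set.univ \ {p}, P b ≤ _) d)
  · have r := (mem_stabilizer_iff.1 this).le (Set.smul_mem_smul_set (EqvGen.refl x))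
    refine h.ptrans ?_ (inP_mono (o g x) fun j c d => c (d ▸ p.1.2))
    generalize g • x = y at r
    clear * - r m n1 n2
    induction r with
    | rel x y a => exact a.elim (inP_mono · (m n1)) (inP_mono · (m n2))
    | refl x => exact h.prefl _ _
    | symm x y _ a => exact h.psymm a
    | trans x y z _ _ a b => exact h.ptrans a b
  · obtain z | z | z := e i.1.2
    · exact (q.2 (ULift.ext _ _ (Subtype.ext z))).elim
    · exact (ULift.ext _ _ (Subtype.ext z) : i = ⟨⟨s, hs⟩⟩) ▸ le_sup_left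
    · exact (ULift.ext _ _ (Subtype.ext z) : i = ⟨⟨t, ht⟩⟩) ▸ le_sup_right

end Pool.Agent.Lib.MP_5d3e93_al.At
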