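import Pool.Agent.Lib.MP_5d3e93_al.At.Cx

/-! Vanishing for groups that act on products of buildings of any type. -/

open Subgroup MulAction CategoryTheory Limits
open scoped Pointwise

namespace Pool.Agent.Lib.MP_5d3e93_al.At

open MP_35cce7_an

universe v u

variable {G : Type v} [Group G]

theorem Bld.free {S W : Type} [Group W] {M : CoxeterMatrix S} {cs : CoxeterSystem M W}
    {C : Type v} [MulAction G C] {δ : C → C → W} (h : Bld cs δ)
    (hG : ∀ (g : G) x y, δ (g • x) (g • y) = δ x y) {D : Set G} {T : Set S} (f : T.Finite) {x : C}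
    (p : ∀ g ∈ D, InP cs T (δ x (g • x)))
    (q : ∀ K ⊆ T, Core M K → ∃ a ∈ K, ∃ y, ∀ g ∈ D, InP cs {a}ᶜ (δ y (g • y))) :
    ∃ (J : Set S) (z : C), (J.Finite ∧ (∀ a ∈ J, ∀ b ∈ J, M a b ≠ 0) ∧ ∀ a ∈ J, ∀ b ∈ J, ∀ c ∈ J,
      a ≠ b → a ≠ c → b ≠ c → M a b = 2 ∨ M a c = 2 ∨ M b c = 2) ∧
        ∀ g ∈ D, g ∈ stabilizer G {y | δ z y ∈ closure (cs.simple '' J)} := by
  induction hn : T.ncard using Nat.strong_induction_on generalizing T x with
  | _ n ih =>
    by_cases o : ∃ K ⊆ T, Core M K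
    · obtain ⟨K, e, k⟩ := o
      obtain ⟨a, m, y, c⟩ := q K e k
      obtain ⟨U, s, z, d⟩ := h.shrink hG k m e p c
      exact ih _ (hn ▸ Set.ncard_lt_ncard s f) (f.subset s.1) d (fun K e => q K (e.trans s.1)) rfl
    have sy := M.symmetric
    have h0 : ∀ a ∈ T, ∀ b ∈ T, M a b ≠ 0 := fun a ha b hb e => by
      have n : a ≠ b := fun c => by simp [c] at e
      refine o ⟨{a, b}, Set.pair_subset ha hb, by simp, ?_, ?_, ?_⟩
      · simp [e, sy b a]
      · simp [e, sy b a, n, n.symm, Set.insert_subset_iff]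
      · rintro _ (rfl | rfl)
        · exact ⟨b, by simp, b, by simp, n, n, by simp⟩
        · exact ⟨a, by simp, a, by simp, n.symm, n.symm, by simp [Set.pair_comm]⟩
    refine ⟨T, x, ⟨f, h0, fun a ha b hb c hc n1 n2 n3 => ?_⟩, fun g m => ?_⟩
    · by_contra! e
      refine o ⟨{a, b, c}, by simp [Set.insert_subset_iff, *], by simp, ?_, ?_, ?_⟩
      · simp [e, sy b a, sy c a, sy c b]
      · simp [n1, n2, n3, n1.symm, n2.symm, n3.symm, Set.insert_subset_iff]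
      · rintro _ (rfl | rfl | rfl)
        · exact ⟨b, by simp, c, by simp, n1, n2, by simp⟩
        · exact ⟨a, by simp, c, by simp, n1.symm, n3, by simp [Set.insert_subset_iff]⟩
        · exact ⟨a, by simp, b, by simp, n2.symm, n3.symm, by simp [Set.insert_subset_iff]⟩
    · have c := (inP_iff cs).1 (p g m)
      ext y
      rw [Set.mem_smul_set_iff_inv_smul_mem, Set.mem_ofPred, ← hG g, smul_inv_smul]
      exact ⟨h.rtrans c, h.rtrans (h.rsymm c)⟩

theorem Bld.fin {S W : Type} [Group W] {M : CoxeterMatrix S} {cs : CoxeterSystem M W}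
    {C : Type v} [MulAction G C] {δ : C → C → W} (h : Bld cs δ)
    (hG : ∀ (g : G) x y, δ (g • x) (g • y) = δ x y) {H : Subgroup G} (f : H.FG) (x : C) :
    ∃ T : Set S, T.Finite ∧ ∀ g ∈ H, InP cs T (δ x (g • x)) := by
  obtain ⟨F, rfl⟩ := f
  choose ω e using fun g : G => cs.wordProd_surjective (δ x (g • x))
  refine ⟨⋃ g ∈ F, {i | i ∈ ω g}, F.finite_toSet.biUnion fun g _ => (ω g).finite_toSet,
    fun g m => ?_⟩
  induction m using closure_induction with
  | mem g m => exact ⟨ω g, fun i c => Set.mem_biUnion m c, (e g).symm⟩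
  | one => simpa using h.prefl _ x
  | mul a b _ _ p q => exact h.ptrans p (by rwa [mul_smul, hG])
  | inv a _ p => exact h.psymm (by rwa [← hG a, smul_inv_smul])

theorem kz_bld3 {𝓕 : Fam G} {X : Type v} [Lattice X] [Nonempty X] [MulAction G X] (B : Bg.Bl X)
    (hB : B.Ac G) {ι : Type} [Finite ι] {S W : ι → Type} [∀ j, Group (W j)]
    {M : ∀ j, CoxeterMatrix (S j)} {cs : ∀ j, CoxeterSystem (M j) (W j)} {C : ι → Type v}
    [∀ j, Nonempty (C j)] [∀ j, MulAction G (C j)] {δ : ∀ j, C j → C j → W j}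
    (h : ∀ j, Bld (cs j) (δ j)) (hG : ∀ j (g : G) x y, δ j (g • x) (g • y) = δ j x y)
    (hA : ∀ (x : X) (z : ∀ j, C j) (J : ∀ j, Set (S j)), (∀ j, (J j).Finite ∧
      (∀ a ∈ J j, ∀ b ∈ J j, M j a b ≠ 0) ∧ ∀ a ∈ J j, ∀ b ∈ J j, ∀ c ∈ J j,
        a ≠ b → a ≠ c → b ≠ c → M j a b = 2 ∨ M j a c = 2 ∨ M j b c = 2) →
      𝓕.Tm (stabilizer G x ⊓
        ⨅ j, stabilizer G {y | δ j (z j) y ∈ closure ((cs j).simple '' J j)}))
    {D : Type u} [Category.{v} D] [Preadditive D] [HasBinaryBiproducts D] [HasZeroObject D]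
    {σ : Act G D} (hs : Sw σ) (hf : SwF 𝓕 σ) : KZ σ := by
  refine rel_kz (fun H f => ?_) hs hf
  choose T t1 t2 using fun j => (h j).fin (hG j) f (Classical.arbitrary _)
  have : ∀ j, Finite {K // K ⊆ T j ∧ Core (M j) K} := fun j =>
    ((t1 j).finite_subsets.subset fun _ => And.left :)
  obtain ⟨Y, _, _, _, A, _, hY⟩ := ((blA_pi fun p : Σ j, {K // K ⊆ T j ∧ Core (M j) K} =>
    (h p.1).core_bl (hG _) p.2.2.2).and (𝒯 := .range fun x : X => stabilizer G x)
      ⟨X, _, ‹_›, _, B, hB, fun x => ⟨_, ⟨x, rfl⟩, fun _ => id⟩⟩).comap H.subtype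
  rw [← H.range_subtype]
  refine rel_lat H.subtype_injective A fun y => ?_
  obtain ⟨_, ⟨_, ⟨_, ⟨s, a, rfl⟩, _, ⟨x, rfl⟩, rfl⟩, rfl⟩, c⟩ := hY y
  choose J z b d using fun j => (h j).free (hG j) (D := (stabilizer H y).map H.subtype) (t1 j)
    (by rintro _ ⟨g, -, rfl⟩; exact t2 j _ g.2) fun K e k => by
      obtain ⟨i, m, w, o⟩ := a ⟨j, K, e, k⟩
      refine ⟨i, m, w, ?_⟩
      rintro _ ⟨g, r, rfl⟩
      exact o.le (Set.mem_iInter.1 (c g r).1 _)
  refine tm_pull (hyper_ker H.subtype_injective) (tm_mono (fun _ => rel_mem) (hA x z J b)) _ ?_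
  rintro _ ⟨g, r, rfl⟩
  exact ⟨(c g r).2, mem_iInf.2 fun j => d j _ ⟨g, r, rfl⟩⟩

end Pool.Agent.Lib.MP_5d3e93_al.At
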