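import Pool.Agent.Lib.MP_5d3e93_al.At.Cy

/-! Vanishing for groups that act on buildings and on chamber systems of large type. -/

open Subgroup Relation MulAction CategoryTheory Limits
open scoped Pointwise

namespace Pool.Agent.Lib.MP_5d3e93_al.At

open MP_35cce7_an

universe v u

variable {G : Type v} [Group G]

theorem rel_top {𝓕 : Fam G} {H : Subgroup G} (h : Rel.{v, v, u} (𝓕.comap H.subtype) ⊤) :
    Rel.{v, v, u} 𝓕 H := fun K _ ψ a b C _ _ _ _ σ hs hf =>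
  h K (ψ.codRestrict H fun x => b ⟨x, rfl⟩) (a.le fun _ c => congrArg Subtype.val c) le_top C σ hs
    fun U c => hf U (𝓕.le (by
      rintro _ ⟨x, d, rfl⟩
      exact ⟨_, ⟨x, d, rfl⟩, rfl⟩) c)

theorem ex_fac {S : Type} {C : Type v} [Nonempty S] [Nonempty C] [MulAction G C]
    {ρ : S → C → C → Prop} {A : Set (Set S)}
    (hC : (∃ E, Chs ρ E ∧ ∀ s t, E s t → {s, t} ∈ A) ∨ ∃ (W : Type) (_ : Group W)
      (M : CoxeterMatrix S) (cs : CoxeterSystem M W) (δ : C → C → W), Bld cs δ ∧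
        (∀ s x y, ρ s x y ↔ δ x y = 1 ∨ δ x y = cs.simple s) ∧ ∀ J : Set S, J.Finite →
          (∀ a ∈ J, ∀ b ∈ J, M a b ≠ 0) → (∀ a ∈ J, ∀ b ∈ J, ∀ c ∈ J, a ≠ b → a ≠ c → b ≠ c →
            M a b = 2 ∨ M a c = 2 ∨ M b c = 2) → J ∈ A)
    (hG : ∀ s (g : G) x y, ρ s x y → ρ s (g • x) (g • y)) (f : (⊤ : Subgroup G).FG) :
    ∃ (V L : Type v) (_ : Group L) (_ : Nonempty V) (φ : G →* L) (P : V → Subgroup L)
      (E : V → V → Prop) (𝒮 : Set (Set G)), Large P E ∧ BlA G 𝒮 ∧ ∀ s ∈ 𝒮, ∀ l a b, E a b →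
        ∀ D : Subgroup G, (∀ g ∈ D, g ∈ s) → (∀ g ∈ D, l⁻¹ * φ g * l ∈ P a ⊔ P b) → ∃ J ∈ A,
          ∃ z, D ≤ stabilizer G {y | EqvGen (fun x y => ∃ s ∈ J, ρ s x y) z y} := by
  obtain ⟨E, h, e⟩ | ⟨W, _, M, cs, δ, h, r, e⟩ := hC
  · obtain ⟨L, _, φ, P, a, b⟩ := h.large hG
    refine ⟨_, L, _, inferInstance, φ, P, _, _, a, blA_one, fun _ _ l s t c D _ d => ?_⟩
    obtain ⟨z, k⟩ := b l s t
    exact ⟨_, e _ _ c, z, fun g m => by simpa using k g (d g m)⟩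
  have hδ (g : G) (x y) : δ (g • x) (g • y) = δ x y :=
    h.pind (T := .univ) (P := fun x => δ (g • x) (g • y) = δ x y)
      (by rw [(h.d1 _ _).2 rfl, (h.d1 _ _).2 rfl]) (fun x z i _ a b l _ ih => by
        have c : δ x y = cs.simple i * δ z y := by simp [b]
        obtain k | k := (r ..).1 (hG i g _ _ ((r ..).2 (.inr a)))
        · obtain rfl := smul_left_cancel g ((h.d1 ..).1 k)
          exact ih
        · rw [h.up k (by rwa [ih, ← c]), ih, c]) (inP_univ _)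
  have eq {J x y} : EqvGen (fun x y => ∃ s ∈ J, ρ s x y) x y ↔ δ x y ∈ closure (cs.simple '' J) := by
    refine ⟨fun a => ?_, h.rind (P := fun x => EqvGen _ x y) (.refl _)
      fun x z i c a _ b => .trans _ _ _ (.rel _ _ ⟨i, c, (r ..).2 (.inr a)⟩) b⟩
    induction a with
    | rel x y a =>
      obtain ⟨s, c, a⟩ := a
      exact closure_mono (Set.image_mono (by simpa)) (mem_one.2 ((r ..).1 a))
    | refl x => exact (h.d1 x x).2 rfl ▸ one_mem _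
    | symm x y _ a => exact h.rsymm a
    | trans x y z _ _ a b => exact h.rtrans a b
  obtain ⟨T, t1, t2⟩ := h.fin hδ f (Classical.arbitrary _)
  have : Finite {K // K ⊆ T ∧ Core M K} := (t1.finite_subsets.subset fun _ => And.left :)
  refine ⟨PUnit, G, _, inferInstance, .id G, fun _ => ⊤, fun _ _ => True, _,
    ⟨by simp, by simp, by simp, by simp, fun Q _ f k => ?_⟩,
    blA_pi fun p : {K // K ⊆ T ∧ Core M K} => h.core_bl hδ p.2.2, ?_⟩
  · obtain ⟨φ, c⟩ := k ⟨⟩ ⟨⟩ trivial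
    exact ⟨φ.comp ((MonoidHom.id G).codRestrict _ (by simp)), fun _ x _ => c ⟨x, by simp⟩ (by simp)⟩
  rintro _ ⟨s, a, rfl⟩ - - - - D c -
  obtain ⟨J, z, ⟨b1, b2, b3⟩, d⟩ := h.free hδ (D := D) t1 (fun g _ => t2 g trivial) fun K e k => by
    obtain ⟨i, m, w, o⟩ := a ⟨K, e, k⟩
    exact ⟨i, m, w, fun g p => o.le (Set.mem_iInter.1 (c g p) _)⟩
  exact ⟨J, e J b1 b2 b3, z, fun g m => by simpa only [eq] using d g m⟩

theorem kz_uni {𝓕 : Fam G} {X : Type v} [Lattice X] [Nonempty X] [MulAction G X] (B : Bg.Bl X)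
    (hB : B.Ac G) {ι : Type} [Finite ι] {S : ι → Type} {C : ι → Type v} [∀ j, Nonempty (S j)]
    [∀ j, Nonempty (C j)] [∀ j, MulAction G (C j)] {ρ : ∀ j, S j → C j → C j → Prop}
    {A : ∀ j, Set (Set (S j))}
    (hC : ∀ j, (∃ E, Chs (ρ j) E ∧ ∀ s t, E s t → {s, t} ∈ A j) ∨ ∃ (W : Type) (_ : Group W)
      (M : CoxeterMatrix (S j)) (cs : CoxeterSystem M W) (δ : C j → C j → W), Bld cs δ ∧
        (∀ s x y, ρ j s x y ↔ δ x y = 1 ∨ δ x y = cs.simple s) ∧ ∀ J : Set (S j), J.Finite →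
          (∀ a ∈ J, ∀ b ∈ J, M a b ≠ 0) → (∀ a ∈ J, ∀ b ∈ J, ∀ c ∈ J, a ≠ b → a ≠ c → b ≠ c →
            M a b = 2 ∨ M a c = 2 ∨ M b c = 2) → J ∈ A j)
    (hG : ∀ j s (g : G) x y, ρ j s x y → ρ j s (g • x) (g • y))
    (hA : ∀ (x : X) (z : ∀ j, C j) (J : ∀ j, Set (S j)), (∀ j, J j ∈ A j) →
      𝓕.Tm (stabilizer G x ⊓
        ⨅ j, stabilizer G {y | EqvGen (fun x y => ∃ s ∈ J j, ρ j s x y) (z j) y}))
    {D : Type u} [Category.{v} D] [Preadditive D] [HasBinaryBiproducts D] [HasZeroObject D]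
    {σ : Act G D} (hs : Sw σ) (hf : SwF 𝓕 σ) : KZ σ := by
  refine rel_kz (fun H f => rel_top ?_) hs hf
  replace f := Group.fg_def.1 ((Group.fg_iff_subgroup_fg H).2 f)
  choose V L _ _ φ P E 𝒮 a b c using fun j => ex_fac (G := H) (hC j) (fun s g => hG j s g.1) f
  refine rel_large (φ := φ) a ((blA_pi b).and (BlA.comap (𝒮 := .range fun x : X => stabilizer G x)
    ⟨X, _, ‹_›, _, B, hB, fun x => ⟨_, ⟨x, rfl⟩, fun _ => id⟩⟩ H.subtype)) ?_ ⊤ f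
  rintro _ ⟨_, ⟨s, m, rfl⟩, _, ⟨_, ⟨x, rfl⟩, rfl⟩, rfl⟩ g p q e D k l
  choose J d z o using fun j => c j _ (m j) (g j) _ _ (e j) D
    (fun y r => Set.mem_iInter.1 (k y r).1 j) fun y r => l y r j
  refine tm_pull (hyper_ker H.subtype_injective) (hA x z J d) _ ?_
  rintro _ ⟨y, r, rfl⟩
  exact ⟨(k y r).2, mem_iInf.2 fun j => o j r⟩

end Pool.Agent.Lib.MP_5d3e93_al.At
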