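import Mathlib

/-! Buildings as sets of chambers with a Weyl distance. -/

namespace Pool.Agent.Lib.MP_5d3e93_al.At

/-- The axioms WD1, WD2, WD3 of a building of type `cs`. -/
structure Bld {B W C : Type*} [Group W] {M : CoxeterMatrix B} (cs : CoxeterSystem M W)
    (δ : C → C → W) : Prop where
  d1 : ∀ x y, δ x y = 1 ↔ x = y
  d2 : ∀ x y z i, δ z x = cs.simple i → δ z y = cs.simple i * δ x y ∨ δ z y = δ x y
  d2' : ∀ x y z i, δ z x = cs.simple i →
    cs.length (cs.simple i * δ x y) = cs.length (δ x y) + 1 → δ z y = cs.simple i * δ x y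
  d3 : ∀ x y i, ∃ z, δ z x = cs.simple i ∧ δ z y = cs.simple i * δ x y

end Pool.Agent.Lib.MP_5d3e93_al.At
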