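import Mathlib

/-! Presentations with coloured generators. -/

namespace Pool.Agent.Lib.MP_5d3e93_al.At

universe v

variable {S V : Type v}

/-- The words in the generators whose colour lies in `T`. -/
def Sp (c : S → V) (T : Set V) : Subgroup (FreeGroup S) :=
  Subgroup.closure (FreeGroup.of '' (c ⁻¹' T))

/-- The relators written in the colours `T`, and the generators of all other colours. -/
def Rs (c : S → V) (R : Set (FreeGroup S)) (T : Set V) : Set (FreeGroup S) :=
  R ∩ Sp c T ∪ FreeGroup.of '' (c ⁻¹' T)ᶜ

end Pool.Agent.Lib.MP_5d3e93_al.At
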