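import Mathlib

/-! Systems of subgroups of large type. -/

namespace Pool.Agent.Lib.MP_5d3e93_al.At

universe v

/-- The subgroups `P a` generate `G`, have one common pairwise intersection and no short
relations, and `G` is the colimit of the `P a` and of the `P a ⊔ P b` with `E a b`. -/
def Large {G V : Type v} [Group G] (P : V → Subgroup G) (E : V → V → Prop) : Prop :=
  ⨆ a, P a = ⊤ ∧ (∀ a, E a a) ∧ (∀ a b c, a ≠ b → P a ⊓ P b ≤ P c) ∧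
  (∀ a b, a ≠ b → ∀ x ∈ P a, ∀ y ∈ P b, ∀ x' ∈ P a, ∀ y' ∈ P b, x * y * x' * y' = 1 →
    x ∈ P b ∨ y ∈ P a) ∧
  ∀ (Q : Type v) [Group Q] (f : G → Q), (∀ a b, E a b → ∃ φ : ↥(P a ⊔ P b) →* Q,
    ∀ x, x.1 ∈ P a ∨ x.1 ∈ P b → φ x = f x) → ∃ φ : G →* Q, ∀ a, ∀ x ∈ P a, φ x = f x

end Pool.Agent.Lib.MP_5d3e93_al.At
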