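import Pool.Agent.Lib.MP_5d3e93_al.At.TcO
import Pool.Agent.Lib.MP_35cce7_an.DuArt

/-! Artin groups of rank three act on modular lattices with commutative stabilisers. -/

namespace Pool.Agent.Lib.MP_5d3e93_al.At

open Pool.Agent.Lib.MP_35cce7_an Equiv

universe w

theorem du_bl {G₀ ι : Type} [Group G₀] {ω₀ : G₀ × G₀ × G₀} {ℓ : G₀ →* Multiplicative ℤ}
    (hl : mp ℓ ω₀ = (.ofAdd 1, .ofAdd 1, .ofAdd 1)) (hG : Girth ω₀) {σ : ι → G₀}
    (hσ : ∀ i, ∃ ω, Orb hr hs ω₀ ω ∧ ω.1 = σ i) (gen : ∀ x, ∃ r, Ball σ r x) (hP : Pres ω₀)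
    {G : Type w} [Group G] (φ : G →* G₀) (hφ : Function.Injective φ) :
    ∃ (X : Type w) (_ : Lattice X) (_ : Nonempty X) (_ : MulAction G X) (B : Bg.Bl X),
      B.Ac G ∧ ∀ (z : X) (g h : G), g • z = z → h • z = z → g * h = h * g := by
  have c1 : ∀ x g : G₀, Relation.EqvGen (dualTC hl hG).Ed (g : Qd ω₀) (g * x : G₀) := by
    refine ball_ind gen (fun g => by rw [mul_one]; exact .refl _) fun i x hx => ?_
    obtain ⟨ω, h, e⟩ := hσ i
    rw [← e]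
    refine ⟨fun g => ?_, fun g => ?_⟩
    · rw [← mul_assoc]
      exact .trans _ _ _ (.rel _ _ (dual_ed hl hG h g)) (hx _)
    · have := dual_ed hl hG h (g * ω.1⁻¹)
      rw [inv_mul_cancel_right] at this
      rw [← mul_assoc]
      exact .trans _ _ _ (.symm _ _ (.rel _ _ this)) (hx _)
  obtain ⟨X, _, _, _, B, A, h⟩ := tc_bl (T := dualTC hl hG) (dual_sc hl hG hσ gen hP)
    (by rintro ⟨g⟩; exact ⟨_, dual_ed hl hG .base g⟩)
    (by
      rintro ⟨g⟩ ⟨g'⟩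
      have := c1 (g⁻¹ * g') g
      rwa [mul_inv_cancel_left] at this) φ (ℓ.comp φ) (by
      rintro g ⟨x⟩
      change (((ℓ (φ g * x)).toAdd : ℤ) : ZMod 3) = ((ℓ x).toAdd : ℤ) + ((ℓ (φ g)).toAdd : ℤ)
      simp [add_comm])
  refine ⟨X, _, ‹_›, _, B, A, fun z g k a b => hφ ?_⟩
  obtain ⟨⟨v⟩, h⟩ := h z
  obtain ⟨i, c⟩ := qd_eq.1 (show (v : Qd ω₀) = (φ g * v : G₀) from (h g a).symm)
  obtain ⟨j, d⟩ := qd_eq.1 (show (v : Qd ω₀) = (φ k * v : G₀) from (h k b).symm)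
  rw [map_mul, map_mul, eq_mul_inv_of_mul_eq c, eq_mul_inv_of_mul_eq d]
  group

variable {B : Type} {M : CoxeterMatrix B} {a b c : B}

theorem du_gp (hB : ∀ i, i = a ∨ i = c ∨ i = b) (hac : a ≠ c) (hab : a ≠ b) (hcb : c ≠ b)
    (h2 : M a c = 2) (hq : 3 ≤ M c b) (hle : M c b ≤ M a b) :
    Girth (gn M a, gn M c, gn M b) ∧ Pres (gn M a, gn M c, gn M b) := by
  have hp := hq.trans hle
  have f0 : Fix (M a b) (M c b) (gn M a, gn M c, gn M b) := (rel_iff (by omega) (by omega) _ _ _).1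
    ⟨h2 ▸ braid (by omega), braid (by omega), braid (by omega)⟩
  obtain ⟨α, γ, β, r1, r2, r3, r4, r5, r6, r7⟩ := ex_roots (cc (M a b)) (cc (M c b))
  obtain ⟨ψ, hψ⟩ := lift_three hB hac hab hcb h2 (x := rf α) (y := rf γ) (z := rf β)
    ⟨(hur _ _ _ two_ne_zero).1 (hs_pow r1 r2 le_rfl (r4.trans cc_two.symm)), by
      rw [← rf_neg r1]
      exact (hur _ _ _ (by omega)).1 (hs_pow (rt_neg r1) r3 (by omega) (by simp [r6])),
      (hur _ _ _ (by omega)).1 (hs_pow r2 r3 (by omega) r5)⟩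
  generalize e0 : (gn M a, gn M c, gn M b) = ω₀ at f0 hψ ⊢
  have K := mk_rep ψ
  have v0 : Vl (mp ψ ω₀) 0 (cc (M c b)) (cc (M a b)) :=
    ⟨α, γ, β, ⟨r1, r2, r3, hψ⟩, r4, r5, by simp [r6]⟩
  have H : Half hr hs (fun ω => Vl (mp ψ ω)) (M a b) (M c b) (hr ω₀) (hs ω₀) :=
    ⟨(congrArg (· ω₀) hs_rel).symm, f0.2.1, K.r v0, hp⟩
  have H' : Half hr hs (fun ω => Vl (mp ψ ω)) (M c b) (M a b) (hs ω₀) (hr ω₀) :=
    ⟨f0.1, by rw [← Perm.mul_apply, ← pow_succ, pow_succ', Perm.mul_apply, f0.2.2],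
      by simpa using (K.s v0).neg, hq⟩
  have e1 := hψ
  simp only [mp, Prod.mk.injEq] at e1
  have inj0 : ∀ ω, Orb hr hs (hr ω₀) ω → mp ψ ω = mp ψ (hr ω₀) → ω = hr ω₀ := fun ω o e => by
    obtain ⟨j, hj⟩ := K.zero H H' o (e ▸ H.val)
    have c1 : ψ ω.2.1 = rf β := (congrArg (·.2.1) e).trans e1.2.2
    have c2 : ω.2.1 = (pr ω₀ ^ j)⁻¹ * ω₀.2.2 * pr ω₀ ^ j := by
      rcases hj with rfl | rfl <;> rw [hr_three]
      · rw [pr_hr]; rfl
      · rw [pr_hs]; rfl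
    have c3 := cox r1 r2 r3 r4 r5 r6 r7 (by linarith [cc_one hp]) (j := j) (by
      rw [c2] at c1
      simp only [pr, map_mul, map_inv, map_zpow, e1.1, e1.2.1, e1.2.2] at c1
      rw [mul_assoc _ (rf β), inv_mul_eq_iff_eq_mul] at c1
      exact c1.symm)
    have c4 : ω = hr ω₀ ∨ ω = hs ω₀ := by
      rcases hj with rfl | rfl
      exacts [K.fin H H' hle c3 (Or.inl rfl), K.fin H H' hle c3 (Or.inr rfl)]
    refine c4.resolve_right ?_
    rintro rfl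
    have : rf α = rf γ := e1.1.symm.trans ((congrArg (·.1) e).trans e1.2.1)
    rcases pm_of_rf r1 r2 this with rfl | rfl
    · linarith
    · simp [r2] at r4
  have inj : ∀ ω, Orb hr hs (hr ω₀) ω → ∀ ω', Orb hr hs (hr ω₀) ω' → mp ψ ω' = mp ψ ω →
      ω' = ω := fun ω o => by
    induction o with
    | base => exact inj0
    | r _ ih =>
      exact fun ω' o' e => (Perm.inv_eq_iff_eq.1 (ih _ o'.r' (by
        rw [mp_hr', e, mp_hr]; exact hr.symm_apply_apply _)))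
    | r' _ ih =>
      exact fun ω' o' e => (Perm.eq_inv_iff_eq.2 (ih _ o'.r (by
        rw [mp_hr, e, mp_hr']; exact hr.apply_symm_apply _)))
    | s _ ih =>
      exact fun ω' o' e => (Perm.inv_eq_iff_eq.1 (ih _ (o'.s' hs_rel) (hs.injective (by
        rw [← mp_hs, ← mp_hs, ← e]; exact congrArg _ (hs.apply_symm_apply _)))))
  have ob : ∀ {ω}, Orb hr hs ω₀ ω → Orb hr hs (hr ω₀) ω := fun o =>
    Orb.trans (by simpa using (Orb.base (ρ := hr) (σ := hs) (ω₀ := hr ω₀)).r') o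
  have pm : ∀ {ω}, Orb hr hs ω₀ ω → pr (mp ψ ω) = ψ (pr ω₀) := fun o => by
    rw [← o.pr]
    simp [pr, mp]
  refine ⟨fun ω₁ ω₂ ω₃ ω₄ o1 o2 o3 o4 a1 a2 a3 a4 => ?_, fun H _ h η hh => ?_⟩
  · have i0 : Inn (mp ψ ω₀) := ⟨α, γ, β, ⟨r1, r2, r3, hψ⟩, r7⟩
    rcases lin_girth (inn_orb ψ i0 o1) (inn_orb ψ i0 o2) (inn_orb ψ i0 o3) (inn_orb ψ i0 o4)
      ((pm o1).trans (pm o2).symm) ((pm o3).trans (pm o4).symm) ((pm o1).trans (pm o4).symm)
      (congrArg ψ a1) (congrArg ψ a2) (congrArg ψ a3) (congrArg ψ a4) with h | h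
    · refine Or.inl (congrArg (·.1) (inj _ (ob o2) _ (ob o1) (tr_ext h ?_
        ((pm o1).trans (pm o2).symm))))
      have := (pm o1).trans (pm o2).symm
      rwa [pr, pr, h, show (mp ψ ω₁).2.2 = (mp ψ ω₂).2.2 from congrArg ψ a2, mul_left_inj,
        mul_right_inj] at this
    · refine Or.inr (a2.trans (congrArg (·.2.2) (inj _ (ob o3) _ (ob o2)
        (tr_ext (congrArg ψ a3) ?_ ((pm o2).trans (pm o3).symm)))))
      have := (pm o2).trans (pm o3).symm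
      rwa [pr, pr, ← h, show (mp ψ ω₁).2.2 = (mp ψ ω₂).2.2 from congrArg ψ a2, mul_left_inj,
        show (mp ψ ω₂).1 = (mp ψ ω₃).1 from congrArg ψ a3, mul_right_inj] at this
  · subst e0
    exact lift_three hB hac hab hcb h2 ((rel_iff (by omega) (by omega) _ _ _).2 (f0.map hh))

theorem path_bl (hB : ∀ i, i = a ∨ i = c ∨ i = b) (hac : a ≠ c) (hab : a ≠ b) (hcb : c ≠ b)
    (h2 : M a c = 2) (hp : 3 ≤ M a b) (hq : 3 ≤ M c b) {G : Type w} [Group G] (φ : G →* Ar M)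
    (hφ : Function.Injective φ) :
    ∃ (X : Type w) (_ : Lattice X) (_ : Nonempty X) (_ : MulAction G X) (B : Bg.Bl X),
      B.Ac G ∧ ∀ (z : X) (g h : G), g • z = z → h • z = z → g * h = h * g := by
  wlog hle : M c b ≤ M a b generalizing a c
  · exact this (fun i => by have := hB i; tauto) hac.symm hcb hab (M.symmetric c a ▸ h2) hq hp
      (by omega)
  obtain ⟨g, p⟩ := du_gp hB hac hab hcb h2 hq hle
  refine du_bl (ℓ := deg M) (by simp [mp, deg]) g (fun i => ?_) gen p φ hφ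
  rcases hB i with rfl | rfl | rfl
  exacts [⟨_, .base, rfl⟩, ⟨_, Orb.base.r, rfl⟩, ⟨_, Orb.base.r.r, rfl⟩]

end Pool.Agent.Lib.MP_5d3e93_al.At
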