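import Mathlib

/-! Diamonds generate modular sublattices; dual orders of rank three and their parabolic parts. -/

namespace Pool.Agent.Lib.MP_5d3e93_al.At

open Relation

section Dia

variable {X : Type*} [Lattice X] {r : X → ℤ} (hr : StrictMono r) {c : X → X → Prop}
  (hc : ∀ {x y}, c x y → x ≤ y ∧ r y = r x + 1)
  (up : ∀ {x a b}, c x a → c x b → a ≠ b → ∃ j, c a j ∧ c b j)

theorem dia_eq (hr : StrictMono r) {x y : X} (h : x ≤ y) (e : r y ≤ r x) : x = y :=
  h.eq_or_lt.resolve_right fun k => (hr k).not_ge e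

include hc in
theorem dia_le {x y : X} (h : ReflTransGen c x y) : x ≤ y := by
  induction h with
  | refl => exact le_rfl
  | tail _ a ih => exact ih.trans (hc a).1

include hr hc up

theorem dia_strip {x a : X} (h : ReflTransGen c x a) : ∀ b, c x b →
    ReflTransGen c b (a ⊔ b) ∧ (a ⊔ b = a ∨ c a (a ⊔ b)) := by
  induction h using ReflTransGen.head_induction_on with
  | refl => exact fun b k => by rw [sup_eq_right.2 (hc k).1]; exact ⟨.refl, .inr k⟩
  | @head x y e h ih =>
    intro b k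
    by_cases q : y = b
    · subst q
      rw [sup_eq_left.2 (dia_le hc h)]
      exact ⟨h, .inl rfl⟩
    obtain ⟨j, j1, j2⟩ := up e k q
    have : y ⊔ b = j := dia_eq hr (sup_le (hc j1).1 (hc j2).1) (by
      have := hr (le_sup_left.lt_of_ne fun f : y = y ⊔ b => q (dia_eq hr (f ▸ le_sup_right)
        (by have := hc e; have := hc k; omega)).symm)
      have := hc j1
      omega)
    have f : a ⊔ j = a ⊔ b := by rw [← this, ← sup_assoc, sup_eq_left.2 (dia_le hc h)]
    rw [← f]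
    exact ⟨.head j2 (ih j j1).1, (ih j j1).2⟩

theorem dia_up {x a b : X} (h : ReflTransGen c x a) (k : ReflTransGen c x b) :
    ReflTransGen c a (a ⊔ b) ∧ ReflTransGen c b (a ⊔ b) ∧ r (a ⊔ b) + r x ≤ r a + r b := by
  induction k with
  | refl => rw [sup_eq_left.2 (dia_le hc h)]; exact ⟨.refl, h, le_rfl⟩
  | @tail y b _ e ih =>
    obtain ⟨s, t⟩ := dia_strip hr hc up ih.2.1 b e
    rw [sup_assoc, sup_eq_right.2 (hc e).1] at s t
    have := hc e
    rcases t with t | t
    · rw [t] at s ⊢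
      exact ⟨ih.1, s, by omega⟩
    · exact ⟨ih.1.tail t, s, by have := hc t; omega⟩

end Dia

theorem dia {X : Type*} [Lattice X] {r : X → ℤ} (hr : StrictMono r) {c : X → X → Prop}
    (hc : ∀ {x y}, c x y → x ≤ y ∧ r y = r x + 1)
    (up : ∀ {x a b}, c x a → c x b → a ≠ b → ∃ j, c a j ∧ c b j)
    (dn : ∀ {x a b}, c a x → c b x → a ≠ b → ∃ j, c j a ∧ c j b) {a b : X} (h : EqvGen c a b) :
    ReflTransGen c a (a ⊔ b) ∧ ReflTransGen c (a ⊓ b) a ∧ r (a ⊔ b) + r (a ⊓ b) = r a + r b := by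
  have D : ∀ {x a b : X}, ReflTransGen c a x → ReflTransGen c b x → ReflTransGen c (a ⊓ b) a ∧
      ReflTransGen c (a ⊓ b) b ∧ -r (a ⊓ b) + -r x ≤ -r a + -r b := fun h k => by
    have := @dia_up Xᵒᵈ _ (fun x => -r x) (fun x y h => neg_lt_neg (hr h)) (fun x y => c y x)
      (fun {x y} e => ⟨(hc e).1, show -r y = -r x + 1 by have := (hc e).2; omega⟩) dn _ _ _ h.swap k.swap
    exact ⟨this.1.swap, this.2.1.swap, this.2.2⟩
  obtain ⟨u, s, t⟩ : ∃ u, ReflTransGen c a u ∧ ReflTransGen c b u := by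
    induction h with
    | rel x y e => exact ⟨y, .single e, .refl⟩
    | refl x => exact ⟨x, .refl, .refl⟩
    | symm _ _ _ ih => exact ih.imp fun _ => And.symm
    | trans _ _ _ _ _ p q =>
      obtain ⟨u, s, t⟩ := p
      obtain ⟨v, s', t'⟩ := q
      exact ⟨_, s.trans (dia_up hr hc up t s').1, t'.trans (dia_up hr hc up t s').2.1⟩
  obtain ⟨p, q, -⟩ := D s t
  obtain ⟨p', q', e⟩ := dia_up hr hc up p q
  exact ⟨p', p, by have := (D p' q').2.2; omega⟩

variable {G : Type*} [Group G] [Lattice G]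

/-- Lattice orders of rank three on a group. -/
structure Gar (r : G → ℤ) (A : Set G) (δ : G) : Prop where
  le : ∀ x y : G, x ≤ y ↔ x⁻¹ * y ∈ Submonoid.closure A
  mul : ∀ x y, r (x * y) = r x + r y
  one : ∀ t ∈ A, r t = 1
  three : r δ = 3
  dv : ∀ t ∈ A, t⁻¹ * δ ∈ Submonoid.closure A
  cj : ∀ t ∈ A, ∀ k : ℤ, (δ ^ k)⁻¹ * t * δ ^ k ∈ A

/-- Parabolic parts of rank two. -/
structure Gsb (A : Set G) (δ : G) (P : Subgroup G) (B : Set G) (d : G) : Prop where
  sub : B ⊆ A
  gen : P = Subgroup.closure B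
  nx : ∀ t ∈ B, t⁻¹ * d ∈ B
  pv : ∀ t ∈ B, d * t⁻¹ ∈ B
  two : B.Nontrivial
  co : d⁻¹ * δ ∈ A
  nc : ∀ k : ℤ, d * δ ^ k = δ ^ k * d → k = 0

variable {r : G → ℤ} {A B : Set G} {δ d : G} {P : Subgroup G} (K : Gar r A δ)
include K

theorem Gar.cov {x y : G} (h : x ≤ y) : x = y ∨ ∃ t ∈ A, x * t ≤ y := by
  obtain ⟨l, a, e⟩ := Submonoid.exists_list_of_mem_closure ((K.le _ _).1 h)
  cases l with
  | nil => exact .inl (inv_mul_eq_one.1 e.symm)
  | cons t l =>
    refine .inr ⟨t, a _ (by simp), (K.le _ _).2 ?_⟩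
    rw [mul_inv_rev, mul_assoc, ← e, List.prod_cons, inv_mul_cancel_left]
    exact list_prod_mem fun z hz => Submonoid.subset_closure (a z (by simp [hz]))

theorem Gar.mono : StrictMono r := fun x y h => by
  have : ∀ m ∈ Submonoid.closure A, m = 1 ∨ 0 < r m := fun m hm => by
    induction hm using Submonoid.closure_induction with
    | mem t a => exact .inr (by rw [K.one t a]; omega)
    | one => exact .inl rfl
    | mul a b _ _ p q =>
      rcases p with rfl | p
      · rwa [one_mul]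
      · rcases q with rfl | q
        · exact .inr (by rwa [mul_one])
        · exact .inr (by rw [K.mul]; omega)
  have e := K.mul x (x⁻¹ * y)
  rw [mul_inv_cancel_left] at e
  have := (this _ ((K.le _ _).1 h.le)).resolve_left fun e => h.ne (inv_mul_eq_one.1 e)
  omega

theorem Gar.at {t : G} (h : t ∈ A) (x : G) : x ≤ x * t ∧ r (x * t) = r x + 1 ∧ x * t ≤ x * δ :=
  ⟨(K.le _ _).2 (by simpa using Submonoid.subset_closure h), by rw [K.mul, K.one t h],
    (K.le _ _).2 (by simpa [mul_assoc] using K.dv t h)⟩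

/-- Translations are order isomorphisms. -/
def Gar.iso (g : G) (k : ℤ) : G ≃o G where
  toEquiv := (Equiv.mulLeft g).trans (Equiv.mulRight (δ ^ k))
  map_rel_iff' := by
    have : ∀ (g : G) (k : ℤ) x y, x ≤ y → g * x * δ ^ k ≤ g * y * δ ^ k := fun g k x y h => by
      rw [K.le] at h ⊢
      rw [show (g * x * δ ^ k)⁻¹ * (g * y * δ ^ k) = (δ ^ k)⁻¹ * (x⁻¹ * y) * δ ^ k by group]
      generalize x⁻¹ * y = m at h
      induction h using Submonoid.closure_induction with
      | mem t a => exact Submonoid.subset_closure (K.cj t a k)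
      | one => simp
      | mul a b _ _ p q => simpa [mul_assoc] using mul_mem p q
    refine fun {x y} => ⟨fun h => ?_, this g k x y⟩
    simpa [mul_assoc] using this g⁻¹ (-k) _ _ h

theorem Gar.iso_ap (g : G) (k : ℤ) (x : G) : K.iso g k x = g * x * δ ^ k := rfl

variable (S : Gsb A δ P B d)
include S

theorem Gar.rd : r d = 2 := by
  have := K.mul d (d⁻¹ * δ)
  rw [mul_inv_cancel_left, K.one _ S.co, K.three] at this
  omega

theorem Gar.jn {s t : G} (a : s ∈ B) (b : t ∈ B) (h : s ≠ t) : s ⊔ t = d := by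
  have u : ∀ t ∈ B, t ≤ d := fun t a => by simpa using (K.at (S.sub (S.nx t a)) t).1
  have p := K.one s (S.sub a)
  have q := K.one t (S.sub b)
  refine dia_eq K.mono (sup_le (u s a) (u t b)) ?_
  have := K.mono (le_sup_left.lt_of_ne fun f : s = s ⊔ t => h (dia_eq K.mono
    (f ▸ le_sup_right) (by omega)).symm)
  rw [K.rd S]
  omega

theorem Gar.sheet {x y : G} (a : x ∈ P) (b : y ∈ P) : x ⊔ y ∈ P ∧ x ⊓ y ∈ P ∧
    (x ≤ y → r y = r x + 1 → ∃ t ∈ B, y = x * t) := by
  have m : ∀ t ∈ B, t ∈ P := fun t a => S.gen ▸ Subgroup.subset_closure a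
  let c : G → G → Prop := fun x y => x ∈ P ∧ ∃ t ∈ B, y = x * t
  have hc : ∀ {x y}, c x y → x ≤ y ∧ r y = r x + 1 := by
    rintro x _ ⟨-, t, a, rfl⟩
    exact ⟨(K.at (S.sub a) x).1, (K.at (S.sub a) x).2.1⟩
  have e : ∀ z ∈ P, ∀ x ∈ P, EqvGen c x (x * z) := fun z hz => by
    rw [S.gen] at hz
    induction hz using Subgroup.closure_induction with
    | mem t a => exact fun x b => .rel _ _ ⟨b, t, a, rfl⟩
    | one => exact fun x _ => by rw [mul_one]; exact .refl _
    | mul u v p _ s t =>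
      exact fun x b => .trans _ _ _ (s x b) (mul_assoc x u v ▸ t _ (mul_mem b (S.gen ▸ p)))
    | inv u p s =>
      refine fun x b => .symm _ _ ?_
      have := s _ (mul_mem b (inv_mem (S.gen ▸ p)))
      rwa [inv_mul_cancel_right] at this
  have f := e _ (mul_mem (inv_mem a) b) x a
  rw [mul_inv_cancel_left] at f
  obtain ⟨p, q, -⟩ := dia K.mono hc (by
      rintro x _ _ ⟨a, s, b, rfl⟩ ⟨-, t, e, rfl⟩ -
      exact ⟨x * d, ⟨mul_mem a (m s b), _, S.nx s b, by group⟩,
        mul_mem a (m t e), _, S.nx t e, by group⟩) (by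
      rintro x u v ⟨a, s, b, rfl⟩ ⟨a', t, e, f⟩ -
      have : d ∈ P := by simpa using mul_mem (m s b) (m _ (S.nx s b))
      have k := mul_mem (mul_mem a (m s b)) (inv_mem this)
      refine ⟨u * s * d⁻¹, ⟨k, _, S.pv s b, by group⟩, k, _, S.pv t e, ?_⟩
      rw [f]; group) f
  refine ⟨?_, ?_, fun h k => ?_⟩
  · generalize x ⊔ y = z at p
    induction p with
    | refl => exact a
    | tail _ e _ => exact e.2.elim fun t k => k.2 ▸ mul_mem e.1 (m t k.1)
  · rcases q.cases_head with q | ⟨_, q, -⟩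
    exacts [q.symm ▸ a, q.1]
  · rw [sup_eq_right.2 h] at p
    rcases p.cases_head with rfl | ⟨z, e, p⟩
    · omega
    · rw [← dia_eq K.mono (dia_le hc p) (by have := hc e; omega)]
      exact e.2

theorem Gar.free {k : ℤ} (h : δ ^ k ∈ P) : k = 0 := by
  obtain ⟨a, p, b, q, e⟩ := S.two
  have : ∀ a ∈ B, ∃ t ∈ B, a * δ ^ k = δ ^ k * t := fun a p => by
    have := K.at (K.cj a (S.sub p) k) (δ ^ k)
    rw [← mul_assoc, mul_inv_cancel_left] at this
    exact (K.sheet S h (mul_mem (S.gen ▸ Subgroup.subset_closure p) h)).2.2 this.1 this.2.1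
  obtain ⟨s, p', f⟩ := this a p
  obtain ⟨t, q', g⟩ := this b q
  have u := (K.iso 1 k).map_sup a b
  have v := (K.iso (δ ^ k) 0).map_sup s t
  simp only [K.iso_ap, one_mul, zpow_zero, mul_one] at u v
  rw [K.jn S p q e, f, g, ← v, K.jn S p' q' (by
    rintro rfl
    exact e (mul_right_cancel (f.trans g.symm)))] at u
  exact S.nc k u

end Pool.Agent.Lib.MP_5d3e93_al.At
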