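import Pool.Agent.Lib.MP_5d3e93_al.At.DuA

/-! Parabolic parts of dual orders of rank three are almost malnormal. -/

namespace Pool.Agent.Lib.MP_5d3e93_al.At

open Relation

variable {G : Type*} [Group G] [Lattice G] {r : G → ℤ} {A B : Set G} {δ d : G} {P : Subgroup G}

/-- The point `x` lies in the sheet `k` over the coset `h P`. -/
def Gsh (δ : G) (P : Subgroup G) (h : G) (k : ℤ) (x : G) : Prop := ∃ p ∈ P, x = h * p * δ ^ k

variable (K : Gar r A δ) (S : Gsb A δ P B d) {h : G}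
include K S

theorem Gar.uniq {p q : G} {k j : ℤ} (a : p ∈ P) (b : q ∈ P)
    (e : h * p * δ ^ k = h * q * δ ^ j) : k = j ∧ p = q := by
  have : δ ^ (k - j) = p⁻¹ * q := by
    rw [mul_assoc, mul_assoc, mul_right_inj] at e
    rw [zpow_sub, ← inv_mul_cancel_left p (δ ^ k), e]
    group
  obtain rfl : k = j := sub_eq_zero.1 (K.free S (this ▸ mul_mem (inv_mem a) b))
  exact ⟨rfl, by simpa using e⟩

theorem Gar.sat {x y : G} {k j : ℤ} (a : Gsh δ P h k x) (b : Gsh δ P h j y) :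
    (∃ i, Gsh δ P h i (x ⊔ y)) ∧ (∃ i, Gsh δ P h i (x ⊓ y)) ∧
      r (x ⊔ y) + r (x ⊓ y) = r x + r y ∧ (x ≤ y → k ≤ j) := by
  have m : ∀ t ∈ B, t ∈ P := fun t a => S.gen ▸ Subgroup.subset_closure a
  have md : d ∈ P := S.two.nonempty.elim fun s b => by simpa using mul_mem (m s b) (m _ (S.nx s b))
  let c : G → G → Prop := fun x y => ∃ p ∈ P, ∃ k : ℤ, x = h * p * δ ^ k ∧
    ((∃ t ∈ B, y = h * (p * t) * δ ^ k) ∨ y = h * (p * d⁻¹) * δ ^ (k + 1))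
  have hc : ∀ {x y}, c x y → x ≤ y ∧ r y = r x + 1 := by
    rintro _ _ ⟨p, -, k, rfl, ⟨t, a, rfl⟩ | rfl⟩
    · have := K.at (K.cj t (S.sub a) k) (h * p * δ ^ k)
      rw [show h * p * δ ^ k * ((δ ^ k)⁻¹ * t * δ ^ k) = h * (p * t) * δ ^ k by group] at this
      exact ⟨this.1, this.2.1⟩
    · have := K.at (K.cj _ S.co k) (h * p * δ ^ k)
      rw [show h * p * δ ^ k * ((δ ^ k)⁻¹ * (d⁻¹ * δ) * δ ^ k) = h * (p * d⁻¹) * δ ^ (k + 1) by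
        group] at this
      exact ⟨this.1, this.2.1⟩
  have e : ∀ (k : ℤ), ∀ z ∈ P, ∀ p ∈ P, EqvGen c (h * p * δ ^ k) (h * (p * z) * δ ^ k) :=
    fun k z hz => by
      rw [S.gen] at hz
      induction hz using Subgroup.closure_induction with
      | mem t a => exact fun x b => .rel _ _ ⟨x, b, k, rfl, .inl ⟨t, a, rfl⟩⟩
      | one => exact fun x _ => by rw [mul_one]; exact .refl _
      | mul u v p _ s t =>
        exact fun x b => .trans _ _ _ (s x b) (mul_assoc x u v ▸ t _ (mul_mem b (S.gen ▸ p)))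
      | inv u p s =>
        refine fun x b => .symm _ _ ?_
        have := s _ (mul_mem b (inv_mem (S.gen ▸ p)))
        rwa [inv_mul_cancel_right] at this
  have e1 : ∀ k : ℤ, EqvGen c (h * 1 * δ ^ k) (h * 1 * δ ^ (k + 1)) := fun k =>
    .trans _ _ _ (.rel _ _ ⟨1, one_mem _, k, rfl, .inr rfl⟩) (.symm _ _ (e _ _ (inv_mem md) _
      (one_mem _)))
  have e2 : ∀ {k x}, Gsh δ P h k x → EqvGen c (h * 1 * δ ^ (0 : ℤ)) x := by
    rintro k _ ⟨p, a, rfl⟩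
    refine .trans _ _ _ ?_ (one_mul p ▸ e k p a 1 (one_mem _))
    induction k using Int.induction_on with
    | zero => exact .refl _
    | succ k ih => exact .trans _ _ _ ih (e1 _)
    | pred k ih => exact .trans _ _ _ ih (.symm _ _ (by simpa using e1 (-k - 1)))
  obtain ⟨p, q, z⟩ := dia K.mono hc (by
      rintro _ _ _ ⟨p, a, k, rfl, u⟩ ⟨q, b, j, f, v⟩ ne
      obtain ⟨rfl, rfl⟩ := K.uniq S a b f
      have w : ∀ t ∈ B, ∃ j, c (h * (p * t) * δ ^ k) j ∧ c (h * (p * d⁻¹) * δ ^ (k + 1)) j :=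
        fun t b => ⟨_, ⟨_, mul_mem a (m t b), k, rfl, .inr rfl⟩, _, mul_mem a (inv_mem md), _, rfl,
          .inl ⟨_, S.pv _ (S.pv t b), by group⟩⟩
      rcases u with ⟨s, b, rfl⟩ | rfl <;> rcases v with ⟨t, e, rfl⟩ | rfl
      · exact ⟨h * (p * d) * δ ^ k, ⟨_, mul_mem a (m s b), k, rfl, .inl ⟨_, S.nx s b, by group⟩⟩,
          _, mul_mem a (m t e), k, rfl, .inl ⟨_, S.nx t e, by group⟩⟩
      · exact w s b
      · exact (w t e).imp fun _ => And.symm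
      · exact (ne rfl).elim) (by
      have w : ∀ {p q} {k j : ℤ}, ∀ t ∈ B, p ∈ P → q ∈ P →
          h * (p * t) * δ ^ k = h * (q * d⁻¹) * δ ^ (j + 1) →
          ∃ z, c z (h * p * δ ^ k) ∧ c z (h * q * δ ^ j) := fun {p q k j} t b a a' f => by
        obtain ⟨rfl, g⟩ := K.uniq S (mul_mem a (m t b)) (mul_mem a' (inv_mem md)) f
        refine ⟨_, ⟨_, mul_mem a md, j, rfl, .inr (by group)⟩, _, mul_mem a md, j, rfl,
          .inl ⟨_, S.nx _ (S.nx t b), ?_⟩⟩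
        rw [eq_mul_inv_iff_mul_eq.1 g |>.symm]
        group
      rintro _ _ _ ⟨p, a, k, rfl, ⟨s, b, rfl⟩ | rfl⟩ ⟨q, a', j, rfl, ⟨t, e, f⟩ | f⟩ ne
      · obtain ⟨rfl, g⟩ := K.uniq S (mul_mem a (m s b)) (mul_mem a' (m t e)) f
        have n := mul_mem (mul_mem a (m s b)) (inv_mem md)
        refine ⟨_, ⟨_, n, k, rfl, .inl ⟨_, S.pv s b, by group⟩⟩, _, n, k, rfl,
          .inl ⟨_, S.pv t e, ?_⟩⟩
        rw [g]
        group
      · exact w s b a a' f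
      · exact (w t e a' a f.symm).imp fun _ => And.symm
      · obtain ⟨g, g'⟩ := K.uniq S (mul_mem a (inv_mem md)) (mul_mem a' (inv_mem md)) f
        exact (ne (by rw [mul_right_cancel g', add_right_cancel g])).elim)
    (.trans _ _ _ (.symm _ _ (e2 a)) (e2 b))
  have u : ∀ {z}, ReflTransGen c x z → ∃ i, k ≤ i ∧ Gsh δ P h i z := fun p => by
    induction p with
    | refl => exact ⟨k, le_rfl, a⟩
    | tail _ e ih =>
      obtain ⟨i, l, q, b, rfl⟩ := ih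
      obtain ⟨p, a, j, f, e⟩ := e
      obtain ⟨rfl, rfl⟩ := K.uniq S b a f
      rcases e with ⟨t, e, rfl⟩ | rfl
      exacts [⟨i, l, _, mul_mem a (m t e), rfl⟩, ⟨i + 1, by omega, _, mul_mem a (inv_mem md), rfl⟩]
  refine ⟨(u p).imp fun _ => And.right, ?_, z, fun l => ?_⟩
  · rcases q.cases_head with q | ⟨_, ⟨p, a, i, f, -⟩, -⟩
    exacts [⟨k, q.symm ▸ a⟩, ⟨i, p, a, f⟩]
  · rw [sup_eq_right.2 l] at p
    obtain ⟨i, l, q, a, f⟩ := u p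
    obtain ⟨q', b, g⟩ := b
    exact (K.uniq S a b (f.symm.trans g)).1 ▸ l

theorem Gar.sh {x y : G} {k : ℤ} (a : Gsh δ P h k x) (b : Gsh δ P h k y) :
    Gsh δ P h k (x ⊔ y) ∧ Gsh δ P h k (x ⊓ y) := by
  obtain ⟨p, a, rfl⟩ := a
  obtain ⟨q, b, rfl⟩ := b
  exact ⟨⟨_, (K.sheet S a b).1, ((K.iso h k).map_sup p q).symm⟩,
    _, (K.sheet S a b).2.1, ((K.iso h k).map_inf p q).symm⟩

theorem Gar.key {y y' : G} {k : ℤ} (a : Gsh δ P h k y) (b : Gsh δ P h k y') (e : r y = r y')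
    (ne : y ≠ y') : r (y ⊓ (y ⊓ y') * δ) = r (y ⊓ y') + 1 ∧
      r (y ⊓ (y ⊓ y') * δ ⊔ y' ⊓ (y ⊓ y') * δ) = r (y ⊓ y') + 2 ∧ ∃ p ∈ P,
        y ⊓ y' = h * p * δ ^ k ∧ y ⊓ (y ⊓ y') * δ ⊔ y' ⊓ (y ⊓ y') * δ = h * (p * d) * δ ^ k := by
  obtain ⟨p, c, f⟩ := (K.sh S a b).2
  have t : Gsh δ P h (k + 1) ((y ⊓ y') * δ) := ⟨p, c, by rw [f]; group⟩
  have rt : r ((y ⊓ y') * δ) = r (y ⊓ y') + 3 := by rw [K.mul, K.three]
  have w : ∀ z, Gsh δ P h k z → y ⊓ y' < z → Gsh δ P h k (z ⊓ (y ⊓ y') * δ) ∧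
      y ⊓ y' ≤ z ⊓ (y ⊓ y') * δ ∧ r (y ⊓ y') < r (z ⊓ (y ⊓ y') * δ) := fun z a l => by
    obtain ⟨s, u, v⟩ := (K.cov l.le).resolve_left l.ne
    obtain ⟨v1, v2, v3⟩ := K.at u (y ⊓ y')
    have q := le_inf v v3
    obtain ⟨i, j⟩ := (K.sat S a t).2.1
    obtain rfl : i = k := le_antisymm ((K.sat S j a).2.2.2 inf_le_left)
      ((K.sat S ⟨p, c, f⟩ j).2.2.2 (v1.trans q))
    exact ⟨j, v1.trans q, by have := K.mono.monotone q; omega⟩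
  obtain ⟨a1, a2, a3⟩ := w y a (inf_le_left.lt_of_ne fun q =>
    ne (dia_eq K.mono (q ▸ inf_le_right) e.ge))
  obtain ⟨b1, b2, b3⟩ := w y' b (inf_le_right.lt_of_ne fun q =>
    ne (dia_eq K.mono (q ▸ inf_le_left) e.le).symm)
  have z := (K.sat S a1 b1).2.2.1
  have mt : y ⊓ (y ⊓ y') * δ ⊓ (y' ⊓ (y ⊓ y') * δ) = y ⊓ y' :=
    le_antisymm (inf_le_inf inf_le_left inf_le_left) (le_inf a2 b2)
  have lt := K.mono ((sup_le inf_le_right inf_le_right).lt_of_ne fun q :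
      y ⊓ (y ⊓ y') * δ ⊔ y' ⊓ (y ⊓ y') * δ = (y ⊓ y') * δ => by
    have := (K.sat S t (K.sh S a1 b1).1).2.2.2 q.ge
    omega)
  rw [mt] at z
  refine ⟨by omega, by omega, p, c, f, ?_⟩
  have cv : ∀ z, Gsh δ P h k z → y ⊓ y' ≤ z → r z = r (y ⊓ y') + 1 →
      ∃ t ∈ B, z = h * (p * t) * δ ^ k := by
    rintro _ ⟨q, a, rfl⟩ l e
    rw [f] at l e
    simp only [K.mul] at e
    obtain ⟨t, b, rfl⟩ := (K.sheet S c a).2.2 ((K.iso h k).map_rel_iff.1 l) (by omega)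
    exact ⟨t, b, rfl⟩
  obtain ⟨s, u, g⟩ := cv _ a1 a2 (by omega)
  obtain ⟨s', u', g'⟩ := cv _ b1 b2 (by omega)
  have := (K.iso (h * p) k).map_sup s s'
  rw [K.jn S u u' (by
    rintro rfl
    rw [g, g', sup_idem] at z
    rw [g] at a3
    rw [g, g', inf_idem] at mt
    rw [mt] at a3
    omega)] at this
  rw [g, g']
  simpa only [K.iso_ap, mul_assoc] using this.symm

omit S in
theorem Gar.mal {P' : Subgroup G} {B' : Set G} {d' : G} (S : Gsb A δ P B d)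
    (S' : Gsb A δ P' B' d') (ar : ∀ x : G, ∃ k : ℤ, x ≤ δ ^ k) {g : G} (g1 : g ∈ P)
    (g2 : h⁻¹ * g * h ∈ P') (g3 : r g = 0) (g4 : g ≠ 1) : ∃ n : ℤ, ∃ p ∈ P, ∃ q ∈ P',
      h = p * δ ^ n * q ∧ d * δ ^ n = δ ^ n * d' := by
  obtain ⟨m, ⟨y, x, ⟨k, a⟩, ⟨j, b⟩, l, e⟩, mn⟩ := Int.exists_least_of_bdd
    (P := fun m => ∃ y x, (∃ k, Gsh δ P' h k y) ∧ (∃ j, Gsh δ P 1 j x) ∧ y ≤ x ∧ r x - r y = m)
    ⟨0, by
      rintro _ ⟨y, x, -, -, l, rfl⟩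
      exact sub_nonneg.2 (K.mono.monotone l)⟩
    ((ar h).elim fun k l => ⟨_, h, δ ^ k, ⟨0, 1, one_mem _, by simp⟩, ⟨k, 1, one_mem _, by simp⟩,
      l, rfl⟩)
  replace mn : ∀ y x, (∃ k, Gsh δ P' h k y) → (∃ j, Gsh δ P 1 j x) → y ≤ x → m ≤ r x - r y :=
    fun y x a b l => mn _ ⟨y, x, a, b, l, rfl⟩
  let D : G → G → Prop := fun y x =>
    (∃ k, Gsh δ P' h k y) ∧ (∃ j, Gsh δ P 1 j x) ∧ y ≤ x ∧ r x - r y = m
  have cl : ∀ {y x y' x'}, D y x → D y' x' → D (y ⊔ y') (x ⊔ x') ∧ D (y ⊓ y') (x ⊓ x') := by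
    rintro y x y' x' ⟨⟨k, a⟩, ⟨j, b⟩, l, e⟩ ⟨⟨k', a'⟩, ⟨j', b'⟩, l', e'⟩
    obtain ⟨p1, p2, p3, -⟩ := K.sat S' a a'
    obtain ⟨q1, q2, q3, -⟩ := K.sat S b b'
    have u := mn _ _ p1 q1 (sup_le_sup l l')
    have v := mn _ _ p2 q2 (inf_le_inf l l')
    exact ⟨⟨p1, q1, sup_le_sup l l', by omega⟩, p2, q2, inf_le_inf l l', by omega⟩
  have sh : ∀ {y x}, D y x → D (y * δ) (x * δ) := by
    rintro _ _ ⟨⟨k, p, a, rfl⟩, ⟨j, q, b, rfl⟩, l, e⟩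
    exact ⟨⟨k + 1, p, a, by group⟩, ⟨j + 1, q, b, by group⟩,
      by simpa [K.iso_ap] using (K.iso 1 1).map_rel_iff.2 l, by rw [K.mul _ δ, K.mul _ δ]; omega⟩
  have a' : Gsh δ P' h k (g * y) := a.elim fun p a => ⟨_, mul_mem g2 a.1, by rw [a.2]; group⟩
  have b' : Gsh δ P 1 j (g * x) := b.elim fun p a => ⟨_, mul_mem g1 a.1, by rw [a.2]; group⟩
  have d0 : D y x := ⟨⟨k, a⟩, ⟨j, b⟩, l, e⟩
  have d1 : D (g * y) (g * x) := ⟨⟨k, a'⟩, ⟨j, b'⟩,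
    by simpa [K.iso_ap] using (K.iso g 0).map_rel_iff.2 l, by rw [K.mul, K.mul]; omega⟩
  have ne : ∀ z, z ≠ g * z := fun z e => g4 (right_eq_mul.1 e)
  obtain ⟨r1, r2, p, c, f, f'⟩ := K.key S' a a' (by rw [K.mul]; omega) (ne y)
  have d2 := (cl d0 d1).2
  have d3 := (cl d0 (sh d2)).2
  have d4 := (cl d3 (cl d1 (sh d2)).2).1
  rcases K.cov d2.2.2.1 with q | ⟨t, u, v⟩
  · have := d2.2.2.2
    rw [q] at this
    obtain rfl := dia_eq K.mono l (by omega)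
    obtain ⟨-, -, p', c', i, i'⟩ := K.key S b b' (by rw [K.mul]; omega) (ne y)
    rw [f] at i
    rw [f'] at i'
    have : h = p' * δ ^ (j - k) * p⁻¹ := by
      rw [← mul_inv_cancel_right h p, ← mul_inv_cancel_right (h * p) (δ ^ k), i]
      group
    refine ⟨j - k, p', c', p⁻¹, inv_mem c, this, ?_⟩
    rw [this] at i'
    calc _ = p'⁻¹ * (1 * (p' * d) * δ ^ j) * (δ ^ k)⁻¹ := by group
      _ = _ := by rw [← i']; group
  exfalso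
  obtain ⟨v1, v2, v3⟩ := K.at u (y ⊓ g * y)
  have x0 : x ⊓ g * x ≤ x ⊓ (x ⊓ g * x) * δ :=
    le_inf inf_le_left ((K.at u _).1.trans (K.at u _).2.2)
  have t0 := (sh d2).1
  have rt : r ((y ⊓ g * y) * δ) = r (y ⊓ g * y) + 3 := by rw [K.mul, K.three]
  have ub : y ⊓ (y ⊓ g * y) * δ ⊔ g * y ⊓ (y ⊓ g * y) * δ ≤ (y ⊓ g * y) * δ :=
    sup_le inf_le_right inf_le_right
  have lb : y ⊓ (y ⊓ g * y) * δ ≤ y ⊓ (y ⊓ g * y) * δ ⊔ g * y ⊓ (y ⊓ g * y) * δ := le_sup_left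
  have xb : x ⊓ (x ⊓ g * x) * δ ≤ x ⊓ (x ⊓ g * x) * δ ⊔ g * x ⊓ (x ⊓ g * x) * δ := le_sup_left
  generalize y ⊓ (y ⊓ g * y) * δ ⊔ g * y ⊓ (y ⊓ g * y) * δ = w at *
  generalize x ⊓ (x ⊓ g * x) * δ ⊔ g * x ⊓ (x ⊓ g * x) * δ = w' at *
  generalize y ⊓ (y ⊓ g * y) * δ = y1 at *
  generalize x ⊓ (x ⊓ g * x) * δ = x1 at *
  generalize (y ⊓ g * y) * t = s at *
  generalize (y ⊓ g * y) * δ = z at *
  have up : ∀ {a b c : G}, ¬ s ≤ a → s ≤ b → a ≤ b → r b = r a + 1 → s ≤ c → a ≤ c → b ≤ c :=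
    fun {a b c} n p q e u v => dia_eq K.mono (sup_le p q) (by
      have := K.mono (le_sup_right.lt_of_ne fun f : a = s ⊔ a => n (le_sup_left.trans f.ge))
      omega) ▸ sup_le u v
  by_cases s1 : s ≤ y1
  · obtain rfl := dia_eq K.mono s1 (by omega)
    have := mn _ _ d3.1 d2.2.1 v
    have := d2.2.2.2
    omega
  by_cases s2 : s ≤ w
  · have := mn _ _ d4.1 d3.2.1 (up s1 s2 lb (by omega) (v.trans x0) d3.2.2.1)
    have := d3.2.2.2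
    omega
  · have := mn _ _ t0 d4.2.1 (up s2 v3 ub (by omega) ((v.trans x0).trans xb) d4.2.2.1)
    have := d4.2.2.2
    omega

end Pool.Agent.Lib.MP_5d3e93_al.At
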