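import Pool.Agent.Lib.MP_5d3e93_al.At.Du
import Pool.Agent.Lib.MP_5d3e93_al.At.DuB
import Pool.Agent.Lib.MP_35cce7_an.SysPar

/-! Dihedral parabolic subgroups of two-dimensional Artin groups of rank three are almost
malnormal. -/

namespace Pool.Agent.Lib.MP_5d3e93_al.At

open Pool.Agent.Lib.MP_35cce7_an Equiv

section
variable {G ι : Type} [Group G] {ω₀ : G × G × G} {ℓ : G →* Multiplicative ℤ}

theorem du_gar (hl : mp ℓ ω₀ = (.ofAdd 1, .ofAdd 1, .ofAdd 1)) (hG : Girth ω₀) {σ : ι → G}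
    (hσ : ∀ i, ∃ ω, Orb hr hs ω₀ ω ∧ ω.1 = σ i) (gen : ∀ x, ∃ r, Ball σ r x) (hP : Pres ω₀) :
    ∃ _ : Lattice G, Gar (fun g => (ℓ g).toAdd) {t | ∃ ω, Orb hr hs ω₀ ω ∧ ω.1 = t} (pr ω₀) ∧
      ∀ x : G, ∃ k : ℤ, x ≤ pr ω₀ ^ k := by
  have c1 : ∀ x g : G, Relation.EqvGen (dualTC hl hG).Ed (g : Qd ω₀) (g * x : G) := by
    refine ball_ind gen (fun g => by rw [mul_one]; exact .refl _) fun i x hx => ?_
    obtain ⟨ω, h, e⟩ := hσ i
    rw [← e]
    refine ⟨fun g => ?_, fun g => ?_⟩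
    · rw [← mul_assoc]
      exact .trans _ _ _ (.rel _ _ (dual_ed hl hG h g)) (hx _)
    · have := dual_ed hl hG h (g * ω.1⁻¹)
      rw [inv_mul_cancel_right] at this
      rw [← mul_assoc]
      exact .trans _ _ _ (.symm _ _ (.rel _ _ this)) (hx _)
  let O := tcOb (T := dualTC hl hG) (dual_sc hl hG hσ gen hP)
    (by rintro ⟨g⟩; exact ⟨_, dual_ed hl hG .base g⟩)
    (by
      rintro ⟨g⟩ ⟨g'⟩
      have := c1 (g⁻¹ * g') g
      rwa [mul_inv_cancel_left] at this) (.id G) ℓ (by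
      rintro g ⟨x⟩
      change (((ℓ (g * x)).toAdd : ℤ) : ZMod 3) = ((ℓ x).toAdd : ℤ) + ((ℓ g).toAdd : ℤ)
      simp [add_comm])
  let f : G → TcX.{0} (dualTC hl hG) := fun g => ⟨g, (ℓ g).toAdd, rfl⟩
  have inj : Function.Injective f := fun x y e =>
    qd_cancel hl (g := 1) (by simpa using congrArg TcX.v e) (congrArg TcX.n e)
  have sur : Function.Surjective f := by
    rintro ⟨⟨g⟩, n, e⟩
    obtain ⟨k, c⟩ := (ZMod.intCast_eq_intCast_iff_dvd_sub _ _ _).1 e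
    refine ⟨g * pr ω₀ ^ k, TcX.ext (qd_eq.2 ⟨k, rfl⟩).symm ?_⟩
    change (ℓ (g * pr ω₀ ^ k)).toAdd = n
    rw [map_mul, toAdd_mul, deg_pr hl]
    push_cast at c
    omega
  have le : ∀ x y, f x ≤ f y ↔
      x⁻¹ * y ∈ Submonoid.closure {t | ∃ ω, Orb hr hs ω₀ ω ∧ ω.1 = t} := fun x y => by
    constructor
    · rintro ⟨n, e, h⟩
      have : ∀ {n u v}, TcP (dualTC hl hG) n u v → ∀ x : G, u = x →
          ∃ m ∈ Submonoid.closure {t | ∃ ω, Orb hr hs ω₀ ω ∧ ω.1 = t},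
            (ℓ m).toAdd = n ∧ v = (x * m : G) := fun h => by
        induction h with
        | zero v => exact fun x e => ⟨1, one_mem _, by simp, by simpa using e⟩
        | succ e _ ih =>
          rintro x rfl
          obtain ⟨_, e⟩ := e
          obtain ⟨ω, o, e, -⟩ := tt3.norm e
          obtain ⟨m, a, b, c⟩ := ih _ e
          exact ⟨ω.1 * m, mul_mem (Submonoid.subset_closure ⟨ω, o, rfl⟩) a,
            by simp [o.d1 hl, b, add_comm], by rwa [← mul_assoc]⟩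
      obtain ⟨m, a, b, c⟩ := this h x rfl
      rwa [qd_cancel hl (g := x) (a := x⁻¹ * y) (b := m) (by rwa [mul_inv_cancel_left])
        (Multiplicative.toAdd.injective (by
          change (ℓ y).toAdd = (ℓ x).toAdd + n at e
          simp only [map_mul, map_inv, toAdd_mul, toAdd_inv]
          omega))]
    · intro h
      rw [← mul_inv_cancel_left x y]
      generalize x⁻¹ * y = m at h
      induction h using Submonoid.closure_induction generalizing x with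
      | mem t a =>
        obtain ⟨ω, o, rfl⟩ := a
        exact ⟨1, by simp [f, o.d1 hl], TcP.one.2 (dual_ed hl hG o x)⟩
      | one => rw [mul_one]
      | mul a b _ _ p q => exact (p x).trans (mul_assoc x a b ▸ q _)
  choose i hi using fun a b => show ∃ u, ∀ z, f z ≤ f u ↔ f z ≤ f a ∧ f z ≤ f b from
    (O.glb (f a) (f b)).elim fun m h => (sur m).elim fun u e => ⟨u, fun z => e ▸ h (f z)⟩
  choose j hj using fun a b => show ∃ u, ∀ z, f u ≤ f z ↔ f a ≤ f z ∧ f b ≤ f z from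
    ((O.dual (inv_mul_cancel _)).glb (f a) (f b)).elim fun m h =>
      (sur m).elim fun u e => ⟨u, fun z => e ▸ h (f z)⟩
  let L : Lattice G :=
    { Preorder.lift f with
      le_antisymm := fun a b p q => inj (TcX.eq p (TcX.sm q))
      inf := i
      sup := j
      inf_le_left := fun a b => ((hi a b _).1 le_rfl).1
      inf_le_right := fun a b => ((hi a b _).1 le_rfl).2
      le_inf := fun a b u h1 h2 => (hi b u a).2 ⟨h1, h2⟩
      le_sup_left := fun a b => ((hj a b _).1 le_rfl).1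
      le_sup_right := fun a b => ((hj a b _).1 le_rfl).2
      sup_le := fun a b u h1 h2 => (hj a b u).2 ⟨h1, h2⟩ }
  refine ⟨L, ⟨le, by simp, ?_, by simpa using deg_pr hl 1, ?_, ?_⟩, fun x => ?_⟩
  · rintro _ ⟨ω, o, rfl⟩
    simp [o.d1 hl]
  · rintro _ ⟨ω, o, rfl⟩
    rw [← o.pr, pr, mul_assoc, inv_mul_cancel_left]
    exact mul_mem (Submonoid.subset_closure ⟨_, o.r, rfl⟩) (Submonoid.subset_closure ⟨_, o.r.r, rfl⟩)
  · rintro _ ⟨ω, o, rfl⟩ k
    exact ⟨_, o.cj k, rfl⟩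
  · obtain ⟨k, n, e, h⟩ := O.ar (f x) (f 1)
    change (ℓ 1).toAdd = (ℓ x).toAdd + (ℓ (((1 : G), Multiplicative.ofAdd (1 : ℤ)) ^ k).1).toAdd -
      3 * (((1 : G), Multiplicative.ofAdd (1 : ℤ)) ^ k).2.toAdd + n at e
    change TcP _ n ((((1 : G), Multiplicative.ofAdd (1 : ℤ)) ^ k).1 • (x : Qd ω₀))
      ((1 : G) : Qd ω₀) at h
    refine ⟨k, n, ?_, ?_⟩
    · change (ℓ _).toAdd = (ℓ x).toAdd + n
      rw [deg_pr hl]
      simp at e
      omega
    · rw [qd_eq.2 ⟨k, (one_mul _).symm⟩] at h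
      simpa using h

theorem du_gsb {ω : G × G × G} (o : Orb hr hs ω₀ ω) (ne : ω.1 ≠ ω.2.1)
    (nc : ∀ k : ℤ, ω.1 * ω.2.1 * pr ω₀ ^ k = pr ω₀ ^ k * (ω.1 * ω.2.1) → k = 0) :
    ∃ B, Gsb {t | ∃ ω, Orb hr hs ω₀ ω ∧ ω.1 = t} (pr ω₀) (Subgroup.closure {ω.1, ω.2.1}) B
      (ω.1 * ω.2.1) := by
  have a : ω.1 ∈ Subgroup.closure {ω.1, ω.2.1} := Subgroup.subset_closure (by simp)
  have b : ω.2.1 ∈ Subgroup.closure {ω.1, ω.2.1} := Subgroup.subset_closure (by simp)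
  let B := {t | t ∈ Subgroup.closure {ω.1, ω.2.1} ∧
    ∃ τ, Orb hr hs ω₀ τ ∧ τ.1 = t ∧ τ.1 * τ.2.1 = ω.1 * ω.2.1}
  have nx : ∀ t ∈ B, t⁻¹ * (ω.1 * ω.2.1) ∈ B := by
    rintro _ ⟨m, τ, p, rfl, e⟩
    refine ⟨mul_mem (inv_mem m) (mul_mem a b), _, p.r'.s.r, ?_, ?_⟩ <;>
      simp only [← e, hr_apply, hs_apply, hr_inv] <;> group
  have a' : ω.1 ∈ B := ⟨a, ω, o, rfl, rfl⟩
  have b' : ω.2.1 ∈ B := by simpa using nx _ a'
  refine ⟨B, fun _ h => h.2.imp fun _ h => ⟨h.1, h.2.1⟩, le_antisymm (Subgroup.closure_mono ?_)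
    ((Subgroup.closure_le _).2 fun _ h => h.1), nx, ?_, ⟨_, a', _, b', ne⟩,
    ⟨_, o.r.r, by rw [← o.pr, pr, inv_mul_cancel_left]; rfl⟩, nc⟩
  · rintro _ (rfl | rfl)
    exacts [a', b']
  · rintro _ ⟨m, τ, p, rfl, e⟩
    refine ⟨mul_mem (mul_mem a b) (inv_mem m), _, (p.r'.s' hs_rel).r, by rw [← e]; rfl, ?_⟩
    rw [← e]
    exact inv_mul_cancel_right _ _

end

theorem du_cox {α β γ : E6} {P Q : ℝ} (h1 : bf α α = 2) (h2 : bf γ γ = 2) (h3 : bf β β = 2)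
    (h4 : bf α γ = 0) (h5 : bf γ β = Q) (h6 : bf α β = -P) (x y : ℝ) (n : ℕ) :
    ∃ u v : ℝ, ((rf α * rf γ * rf β) ^ n) (x • α + y • γ) =
      u • α + v • γ + ((P * x - Q * y) * ch (P ^ 2 + Q ^ 2 - 2) n) • β ∧
      P * u - Q * v = (P * x - Q * y) * (ch (P ^ 2 + Q ^ 2 - 2) (n + 1) + ch (P ^ 2 + Q ^ 2 - 2) n) := by
  induction n with
  | zero => exact ⟨x, y, by simp [ch], by simp [ch]⟩
  | succ n ih =>
    obtain ⟨u, v, e, f⟩ := ih
    rw [ch.eq_3]
    generalize ch (P ^ 2 + Q ^ 2 - 2) (n + 1) = s at *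
    generalize ch (P ^ 2 + Q ^ 2 - 2) n = t at *
    refine ⟨-u + P * ((P * x - Q * y) * s), -v - Q * ((P * x - Q * y) * s), ?_,
      by linear_combination -f⟩
    rw [pow_succ', LinearEquiv.mul_apply, e]
    simp only [LinearEquiv.mul_apply, rf_apply h1, rf_apply h2, rf_apply h3, map_sub, map_smul,
      map_add, h1, h2, h3, h4, h5, h6, smul_eq_mul, bf_sy β α, bf_sy β γ, bf_sy γ α]
    match_scalars
    · linear_combination P * f
    · linear_combination -Q * f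
    · linear_combination f

variable {B : Type} {M : CoxeterMatrix B} {a b c : B}

theorem path_cox (hB : ∀ i, i = a ∨ i = c ∨ i = b) (hac : a ≠ c) (hab : a ≠ b) (hcb : c ≠ b)
    (h2 : M a c = 2) (hp : 3 ≤ M a b) (hq : 3 ≤ M c b)
    (h : 2 * (M a b + M c b) ≤ M a b * M c b) {s t : B} (hs : s = a ∨ s = c) (ht : t = a ∨ t = c)
    {n : ℤ} (e : gn M s * (gn M a * gn M c * gn M b) ^ n =
      (gn M a * gn M c * gn M b) ^ n * gn M t) : n = 0 := by
  wlog hn : 0 ≤ n generalizing s t n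
  · refine neg_eq_zero.1 (this ht hs ?_ (by omega))
    rw [zpow_neg, eq_inv_mul_iff_mul_eq, ← mul_assoc, ← e, mul_inv_cancel_right]
  lift n to ℕ using hn
  obtain ⟨α, γ, β, r1, r2, r3, r4, r5, r6, r7⟩ := ex_roots (cc (M a b)) (cc (M c b))
  obtain ⟨ψ, hψ⟩ := lift_three hB hac hab hcb h2 (x := rf α) (y := rf γ) (z := rf β)
    ⟨(hur _ _ _ two_ne_zero).1 (hs_pow r1 r2 le_rfl (r4.trans cc_two.symm)), by
      rw [← rf_neg r1]
      exact (hur _ _ _ (by omega)).1 (hs_pow (rt_neg r1) r3 (by omega) (by simp [r6])),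
      (hur _ _ _ (by omega)).1 (hs_pow r2 r3 (by omega) r5)⟩
  simp only [mp, Prod.mk.injEq] at hψ
  obtain ⟨z, z1, z2, z3⟩ := r7 0 0 1
  have p1 := cc_one hp
  have q1 := cc_one hq
  have big : 2 ≤ cc (M a b) ^ 2 + cc (M c b) ^ 2 - 2 := by
    have : (4 ≤ M a b ∧ 4 ≤ M c b) ∨ 6 ≤ M a b ∨ 6 ≤ M c b := by
      by_contra k
      push Not at k
      obtain ⟨k1, k2, k3⟩ := k
      generalize M a b = p, M c b = q at *
      interval_cases p <;> interval_cases q <;> omega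
    rcases this with ⟨u, v⟩ | u | u
    · linarith [cc_sq (by norm_num) u, cc_sq (by norm_num) v, cc_four]
    · nlinarith [cc_sq (by norm_num) u, cc_six]
    · nlinarith [cc_sq (by norm_num) u, cc_six]
  have rt : ∀ s, s = a ∨ s = c → ∃ x y : ℝ, bf (x • α + y • γ) (x • α + y • γ) = 2 ∧
      ψ (gn M s) = rf (x • α + y • γ) ∧ cc (M a b) * x - cc (M c b) * y ≠ 0 := by
    rintro _ (rfl | rfl)
    · exact ⟨1, 0, by simpa, by simpa using hψ.1, by simp; linarith⟩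
    · exact ⟨0, 1, by simpa, by simpa using hψ.2.1, by simp; linarith⟩
  obtain ⟨x, y, s1, s2, -⟩ := rt s hs
  obtain ⟨x', y', t1, t2, t3⟩ := rt t ht
  have hD := (((rf_iso r1).mul (rf_iso r2)).mul (rf_iso r3)).pow n
  have e := congrArg ψ e
  simp only [map_mul, zpow_natCast, map_pow, s2, t2, hψ.1, hψ.2.1, hψ.2.2] at e
  have k := pm_of_rf ((hD _ _).trans t1) s1 (by rw [rf_conj hD t1, ← e, mul_inv_cancel_right])
  obtain ⟨u, v, f, -⟩ := du_cox r1 r2 r3 r4 r5 r6 x' y' n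
  have : bf (((rf α * rf γ * rf β) ^ n) (x' • α + y' • γ)) z = 0 := by
    rcases k with k | k <;> simp [k, z1, z2]
  rw [f] at this
  exact congrArg _ (ch_big' big (by simpa [z1, z2, z3, t3] using this))

theorem path_deg (hB : ∀ i, i = a ∨ i = c ∨ i = b) (hac : a ≠ c) (hab : a ≠ b) (hcb : c ≠ b)
    (h2 : M a c = 2) (hp : 3 ≤ M a b) (hq : 3 ≤ M c b)
    (h : 2 * (M a b + M c b) ≤ M a b * M c b) {s t : B} (hs : s = a ∨ s = c) (ht : t = a ∨ t = c)
    (x : Ar M) : (s = t ∧ x ∈ par M {s, b}) ∨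
      ∀ g ∈ par M {s, b}, x⁻¹ * g * x ∈ par M {t, b} → deg M g = 1 → g = 1 := by
  wlog hle : M c b ≤ M a b generalizing a c
  · exact this (fun i => by have := hB i; tauto) hac.symm hcb hab (M.symmetric c a ▸ h2) hq hp
      (by rwa [add_comm, mul_comm (M c b)]) hs.symm ht.symm (by omega)
  have cm : gn M a * gn M c = gn M c * gn M a := by
    have := braid (M := M) (i := a) (j := c) (by omega)
    simpa [h2, alt, List.range_succ] using this
  obtain ⟨g, p⟩ := du_gp hB hac hab hcb h2 hq hle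
  obtain ⟨_, K, ar⟩ := du_gar (ℓ := deg M) (by simp [mp, deg]) g (fun i => by
    rcases hB i with rfl | rfl | rfl
    exacts [⟨_, .base, rfl⟩, ⟨_, Orb.base.r, rfl⟩, ⟨_, Orb.base.r.r, rfl⟩]) gen p
  have inj : ∀ {i j}, gn M i = gn M j → i = j := fun e => by
    by_contra k
    have := par_inf (gn_mem (M := M) (S := {_}) rfl) (e ▸ gn_mem (S := {_}) rfl)
    rw [Set.singleton_inter_eq_empty.2 (by simpa using Ne.symm k)] at this
    have := congrArg (deg M) (show _ = 1 by simpa [par] using this)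
    simp [deg] at this
  have key : ∀ s, s = a ∨ s = c → ∃ s', (s' = a ∨ s' = c) ∧ s ≠ s' ∧
      gn M s * gn M b = (gn M s')⁻¹ * pr (gn M a, gn M c, gn M b) ∧
      ∃ ω, Orb hr MP_35cce7_an.hs (gn M a, gn M c, gn M b) ω ∧ ω.1 = gn M s ∧ ω.2.1 = gn M b ∧
        s ≠ b := by
    rintro _ (rfl | rfl)
    · exact ⟨c, .inr rfl, hac, by rw [pr, cm]; group, _, Orb.base.s, rfl, rfl, hab⟩
    · exact ⟨a, .inl rfl, hac.symm, by rw [pr]; group, _, Orb.base.r, rfl, rfl, hcb⟩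
  have cx : ∀ {s t s' t'} {n : ℤ}, s' = a ∨ s' = c → t' = a ∨ t' = c →
      gn M s * gn M b = (gn M s')⁻¹ * pr (gn M a, gn M c, gn M b) →
      gn M t * gn M b = (gn M t')⁻¹ * pr (gn M a, gn M c, gn M b) →
      gn M s * gn M b * pr (gn M a, gn M c, gn M b) ^ n =
        pr (gn M a, gn M c, gn M b) ^ n * (gn M t * gn M b) → n = 0 := fun u v e f k => by
    refine path_cox hB hac hab hcb h2 hp hq h u v ?_
    rw [e, f, mul_assoc, ← zpow_one_add, add_comm, zpow_add_one, ← mul_assoc, ← mul_assoc,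
      mul_left_inj, inv_mul_eq_iff_eq_mul, ← mul_assoc, eq_mul_inv_iff_mul_eq] at k
    exact k.symm
  have sb : ∀ s, s = a ∨ s = c → ∃ C, Gsb {t | ∃ ω, Orb hr MP_35cce7_an.hs
      (gn M a, gn M c, gn M b) ω ∧ ω.1 = t} (pr (gn M a, gn M c, gn M b)) (par M {s, b}) C
        (gn M s * gn M b) := fun s u => by
    obtain ⟨s', u', -, e, ω, o, e1, e2, ne⟩ := key s u
    have := du_gsb o (by rw [e1, e2]; exact fun k => ne (inj k))
      (by rw [e1, e2]; exact fun k => cx u' u' e e)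
    rwa [e1, e2, ← Set.image_pair] at this
  obtain ⟨C, S⟩ := sb s hs
  obtain ⟨C', S'⟩ := sb t ht
  refine or_iff_not_imp_right.2 fun k => ?_
  push Not at k
  obtain ⟨g, g1, g2, g3, ne⟩ := k
  obtain ⟨n, u, u1, v, v1, rfl, e⟩ := K.mal (h := x) S S' ar g1 g2 (by simp [g3]) ne
  obtain ⟨s', a1, -, a2, -⟩ := key s hs
  obtain ⟨t', b1, -, b2, -⟩ := key t ht
  obtain rfl := cx a1 b1 a2 b2 e
  obtain rfl : s = t := inj (by simpa using e)
  exact ⟨rfl, by simpa using mul_mem u1 v1⟩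

theorem path_mal (hB : ∀ i, i = a ∨ i = c ∨ i = b) (hac : a ≠ c) (hab : a ≠ b) (hcb : c ≠ b)
    (h2 : M a c = 2) (hp : 3 ≤ M a b) (hq : 3 ≤ M c b)
    (h : 2 * (M a b + M c b) ≤ M a b * M c b) {s t : B} (hs : s = a ∨ s = c) (ht : t = a ∨ t = c)
    (x : Ar M) : (s = t ∧ x ∈ par M {s, b}) ∨ ∀ g ∈ par M {s, b}, ∀ g' ∈ par M {s, b},
      x⁻¹ * g * x ∈ par M {t, b} → x⁻¹ * g' * x ∈ par M {t, b} → g * g' = g' * g :=
  (path_deg hB hac hab hcb h2 hp hq h hs ht x).imp_right fun k g g1 g' g2 g3 g4 =>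
    mul_inv_eq_one.1 (k _ (mul_mem (mul_mem g1 g2) (inv_mem (mul_mem g2 g1)))
      (by simpa [mul_assoc] using mul_mem (mul_mem g3 g4) (inv_mem (mul_mem g4 g3)))
      (by rw [map_mul, map_inv, map_mul, map_mul, mul_comm (deg M g), mul_inv_cancel]))

end Pool.Agent.Lib.MP_5d3e93_al.At
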