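import Pool.Agent.Lib.MP_5d3e93_al.At.TcO

/-! A triangle complex on which one generator translates and the others fix a vertex. -/

namespace Pool.Agent.Lib.MP_5d3e93_al.At

/-- One translating generator `a` and a group `H` of elliptic generators. -/
structure Ev (G ι : Type) [Group G] where
  H : Subgroup G
  O : Subgroup G
  K : ι → Subgroup G
  a : G
  b : ι → G
  k : ι → ℕ
  ε : G →* Multiplicative ℤ
  β : ι → G →* Multiplicative ℤ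
  ρ : ι → G →* G
  k2 : ∀ i, 2 ≤ k i
  OH : O ≤ H
  KH : ∀ i, K i ≤ H
  bK : ∀ i, b i ∈ K i
  ca : ∀ c ∈ O, Commute a c
  cb : ∀ i, ∀ c ∈ O, c ∈ K i → Commute (b i) c
  br : ∀ i, (a * b i) ^ k i = (b i * a) ^ k i
  Kd : ∀ i, ∀ x ∈ K i, ∃ n : ℤ, ∃ c ∈ O, c ∈ K i ∧ x = b i ^ n * c
  εa : ε a = .ofAdd 1
  εH : ∀ h ∈ H, ε h = 1
  βb : ∀ i, β i (b i) = .ofAdd 1
  βn : ∀ i j, i ≠ j → β i (b j) = 1
  βa : ∀ i, β i a = 1
  βO : ∀ i, ∀ c ∈ O, β i c = 1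
  ρb : ∀ i, ρ i (b i) = 1
  ρn : ∀ i j, i ≠ j → ρ i (b j) = b j
  ρa : ∀ i, ρ i a = a
  ρO : ∀ i, ∀ c ∈ O, ρ i c = c
  gen : ∀ Q : Subgroup G, H ≤ Q → a ∈ Q → ∀ g, g ∈ Q
  pres : ∀ (P : Type) [Group P] (R : H →* P) (α : P), (∀ c (h : c ∈ O), Commute α (R ⟨c, OH h⟩)) →
    (∀ i, (α * R ⟨b i, KH i (bK i)⟩) ^ k i = (R ⟨b i, KH i (bK i)⟩ * α) ^ k i) →
      ∃ Φ : G →* P, Φ a = α ∧ ∀ h : H, Φ h = R h

/-- `x` normalises no part of `H` outside `O`. -/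
def EvN {G : Type} [Group G] (H O : Subgroup G) (x : G) : Prop :=
  ∀ n : ℤ, n ≠ 0 → ∀ c ∈ H, x ^ n * c * (x ^ n)⁻¹ ∈ H → c ∈ O

/-- No alternating relation with four letters `x`. -/
def EvA {G : Type} [Group G] (H : Subgroup G) (x : G) : Prop :=
  ∀ p ∈ H, ∀ q ∈ H, ∀ r ∈ H, ∀ s ∈ H, x * p * x⁻¹ * q * x * r * x⁻¹ * s = 1 →
    x * p * x⁻¹ ∈ H ∨ x⁻¹ * q * x ∈ H

namespace Ev

variable {G ι : Type} [Group G] (D : Ev G ι)

/-- The two facts that give girth six. -/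
def Gi : Prop := ∀ i, EvN D.O (D.K i) (D.b i) ∧ EvA D.O (D.b i)

/-- Types of vertices. -/
inductive J
  | h
  | o
  | f1
  | f2
  | w (i : ι) (j : ℕ) (p : 0 < j ∧ j < D.k i)

/-- Stabilisers. -/
def sb : D.J → Subgroup G
  | .h => D.H
  | .w i _ _ => D.K i
  | _ => D.O

/-- Vertices. -/
abbrev V : Type := Σ τ : D.J, G ⧸ D.sb τ

/-- The vertex of a type and an element. -/
def vx (τ : D.J) (g : G) : D.V := ⟨τ, (g : G ⧸ D.sb τ)⟩

/-- The rotation. -/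
def y (i : ι) : G := D.a * D.b i

/-- Vertices of the fixed line. -/
def vv (i : ι) (j : ℕ) (g : G) : D.V :=
  if p : 0 < j ∧ j < D.k i then D.vx (.w i j p) g else D.vx .h (g * D.y i ^ j)

/-- Triangles, first corner chosen. -/
def Tb (x y z : D.V) : Prop :=
  (∃ g i j, j < D.k i ∧ x = D.vv i j g ∧ y = D.vx .o (g * D.y i ^ j) ∧ z = D.vv i (j + 1) g) ∨
  (∃ g i j, j < D.k i ∧ x = D.vx .o (g * D.y i ^ j) ∧ y = D.vv i (j + 1) g ∧
    z = D.vx .o (g * D.y i ^ (j + 1))) ∨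
  (∃ g, x = D.vx .h g ∧ y = D.vx .o g ∧ z = D.vx .f1 g) ∨
  ∃ g, x = D.vx .o g ∧ y = D.vx .h (g * D.a) ∧ z = D.vx .f2 g

/-- Triangles. -/
def Tt (x y z : D.V) : Prop := D.Tb x y z ∨ D.Tb y z x ∨ D.Tb z x y

/-- Offsets of the colours. -/
def off : D.J → ZMod 3
  | .h => 0
  | .o => 1
  | .f1 => 2
  | .f2 => 0
  | .w _ j _ => 2 * j

variable {D}

theorem sb_le (τ : D.J) : D.sb τ ≤ D.H := by
  cases τ
  exacts [le_rfl, D.OH, D.OH, D.OH, D.KH _]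

theorem smul_vx (x : G) (τ : D.J) (g : G) : x • D.vx τ g = D.vx τ (x * g) := rfl

theorem vx_eq {τ τ' : D.J} {g g' : G} : D.vx τ g = D.vx τ' g' ↔ τ = τ' ∧ g⁻¹ * g' ∈ D.sb τ := by
  constructor
  · intro h
    obtain rfl : τ = τ' := congrArg Sigma.fst h
    exact ⟨rfl, QuotientGroup.eq.1 (eq_of_heq (Sigma.mk.inj h).2)⟩
  · rintro ⟨rfl, h⟩
    exact congrArg (Sigma.mk τ) (QuotientGroup.eq.2 h)

theorem vx_surj (x : D.V) : ∃ τ g, x = D.vx τ g := by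
  obtain ⟨τ, ⟨g⟩⟩ := x
  exact ⟨τ, g, rfl⟩

theorem smul_vv (x : G) (i : ι) (j : ℕ) (g : G) : x • D.vv i j g = D.vv i j (x * g) := by
  unfold vv
  split_ifs
  · rfl
  · rw [smul_vx, mul_assoc]

theorem vv_zero (i : ι) (g : G) : D.vv i 0 g = D.vx .h g := by simp [vv]

theorem vv_top (i : ι) (g : G) : D.vv i (D.k i) g = D.vx .h (g * D.y i ^ D.k i) := by simp [vv]

theorem cz {i : ι} {x : G} (h : x ∈ D.K i) : Commute (D.y i ^ D.k i) x := by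
  obtain ⟨n, c, c1, c2, rfl⟩ := D.Kd i x h
  refine .mul_right (.zpow_right ?_ n) (.pow_left (.mul_left (D.ca c c1) (D.cb i c c1 c2)) _)
  rw [Commute, SemiconjBy, y, ← mul_pow_mul, ← D.br i]

theorem vv_K {i : ι} {j : ℕ} (hj : j ≤ D.k i) (g : G) {x : G} (h : x ∈ D.K i) :
    D.vv i j (g * x) = D.vv i j g := by
  unfold vv
  split_ifs with p
  · exact (vx_eq.2 ⟨rfl, by simpa [sb] using h⟩).symm
  · refine (vx_eq.2 ⟨rfl, ?_⟩).symm
    obtain rfl | rfl : j = 0 ∨ j = D.k i := by omega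
    · simpa [sb] using D.KH i h
    · rw [mul_assoc g x, ← (cz h).eq]
      simpa [sb, mul_assoc] using D.KH i h

variable (D) in
/-- Colours. -/
def col (x : D.V) : ZMod 3 := off D x.1 + Quotient.liftOn' x.2
  (fun g => 2 * (((D.ε g).toAdd : ℤ) : ZMod 3)) fun g g' h => by
    have := D.εH _ (sb_le _ (QuotientGroup.leftRel_apply.1 h))
    rw [map_mul, map_inv, inv_mul_eq_one] at this
    rw [this]

theorem col_vx (τ : D.J) (g : G) :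
    D.col (D.vx τ g) = off D τ + 2 * (((D.ε g).toAdd : ℤ) : ZMod 3) := rfl

theorem ε_y (i : ι) : D.ε (D.y i) = .ofAdd 1 := by
  rw [y, map_mul, D.εa, D.εH _ (D.KH i (D.bK i)), mul_one]

theorem col_vv (i : ι) (j : ℕ) (g : G) :
    D.col (D.vv i j g) = 2 * (j : ZMod 3) + 2 * (((D.ε g).toAdd : ℤ) : ZMod 3) := by
  unfold vv
  split_ifs
  · rw [col_vx]; rfl
  · simp only [col_vx, off, map_mul, map_pow, ε_y, toAdd_mul, toAdd_pow, toAdd_ofAdd,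
      nsmul_eq_mul, mul_one]
    push_cast
    ring

theorem col_smul (g : G) (x : D.V) :
    D.col (g • x) = D.col x + (((D.ε g ^ 2).toAdd : ℤ) : ZMod 3) := by
  obtain ⟨τ, x, rfl⟩ := vx_surj x
  simp only [smul_vx, col_vx, map_mul, toAdd_mul, toAdd_pow, nsmul_eq_mul]
  push_cast
  ring

theorem Tb.col {x y z : D.V} (h : D.Tb x y z) :
    D.col y = D.col x + 1 ∧ D.col z = D.col y + 1 ∧ D.col x = D.col z + 1 := by
  have e : (3 : ZMod 3) = 0 := rfl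
  rcases h with ⟨g, i, j, -, rfl, rfl, rfl⟩ | ⟨g, i, j, -, rfl, rfl, rfl⟩ | ⟨g, rfl, rfl, rfl⟩ |
    ⟨g, rfl, rfl, rfl⟩ <;>
  simp only [col_vv, col_vx, off, map_mul, map_pow, ε_y, D.εa, toAdd_mul, toAdd_pow, toAdd_ofAdd,
    nsmul_eq_mul, mul_one] <;>
  push_cast <;> refine ⟨?_, ?_, ?_⟩ <;> first | ring1 | linear_combination -e

theorem Tb.smul (g : G) {x y z : D.V} (h : D.Tb x y z) : D.Tb (g • x) (g • y) (g • z) := by
  rcases h with ⟨u, i, j, h, rfl, rfl, rfl⟩ | ⟨u, i, j, h, rfl, rfl, rfl⟩ | ⟨u, rfl, rfl, rfl⟩ |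
    ⟨u, rfl, rfl, rfl⟩ <;> simp only [smul_vv, smul_vx, ← mul_assoc]
  exacts [.inl ⟨_, i, j, h, rfl, rfl, rfl⟩, .inr (.inl ⟨_, i, j, h, rfl, rfl, rfl⟩),
    .inr (.inr (.inl ⟨_, rfl, rfl, rfl⟩)), .inr (.inr (.inr ⟨_, rfl, rfl, rfl⟩))]

variable (D) in
/-- Links have no cycle of length four. -/
def L4 : Prop := ∀ w a b c e, D.Tt w a b → D.Tt w c b → D.Tt w c e → D.Tt w a e → a = c ∨ b = e

/-- The triangle complex. -/
def tc (h : D.L4) : MP_35cce7_an.TC G D.V where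
  t := D.Tt
  col := D.col
  rot h := h.elim (fun h => .inr (.inr h)) fun h => h.elim .inl fun h => .inr (.inl h)
  hc h := h.elim (·.col.1) fun h => h.elim (·.col.2.2) (·.col.2.1)
  l4 := h _ _ _ _ _
  inv g _ _ _ h := h.imp (·.smul g) (Or.imp (·.smul g) (·.smul g))

end Ev

end Pool.Agent.Lib.MP_5d3e93_al.At
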