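import Pool.Agent.Lib.MP_5d3e93_al.At.CqB

/-! Reduction to cliques when centralisers move the fixed vertices. -/

namespace Pool.Agent.Lib.MP_5d3e93_al.At

open Pool.Agent.Lib.MP_35cce7_an (par par_mono)
open Pool.Agent.Lib.MP_35cce7_an renaming Ar → AG

universe v u

theorem evq_cj {G : Type} [Group G] {m d : G} (h : d * m = m * d) (t : G) :
    (m⁻¹ * t)⁻¹ * d * (m⁻¹ * t) = t⁻¹ * d * t := by
  rw [show (m⁻¹ * t)⁻¹ * d * (m⁻¹ * t) = t⁻¹ * (m * d) * (m⁻¹ * t) by group, ← h]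
  group

theorem Am.fixN {G : Type} [Group G] {A : Bool → Subgroup G} {C H N : Subgroup G} (h : Am A C)
    (k : AmG A H) {D : Set G} (hN : ∀ m ∈ N, m ∈ H ∧ ∀ d ∈ D, d * m = m * d) {p : Bool → Prop}
    (hp : ∀ j, p j → ∀ d ∈ D, d ∈ A j) (he : ∀ j, p j → ∀ g ∈ H, g ∈ A j →
      (∀ d ∈ D, g⁻¹ * d * g ∈ C) → p (!j) ∧ ∃ m ∈ N, m⁻¹ * g ∈ C) {j₀} (h₀ : p j₀) {n l} {t : G}
    (r : MP_35cce7_an.Red A C n l t) (a : t ∈ H) {i} (b : ∀ d ∈ D, t⁻¹ * d * t ∈ A i) :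
    p i ∧ ∃ m ∈ N, m⁻¹ * t ∈ A i := by
  have key (c : ∀ d ∈ D, d ∈ C) (j) : p j := by
    obtain rfl | rfl := am_bool j j₀
    exacts [h₀, (he _ h₀ 1 (one_mem _) (one_mem _) (by simpa using c)).1]
  induction n using Nat.strong_induction_on generalizing l t with | _ n ih => ?_
  obtain c | ⟨j, y, y1, y2, y3, n', y4⟩ := h.fl k a
  · refine ⟨?_, 1, one_mem _, by simpa using h.le i c⟩
    obtain rfl | rfl := am_bool i j₀
    · exact h₀
    · exact key (fun d e => h.inf _ d (hp _ h₀ d e) (by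
        simpa [mul_assoc] using mul_mem (mul_mem (h.le _ c) (b d e)) (inv_mem (h.le _ c)))) _
  have u : MP_35cce7_an.Red A C (n' + 1) j t := ⟨y, y2, y3, y4⟩
  by_cases q : p j
  · by_cases o : ∀ d ∈ D, y⁻¹ * d * y ∈ C
    · obtain ⟨-, m, m1, m2⟩ := he j q y y1 y2 o
      obtain rfl := r.uniq h.le h.nf u
      obtain ⟨f, s, s1, s2⟩ := ih n' n'.lt_succ_self (t := m⁻¹ * t)
        (by simpa [mul_assoc] using y4.cl m2 h.le) (mul_mem (inv_mem (hN m m1).1) a)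
        fun d e => by rw [evq_cj ((hN m m1).2 d e)]; exact b d e
      exact ⟨f, m * s, mul_mem m1 s1, by simpa [mul_assoc] using s2⟩
    obtain ⟨d, e, f⟩ : ∃ d ∈ D, y⁻¹ * d * y ∉ C := by simpa using o
    have v := am_st (mul_mem (mul_mem (inv_mem y2) (hp j q d e)) y2) f y4
    have z : y⁻¹ * d * y * (y⁻¹ * t) = y⁻¹ * t * (t⁻¹ * d * t) := by group
    cases n' with
    | zero =>
      obtain rfl | rfl := am_bool i j
      · exact ⟨q, 1, one_mem _, by simpa using mul_mem y2 (h.le i y4)⟩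
      · exact (h.one (mul_mem (h.le _ y4) (b d e))).elim fun _ u => (h.dj v (z ▸ u)).elim
    | succ n => exact (h.rt y4 (b d e)).elim fun _ u => (h.dj v (z ▸ u)).elim
  · obtain rfl : j₀ = !j := (am_bool j₀ j).resolve_left fun c => q (c ▸ h₀)
    obtain ⟨d, e, f⟩ : ∃ d ∈ D, d ∉ C := by
      by_contra! f
      exact q (key f j)
    have z : d * t = t * (t⁻¹ * d * t) := by group
    exact (h.rt u (b d e)).elim fun _ w => (h.dj' (am_st' (hp _ h₀ d e) f u) (z ▸ w)).elim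

variable {B : Type} {M : CoxeterMatrix B}

variable (M) in
/-- A set together with the generators that commute with its non-isolated members. -/
def Wq (Q : Set B) : Set B := Q ∪ {s | ∀ y ∈ Q, ∀ z ∈ Q, y ≠ z → M y z ≠ 2 → M s y = 2}

variable (M) in
/-- Rigid subgroups are moved into maximal parabolic subgroups only by their centralisers. -/
def Mal2 (T : Set B) : Prop := ∀ Q ⊆ T, Cq M Q → ∀ D ≤ par M Q, Rig Q D → ∀ s ∈ T,
  ∀ t ∈ par M T, (∀ d ∈ D, t⁻¹ * d * t ∈ par M (T \ {s})) → s ∉ Q ∧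
    ∃ m ∈ par M (Wq M Q), (∀ d ∈ D, d * m = m * d) ∧ m⁻¹ * t ∈ par M (T \ {s})

theorem Mal.two {T : Set B} (h : Mal M Rig T) : Mal2 M T := fun Q a b D c d s e t f g =>
  (h Q a b D c d s e t f g).imp_right fun k => ⟨1, one_mem _, by simp, by simpa using k⟩

theorem mal2_all (h : ∀ T, T.Finite → Cq M T → Mal2 M T) {T : Set B} (hT : T.Finite) :
    Mal2 M T := by
  induction hn : T.ncard using Nat.strong_induction_on generalizing T with | _ n ih => ?_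
  by_cases k : Cq M T
  · exact h T hT k
  intro Q q1 q2 D d1 d2
  have g (x) (a : x ∈ T) : Mal2 M (T \ {x}) :=
    ih _ (hn ▸ Set.ncard_sdiff_singleton_lt_of_mem a hT) hT.sdiff rfl
  have one (c : Bool → B) (c1 : ∀ j, c j ∈ T) (c2 : M (c true) (c false) = 0) (i) (t)
      (a : t ∈ par M T) (b : ∀ d ∈ D, t⁻¹ * d * t ∈ cqA M c i) : c i ∉ Q ∧
        ∃ m ∈ par M (Wq M Q), (∀ d ∈ D, d * m = m * d) ∧ m⁻¹ * t ∈ par M (T \ {c i}) := by
    obtain ⟨j, e⟩ := cq_side c2 q2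
    obtain ⟨_, _, r⟩ := cq_red c2 t
    obtain ⟨z, m, ⟨m1, m2, m3⟩, m4⟩ := (cq_am c2).fixN (cq_gen c2 T) (D := D)
      (N := par M (Wq M Q) ⊓ (par M T ⊓ Subgroup.centralizer D)) (fun _ a => a.2)
      (p := fun j => c j ∉ Q) (fun j p d f => cq_le p (d1 f)) (fun j p x x1 x2 x3 => by
        have w : Q ⊆ T \ {c j} := fun u r => ⟨q1 r, fun s => p (s ▸ r)⟩
        obtain ⟨z, m, m1, m2, m3⟩ := g _ (c1 j) Q w q2 D d1 d2 _ ⟨c1 _, (cq_ne c2 j).symm⟩ x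
          (cq_cut x1 x2) fun d f => cq_cut (cq_cut (mul_mem (mul_mem (inv_mem x1)
            (par_mono q1 (d1 f))) x1) ((cq_am c2).le j (x3 d f))) ((cq_am c2).le _ (x3 d f))
        refine ⟨z, m, ⟨m1, ?_, m2⟩, par_mono (fun u r l => ?_) m3⟩
        · simpa using mul_mem x1 (inv_mem (par_mono (T := T) (fun _ r => r.1.1) m3))
        obtain rfl | rfl := am_bool l j
        exacts [r.1.2, r.2]) e r a b
    exact ⟨z, m, m1, m3, cq_cut (mul_mem (inv_mem m2) a) m4⟩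
  intro x x1 t t1 t2
  by_cases l : ∃ y ∈ T, M x y = 0
  · obtain ⟨y, y1, y2⟩ := l
    exact one (fun j => cond j x y) (by rintro (_ | _) <;> assumption) y2 true t t1
      fun d f => par_mono (fun _ r => r.2) (t2 d f)
  obtain ⟨c, c1, c2⟩ := cq_not k
  have c3 (j) : x ≠ c j := by
    rintro rfl
    cases j
    exacts [l ⟨_, c1 true, (M.symmetric ..).trans c2⟩, l ⟨_, c1 false, c2⟩]
  obtain ⟨j, e⟩ := cq_side c2 q2
  obtain ⟨m, i, f⟩ := cq_red c2 t⁻¹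
  obtain ⟨s, s1, i, s2⟩ := (cq_am c2).proj (cq_gen c2 (T \ {x})) f (i := j)
    (D := (fun d => t⁻¹ * d * t) '' D) (by
      rintro _ ⟨d, p, rfl⟩
      exact t2 d p) (by
      rintro _ ⟨d, p, rfl⟩
      simpa [mul_assoc] using cq_le e (d1 p))
  have s3 (d) (p : d ∈ D) : (t * s)⁻¹ * d * (t * s) ∈ cqA M c i := by
    simpa [mul_assoc] using s2 _ ⟨d, p, rfl⟩
  obtain ⟨r1, y, y1, y2, r2⟩ := one c c1 c2 i _ (mul_mem t1 (par_mono Set.sdiff_subset s1)) s3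
  obtain ⟨r3, w, w1, w2, r4⟩ := g _ (c1 i) Q (fun u r => ⟨q1 r, fun s => r1 (s ▸ r)⟩) q2 D d1 d2 x
    ⟨x1, c3 i⟩ _ r2 fun d p => by
      rw [Set.sdiff_sdiff_comm, evq_cj (y2 d p)]
      refine cq_cut ?_ (s3 d p)
      simpa [mul_assoc] using mul_mem (mul_mem (inv_mem s1) (t2 d p)) s1
  refine ⟨r3, y * w, mul_mem y1 w1, fun d p => by rw [← mul_assoc, y2 d p, mul_assoc, w2 d p,
    mul_assoc], (Subgroup.mul_mem_cancel_right _ s1).1 ?_⟩
  simpa [mul_assoc] using par_mono (T := T \ {x}) (fun u r => ⟨r.1.1, r.2⟩) r4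

theorem mal2_in (h : ∀ T, T.Finite → Mal2 M T) {Q : Set B} (q : Cq M Q) {D : Subgroup (AG M)}
    (d1 : D ≤ par M Q) (d2 : Rig Q D) {t : AG M} (a : ∀ d ∈ D, t⁻¹ * d * t ∈ par M Q) {T : Set B}
    (hT : T.Finite) (e : Q ⊆ T) (b : t ∈ par M T) : t ∈ par M (Wq M Q) := by
  induction hn : T.ncard using Nat.strong_induction_on generalizing T t with | _ n ih => ?_
  by_cases k : T ⊆ Q
  · exact par_mono (k.trans Set.subset_union_left) b
  obtain ⟨x, x1, x2⟩ := Set.not_subset.1 k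
  have w : Q ⊆ T \ {x} := fun u r => ⟨e r, fun s => x2 (s ▸ r)⟩
  obtain ⟨-, m, m1, m2, m3⟩ := h T hT Q e q D d1 d2 x x1 t b fun d p => par_mono w (a d p)
  exact (Subgroup.mul_mem_cancel_left _ (inv_mem m1)).1 (ih _
    (hn ▸ Set.ncard_sdiff_singleton_lt_of_mem x1 hT)
    (fun d p => by rw [evq_cj (m2 d p)]; exact a d p) hT.sdiff w m3 rfl)

theorem tm_cq2 {𝓕 : Fam (AG M)} (h : ∀ T, T.Finite → Mal2 M T)
    (hW : ∀ Q, Cq M Q → ¬ LocHyper (par M Q) → Wq M Q ⊆ Q ∨ 𝓕.m (par M (Wq M Q))) {Q : Set B}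
    (hQ : Q.Finite) (q : Cq M Q) (r : ∀ U, U.Finite → U.ncard ≤ Q.ncard → 𝓕.m (par M U)) :
    𝓕.Tm (par M Q) := by
  induction hn : Q.ncard using Nat.strong_induction_on generalizing Q with | _ n ih => ?_
  refine ⟨_, fun D ⟨t, o, b, c⟩ => ?_⟩
  by_cases k : Rig Q D
  · obtain ⟨T, t1, t2⟩ := cq_fin t
    exact (b (𝓕.le (sup_le (par_mono Set.subset_union_left) (Subgroup.zpowers_le.2 (mal2_in h q
      (fun x p => (mem_cj.1 (c p)).1) k (fun x p => (mem_cj.1 (c p)).2) (t1.union hQ)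
        Set.subset_union_right (par_mono Set.subset_union_left t2))))
      ((hW Q q o).elim (fun e => 𝓕.le (par_mono e) (r Q hQ le_rfl)) id))).elim
  by_cases l : LocHyper D
  · exact Fam.tm_lh l
  obtain ⟨U, u1, u2, ⟨g, u3⟩, u4⟩ : ∃ U : Set B, U.Finite ∧ Cq M U ∧
      (∃ g, ∀ d ∈ D, g⁻¹ * d * g ∈ par M U) ∧ U.ncard < Q.ncard := by
    by_contra! f
    exact k ⟨l, f⟩
  exact tm_conj (ih _ (hn ▸ u4) u1 u2 (fun W a b => r W a (b.trans u4.le)) rfl) g u3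

theorem rel_cq2 {𝓕 : Fam (AG M)} (hM : ∀ T, T.Finite → Cq M T → Mal2 M T)
    (hW : ∀ Q, Cq M Q → ¬ LocHyper (par M Q) → Wq M Q ⊆ Q ∨ Rel.{0, v, u} 𝓕 (par M (Wq M Q)))
    (hB : ∀ T, T.Finite → Cq M T → Rel.{0, v, u} 𝓕 (par M T) ∨ CBl M T) {T : Set B}
    (hT : T.Finite) : Rel.{0, v, u} 𝓕 (par M T) := by
  induction hn : T.ncard using Nat.strong_induction_on generalizing T with | _ n ih => ?_
  obtain a | ⟨L, _, j, j1, j2, X, _, _, _, E, _, b⟩ :=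
    (em _).elim (hB T hT) fun k => .inr (cbl_not hT k)
  · exact a
  refine j2 ▸ rel_lat j1 E fun z => ?_
  obtain ⟨_, ⟨U, u1, u2, g, rfl⟩, c⟩ := b z
  refine tm_pull (hyper_ker j1) (tm_conj (tm_cq2 (𝓕 := rel.{0, v, u} 𝓕)
    (fun _ => mal2_all hM) hW (hT.subset u1.le) u2 fun W p q =>
      ih _ (hn ▸ q.trans_lt (Set.ncard_lt_ncard u1 hT)) p rfl) g ?_) _ le_rfl
  rintro _ ⟨x, p, rfl⟩
  exact c x p

end Pool.Agent.Lib.MP_5d3e93_al.At
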