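import Pool.Agent.Lib.MP_5d3e93_al.At.Cq

/-! Generators in an arbitrary universe. -/

open CoxeterSystem CategoryTheory Limits

namespace Pool.Agent.Lib.MP_5d3e93_al.At

open As
open Pool.Agent.Lib.MP_35cce7_an renaming Ar → AG
open Pool.Agent.Lib.MP_35cce7_an (gn par rels Emb alift alift_gn par_univ)

universe w v u

section
variable {Γ : Type w} [Group Γ] {C : Type u} [Category.{v} C] [Preadditive C] {σ : Act Γ C}
  {H : Type} [Group H]

theorem uv_sw (h : Sw σ) (j : H →* Γ) : Sw (σ.comap j) := fun V _ x a q => by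
  obtain ⟨Φ, b, i, r, i', r', c, d, e⟩ := h (j.comp q).range ((j.comp q).rangeRestrict x) (by
    rw [← MonoidHom.map_zpowers]
    exact ⟨ne_zero_of_dvd_ne_zero a.1
      (Subgroup.index_map_dvd _ (MonoidHom.rangeRestrict_surjective _))⟩)
    (Subgroup.subtype _)
  exact ⟨Φ, b, i, r, i', r', c, d, fun g ⟨y, k⟩ => e (j g) ⟨⟨_, y, rfl⟩, congrArg j k⟩⟩

theorem uv_kz [HasBinaryBiproducts C] [HasZeroObject C] {j : H →* Γ} (hj : Function.Injective j) :
    KZ (σ.comap j) ↔ (SZ σ).WK (j.range.comap (.fst Γ Zi)) := by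
  have := Tw.push_faithful (ρ := σ.comap (MonoidHom.fst Γ Zi))
    (j := j.prodMap (MonoidHom.id Zi)) (hj.prodMap Function.injective_id)
  have e : j.range.comap (.fst Γ Zi) = (j.prodMap (MonoidHom.id Zi)).range := by
    ext g
    exact ⟨fun ⟨a, h⟩ => ⟨(a, g.2), Prod.ext h rfl⟩, fun ⟨a, h⟩ => ⟨a.1, congrArg Prod.fst h⟩⟩
  rw [e]
  exact GC.wk_equiv (S := twGC ((σ.comap (MonoidHom.fst Γ Zi)).comap
    (j.prodMap (MonoidHom.id Zi)))) (Tw.pushF _) (fun f _ => sup_push f)
    (fun f h => (MP_5d3e93_al.push_surj f h).imp fun _ k => ⟨GC.sup_top _ _, k⟩) fun A => ⟨⟨A.as⟩, rfl⟩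

end

variable {S : Type v} (M : CoxeterMatrix S)

/-- The labels on an injective family of generators. -/
def mx {I : Type} (e : I → S) (he : Function.Injective e) : CoxeterMatrix I where
  M := Matrix.of fun i j => M (e i) (e j)
  isSymm := Matrix.IsSymm.ext fun i j => M.symmetric (e j) (e i)
  diagonal i := M.diagonal (e i)
  off_diagonal _ _ h := M.off_diagonal _ _ (he.ne h)

variable {M}

theorem uv_rel {P : Type*} [Group P] (φ : FreeGroup S →* P) (s t : S) :
    φ (((braidWord M s t).map FreeGroup.of).prod * ((braidWord M t s).map FreeGroup.of).prod⁻¹) =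
      (alternatingWord (φ (.of s)) (φ (.of t)) (M s t)).prod *
        (alternatingWord (φ (.of t)) (φ (.of s)) (M s t)).prod⁻¹ := by
  rw [map_mul, map_inv, art_hom, art_hom, M.symmetric t s]

theorem uv_fin {k : FreeGroup S} (h : PresentedGroup.mk (artR M) k = 1) :
    ∃ F : Set S, F.Finite ∧ ∀ (P : Type) [Group P] (π : FreeGroup S →* P), (∀ s ∈ F, ∀ t ∈ F,
      π (((braidWord M s t).map FreeGroup.of).prod *
        ((braidWord M t s).map FreeGroup.of).prod⁻¹) = 1) → π k = 1 := by
  replace h := PresentedGroup.mk_eq_one_iff.1 h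
  induction h using Subgroup.closure_induction with
  | mem x e =>
    obtain ⟨_, ⟨s, t, rfl⟩, b⟩ := Group.mem_conjugatesOfSet_iff.1 e
    obtain ⟨g, rfl⟩ := isConj_iff.1 b
    exact ⟨{s, t}, Set.toFinite _, fun _ _ π e => by
      rw [map_mul, map_mul, e s (by simp) t (by simp), mul_one, ← map_mul, mul_inv_cancel, map_one]⟩
  | one => exact ⟨∅, Set.finite_empty, fun _ _ _ _ => map_one _⟩
  | mul x y _ _ a b =>
    obtain ⟨F, p, q⟩ := a
    obtain ⟨F', p', q'⟩ := b
    exact ⟨F ∪ F', p.union p', fun _ _ π e => by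
      rw [map_mul, q _ π fun _ a _ b => e _ (.inl a) _ (.inl b),
        q' _ π fun _ a _ b => e _ (.inr a) _ (.inr b), one_mul]⟩
  | inv x _ a =>
    obtain ⟨F, p, q⟩ := a
    exact ⟨F, p, fun _ _ π e => by rw [map_inv, q _ π e, inv_one]⟩

theorem uv_emb {I : Type} [Finite I] {e : I → S} (he : Function.Injective e) :
    ∃ j : AG (mx M e he) →* PresentedGroup (artR M), Function.Injective j ∧
      ∀ i, j (gn _ i) = .of (e i) := by
  let j : AG (mx M e he) →* PresentedGroup (artR M) :=
    (PresentedGroup.toGroup (rels := artR (mx M e he)) (f := fun i => .of (e i)) (by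
      rintro _ ⟨s, t, rfl⟩
      rw [uv_rel, FreeGroup.lift_apply_of, FreeGroup.lift_apply_of]
      exact (uv_rel (PresentedGroup.mk _) (e s) (e t)).symm.trans
        (PresentedGroup.one_of_mem ⟨_, _, rfl⟩))).comp (alift PresentedGroup.of fun s t _ _ =>
          (cq_rel (PresentedGroup.mk _) s t).1 (PresentedGroup.one_of_mem ⟨s, t, rfl⟩))
  have a i : j (gn _ i) = .of (e i) := by simp [j]
  refine ⟨j, (injective_iff_map_eq_one _).2 fun x b => ?_, a⟩
  obtain ⟨k, rfl⟩ := PresentedGroup.mk_surjective _ x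
  obtain ⟨F, p, q⟩ := uv_fin (M := M) (k := FreeGroup.map e k) ((DFunLike.congr_fun
    (FreeGroup.ext_hom ((PresentedGroup.mk _).comp (FreeGroup.map e))
      (j.comp (PresentedGroup.mk _)) fun i => (a i).symm) k).trans b)
  obtain ⟨n, f, f1, f2⟩ := (p.union (Set.finite_range e)).fin_param
  choose g hg using fun s (c : s ∈ F ∪ Set.range e) => (f2 ▸ c : s ∈ Set.range f)
  let E : Emb (mx M e he) (mx M f f1) := ⟨fun i => g (e i) (.inr ⟨i, rfl⟩),
    fun i l c => he ((hg ..).symm.trans ((congrArg f c).trans (hg ..))),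
    fun i l => by simp only [mx, Matrix.of_apply, hg]⟩
  classical
  let π : FreeGroup S →* AG (mx M f f1) :=
    FreeGroup.lift fun s => if c : s ∈ F ∪ Set.range e then gn _ (g s c) else 1
  have c s (c : s ∈ F ∪ Set.range e) : π (.of s) = gn _ (g s c) := by
    simp only [π, FreeGroup.lift_apply_of, dif_pos c]
  refine E.hom_inj (((DFunLike.congr_fun (FreeGroup.ext_hom (E.hom.comp (PresentedGroup.mk _))
    (π.comp (FreeGroup.map e)) fun i => (E.hom_gn i).trans (c _ _).symm) k).trans
      (q _ π fun s x t y => ?_)).trans (map_one _).symm)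
  have := (uv_rel (M := mx M f f1) (PresentedGroup.mk (rels _)) _ _).symm.trans
    ((cq_rel _ (g s (.inl x)) (g t (.inl y))).2 (cq_braid ..))
  rw [uv_rel, c s (.inl x), c t (.inl y)]
  exact (congrArg₂ M (hg s (.inl x)) (hg t (.inl y)) :) ▸ this

/-- Reduction to cliques, for generators in any universe. -/
theorem fj_cqv (h : ∀ (I : Type) (e : I → S) (he : Function.Injective e) (T : Set I), T.Finite →
    Cq (mx M e he) T → Mal (mx M e he) Rig T ∧
      (Rel.{0, v, max 1 u v} (Fam.emp _) (par (mx M e he) T) ∨ CBl (mx M e he) T)) :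
    FJ.{v, u} (PresentedGroup (artR M)) := by
  refine Br.fj_kz fun D _ _ _ _ σ hs => kz_fg fun H a => ?_
  obtain ⟨s, rfl, b⟩ := (Subgroup.fg_iff _).1 a
  choose k hk using PresentedGroup.mk_surjective (artR M)
  choose T d c using fun g => pd_fin (c := id) (k g)
  obtain ⟨n, e, he, f⟩ := (b.biUnion fun g _ => d g).fin_param
  obtain ⟨j, j1, j2⟩ := uv_emb (M := M) he
  have l : (j.comp ((Subgroup.closure s).comap j).subtype).range = Subgroup.closure s := by
    rw [MonoidHom.range_comp, Subgroup.range_subtype]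
    refine Subgroup.map_comap_eq_self ((Subgroup.closure_le _).2 fun g p => hk g ▸
      ((Subgroup.closure_le (j.range.comap (PresentedGroup.mk _))).2 ?_ (c g)))
    rintro _ ⟨x, q, rfl⟩
    obtain ⟨i, rfl⟩ : x ∈ Set.range e := f ▸ Set.mem_biUnion p q
    exact ⟨_, j2 i⟩
  rw [kz_sub, ← l]
  refine (uv_kz fun _ _ c => Subtype.ext (j1 c)).1 ?_
  exact rel_cq (fun T p q => (h _ e he T p q).1) (fun T p q => (h _ e he T p q).2)
    Set.finite_univ _ (Subgroup.subtype _) (hyper_ker (Subgroup.subtype_injective _))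
    (fun x _ => par_univ x) D _ (uv_sw hs _) fun _ f => f.elim

/-- Artin groups in which every triangle of finite labels has no label two or only labels two. -/
theorem fj_cqu {S : Type v} (M : CoxeterMatrix S)
    (hM : ∀ s t r, r ≠ s → M s t = 2 → M s r ≠ 0 → M t r ≠ 0 → M s r = 2) :
    FJ.{v, u} (PresentedGroup (artR M)) :=
  fj_cqv fun _ e he _ a b => (cq_or (M := mx M e he) (fun _ _ _ c => hM _ _ _ (he.ne c)) b).elim
    (fun c => ⟨mal_ab c, .inl (rel_lh (cq_ab c le_rfl))⟩) fun c => ⟨mal_lg a b c, rel_lg a b c⟩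

end Pool.Agent.Lib.MP_5d3e93_al.At
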