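import Pool.Agent.Lib.MP_5d3e93_al.At.OnB
import Pool.Agent.Lib.MP_5d3e93_al.At.Cw
import Pool.Agent.Lib.MP_5d3e93_al.At.Uv

/-! Artin groups whose cliques are right-angled or have at most one label two. -/

namespace Pool.Agent.Lib.MP_5d3e93_al.At

open As
open Pool.Agent.Lib.MP_35cce7_an (gn par par_mono gn_mem InP IsMinC subE sub deg)

universe v u

theorem Core.cj {B W : Type} [Group W] {M : CoxeterMatrix B} {cs : CoxeterSystem M W} {K : Set B}
    {a : B} (k : Core M K) (m : a ∈ K) (w : W) :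
    ¬ ∀ s ∈ K, InP cs {a}ᶜ (w⁻¹ * cs.simple s * w) := by
  induction hn : cs.length w using Nat.strong_induction_on generalizing w with | _ n ih => ?_
  intro h
  by_cases p : ∃ s ∈ K, cs.length (cs.simple s * w) < cs.length w
  · obtain ⟨s, p, q⟩ := p
    refine ih _ (hn ▸ q) _ rfl fun t r => ?_
    simpa [mul_assoc] using ((h s p).mul (h t r)).mul (h s p)
  by_cases q : IsMinC cs {a}ᶜ w
  · have r : ∀ s ∈ K, cs.length w < cs.length (cs.simple s * w) := fun s e =>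
      (not_lt.1 fun f => p ⟨s, e, f⟩).lt_of_ne (cs.length_simple_mul_ne w s).symm
    have l := fun s e => inP_simple (kilm r q (InP.simple e) (h s e) (by simp [mul_assoc]))
    obtain ⟨-, t, c, d⟩ := l a m
    exact c (simple_inj (mul_left_cancel (d.symm.trans
      (k.cen (fun s e => ⟨r s e, (l s e).2.imp fun _ => And.right⟩) a m))))
  · obtain ⟨y, c, d⟩ := by simpa [IsMinC] using q
    refine ih _ (hn ▸ d) _ rfl fun t r => ?_
    simpa [mul_assoc] using (c.inv.mul (h t r)).mul c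

variable {B : Type} {M : CoxeterMatrix B} {T : Set B} {a b c : B}

theorem On.pick (h : On M T) {Q : Set B} (e : Q ⊆ T) {y z s : B} (p : y ∈ Q) (q : z ∈ Q)
    (n : y ≠ z) (k : M y z ≠ 2) (r : s ∈ T) (o : ¬ T ⊆ Q) :
    (∃ x : ZMod 3 → B, Function.Injective x ∧ (∀ i, x i ∈ T) ∧
      (∀ i, M (x (i + 2)) (x (i + 1)) ≠ 2) ∧ x 0 ∉ Q ∧ ∃ j, x j = s) ∨
    (∃ a ∈ T, ∃ c ∈ T, ∃ b ∈ T, M a c = 2 ∧ a ≠ b ∧ c ≠ b ∧ T ⊆ {a, c, b} ∧ Q = {c, b}) ∨
      ∃ K ⊆ Q, s ∈ K ∧ Core M K := by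
  have mk : ∀ i ∈ T, ∀ j ∈ T, ∀ l ∈ T, i ≠ j → i ≠ l → j ≠ l → M i j ≠ 2 → M i l ≠ 2 → M j l ≠ 2 →
      i ∉ Q → s = i ∨ s = j → ∃ x : ZMod 3 → B, Function.Injective x ∧ (∀ i, x i ∈ T) ∧
        (∀ i, M (x (i + 2)) (x (i + 1)) ≠ 2) ∧ x 0 ∉ Q ∧ ∃ j, x j = s := by
    intro i a j b l c d f g u v w t m
    obtain ⟨x, x1, rfl, rfl, rfl, x2⟩ := on_ex d f g
    exact ⟨x, x1, x2 _ a b c, on_lab u v w, t, m.elim (fun m => ⟨_, m.symm⟩) fun m => ⟨_, m.symm⟩⟩
  refine or_iff_not_imp_left.2 fun g => ?_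
  replace mk := fun i a j b l c d f g' u v w t m => g (mk i a j b l c d f g' u v w t m)
  clear g
  obtain ⟨w, w1, w2⟩ := Set.not_subset.1 o
  have py := e p
  have qz := e q
  by_cases f : ∀ a ∈ T, ∀ c ∈ T, M a c ≠ 2
  · replace mk := fun i a j b l c d f' g => mk i a j b l c d f' g (f _ a _ b) (f _ a _ c) (f _ b _ c)
    have ne : ∀ {i j}, i ∉ Q → j ∈ Q → i ≠ j := fun a b c => a (c ▸ b)
    by_cases m : s ∈ Q
    · by_cases t : s = y
      · exact (mk w w1 s r z qz (ne w2 m) (ne w2 q) (t ▸ n) w2 (.inr rfl)).elim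
      · exact (mk w w1 s r y py (ne w2 m) (ne w2 p) t w2 (.inr rfl)).elim
    · exact (mk s r y py z qz (ne m p) (ne m q) n m (.inl rfl)).elim
  obtain ⟨a, a1, c, c1, l⟩ := by simpa using f
  have l' := M.symmetric a c ▸ l
  have ne := on_ne l
  replace mk : ∀ i ∈ T, ∀ j ∈ T, ∀ m ∈ T, i ∉ Q → s = i ∨ s = j → i = j ∨ i = m ∨ j = m ∨
      (a = i ∨ a = j ∨ a = m) ∧ (c = i ∨ c = j ∨ c = m) := fun i i1 j j1 m m1 u v =>
    by_contra fun t => mk i i1 j j1 m m1 (fun e => t (.inl e)) (fun e => t (.inr (.inl e)))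
      (fun e => t (.inr (.inr (.inl e))))
      (fun e => by have := h.two a1 c1 l i1 j1 e; clear * - this t; grind)
      (fun e => by have := h.two a1 c1 l i1 m1 e; clear * - this t; grind)
      (fun e => by have := h.two a1 c1 l j1 m1 e; clear * - this t; grind) u v
  have ny : ¬ (y = a ∧ z = c ∨ y = c ∧ z = a) := by
    rintro (⟨rfl, rfl⟩ | ⟨rfl, rfl⟩)
    exacts [k l, k l']
  by_cases t : T ⊆ {y, z, w}
  · have d : Q = {y, z} := Set.Subset.antisymm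
      (fun i a => (t (e a)).imp_right fun b => b.resolve_right fun c => w2 (c ▸ a))
      (Set.insert_subset p (Set.singleton_subset_iff.2 q))
    have h1 : a = y ∨ a = z ∨ a = w := t a1
    have h2 : c = y ∨ c = z ∨ c = w := t c1
    have wy : w ≠ y := fun b => w2 (b ▸ p)
    have wz : w ≠ z := fun b => w2 (b ▸ q)
    have t1 : T ⊆ {w, y, z} := t.trans (by rintro _ (rfl | rfl | rfl) <;> simp)
    have t2 : T ⊆ {w, z, y} := t.trans (by rintro _ (rfl | rfl | rfl) <;> simp)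
    obtain ⟨rfl, rfl⟩ | ⟨rfl, rfl⟩ | ⟨rfl, rfl⟩ | ⟨rfl, rfl⟩ : (w = a ∧ y = c) ∨ (w = c ∧ y = a) ∨
        (w = a ∧ z = c) ∨ (w = c ∧ z = a) := by
      clear * - h1 h2 ny ne
      grind
    exacts [.inl ⟨w, w1, y, py, z, qz, l, wz, n, t1, d⟩, .inl ⟨w, w1, y, py, z, qz, l', wz, n, t1, d⟩,
      .inl ⟨w, w1, z, qz, y, py, l, wy, n.symm, t2, d.trans (Set.pair_comm ..)⟩,
      .inl ⟨w, w1, z, qz, y, py, l', wy, n.symm, t2, d.trans (Set.pair_comm ..)⟩]
  obtain ⟨x, x1, x2⟩ := Set.not_subset.1 t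
  replace x2 : x ≠ y ∧ x ≠ z ∧ x ≠ w := by simpa [not_or] using x2
  right
  by_cases m : s ∈ Q
  · have o : ∀ i ∈ T, i ∉ Q → i = a ∧ s = c ∨ i = c ∧ s = a := fun i i1 b => by
      have h1 := mk i i1 s r y py b (.inr rfl)
      have h2 := mk i i1 s r z qz b (.inr rfl)
      have h3 := mk i i1 s r w w1 b (.inr rfl)
      have h4 := mk i i1 s r x x1 b (.inr rfl)
      clear * - h1 h2 h3 h4 x2 p q n w2 b m ne
      grind
    have l1 := o w w1 w2
    have x3 : x ∈ Q := by_contra fun b => by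
      have := o x x1 b
      clear * - this l1 x2 ne
      grind
    obtain ⟨i, i1, j, j1, d⟩ : ∃ i ∈ Q, ∃ j ∈ Q, s ≠ i ∧ s ≠ j ∧ i ≠ j := by
      by_cases h1 : s = y
      · exact ⟨z, q, x, x3, h1 ▸ n, h1 ▸ x2.1.symm, x2.2.1.symm⟩
      by_cases h2 : s = z
      · exact ⟨y, p, x, x3, h1, h2 ▸ x2.2.1.symm, x2.1.symm⟩
      · exact ⟨y, p, z, q, h1, h2, n⟩
    have k1 : {s, i, j} ⊆ Q := by
      rintro _ (rfl | rfl | rfl) <;> assumption
    refine ⟨{s, i, j}, k1, by simp, by simp, fun u u1 v v1 f => ?_, fun u _ v _ f => ?_, ?_⟩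
    · have h1 := k1 u1
      have h2 := k1 v1
      have h3 := h.two a1 c1 l (e h1) (e h2) f
      clear * - h1 h2 h3 l1 w2
      grind
    · have h1 : s = u ∨ s = v := f (by simp)
      have h2 : i = u ∨ i = v := f (by simp)
      have h3 : j = u ∨ j = v := f (by simp)
      clear * - h1 h2 h3 d
      grind
    · rintro _ (rfl | rfl | rfl)
      · exact ⟨i, by simp, j, by simp, d.1, d.2.1, le_rfl⟩
      · exact ⟨s, by simp, j, by simp, d.1.symm, d.2.2, (Set.insert_comm ..).le⟩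
      · exact ⟨s, by simp, i, by simp, d.2.1.symm, d.2.2.symm, by
          rintro _ (rfl | rfl | rfl) <;> simp⟩
  · have h1 := mk s r y py z qz m (.inl rfl)
    have h2 := mk s r y py w w1 m (.inl rfl)
    have h3 := mk s r y py x x1 m (.inl rfl)
    have h4 := mk s r z qz w w1 m (.inl rfl)
    have h5 := mk s r z qz x x1 m (.inl rfl)
    clear * - h1 h2 h3 h4 h5 x2 p q n w2 m ne ny
    grind

theorem On.mal (h : On M T) : Mal M Rig T := by
  intro Q q1 q2 D d1 d2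
  have sm : ∀ U ⊆ Q, ∀ s ∈ Q, s ∉ U → ∀ g, ¬ ∀ d ∈ D, g⁻¹ * d * g ∈ par M U := fun U e s p q g k =>
    (d2.2 U ((h.mono q1).fin.subset e) (fun _ a _ b => q2 _ (e a) _ (e b)) ⟨g, k⟩).not_gt
      (Set.ncard_lt_ncard (e.ssubset_of_mem_notMem p q) (h.mono q1).fin)
  obtain ⟨y, p, z, q, n, k⟩ : ∃ y ∈ Q, ∃ z ∈ Q, y ≠ z ∧ M y z ≠ 2 := by
    by_contra! k
    exact d2.1 (cq_ab k d1)
  induction hn : T.ncard using Nat.strong_induction_on generalizing T with | _ m ih => ?_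
  intro s s1 t t1 t2
  by_cases o : T ⊆ Q
  · exact (sm _ (Set.sdiff_subset.trans o) s (o s1) (by simp) t t2).elim
  obtain ⟨x, x1, x2, x3, x4, j, rfl⟩ | ⟨a, a1, c, c1, b, b1, l, e1, e2, e3, rfl⟩ | ⟨K, k1, k2, k3⟩ :=
    h.pick q1 p q n k s1 o
  · exact on_t8 x1 (h.gs x1 x2 x3) (D := D) d1 q1 x4 t1 t2 fun i a g b l c d =>
      (ih _ (hn ▸ Set.ncard_sdiff_singleton_lt_of_mem (x2 i) h.fin) (h.mono Set.sdiff_subset)
        (Set.subset_sdiff_singleton q1 a) rfl _ ⟨x2 l, x1.ne c⟩ g b d).imp_right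
          fun f => (on_sd.1 f).2
  · have nc : ∀ u, u = a ∨ u = c → (∀ d ∈ D, t⁻¹ * d * t ∈ par M {u, b}) →
        c = u ∧ t ∈ par M {c, b} := fun u v w =>
      (h.dg a1 c1 l b1 e1 e2 (.inr rfl) v (par_mono e3 t1)).resolve_right fun f =>
        d2.1 (hyper_comm fun g g' => Subtype.ext (mul_inv_eq_one.1 (f _
          (d1 ((g * g' * (g' * g)⁻¹).2)) (w _ (g * g' * (g' * g)⁻¹).2) (by
            simp only [Subgroup.coe_mul, map_mul, map_inv]
            rw [mul_comm (deg M g), mul_inv_cancel])))).loc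
    have := on_ne l
    obtain rfl | rfl | rfl := e3 s1
    · exact ⟨by simp [*], par_mono (by grind) (nc c (.inr rfl) fun d f =>
        par_mono (fun i r => by have := e3 r.1; grind) (t2 d f)).2⟩
    · exact (this (nc a (.inl rfl) fun d f =>
        par_mono (fun i r => by have := e3 r.1; grind) (t2 d f)).1.symm).elim
    · refine (d2.1 (lh_conj (cq_ab (T := {a, c}) ?_ le_rfl) t fun d f =>
        par_mono (fun i r => by have := e3 r.1; grind) (t2 d f))).elim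
      have := M.symmetric a c
      grind
  · obtain ⟨w, β, -, f⟩ := par_cj (M := M) Q (T \ {s}) t
    obtain ⟨i, a, b⟩ := by simpa using k3.cj (cs := M.toCoxeterSystem) k2 w⁻¹
    refine (sm {j | j ∈ Q ∧ _} (fun _ r => r.1) i (k1 a) ?_ β⁻¹
      fun d r => by rw [inv_inv]; exact f d (d1 r) (t2 d r)).elim
    exact fun r => b (inP_mono r.2 fun _ r => r.2)

theorem On.rel {𝓕 : Fam (MP_35cce7_an.Ar M)} (h : On M T) : Rel.{0, v, u} 𝓕 (par M T) ∨ CBl M T := by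
  by_cases k : ∀ s ∈ T, ∀ t ∈ T, M s t ≠ 2
  · exact rel_lg h.fin h.cq k
  obtain ⟨a, p, c, q, k⟩ := by simpa using k
  by_cases l : T ⊆ {a, c}
  · refine .inl (rel_lh (cq_ab (fun s x t y e => ?_) le_rfl))
    have := l x
    have := l y
    have := M.symmetric a c
    grind
  obtain ⟨b, r, s⟩ := Set.not_subset.1 l
  have e1 : a ≠ b := fun e => s (.inl e.symm)
  have e2 : c ≠ b := fun e => s (.inr e.symm)
  by_cases m : T ⊆ {a, c, b}
  · obtain ⟨X, _, _, _, E, _, f⟩ := path_bl (M := sub M (· ∈ T)) (a := ⟨a, p⟩) (b := ⟨b, r⟩)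
      (c := ⟨c, q⟩) (fun i => (m i.2).imp Subtype.ext (Or.imp Subtype.ext Subtype.ext)) (by simpa using on_ne k)
      (by simpa) (by simpa) k (h.big p q k r e1 e2).1 (h.big p q k r e1 e2).2 (.id _)
      Function.injective_id
    exact .inl (on_rng ▸ rel_lat (subE M (· ∈ T)).hom_inj E fun z => Fam.tm_lh fun _ _ =>
      hyper_comm fun p q => Subtype.ext (Subtype.ext (f z _ _ p.1.2 q.1.2)))
  obtain ⟨d, t, w⟩ := Set.not_subset.1 m
  obtain ⟨x, x1, rfl, rfl, rfl, x2⟩ := on_ex (y := a) (z := b) (a := d) e1 (by grind) (by grind)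
  have x3 := x2 _ p r t
  obtain ⟨𝒯, f⟩ := on_tri x1 (h.gs x1 x3 (on_lab
    (fun e => by have := h.two p q k p r e; grind) (fun e => by have := h.two p q k p t e; grind)
    fun e => by have := h.two p q k r t e; grind))
  obtain ⟨X, _, _, _, E, b1, b2⟩ := 𝒯.m6
  refine .inr ⟨_, _, _, (subE M (· ∈ T)).hom_inj, on_rng, X, _, ‹_›, _, E, b1, fun z => ?_⟩
  obtain ⟨i, g, o⟩ := b2 z
  exact ⟨_, ⟨_, Set.sdiff_singleton_ssubset.2 (x3 i), (h.mono Set.sdiff_subset).cq,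
    (subE M (· ∈ T)).hom g, rfl⟩, fun y e => by simpa using (f _ _).1 (o y e)⟩

/-- Artin groups whose cliques are right-angled or have at most one label two and no spherical
triangle. -/
theorem fj_on {S : Type v} (M : CoxeterMatrix S)
    (hM : ∀ T : Set S, (∀ s ∈ T, ∀ t ∈ T, M s t ≠ 0) → (∀ s ∈ T, ∀ t ∈ T, s ≠ t → M s t = 2) ∨
      ∀ a ∈ T, ∀ c ∈ T, M a c = 2 →
        (∀ s ∈ T, ∀ t ∈ T, M s t = 2 → s = a ∧ t = c ∨ s = c ∧ t = a) ∧
          ∀ b ∈ T, b ≠ a → b ≠ c → 2 * (M a b + M c b) ≤ M a b * M c b) :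
    FJ.{v, u} (PresentedGroup (artR M)) := by
  refine fj_cqv fun _ e he T a b => ?_
  have m : ∀ {s}, s ∈ T → e s ∈ e '' T := Set.mem_image_of_mem e
  obtain c | c := hM (e '' T) (by simpa [Cq, mx] using b)
  · have c' : ∀ s ∈ T, ∀ t ∈ T, s ≠ t → mx M e he s t = 2 := fun s p t q n =>
      c _ (m p) _ (m q) (he.ne n)
    exact ⟨mal_ab c', .inl (rel_lh (cq_ab c' le_rfl))⟩
  · have o : On (mx M e he) T := ⟨a, b, fun i p j q k r l s t w =>
      ((c _ (m r) _ (m s) w).1 _ (m p) _ (m q) t).imp (fun f => he f.1) fun f => he f.1,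
      fun i p j q k r s t w => (c _ (m p) _ (m q) w).2 _ (m r) (he.ne s.symm) (he.ne t.symm)⟩
    exact ⟨o.mal, o.rel⟩

end Pool.Agent.Lib.MP_5d3e93_al.At
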