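import Pool.Agent.Lib.MP_5d3e93_al.At.EvL
import Pool.Agent.Lib.MP_5d3e93_al.At.EvN
import Pool.Agent.Lib.MP_5d3e93_al.At.EvM
import Pool.Agent.Lib.MP_5d3e93_al.At.EvQ
import Pool.Agent.Lib.MP_5d3e93_al.At.On

/-! Even Artin groups. -/

namespace Pool.Agent.Lib.MP_5d3e93_al.At

open As
open Pool.Agent.Lib.MP_35cce7_an hiding Ar
open Pool.Agent.Lib.MP_35cce7_an renaming Ar → AG

universe v u

theorem ev_out {B : Type} [Finite B] {M : CoxeterMatrix B} (hM : ∀ s t, s ≠ t → Even (M s t))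
    (a : B) : EvN (par M {a}ᶜ) (par M {c | M a c = 2}) (gn M a) ∧ EvA (par M {a}ᶜ) (gn M a) ∧
      BlA (AG M) {s | ∃ g : AG M, s = {x | g⁻¹ * x * g ∈ par M {a}ᶜ}} ∧ ∀ t ∉ par M {a}ᶜ, ∃ u U,
        (∀ e ∈ par M {a}ᶜ, t⁻¹ * e * t ∈ par M {a}ᶜ → u⁻¹ * e * u ∈ par M U) ∧
          ∀ y ∈ U, ∀ z ∈ U, y ≠ z → M y z ≠ 2 → M a y = 2 := by
  induction hn : Nat.card B using Nat.strong_induction_on generalizing B with | _ n ih => ?_
  obtain ⟨D, h1, h2, h3, h4⟩ := ev_ex hM a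
  have l : D.L4 := Ev.l4 fun ⟨b, hb⟩ => by
    let T : Set B := insert b {c | M a c = 2}
    have p : a ∉ T := by
      rintro (rfl | e)
      · simp at hb
      · simp at e
    obtain ⟨k1, k2, -⟩ := ih _ (hn ▸ Finite.card_subtype_lt p) (M := sub M (· ∈ T))
      (fun s t e => hM _ _ (Subtype.val_injective.ne e)) ⟨b, .inl rfl⟩ rfl
    have e : Subtype.val ⁻¹' {c | M a c = 2} = ({⟨b, .inl rfl⟩}ᶜ : Set {x // x ∈ T}) := by
      ext ⟨c, k⟩
      refine ⟨fun (q : M a c = 2) r => ?_, fun q => k.resolve_left fun r => q (Subtype.ext r)⟩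
      obtain rfl : c = b := congrArg Subtype.val r
      omega
    have f {g} := on_mem (M := M) (T := T) (U := {c | M a c = 2}) (g := g)
    have s {g} (q : g ∈ par M {c | M a c = 2}) : ∃ x, (subE M (· ∈ T)).hom x = g :=
      on_rng.ge (par_mono (Set.subset_insert ..) q)
    have t : gn M b = _ := ((subE M (· ∈ T)).hom_gn ⟨b, .inl rfl⟩).symm
    rw [e] at f
    rw [h2, (h4 _).1, (h4 _).2, t]
    refine ⟨fun m m0 c c1 c2 => ?_, fun p p1 q q1 r r1 w w1 z => ?_⟩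
    · obtain ⟨c, rfl⟩ := s c1
      refine on_mem.2 (par_mono ?_ (k1 m m0 c (f.1 c1) (f.1 (by simpa using c2))))
      exact fun x k => x.2.imp_right fun y => ⟨y, k⟩
    obtain ⟨p, rfl⟩ := s p1
    obtain ⟨q, rfl⟩ := s q1
    obtain ⟨r, rfl⟩ := s r1
    obtain ⟨w, rfl⟩ := s w1
    exact (k2 p (f.1 p1) q (f.1 q1) r (f.1 r1) w (f.1 w1) ((subE M (· ∈ T)).hom_inj
      (by simpa using z))).imp (fun y => by simpa using f.2 y) fun y => by simpa using f.2 y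
  rw [← h1]
  refine ⟨h2 ▸ h3 ▸ Ev.out_N l, h3 ▸ Ev.out_A l, Ev.out_bl l, fun t p => ?_⟩
  obtain ⟨u, k | ⟨i, k⟩⟩ := Ev.out_M l t p
  · exact ⟨u, _, h2 ▸ k, fun _ c _ _ _ _ => c⟩
  refine ⟨u, _, (h4 i).2 ▸ k, ?_⟩
  rintro y (rfl | c) z d e f
  exacts [(f (d.resolve_left e.symm).2).elim, c.1]

theorem ev_rt {B : Type} {M : CoxeterMatrix B} (hM : ∀ s t, s ≠ t → Even (M s t)) (U : Set B) :
    ∃ r : AG M →* AG M, (∀ y ∈ par M U, r y = y) ∧ ∀ V, ∀ y ∈ par M V, r y ∈ par M (U ∩ V) := by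
  obtain ⟨r, r1, r2⟩ := ev_ret hM U
  refine ⟨r, fun y h => MonoidHom.eqOn_closure (g := .id _)
    (by rintro _ ⟨i, j, rfl⟩; exact r1 i j) h,
    fun V _ h => (Subgroup.closure_le ((par M (U ∩ V)).comap r)).2 ?_ h⟩
  rintro _ ⟨i, j, rfl⟩
  change r _ ∈ par M _
  by_cases l : i ∈ U
  · exact (r1 i l).symm ▸ gn_mem ⟨l, j⟩
  · exact (r2 i l).symm ▸ one_mem _

variable {B : Type} [Finite B] {M : CoxeterMatrix B} (hM : ∀ s t, s ≠ t → Even (M s t))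
include hM

theorem ev_free : BlA (AG M) {{1}} := by
  refine (blA_pi fun a => (ev_out hM a).2.2.1).mono ?_
  rintro _ ⟨s, k, rfl⟩
  refine ⟨_, rfl, fun x p => ?_⟩
  suffices h : ∀ U t, t⁻¹ * x * t ∈ par M U → x = 1 from h _ 1 (par_univ _)
  intro U
  induction hn : U.ncard using Nat.strong_induction_on generalizing U with | _ n ih => ?_
  intro t q
  obtain rfl | ⟨a, m⟩ := U.eq_empty_or_nonempty
  · simpa [par, mul_assoc, inv_mul_eq_one] using q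
  obtain ⟨g, e⟩ := k a
  obtain ⟨r, c, d⟩ := ev_rt hM U
  refine ih _ (hn ▸ Set.ncard_sdiff_singleton_lt_of_mem m) _ rfl (t * r (t⁻¹ * g)) ?_
  have := d _ _ (e.le (Set.mem_iInter.1 p a))
  rw [show g⁻¹ * x * g = (t⁻¹ * g)⁻¹ * (t⁻¹ * x * t) * (t⁻¹ * g) by group,
    map_mul, map_mul, c _ q, map_inv] at this
  simpa [mul_assoc, Set.sdiff_eq] using this

theorem ev_mal {Q : Set B} {D : Set (AG M)} (d : ∀ x ∈ D, x ∈ par M Q)
    (k : ∀ U ⊆ Q, ∀ g, (∀ x ∈ D, g⁻¹ * x * g ∈ par M U) → Q ⊆ U) {s : B} {t : AG M}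
    (h : ∀ x ∈ D, t⁻¹ * x * t ∈ par M {s}ᶜ) : s ∉ Q ∧ ∃ m ∈ par M (Wq M Q),
      (∀ x ∈ D, x * m = m * x) ∧ m⁻¹ * t ∈ par M {s}ᶜ := by
  have rg (V g) (e : ∀ x ∈ D, g⁻¹ * x * g ∈ par M V) : Q ⊆ V := by
    obtain ⟨r, a, b⟩ := ev_rt hM Q
    exact (k _ Set.inter_subset_left (r g) fun x p => by
      simpa [a x (d x p)] using b _ _ (e x p)).trans Set.inter_subset_right
  have n := rg _ _ h
  obtain ⟨r, a, b⟩ := ev_rt hM {s}ᶜ
  have c (x) (p : x ∈ D) : x * (t * (r t)⁻¹) = t * (r t)⁻¹ * x := by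
    have := a _ (h x p)
    rw [map_mul, map_mul, a x (par_mono n (d x p)), map_inv] at this
    rw [← mul_left_inj (r t), mul_assoc (t * _), mul_assoc t, ← mul_assoc (r t)⁻¹, this]
    group
  refine ⟨fun e => n e rfl, _, ?_, c, by simpa using b _ _ (par_univ t)⟩
  generalize t * (r t)⁻¹ = m at c
  suffices f : ∀ T, m ∈ par M T → m ∈ par M (Wq M Q) from f _ (par_univ _)
  intro T
  induction hn : T.ncard using Nat.strong_induction_on generalizing T with | _ n ih => ?_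
  intro q
  by_cases l : T ⊆ Wq M Q
  · exact par_mono l q
  obtain ⟨x, x1, x2⟩ := Set.not_subset.1 l
  refine ih _ (hn ▸ Set.ncard_sdiff_singleton_lt_of_mem x1) _ rfl (par_inf q (by_contra fun o => ?_))
  obtain ⟨u, U, u1, u2⟩ := (ev_out hM x).2.2.2 m o
  have w (y) (p : y ∈ D) : y ∈ par M {x}ᶜ :=
    par_mono (fun _ e (f : _ = x) => x2 (.inl (f ▸ e))) (d y p)
  have := rg U u fun y p => u1 y (w y p) (by
    rw [mul_assoc, c y p, inv_mul_cancel_left]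
    exact w y p)
  exact x2 (.inr fun y p z q => u2 y (this p) z (this q))

end Pool.Agent.Lib.MP_5d3e93_al.At
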