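import Pool.Agent.Lib.MP_5d3e93_al.At.EvD

/-! Short relations between the stabilisers, and triangles with a common edge. -/

namespace Pool.Agent.Lib.MP_5d3e93_al.At.Ev

variable {G ι : Type} [Group G] {D : Ev G ι} {i i' : ι} {j j' : ℕ} {g g' x : G}

theorem β_ne (h : i ≠ i') (a : x ∈ D.K i') : D.β i x = 1 := by
  obtain ⟨n, c, c1, -, rfl⟩ := D.Kd _ x a
  rw [map_mul, map_zpow, D.βn _ _ h, D.βO _ c c1, one_zpow, one_mul]

theorem K_O (a : x ∈ D.K i) (e : D.β i x = 1) : x ∈ D.O := by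
  obtain ⟨n, c, c1, -, rfl⟩ := D.Kd _ x a
  rw [map_mul, map_zpow, D.βb, D.βO _ c c1, mul_one] at e
  obtain rfl : n = 0 := by simpa using congrArg Multiplicative.toAdd e
  simpa using c1

theorem β_y (l i : ι) : D.β l (D.y i) = D.β l (D.b i) := by rw [y, map_mul, D.βa, one_mul]

theorem gB {l m : ι} (a : x ∈ D.K i) (e : ∀ n, D.β n x * D.β n (D.b l) = D.β n (D.b m)) :
    x ∈ D.O := by
  by_cases h : l = m
  · exact K_O a (by simpa [h] using e i)
  by_cases k : l = i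
  · have := e m
    rw [β_ne (k ▸ Ne.symm h) a, D.βn _ _ (Ne.symm h), D.βb] at this
    cases this
  · have := e l
    rw [β_ne k a, D.βn _ _ h, D.βb] at this
    cases this

theorem gC (h : D.Gi) {x' o o' : G} (a : x ∈ D.K i) (a' : x' ∈ D.K i') (b : o ∈ D.O)
    (b' : o' ∈ D.O) (e : x * o * x' * o' = 1) : x ∈ D.O ∨ i = i' ∧ o ∈ D.K i := by
  have f := congrArg (D.β i) e
  simp only [map_mul, D.βO _ _ b, D.βO _ _ b', mul_one, map_one] at f
  by_cases k : i = i'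
  swap
  · exact .inl (K_O a (by rwa [β_ne k a', mul_one] at f))
  subst k
  obtain ⟨n, c, c1, c2, rfl⟩ := D.Kd _ x a
  obtain ⟨m, d, d1, d2, rfl⟩ := D.Kd _ x' a'
  simp only [map_mul, map_zpow, D.βb, D.βO _ _ c1, D.βO _ _ d1, mul_one] at f
  obtain rfl : m = -n := by
    have := congrArg Multiplicative.toAdd f
    simp at this
    omega
  by_cases k : n = 0
  · exact .inl (by simpa [k] using c1)
  have := (h i).1 n k _ (mul_mem c1 b) (by
    rw [show D.b i ^ n * (c * o) * (D.b i ^ n)⁻¹ = (d * o')⁻¹ from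
      eq_inv_of_mul_eq_one_left (by rw [← e]; group)]
    exact inv_mem (mul_mem d1 b'))
  exact .inr ⟨rfl, (mul_mem_cancel_left c2).1 this⟩

theorem gA (h : D.Gi) {l m : ι} {r s t u : G} (r1 : r ∈ D.O) (s1 : s ∈ D.O) (t1 : t ∈ D.O)
    (u1 : u ∈ D.O) (e : D.b i * r * (D.b m)⁻¹ * s * D.b l * t * (D.b i')⁻¹ * u = 1) :
    D.b i * r * (D.b m)⁻¹ ∈ D.O ∨ (D.b i')⁻¹ * u * D.b i ∈ D.O := by
  have f : ∀ n, D.β n (D.b i) * D.β n (D.b l) = D.β n (D.b m) * D.β n (D.b i') := fun n => by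
    have := congrArg (fun z => (D.β n z).toAdd) e
    simp only [map_mul, map_inv, D.βO _ _ r1, D.βO _ _ s1, D.βO _ _ t1, D.βO _ _ u1, mul_one,
      map_one, toAdd_mul, toAdd_inv, toAdd_one] at this
    exact Multiplicative.toAdd.injective (by simp only [toAdd_mul]; omega)
  have q : ∀ {l m}, (∀ n, D.β n (D.b l) = D.β n (D.b m)) → l = m := fun {l m} p => by
    by_contra k
    have := p l
    rw [D.βn _ _ k, D.βb] at this
    cases this
  have R := fun n => congrArg (D.ρ n) e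
  simp only [map_mul, map_inv, D.ρO _ _ r1, D.ρO _ _ s1, D.ρO _ _ t1, D.ρO _ _ u1, map_one] at R
  have z : ∀ {v}, v ∈ D.O → D.b i * v * (D.b i)⁻¹ * u = 1 → (D.b i)⁻¹ * u * D.b i ∈ D.O :=
    fun {v} p k => by
      rw [show (D.b i)⁻¹ * u * D.b i = v⁻¹ by rw [← inv_eq_of_mul_eq_one_right k]; group]
      exact inv_mem p
  by_cases k : i = m
  · subst k
    obtain rfl : l = i' := q fun n => mul_left_cancel (f n)
    by_cases k : l = i
    · subst k
      refine ((h l).2 r r1 s s1 t t1 u u1 e).imp_right fun p =>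
        z (mul_mem (mul_mem r1 p) t1) (by rw [← e]; group)
    · have := R l
      rw [D.ρb, D.ρn _ _ k] at this
      rw [show D.b i * r * (D.b i)⁻¹ = (s * t * u)⁻¹ from
        eq_inv_of_mul_eq_one_left (by rw [← this]; group)]
      exact .inl (inv_mem (mul_mem (mul_mem s1 t1) u1))
  · obtain rfl : i = i' := by
      by_contra p
      have := congrArg Multiplicative.toAdd (f i)
      rw [D.βn _ _ k, D.βn _ _ p, D.βb] at this
      by_cases w : i = l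
      · simp [← w, D.βb] at this
      · simp [D.βn _ _ w] at this
    obtain rfl : l = m := q fun n => mul_left_cancel ((f n).trans (mul_comm ..))
    have := R l
    rw [D.ρb, D.ρn _ _ (Ne.symm k)] at this
    exact .inr (z (mul_mem (mul_mem r1 s1) t1) (by rw [← this]; group))

theorem vvK (hj : j ≤ D.k i) (h : g⁻¹ * g' ∈ D.K i) : D.vv i j g = D.vv i j g' := by
  rw [← vv_K hj g h, mul_inv_cancel_left]

theorem o_eq : D.vx .o g = D.vx .o g' ↔ g⁻¹ * g' ∈ D.O := vx_eq.trans (and_iff_right rfl)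

theorem cy (a : x ∈ D.O) (b : x ∈ D.K i) (m : ℕ) : D.y i ^ m * x = x * D.y i ^ m :=
  ((Commute.mul_left (D.ca x a) (D.cb i x a b)).pow_left m).eq

theorem oL (a : g⁻¹ * g' ∈ D.O) (b : g⁻¹ * g' ∈ D.K i) (m : ℕ) :
    D.vx .o (g * D.y i ^ m) = D.vx .o (g' * D.y i ^ m) := by
  rwa [o_eq, mul_inv_rev, mul_assoc, ← mul_assoc g⁻¹, ← cy a b, inv_mul_cancel_left]

theorem βo (e : D.vx .o g = D.vx .o g') (l : ι) : D.β l g = D.β l g' := by
  have := D.βO l _ (o_eq.1 e)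
  rwa [map_mul, map_inv, inv_mul_eq_one] at this

theorem ln {m : ℕ} (b : g⁻¹ * g' ∈ D.K i) (e : D.vx .o (g * D.y i ^ m) = D.vx .o (g' * D.y i ^ m)) :
    g⁻¹ * g' ∈ D.O := K_O b (by
  have := βo e i
  rw [map_mul, map_mul, mul_left_inj] at this
  rw [map_mul, map_inv, this, inv_mul_cancel])

theorem vv_inj (hj : j ≤ D.k i) (hj' : j' ≤ D.k i') (e : D.vv i j g = D.vv i' j' g') :
    (i = i' ∧ j = j' ∧ g⁻¹ * g' ∈ D.K i) ∨ (j = 0 ∨ j = D.k i) ∧ (j' = 0 ∨ j' = D.k i') := by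
  unfold vv at e
  split_ifs at e with p q q
  · obtain ⟨e, f⟩ := vx_eq.1 e
    cases e
    exact .inl ⟨rfl, rfl, f⟩
  · cases (vx_eq.1 e).1
  · cases (vx_eq.1 e).1
  · exact .inr (by omega)

theorem edA (hj : j ≤ D.k i) (hj' : j' ≤ D.k i') (e : D.vv i j g = D.vv i' j' g')
    (f : D.vx .o (g * D.y i ^ j) = D.vx .o (g' * D.y i' ^ j')) :
    (i = i' ∧ j = j' ∧ g⁻¹ * g' ∈ D.K i ∧ g⁻¹ * g' ∈ D.O) ∨
      (j = 0 ∨ j = D.k i) ∧ (j' = 0 ∨ j' = D.k i') :=
  (vv_inj hj hj' e).imp_left (by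
    rintro ⟨rfl, rfl, k⟩
    exact ⟨rfl, rfl, k, ln k f⟩)

theorem edC (hj : j < D.k i) (hj' : j' < D.k i') (e : D.vv i (j + 1) g = D.vv i' (j' + 1) g')
    (f : D.vx .o (g * D.y i ^ j) = D.vx .o (g' * D.y i' ^ j')) :
    (i = i' ∧ j = j' ∧ g⁻¹ * g' ∈ D.K i ∧ g⁻¹ * g' ∈ D.O) ∨ j + 1 = D.k i ∧ j' + 1 = D.k i' :=
  (vv_inj hj hj' e).imp (by
    rintro ⟨rfl, p, k⟩
    obtain rfl : j = j' := by omega
    exact ⟨rfl, rfl, k, ln k f⟩) (by omega)

theorem edD (hj : j < D.k i) (hj' : j' < D.k i') (e : D.vv i j g = D.vv i' j' g')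
    (f : D.vv i (j + 1) g = D.vv i' (j' + 1) g') : i = i' ∧ j = j' ∧ g⁻¹ * g' ∈ D.K i := by
  have := D.k2 i
  refine (vv_inj hj.le hj'.le e).elim id fun p => (vv_inj hj hj' f).elim
    (fun k => ⟨k.1, by omega, k.2.2⟩) fun k => by omega

theorem y_cj (a : x ∈ D.O) (i i' : ι) : (D.y i)⁻¹ * x * D.y i' = (D.b i)⁻¹ * x * D.b i' := by
  simp only [y, mul_inv_rev, mul_assoc]
  rw [← mul_assoc x, ← (D.ca x a).eq, mul_assoc, inv_mul_cancel_left]

theorem edE (h : D.Gi) (e : D.vx .o g = D.vx .o g')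
    (f : D.vx .o (g * D.y i) = D.vx .o (g' * D.y i')) : i = i' ∧ g⁻¹ * g' ∈ D.K i := by
  obtain rfl : i = i' := by
    by_contra k
    have := βo f i
    rw [map_mul, map_mul, βo e, mul_right_inj, β_y, β_y, D.βb, D.βn _ _ k] at this
    cases this
  refine ⟨rfl, (h i).1 (-1) (by decide) _ (o_eq.1 e) ?_⟩
  rw [zpow_neg_one, inv_inv, ← y_cj (o_eq.1 e)]
  simpa only [mul_inv_rev, mul_assoc] using o_eq.1 f

end Pool.Agent.Lib.MP_5d3e93_al.At.Ev
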