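import Pool.Agent.Lib.MP_5d3e93_al.At.EvF

/-! Artin groups whose cliques are even or have at most one label two. -/

namespace Pool.Agent.Lib.MP_5d3e93_al.At

open As
open Pool.Agent.Lib.MP_35cce7_an hiding Ar
open Pool.Agent.Lib.MP_35cce7_an renaming Ar → AG

universe v u

section
variable {B : Type} {M : CoxeterMatrix B} {T : Set B} (hT : T.Finite)
  (h : ∀ s ∈ T, ∀ t ∈ T, s ≠ t → Even (M s t))
include hT h

theorem ev_rel {𝓕 : Fam (AG M)} : Rel.{0, v, u} 𝓕 (par M T) := by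
  have := hT.to_subtype
  obtain ⟨X, _, _, _, E, _, z⟩ := ev_free (M := sub M (· ∈ T))
    fun s t e => h _ s.2 _ t.2 (Subtype.val_injective.ne e)
  exact on_rng ▸ rel_lat (subE M (· ∈ T)).hom_inj E fun x => Fam.tm_lh fun _ _ =>
    hyper_comm fun p q => by
      obtain ⟨_, rfl, y⟩ := z x
      have : p = 1 := Subtype.ext (Subtype.ext (y _ p.1.2))
      simp [this]

theorem ev_mal2 : Mal2 M T := by
  intro Q q1 q2 D d1 d2 s s1 t t1 t2
  have := hT.to_subtype
  obtain ⟨t, rfl⟩ := on_rng.ge t1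
  have e : Subtype.val ⁻¹' (T \ {s}) = ({⟨s, s1⟩}ᶜ : Set {x // x ∈ T}) := by
    ext x
    simp [Subtype.ext_iff]
  have o (x) (p : x ∈ D) : ∃ y, (subE M (· ∈ T)).hom y = x := on_rng.ge (par_mono q1 (d1 p))
  obtain ⟨a, m, m1, m2, m3⟩ := ev_mal (M := sub M (· ∈ T))
    (fun s t e => h _ s.2 _ t.2 (Subtype.val_injective.ne e)) (Q := Subtype.val ⁻¹' Q)
    (D := (subE M (· ∈ T)).hom ⁻¹' D) (fun x p => on_mem.1 (d1 p)) (fun U u g k x p => by
      have l : Subtype.val '' U ⊆ Q := by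
        rintro _ ⟨y, c, rfl⟩
        exact u c
      exact (Subtype.val_injective.mem_set_image).1 ((Set.eq_of_subset_of_ncard_le l
        (d2.2 _ (hT.subset (l.trans q1)) (fun _ a _ b => q2 _ (l a) _ (l b))
          ⟨(subE M (· ∈ T)).hom g, fun y c => by
            obtain ⟨y, rfl⟩ := o y c
            simpa using on_mem.2 (par_mono (Set.subset_preimage_image _ U) (k y c))⟩)
        (hT.subset q1)).ge p)) (s := ⟨s, s1⟩) (t := t)
    fun x p => e ▸ on_mem.1 (by simpa using t2 _ p)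
  refine ⟨a, _, on_mem.2 (par_mono (fun x p => p.imp_right fun k y c z d f =>
    k ⟨y, q1 c⟩ c ⟨z, q1 d⟩ d fun g => f (congrArg Subtype.val g)) m1), fun x p => ?_,
      by rw [← map_inv, ← map_mul]; exact on_mem.2 (e ▸ m3)⟩
  obtain ⟨x, rfl⟩ := o x p
  rw [← map_mul, m2 x p, map_mul]

end

/-- Artin groups whose cliques are even or have at most one label two and no spherical
triangle. -/
theorem fj_mix {S : Type v} (M : CoxeterMatrix S)
    (hM : ∀ T : Set S, (∀ s ∈ T, ∀ t ∈ T, M s t ≠ 0) →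
      (∀ s ∈ T, ∀ t ∈ T, s ≠ t → Even (M s t)) ∨ ∀ a ∈ T, ∀ c ∈ T, M a c = 2 →
        (∀ s ∈ T, ∀ t ∈ T, M s t = 2 → s = a ∧ t = c ∨ s = c ∧ t = a) ∧
          ∀ b ∈ T, b ≠ a → b ≠ c → 2 * (M a b + M c b) ≤ M a b * M c b) :
    FJ.{v, u} (PresentedGroup (artR M)) := by
  refine Br.fj_kz fun D _ _ _ _ σ hs => kz_fg fun H a => ?_
  obtain ⟨s, rfl, b⟩ := (Subgroup.fg_iff _).1 a
  choose k hk using PresentedGroup.mk_surjective (artR M)
  choose T d c using fun g => pd_fin (c := id) (k g)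
  obtain ⟨n, e, he, f⟩ := (b.biUnion fun g _ => d g).fin_param
  obtain ⟨j, j1, j2⟩ := uv_emb (M := M) he
  have l : (j.comp ((Subgroup.closure s).comap j).subtype).range = Subgroup.closure s := by
    rw [MonoidHom.range_comp, Subgroup.range_subtype]
    refine Subgroup.map_comap_eq_self ((Subgroup.closure_le _).2 fun g p => hk g ▸
      ((Subgroup.closure_le (j.range.comap (PresentedGroup.mk _))).2 ?_ (c g)))
    rintro _ ⟨x, q, rfl⟩
    obtain ⟨i, rfl⟩ : x ∈ Set.range e := f ▸ Set.mem_biUnion p q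
    exact ⟨_, j2 i⟩
  rw [kz_sub, ← l]
  refine (uv_kz fun _ _ c => Subtype.ext (j1 c)).1 ?_
  have o (T) (q : Cq (mx M e he) T) : (∀ s ∈ T, ∀ t ∈ T, s ≠ t → Even (mx M e he s t)) ∨
      On (mx M e he) T := by
    have m : ∀ {s}, s ∈ T → e s ∈ e '' T := Set.mem_image_of_mem e
    exact (hM (e '' T) (by simpa [Cq, mx] using q)).imp
      (fun c s p t q n => c _ (m p) _ (m q) (he.ne n)) fun c => ⟨T.toFinite, q,
        fun i p j q k r l s t w =>
          ((c _ (m r) _ (m s) w).1 _ (m p) _ (m q) t).imp (fun f => he f.1) fun f => he f.1,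
        fun i p j q k r s t w => (c _ (m p) _ (m q) w).2 _ (m r) (he.ne s.symm) (he.ne t.symm)⟩
  refine rel_cq2.{v, max 1 u v} (𝓕 := Fam.emp _)
    (fun T p q => (o T q).elim (ev_mal2 p) (·.mal.two)) (fun Q q w => ?_)
    (fun T p q => (o T q).elim (fun c => .inl (ev_rel p c)) (·.rel))
    Set.finite_univ _ (Subgroup.subtype _) (hyper_ker (Subgroup.subtype_injective _))
    (fun x _ => par_univ x) D _ (uv_sw hs _) fun _ f => f.elim
  generalize mx M e he = N at o q w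
  refine or_iff_not_imp_left.2 fun g => ev_rel (Set.toFinite _) fun x x1 x' x2 ne => ?_
  obtain ⟨r, r1, r2⟩ := Set.not_subset.1 g
  obtain ⟨y, y1, z, z1, y2, y3⟩ : ∃ y ∈ Q, ∃ z ∈ Q, y ≠ z ∧ N y z ≠ 2 := by
    by_contra! k
    exact w (cq_ab k le_rfl)
  have two (U) (c : Cq N U) (i) (i1 : i ∈ U) (y) (y1 : y ∈ U) (z) (z1 : z ∈ U) (n : y ≠ z)
      (a : N i y = 2) (b : N i z = 2) : ∀ s ∈ U, ∀ t ∈ U, s ≠ t → Even (N s t) :=
    (o U c).resolve_right fun k => by
      have := k.two i1 y1 a i1 z1 b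
      have := on_ne a
      grind
  by_contra od
  have n0 : N x x' ≠ 0 := fun k => od (k ▸ .zero)
  have n2 : N x x' ≠ 2 := fun k => od (k ▸ even_two)
  have sy := N.symmetric
  have cm (i) (p : i ∈ Wq N Q) : (∀ y ∈ Q, ∀ z ∈ Q, y ≠ z → N y z ≠ 2 → N i y = 2) ∨
      i ∈ Q ∧ ∃ z ∈ Q, i ≠ z ∧ N i z ≠ 2 := by
    refine p.elim (fun p => or_iff_not_imp_right.2 fun k y c z d n l => by_contra fun m => ?_) .inl
    by_cases t : i = y
    · exact k ⟨p, z, d, t ▸ n, t ▸ l⟩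
    · exact k ⟨p, y, c, t, m⟩
  replace r1 := r1.resolve_left r2
  obtain a | ⟨a, i, i1, i2, i3⟩ := cm x x1 <;> obtain b | ⟨b, l, l1, l2, l3⟩ := cm x' x2
  · have a1 := a y y1 z z1 y2 y3
    have a2 := a z z1 y y1 y2.symm (sy y z ▸ y3)
    have b1 := b y y1 z z1 y2 y3
    have b2 := b z z1 y y1 y2.symm (sy y z ▸ y3)
    have b3 := q y y1 z z1
    refine od (two {x, x', y, z} (fun i p j q => ?_) x (by simp) y (by simp) z (by simp) y2 a1 a2 x
      (by simp) x' (by simp) ne)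
    have c1 := sy i j
    have c2 := N.diagonal i
    clear * - p q a1 a2 b1 b2 b3 c1 c2 n0
    grind
  · exact n2 (a _ b l l1 l2 l3)
  · exact n2 (sy x x' ▸ b _ a i i1 i2 i3)
  · have a1 := r1 _ a i i1 i2 i3
    have b1 := r1 _ b l l1 l2 l3
    refine od (two {r, x, x'} (fun i p j q => ?_) r (by simp) x (by simp) x' (by simp) ne a1 b1 x
      (by simp) x' (by simp) ne)
    have c1 := sy i j
    have c2 := N.diagonal i
    clear * - p q a1 b1 c1 c2 n0
    grind

end Pool.Agent.Lib.MP_5d3e93_al.At
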