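import Pool.Agent.Lib.MP_5d3e93_al.At.PdA

/-! Groups with relators in two colours; retractions. -/

namespace Pool.Agent.Lib.MP_5d3e93_al.At

universe v

variable {S V : Type v} (c : S → V) (R : Set (FreeGroup S))

/-- The projection to the group of the colours `T`. -/
abbrev pj (T : Set V) : FreeGroup S →* PresentedGroup (Rs c R T) := PresentedGroup.mk (Rs c R T)

/-- Relators in two colours, without short relations. -/
structure Pd : Prop where
  h₀ : ∀ r ∈ R, ∃ a b, r ∈ Sp c {a, b}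
  h₁ : ∀ a b, ∀ x ∈ Sp c {a}, pj c R {a, b} x = 1 → pj c R {a} x = 1
  h₂ : ∀ a b, a ≠ b → ∀ x ∈ Sp c {a}, ∀ y ∈ Sp c {b}, ∀ x' ∈ Sp c {a}, ∀ y' ∈ Sp c {b},
    pj c R {a, b} (x * y * x' * y') = 1 → pj c R {a, b} x = 1 ∨ pj c R {a, b} y = 1

/-- The map `q` embeds the group of the colours `T`. -/
def Ok {G : Type v} [Group G] (q : FreeGroup S →* G) (T : Set V) : Prop :=
  ∀ k ∈ Sp c T, q k = 1 ↔ pj c R T k = 1

variable {c R} {G : Type v} [Group G] {q : FreeGroup S →* G} {T U : Set V}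

theorem sp_mono (e : U ⊆ T) : Sp c U ≤ Sp c T := pd_mono e

theorem pj_kill (h : ∀ r ∈ R, r ∈ Sp c U → q r = 1) {k} (a : k ∈ Sp c U) (b : pj c R U k = 1) :
    q k = 1 := pdk_up q h a b

theorem pj_up (e : U ⊆ T) {k} (a : k ∈ Sp c U) (b : pj c R U k = 1) : pj c R T k = 1 :=
  pdk_le e a b

theorem pj_top : (Sp c T).map (pj c R T) = ⊤ :=
  top_le_iff.1 fun x _ => pdk_sur x

theorem sp_inf : Sp c T ⊓ Sp c U = Sp c (T ∩ U) :=
  le_antisymm (fun _ a => pd_inf a.1 a.2)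
    (le_inf (pd_mono Set.inter_subset_left) (pd_mono Set.inter_subset_right))

theorem Ok.mem (h : Ok c R q T) (e : U ⊆ T) {y} (a : y ∈ Sp c T) :
    q y ∈ (Sp c U).map q ↔ pj c R T y ∈ (Sp c U).map (pj c R T) :=
  exists_congr fun k => and_congr_right fun b => by
    have := h (k⁻¹ * y) (mul_mem (inv_mem (sp_mono e b)) a)
    rwa [map_mul, map_mul, map_inv, map_inv, inv_mul_eq_one, inv_mul_eq_one] at this

theorem Ok.emb (h : Ok c R q T) : ∃ j : PresentedGroup (Rs c R T) →* G, Function.Injective j ∧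
    (∀ k ∈ Sp c T, j (pj c R T k) = q k) ∧ j.range = (Sp c T).map q := by
  obtain ⟨j, a, b⟩ := pdk_ind q h
  refine ⟨j, a, b, le_antisymm ?_ ?_⟩
  · rintro _ ⟨x, rfl⟩
    obtain ⟨k, p, rfl⟩ := pdk_sur x
    exact ⟨k, p, (b k p).symm⟩
  · rintro _ ⟨k, p, rfl⟩
    exact ⟨_, b k p⟩

theorem ok_fin (h : ∀ T U : Set V, T.Finite → U ⊆ T → Ok c R (pj c R T) U)
    (h₀ : ∀ r ∈ R, ∃ a b, r ∈ Sp c {a, b}) (hT : T.Finite) :
    Ok c R (PresentedGroup.mk R) T := fun k a =>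
  ⟨fun e => by
    obtain ⟨F, p, q⟩ := pdk_fin h₀ e
    exact (h (F ∪ T) T (p.union hT) Set.subset_union_right k a).1 (q _ Set.subset_union_left),
    pj_kill (fun _ b _ => PresentedGroup.one_of_mem b) a⟩

end Pool.Agent.Lib.MP_5d3e93_al.At
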