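import Pool.Agent.Lib.MP_5d3e93_al.At.Po
import Pool.Agent.Lib.MP_5d3e93_al.At.Gl
import Pool.Agent.Lib.MP_5d3e93_al.At.Pd

/-! Groups with relators in two colours are triangles of groups. -/

namespace Pool.Agent.Lib.MP_5d3e93_al.At

universe v

variable {S V : Type v} {c : S → V} {R : Set (FreeGroup S)}

variable (c R) in
/-- The maximal parabolic subgroups embed, meet as expected and have no short relations. -/
structure IndG (T : Set V) : Prop where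
  g1 : ∀ x ∈ T, ∀ k ∈ Sp c (T \ {x}), pj c R T k = 1 → pj c R (T \ {x}) k = 1
  g2 : ∀ x ∈ T, ∀ y ∈ T, x ≠ y → ∀ k ∈ Sp c (T \ {x}), ∀ l ∈ Sp c (T \ {y}),
    pj c R T k = pj c R T l → ∃ f ∈ Sp c ((T \ {x}) \ {y}), pj c R T f = pj c R T k
  g4 : ∀ x ∈ T, ∀ y ∈ T, x ≠ y → ∀ r ∈ Sp c (T \ {x}), ∀ l ∈ Sp c (T \ {y}),
    ∀ l' ∈ Sp c (T \ {y}), ∀ r' ∈ Sp c (T \ {x}), pj c R T (r * l) = pj c R T (l' * r') →
      (∃ t ∈ Sp c (T \ {y}), pj c R T r = pj c R T t) ∨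
        ∃ t ∈ Sp c (T \ {x}), pj c R T l = pj c R T t

theorem ind_ex {T : Set V} {a b d : V} (ha : a ∈ T) (hb : b ∈ T) (hd : d ∈ T) (e1 : a ≠ b)
    (e2 : a ≠ d) (e3 : b ≠ d) : ∃ x : ZMod 3 → V, Function.Injective x ∧ (∀ i, x i ∈ T) ∧
      x 0 = a ∧ x 1 = b ∧ x 2 = d := by
  refine ⟨![a, b, d], fun i j => ?_, fun i => ?_, rfl, rfl, rfl⟩
  · have := e1.symm
    have := e2.symm
    have := e3.symm
    fin_cases i <;> fin_cases j <;> first | exact fun _ => rfl | simp_all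
  · fin_cases i <;> assumption

theorem ind_tri (h₀ : ∀ r ∈ R, ∃ a b, r ∈ Sp c {a, b}) {T : Set V} (x : ZMod 3 → V)
    (hx : Function.Injective x) (hm : ∀ i, x i ∈ T) (g : ∀ i, IndG c R (T \ {x i})) :
    ∃ 𝒯 : Tri (FreeGroup S) (fun i => PresentedGroup (Rs c R (T \ {x i})))
      (PresentedGroup (Rs c R T)), (∀ i, 𝒯.K i = Sp c (T \ {x i})) ∧
        (∀ i, 𝒯.E i = Sp c ((T \ {x i}) \ {x (i + 1)})) ∧ 𝒯.q = pj c R T ∧
          ∀ i, 𝒯.p i = pj c R (T \ {x i}) := by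
  have z1 : ∀ i : ZMod 3, i + 2 + 1 = i ∧ i + 1 ≠ i ∧ i + 2 ≠ i ∧ i + 2 ≠ i + 1 := by decide
  have z2 : ∀ i j : ZMod 3, j = i ∨ j = i + 1 ∨ j = i + 2 := by decide
  have m1 (i) : x (i + 1) ∈ T \ {x i} := ⟨hm _, fun e => (z1 i).2.1 (hx e)⟩
  have m1' (i) : x i ∈ T \ {x (i + 1)} := ⟨hm _, fun e => (z1 i).2.1 (hx e).symm⟩
  have m2 (i) : x (i + 2) ∈ T \ {x i} := ⟨hm _, fun e => (z1 i).2.2.1 (hx e)⟩
  have n (i) : x (i + 2) ≠ x (i + 1) := fun e => (z1 i).2.2.2 (hx e)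
  have e2 (i) : (T \ {x (i + 2)}) \ {x (i + 2 + 1)} = (T \ {x i}) \ {x (i + 2)} := by
    rw [(z1 i).1, Set.sdiff_sdiff_comm]
  have ss (s t : V) : (T \ {s}) \ {t} ⊆ T \ {t} := fun _ t => ⟨t.1.1, t.2⟩
  obtain ⟨𝒯, a, b, d, e⟩ := ex_tri (fun i => c ⁻¹' (T \ {x i})) (fun i => pj c R (T \ {x i}))
    (pj c R T) (fun i => Sp c (T \ {x i})) (fun i => Sp c ((T \ {x i}) \ {x (i + 1)}))
    (fun _ => rfl)
    (fun i => congrArg (fun A => Subgroup.closure (FreeGroup.of '' A)) (Set.ext fun s =>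
      ⟨fun k => ⟨k.1, k.1.1, k.2⟩, fun k => ⟨k.1, k.2.2⟩⟩))
    (fun i k a => ⟨fun e => pj_up (ss _ _) a ((g i).g1 _ (m1 i) k a e),
      fun e => by
        rw [Set.sdiff_sdiff_comm] at a
        exact pj_up (ss _ _) a ((g (i + 1)).g1 _ (m1' i) k a e)⟩)
    (fun i k a l b e => by
      rw [e2] at a
      obtain ⟨f, p, q⟩ := (g i).g2 _ (m2 i) _ (m1 i) (n i) k a l b e
      have w (j) (s) (t : s ∈ ((T \ {x i}) \ {x (i + 2)}) \ {x (i + 1)}) : s ∉ ({x j} : Set V) := by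
        obtain rfl | rfl | rfl := z2 i j
        exacts [t.1.1.2, t.2, t.1.2]
      refine ⟨f, fun j => sp_mono ?_ p, q⟩
      exact fun s t => ⟨⟨t.1.1.1, w j s t⟩, w _ s t⟩)
    (fun i => by
      rw [e2]
      exact (g i).g4 _ (m2 i) _ (m1 i) (n i))
    (fun i k a => pj_up Set.sdiff_subset a) (PresentedGroup.mk_surjective _)
    (fun s a => pdk_out fun t => (z1 0).2.1 (hx
      ((not_not.1 fun e => a (0 + 1) ⟨t, e⟩ : c s = x (0 + 1)).symm.trans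
        (not_not.1 fun e => a 0 ⟨t, e⟩ : c s = x 0))))
    (fun N _ a b => pdk_ker (fun k p q => by
      obtain ⟨s, t, w⟩ := h₀ k p
      obtain ⟨i, hi⟩ : ∃ i, x i ≠ s ∧ x i ≠ t := by
        by_contra! y
        by_cases y0 : x 0 = s
        · exact n 0 ((y _ fun e => (z1 0).2.2.1 (hx (e.trans y0.symm))).trans
            (y _ fun e => (z1 0).2.1 (hx (e.trans y0.symm))).symm)
        · have y1 := y 0 y0
          exact n 0 ((not_not.1 fun e => (z1 0).2.2.1 (hx ((y _ e).trans y1.symm)) :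
            x (0 + 2) = s).trans (not_not.1 fun e => (z1 0).2.1 (hx ((y _ e).trans y1.symm)) :
              x (0 + 1) = s).symm)
      have : k ∈ Sp c (T \ {x i}) := by
        refine sp_mono ?_ (pd_inf w q)
        refine fun z e => ⟨e.2, fun f => ?_⟩
        obtain rfl : z = x i := f
        exact e.1.elim hi.1 hi.2
      exact a i k this (pdk_rel p this)) fun s p => b s fun _ t => p t.1)
  exact ⟨𝒯, fun i => congrFun a i, fun i => congrFun b i, e, fun i => congrFun d i⟩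

theorem ind_two {T : Set V} {x y : V} (hx : x ∈ T) (hy : y ∈ T) (e : x ≠ y)
    (h : ¬ ∃ z ∈ T, x ≠ z ∧ y ≠ z) : T = {y, x} ∧ T \ {x} = {y} ∧ T \ {y} = {x} := by
  have k (z) (a : z ∈ T) : z = y ∨ z = x := by
    by_contra! b
    exact h ⟨z, a, b.2.symm, b.1.symm⟩
  refine ⟨Set.ext fun z => ⟨k z, ?_⟩, Set.ext fun z => ⟨fun a => (k z a.1).resolve_right a.2, ?_⟩,
    Set.ext fun z => ⟨fun a => (k z a.1).resolve_left a.2, ?_⟩⟩
  · rintro (rfl | rfl) <;> assumption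
  · rintro rfl
    exact ⟨hy, e.symm⟩
  · rintro rfl
    exact ⟨hx, e⟩

theorem Pd.indG (h : Pd c R) {T : Set V} (hT : T.Finite) : IndG c R T := by
  induction hn : T.ncard using Nat.strong_induction_on generalizing T with
  | _ n ih =>
  subst hn
  have g (x) (a : x ∈ T) : IndG c R (T \ {x}) :=
    ih _ (Set.ncard_sdiff_singleton_lt_of_mem a hT) hT.sdiff rfl
  refine ⟨fun x a k b e => ?_, fun x a y b ne k p l q e => ?_,
    fun x a y b ne r p l q l' q' r' p' e => ?_⟩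
  · by_cases t : (T \ {x}).Nontrivial
    · obtain ⟨y, hy, z, hz, t⟩ := t
      obtain ⟨x, hx, hm, rfl, rfl, rfl⟩ := ind_ex a hy.1 hz.1 (Ne.symm hy.2) (Ne.symm hz.2) t
      obtain ⟨𝒯, k1, -, k3, k4⟩ := ind_tri h.h₀ x hx hm fun i => g _ (hm i)
      rw [← k4]
      exact 𝒯.m1 (k1 0 ▸ b) (k3 ▸ e)
    · obtain t | ⟨y, t⟩ := (Set.not_nontrivial_iff.1 t).eq_empty_or_singleton
      · rw [t, Sp, Set.preimage_empty, Set.image_empty, Subgroup.closure_empty] at b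
        rw [Subgroup.mem_bot.1 b, map_one]
      · have hy : y ∈ T \ {x} := t ▸ rfl
        have w := (ind_two a hy.1 (Ne.symm hy.2) fun ⟨z, p, q, s⟩ =>
          s (show z ∈ ({y} : Set V) from t ▸ ⟨p, q.symm⟩).symm).1
        rw [t] at b ⊢
        exact h.h₁ y x k b (w ▸ e)
  · by_cases t : ∃ z ∈ T, x ≠ z ∧ y ≠ z
    · obtain ⟨z, hz, t1, t2⟩ := t
      obtain ⟨x, hx, hm, rfl, rfl, rfl⟩ := ind_ex a b hz ne t1 t2
      obtain ⟨𝒯, k1, k2, k3, -⟩ := ind_tri h.h₀ x hx hm fun i => g _ (hm i)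
      obtain ⟨f, f1, f2⟩ := 𝒯.m2 0 (x := 𝒯.q k) ⟨⟨k, k1 0 ▸ p, rfl⟩, l, k1 (0 + 1) ▸ q, k3 ▸ e.symm⟩
      exact ⟨f, k2 0 ▸ f1, k3 ▸ f2⟩
    · obtain ⟨w, w1, w2⟩ := ind_two a b ne t
      rw [w1] at p
      rw [w2] at q
      refine ⟨1, one_mem _, ?_⟩
      rw [w] at e ⊢
      have := h.h₂ y x ne.symm k p l⁻¹ (inv_mem q) 1 (one_mem _) 1 (one_mem _) (by simp [e])
      rw [map_inv, inv_eq_one, ← e, or_self] at this
      rw [this, map_one]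
  · by_cases t : ∃ z ∈ T, x ≠ z ∧ y ≠ z
    · obtain ⟨z, hz, t1, t2⟩ := t
      obtain ⟨x, hx, hm, rfl, rfl, rfl⟩ := ind_ex a b hz ne t1 t2
      obtain ⟨𝒯, k1, -, k3, -⟩ := ind_tri h.h₀ x hx hm fun i => g _ (hm i)
      refine (𝒯.m3 (i := 0) (r := 𝒯.q r) (l := 𝒯.q l) (l' := 𝒯.q l') (r' := 𝒯.q r')
        ⟨r, k1 0 ▸ p, rfl⟩ ⟨l, k1 (0 + 1) ▸ q, rfl⟩ ⟨l', k1 (0 + 1) ▸ q', rfl⟩ ⟨r', k1 0 ▸ p', rfl⟩
        (by rw [← map_mul, ← map_mul, k3, e])).imp ?_ ?_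
      · rintro ⟨f, f1, f2⟩
        exact ⟨f, k1 (0 + 1) ▸ f1, k3 ▸ f2.symm⟩
      · rintro ⟨f, f1, f2⟩
        exact ⟨f, k1 0 ▸ f1, k3 ▸ f2.symm⟩
    · obtain ⟨w, w1, w2⟩ := ind_two a b ne t
      rw [w1] at p p'
      rw [w2] at q q'
      have := h.h₂ y x ne.symm r p l q r'⁻¹ (inv_mem p') l'⁻¹ (inv_mem q') (by
        rw [← w, mul_assoc, ← mul_inv_rev, map_mul, e, map_inv, mul_inv_cancel])
      rw [← w] at this
      exact this.imp (fun f => ⟨1, one_mem _, f.trans (map_one _).symm⟩)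
        fun f => ⟨1, one_mem _, f.trans (map_one _).symm⟩

theorem Pd.tri (h : Pd c R) {T : Set V} (hT : T.Finite) (x : ZMod 3 → V)
    (hx : Function.Injective x) (hm : ∀ i, x i ∈ T) :
    ∃ 𝒯 : Tri (FreeGroup S) (fun i => PresentedGroup (Rs c R (T \ {x i})))
      (PresentedGroup (Rs c R T)), (∀ i, 𝒯.K i = Sp c (T \ {x i})) ∧
        (∀ i, 𝒯.E i = Sp c ((T \ {x i}) \ {x (i + 1)})) ∧ 𝒯.q = pj c R T :=
  (ind_tri h.h₀ x hx hm fun _ => h.indG hT.sdiff).imp fun _ a => ⟨a.1, a.2.1, a.2.2.1⟩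

theorem Pd.ind_dn (h : Pd c R) {T U : Set V} (hT : T.Finite) (e : U ⊆ T) {k} (a : k ∈ Sp c U)
    (b : pj c R T k = 1) : pj c R U k = 1 := by
  induction hn : T.ncard using Nat.strong_induction_on generalizing T with
  | _ n ih =>
  subst hn
  by_cases t : T ⊆ U
  · exact pj_up t (sp_mono e a) b
  · obtain ⟨x, p, q⟩ := Set.not_subset.1 t
    have w : U ⊆ T \ {x} := fun z f => ⟨e f, fun g => q (g ▸ f)⟩
    exact ih _ (Set.ncard_sdiff_singleton_lt_of_mem p hT) hT.sdiff w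
      ((h.indG hT).g1 x p k (sp_mono w a) b) rfl

theorem Pd.sub (h : Pd c R) {G : Type v} [Group G] {q : FreeGroup S →* G} {T U : Set V}
    (hT : T.Finite) (o : Ok c R q T) (e : U ⊆ T) : Ok c R q U := fun k a =>
  (o k (sp_mono e a)).trans ⟨h.ind_dn hT e a, pj_up e a⟩

theorem Pd.ok (h : Pd c R) {T : Set V} (hT : T.Finite) : Ok c R (PresentedGroup.mk R) T :=
  ok_fin (fun _ _ a b => h.sub a (fun _ _ => Iff.rfl) b) h.h₀ hT

end Pool.Agent.Lib.MP_5d3e93_al.At
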