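import Pool.Agent.Lib.MP_5d3e93_al.At.Inf
import Pool.Agent.Lib.MP_5d3e93_al.At.Rel
import Pool.Agent.Lib.MP_5d3e93_al.At.Eqv
import Pool.Agent.Lib.MP_5d3e93_al.At.Par

/-! The Farrell-Jones property passes from the two-colour groups to the whole group. -/

namespace Pool.Agent.Lib.MP_5d3e93_al.At

open As

universe v u

section
variable {S V : Type v} {c : S → V} {R : Set (FreeGroup S)}

theorem Ok.eqv {G : Type v} [Group G] {q : FreeGroup S →* G} {T : Set V} (h : Ok c R q T) :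
    Nonempty (PresentedGroup (Rs c R T) ≃* (Sp c T).map q) :=
  h.emb.elim fun _ a => ⟨(MonoidHom.ofInjective a.1).trans (MulEquiv.subgroupCongr a.2.2)⟩

theorem Pd.lh (h : Pd c R) (h₃ : ∀ a, LocHyper (PresentedGroup (Rs c R {a}))) {T : Set V}
    (a : T.Subsingleton) : LocHyper ((Sp c T).map (PresentedGroup.mk R)) := by
  obtain rfl | ⟨x, rfl⟩ := a.eq_empty_or_singleton
  · have : (Sp c ∅).map (PresentedGroup.mk R) = ⊥ := by simp [Sp]
    rw [this]
    exact (hyper_comm fun _ _ => Subsingleton.elim _ _).loc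
  · exact (h.ok (Set.finite_singleton x)).eqv.elim fun e =>
      LH.inj e.symm.toMonoidHom e.symm.injective (h₃ x)

theorem Pd.mal (h : Pd c R) (h₃ : ∀ a, LocHyper (PresentedGroup (Rs c R {a}))) {a b : V}
    (e : a ≠ b) (t : PresentedGroup R) : t ∈ (Sp c {a, b}).map (PresentedGroup.mk R) ∨
      LocHyper (cj ((Sp c {a, b}).map (PresentedGroup.mk R)) t) := by
  obtain ⟨T, hT, k, l⟩ : ∃ T : Set V, T.Finite ∧ {a, b} ⊆ T ∧
      t ∈ (Sp c T).map (PresentedGroup.mk R) := by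
    obtain ⟨x, rfl⟩ := PresentedGroup.mk_surjective R t
    obtain ⟨F, p, r⟩ := pd_fin (c := c) x
    exact ⟨F ∪ {a, b}, p.union (Set.toFinite _), Set.subset_union_right, x,
      sp_mono Set.subset_union_left r, rfl⟩
  induction hn : T.ncard using Nat.strong_induction_on generalizing T with | _ n ih => ?_
  by_cases m : T ⊆ {a, b}
  · exact .inl (Subgroup.map_mono (sp_mono m) l)
  obtain ⟨x, x1, x2⟩ := Set.not_subset.1 m
  have m : {a, b} ⊆ T \ {x} := fun y p => ⟨k p, fun r => x2 (r ▸ p)⟩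
  obtain ⟨-, r⟩ | ⟨g, -, U, r1, r2, r3⟩ :=
    h.inf hT (h.ok hT) k (Set.nontrivial_pair e) x1 l
  · exact ih _ (hn ▸ Set.ncard_sdiff_singleton_lt_of_mem x1 hT) _ (hT.subset Set.sdiff_subset) m r rfl
  · refine .inr (lh_conj (h.lh h₃ (T := U) ((@Set.ncard_le_one_iff_subsingleton _ _
      (hT.subset r1)).1 ?_)) g fun y p =>
        r3 y (mem_cj.1 p).1 (Subgroup.map_mono (sp_mono m) (mem_cj.1 p).2))
    rw [Set.ncard_pair e] at r2
    omega

theorem Pd.pbl (h : Pd c R) {T : Set V} (hT : T.Finite) (h3 : 3 ≤ T.ncard) :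
    PBl (fun T => (Sp c T).map (PresentedGroup.mk R)) T := by
  obtain ⟨j, j1, j2, j3⟩ := (h.ok hT).emb
  obtain ⟨X, _, _, _, B, b1, b2⟩ := h.bl hT h3
  refine ⟨_, _, j, j1, j3, X, _, ‹_›, _, B, b1, fun z => ?_⟩
  obtain ⟨a, p, g, k⟩ := b2 z
  refine ⟨_, Set.sdiff_singleton_ssubset.2 p, g, fun x r => ?_⟩
  obtain ⟨y, s, t⟩ := k x r
  exact ⟨y, s, (j2 y (sp_mono Set.sdiff_subset s)).symm.trans (congrArg j t)⟩

theorem Pd.pinf (h : Pd c R) (h₃ : ∀ a, LocHyper (PresentedGroup (Rs c R {a}))) {T : Set V}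
    (hT : T.Finite) : PInf (fun T => (Sp c T).map (PresentedGroup.mk R)) T := fun U e => by
  refine U.subsingleton_or_nontrivial.imp (h.lh h₃) fun k t l => ?_
  obtain ⟨x, x1, x2⟩ := Set.exists_of_ssubset e
  have m : U ⊆ T \ {x} := fun y p => ⟨e.le p, fun r => x2 (r ▸ p)⟩
  exact (h.inf hT (h.ok hT) e.le k x1 l).imp
    (fun r => ⟨_, Set.sdiff_singleton_ssubset.2 x1, m, r.2⟩) fun ⟨g, r, W, r1, r2, r3⟩ =>
      ⟨g, r, W, r1, r2, fun y p s => r3 y p (Subgroup.map_mono (sp_mono m) s)⟩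

end

theorem Pd.fj {S V : Type v} {c : S → V} {R : Set (FreeGroup S)} (h : Pd c R)
    (h₃ : ∀ a, LocHyper (PresentedGroup (Rs c R {a})))
    (h₄ : ∀ a b, a ≠ b → FJ.{v, max 1 u v} (PresentedGroup (Rs c R {a, b}))) :
    FJ.{v, u} (PresentedGroup R) := by
  have m : Monotone fun T => (Sp c T).map (PresentedGroup.mk R) :=
    fun _ _ e => Subgroup.map_mono (sp_mono e)
  refine fj_mal (𝓛 := {L | ∃ a b, a ≠ b ∧ (Sp c {a, b}).map (PresentedGroup.mk R) = L}) ?_ ?_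
    fun 𝓕 f => rel_fg m (fun g => ?_) fun T hT => rel_par m (fun T hT => ?_) hT
  · rintro _ ⟨a, b, e, rfl⟩
    exact (h.ok (Set.toFinite {a, b})).eqv.elim fun i => fj_equiv i (h₄ a b e)
  · rintro _ ⟨a, b, e, rfl⟩
    exact h.mal h₃ e
  · obtain ⟨x, rfl⟩ := PresentedGroup.mk_surjective R g
    exact (pd_fin (c := c) x).imp fun _ p => ⟨p.1, x, p.2, rfl⟩
  · by_cases k : 3 ≤ T.ncard
    · exact .inr ⟨h.pbl hT k, h.pinf h₃ hT⟩
    by_cases l : T.ncard = 2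
    · obtain ⟨a, b, e, rfl⟩ := Set.ncard_eq_two.1 l
      exact .inl (rel_mem (f _ ⟨a, b, e, rfl⟩))
    · exact .inl (rel_lh (h.lh h₃ ((@Set.ncard_le_one_iff_subsingleton _ _ hT).1 (by omega))))

end Pool.Agent.Lib.MP_5d3e93_al.At
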