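import Mathlib

/-! Graded preorders of rank three with interpolation; duality; passing to partial orders. -/

namespace Pool.Agent.Lib.MP_5d3e93_al.At

universe w

/-- Graded preorders with a shift of rank three and interpolation. -/
structure Ob (Γ : Type w) [Group Γ] (p : Γ) (𝒮 : Set (Set Γ)) where
  X : Type w
  [po : Preorder X]
  [ac : MulAction Γ X]
  [ne : Nonempty X]
  r : X → ℤ
  hm : ∀ (g : Γ) {x y : X}, x ≤ y → g • x ≤ g • y
  rk : ∀ (g : Γ) (x y : X), r (g • x) - r (g • y) = r x - r y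
  rp : ∀ x, r (p • x) = r x - 3
  sm : ∀ {x y}, x ≤ y → r x ≤ r y
  eq : ∀ {x y}, x ≤ y → r y ≤ r x → y ≤ x
  gr : ∀ {x y} (n : ℤ), x ≤ y → r x ≤ n → n ≤ r y → ∃ z, x ≤ z ∧ z ≤ y ∧ r z = n
  cv : ∀ {x y}, x ≤ y → r y = r x + 1 → p • y ≤ x
  pl : ∀ x : X, p • x ≤ x
  ar : ∀ x y : X, ∃ k : ℕ, p ^ k • x ≤ y
  rz : ∀ {a b c d : X}, a ≤ c → a ≤ d → b ≤ c → b ≤ d → ∃ m, a ≤ m ∧ b ≤ m ∧ m ≤ c ∧ m ≤ d
  st : ∀ x : X, ∃ s ∈ 𝒮, ∀ g : Γ, g • x ≤ x → x ≤ g • x → g ∈ s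

attribute [instance] Ob.po Ob.ac Ob.ne

variable {Γ : Type w} [Group Γ] {p q : Γ} {𝒮 : Set (Set Γ)}

/-- Equivariant embeddings that keep the rank. -/
structure Mor {O O' : Ob Γ p 𝒮} (f : O.X → O'.X) : Prop where
  le : ∀ {x y}, f x ≤ f y ↔ x ≤ y
  sm : ∀ (g : Γ) x, f (g • x) = g • f x
  rk : ∀ x, O'.r (f x) = O.r x

/-- Two lower covers of a point get a common lower cover. -/
def Dn {O O' : Ob Γ p 𝒮} (f : O.X → O'.X) : Prop := ∀ v a b : O.X, a ≤ v → b ≤ v →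
  O.r v = O.r a + 1 → O.r v = O.r b + 1 → ∃ e, e ≤ f a ∧ e ≤ f b ∧ O.r v - 2 ≤ O'.r e

/-- Two upper covers of a point get a common upper cover. -/
def Up {O O' : Ob Γ p 𝒮} (f : O.X → O'.X) : Prop := ∀ v a b : O.X, v ≤ a → v ≤ b →
  O.r a = O.r v + 1 → O.r b = O.r v + 1 → ∃ e, f a ≤ e ∧ f b ≤ e ∧ O'.r e ≤ O.r v + 2

theorem Mor.comp {O O' O'' : Ob Γ p 𝒮} {f : O.X → O'.X} {g : O'.X → O''.X} (a : Mor f)
    (b : Mor g) : Mor (g ∘ f) :=
  ⟨b.le.trans a.le, fun c x => (congrArg g (a.sm c x)).trans (b.sm c _),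
    fun x => (b.rk _).trans (a.rk x)⟩

theorem Ob.hi (O : Ob Γ p 𝒮) (g : Γ) {x y : O.X} : g • x ≤ g • y ↔ x ≤ y :=
  ⟨fun h => by simpa using O.hm g⁻¹ h, O.hm g⟩

/-- The opposite order. -/
def Ob.dual (O : Ob Γ p 𝒮) (h : q * p = 1) : Ob Γ q 𝒮 where
  X := O.X
  po := OrderDual.instPreorder O.X
  ac := O.ac
  ne := O.ne
  r x := -O.r x
  hm g _ _ a := O.hm g a
  rk g x y := by
    have := O.rk g x y
    omega
  rp x := by
    have := O.rp (q • x)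
    rw [smul_smul, mul_eq_one_comm.1 h, one_smul] at this
    omega
  sm a := neg_le_neg (O.sm a)
  eq a b := O.eq a (neg_le_neg_iff.1 b)
  gr n a b c := by
    obtain ⟨z, d, e, f⟩ := O.gr (-n) a (by omega) (by omega)
    exact ⟨z, e, d, by omega⟩
  cv {x y} a b := by
    have := O.hm q (O.cv a (by omega))
    rwa [smul_smul, h, one_smul] at this
  pl x := by
    have := O.hm q (O.pl x)
    rwa [smul_smul, h, one_smul] at this
  ar x y := (O.ar y x).imp fun k a => by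
    have := O.hm (q ^ k) a
    rwa [smul_smul, eq_inv_of_mul_eq_one_left h, inv_pow, inv_mul_cancel, one_smul, ← inv_pow,
      ← eq_inv_of_mul_eq_one_left h] at this
  rz a b c d := by
    obtain ⟨m, e, f, g, k⟩ := O.rz a c b d
    exact ⟨m, g, k, e, f⟩
  st x := (O.st x).imp fun _ a => ⟨a.1, fun g b c => a.2 g c b⟩

/-- Passing to the associated antisymmetric order. -/
theorem Ob.anti (O : Ob Γ p 𝒮) : ∃ (O' : Ob Γ p 𝒮) (f : O.X → O'.X), Mor f ∧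
    Function.Surjective f ∧ ∀ x y : O'.X, x ≤ y → y ≤ x → x = y := by
  let Y := Antisymmetrization O.X (· ≤ ·)
  let A : MulAction Γ Y :=
    { smul := fun g => Quotient.map (g • ·) fun _ _ a => ⟨O.hm g a.1, O.hm g a.2⟩
      one_smul := fun x => Quotient.inductionOn x fun x => congrArg _ (one_smul Γ x)
      mul_smul := fun a b x => Quotient.inductionOn x fun x => congrArg _ (mul_smul a b x) }
  let f : O.X → Y := toAntisymmetrization _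
  have s : Function.Surjective f := Quotient.mk_surjective
  let r : Y → ℤ := Quotient.lift O.r fun _ _ a => (O.sm a.1).antisymm (O.sm a.2)
  refine ⟨{ X := Y, ne := ⟨f O.ne.some⟩, r := r, hm := ?_, rk := ?_, rp := ?_, sm := ?_, eq := ?_
            gr := ?_, cv := ?_, pl := ?_, ar := ?_, rz := ?_, st := ?_ }, f,
    ⟨Iff.rfl, fun _ _ => rfl, fun _ => rfl⟩, s, fun _ _ => le_antisymm⟩
  · rintro g ⟨x⟩ ⟨y⟩
    exact O.hm g
  · rintro g ⟨x⟩ ⟨y⟩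
    exact O.rk g x y
  · rintro ⟨x⟩
    exact O.rp x
  · rintro ⟨x⟩ ⟨y⟩
    exact O.sm
  · rintro ⟨x⟩ ⟨y⟩
    exact O.eq
  · rintro ⟨x⟩ ⟨y⟩ n a b c
    exact (O.gr n a b c).elim fun z d => ⟨f z, d⟩
  · rintro ⟨x⟩ ⟨y⟩
    exact O.cv
  · rintro ⟨x⟩
    exact O.pl x
  · rintro ⟨x⟩ ⟨y⟩
    exact O.ar x y
  · rintro ⟨x⟩ ⟨y⟩ ⟨z⟩ ⟨t⟩ a b c d
    exact (O.rz a b c d).elim fun z d => ⟨f z, d⟩
  · rintro ⟨x⟩
    exact O.st x

end Pool.Agent.Lib.MP_5d3e93_al.At
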