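import Pool.Agent.Lib.MP_5d3e93_al.At.OnA
import Pool.Agent.Lib.MP_5d3e93_al.At.DuM
import Pool.Agent.Lib.MP_35cce7_an.BlkRep

/-! Cliques with at most one label two have large links. -/

namespace Pool.Agent.Lib.MP_5d3e93_al.At

open Pool.Agent.Lib.MP_35cce7_an

variable {B : Type} {M : CoxeterMatrix B} {T U : Set B} {a b c y z : B}

variable (M) in
/-- Finite cliques with at most one label two and without spherical triangles. -/
structure On (T : Set B) : Prop where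
  fin : T.Finite
  cq : ∀ s ∈ T, ∀ t ∈ T, M s t ≠ 0
  one : ∀ i ∈ T, ∀ j ∈ T, ∀ k ∈ T, ∀ l ∈ T, M i j = 2 → M k l = 2 → i = k ∨ i = l
  tri : ∀ a ∈ T, ∀ c ∈ T, ∀ b ∈ T, a ≠ b → c ≠ b → M a c = 2 →
    2 * (M a b + M c b) ≤ M a b * M c b

theorem On.mono (h : On M T) (e : U ⊆ T) : On M U :=
  ⟨h.fin.subset e, fun _ a _ b => h.cq _ (e a) _ (e b),
    fun _ a _ b _ c _ d => h.one _ (e a) _ (e b) _ (e c) _ (e d),
    fun _ a _ b _ c => h.tri _ (e a) _ (e b) _ (e c)⟩

theorem On.three (h : On M T) (p : y ∈ T) (q : z ∈ T) (e : y ≠ z) (k : M y z ≠ 2) : 3 ≤ M y z := by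
  have := h.cq _ p _ q
  have := M.off_diagonal y z e
  omega

theorem on_ne (k : M a c = 2) : a ≠ c := by
  rintro rfl
  simp at k

theorem On.two (h : On M T) (p : a ∈ T) (q : c ∈ T) (k : M a c = 2) (r : y ∈ T) (s : z ∈ T)
    (l : M y z = 2) : y = a ∧ z = c ∨ y = c ∧ z = a := by
  have := on_ne l
  have := h.one _ r _ s _ p _ q l k
  have := h.one _ s _ r _ p _ q (M.symmetric y z ▸ l) k
  grind

theorem On.big (h : On M T) (p : a ∈ T) (q : c ∈ T) (k : M a c = 2) (r : b ∈ T) (s : a ≠ b)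
    (t : c ≠ b) : 3 ≤ M a b ∧ 3 ≤ M c b :=
  ⟨h.three p r s fun l => by have := h.two p q k p r l; have := on_ne k; grind,
    h.three q r t fun l => by have := h.two p q k q r l; have := on_ne k; grind⟩

theorem on_pw {g : Ar M} (h : g ∈ par M {a}) : ∃ n : ℤ, gn M a ^ n = g := by
  rwa [par, Set.image_singleton, Subgroup.mem_closure_singleton] at h

theorem on_cm (k : M a c = 2) : Commute (gn M a) (gn M c) := by
  have := braid (M := M) (i := a) (j := c) (by omega)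
  simpa [k, alt, List.range_succ, commute_iff_eq] using this

theorem on_pw2 (k : M a c = 2) {g : Ar M} (h : g ∈ par M {a, c}) :
    ∃ i j : ℤ, gn M a ^ i * gn M c ^ j = g :=
  par_ind (Q := fun g => ∃ i j : ℤ, gn M a ^ i * gn M c ^ j = g) ⟨0, 0, by simp⟩ (by
    rintro _ (rfl | rfl) _ ⟨i, j, rfl⟩
    · exact ⟨⟨1 + i, j, by group⟩, -1 + i, j, by group⟩
    · have := ((on_cm k).zpow_left i).eq
      exact ⟨⟨i, 1 + j, by rw [← mul_assoc, ← this]; group⟩, i, -1 + j,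
        by rw [← mul_assoc, ← ((on_cm k).zpow_left i).inv_right.eq]; group⟩) h

theorem On.dg (h : On M T) (p : a ∈ T) (q : c ∈ T) (k : M a c = 2) (r : b ∈ T) (hab : a ≠ b)
    (hcb : c ≠ b) {s t : B} (hs : s = a ∨ s = c) (ht : t = a ∨ t = c) {x : Ar M}
    (hx : x ∈ par M {a, c, b}) : (s = t ∧ x ∈ par M {s, b}) ∨
      ∀ g ∈ par M {s, b}, x⁻¹ * g * x ∈ par M {t, b} → deg M g = 1 → g = 1 := by
  obtain ⟨x, rfl⟩ := on_rng.ge hx
  have m : ∀ {s}, s = a ∨ s = c → s ∈ ({a, c, b} : Set B) := by rintro _ (rfl | rfl) <;> simp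
  have e : ∀ {s} (u : s = a ∨ s = c), Subtype.val ⁻¹' {s, b} =
      ({⟨s, m u⟩, ⟨b, by simp⟩} : Set ({a, c, b} : Set B)) := fun u => Set.ext fun i => by
    simp [Subtype.ext_iff]
  have d : (deg M).comp (subE M (· ∈ ({a, c, b} : Set B))).hom = deg _ :=
    PresentedGroup.ext fun i => by simp [deg]
  refine (path_deg (M := sub M (· ∈ ({a, c, b} : Set B))) (a := ⟨a, by simp⟩) (b := ⟨b, by simp⟩)
    (c := ⟨c, by simp⟩) (fun i => i.2.imp Subtype.ext (Or.imp Subtype.ext Subtype.ext))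
    (by simpa using on_ne k) (by simpa) (by simpa) k (h.big p q k r hab hcb).1
    (h.big p q k r hab hcb).2 (h.tri _ p _ q _ r hab hcb k) (s := ⟨s, m hs⟩) (t := ⟨t, m ht⟩)
    (by simpa) (by simpa) x).imp (fun u => ⟨Subtype.mk.inj u.1, on_mem.2 (e hs ▸ u.2)⟩)
    fun u g g1 g2 g3 => ?_
  obtain ⟨g, rfl⟩ := on_rng.ge (par_mono (T := {a, c, b})
    (Set.insert_subset (m hs) (by simp)) g1)
  rw [u g (e hs ▸ on_mem.1 g1) (e ht ▸ on_mem.1 (by simpa using g2)) (d ▸ g3), map_one]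

theorem on_exp {S : Set B} (n : a ∉ S) {r r' : Ar M} (p : r ∈ par M S) (q : r' ∈ par M S)
    {i j : ℤ} (e : r * gn M a ^ i = gn M a ^ j * r') : i = j := by
  classical
  let _ : LinearOrder B := linearOrderOfSTO WellOrderingRel
  have k : ∀ (i : ℤ) v, tvr M (gn M a ^ i) v = v + (i * v (.inl a)) • rt M a := fun i v => by
    rw [map_zpow, tvr_gn]
    induction i using Int.induction_on with
    | zero => simp
    | succ i ih =>
      rw [add_comm, zpow_one_add, Equiv.Perm.mul_apply, ih, tv_apply]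
      simp only [Pi.add_apply, Pi.smul_apply, rt_self]
      push_cast
      module
    | pred i ih =>
      rw [sub_eq_neg_add, zpow_add, zpow_neg_one, Equiv.Perm.mul_apply, ih, tv_inv]
      simp only [Pi.add_apply, Pi.smul_apply, rt_self]
      push_cast
      module
  have := congrArg (fun g => tvr M g (Pi.single (.inl a) 1) (.inr a)) e
  simp only [map_mul, Equiv.Perm.mul_apply] at this
  rw [tvr_inr p _ n, tvr_fix q fun s u => Pi.single_eq_of_ne
    (fun f => n (by obtain rfl := Sum.inl.inj f; exact u)) _, k, k] at this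
  simpa [rt] using this

theorem On.g3 (h : On M T) (p : a ∈ T) (q : c ∈ T) (k : M a c = 2) (s : b ∈ T) (hab : a ≠ b)
    (hcb : c ≠ b) (e : T ⊆ {a, c, b}) : G4 M T a b := fun r r1 l l1 l' l2 r' r2 f => by
  have u : T \ {a} ⊆ {c, b} := fun _ w => (e w.1).resolve_left w.2
  have v : T \ {b} ⊆ {a, c} := fun _ w => (e w.1).imp_right fun t => t.resolve_right w.2
  have n : a ∉ ({c, b} : Set B) := by simp [on_ne k, hab]
  have mc (j : ℤ) : gn M c ^ j ∈ par M {c, b} := zpow_mem (gn_mem (by simp)) j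
  obtain ⟨i, j, rfl⟩ := on_pw2 k (par_mono v l1)
  obtain ⟨i', j', rfl⟩ := on_pw2 k (par_mono v l2)
  replace r1 := par_mono u r1
  have g1 := mul_mem (mul_mem (mc j') (par_mono u r2)) (mc (-j))
  have f' : r * gn M a ^ i = gn M a ^ i' * (gn M c ^ j' * r' * gn M c ^ (-j)) := by
    rw [← mul_assoc] at f
    rw [eq_mul_inv_of_mul_eq f]
    group
  obtain rfl := on_exp n r1 g1 f'
  obtain ⟨-, w⟩ | w := h.dg p q k s hab hcb (.inr rfl) (.inr rfl) (x := gn M a ^ i)
    (zpow_mem (gn_mem (by simp)) i)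
  · have := par_inf w (zpow_mem (gn_mem (S := {a}) rfl) i)
    rw [Set.inter_singleton_eq_empty.2 n] at this
    rw [show gn M a ^ i = 1 by simpa [par] using this, one_mul]
    exact .inr (zpow_mem (gn_mem (Set.mem_sdiff_singleton.2 ⟨q, (on_ne k).symm⟩)) j)
  · have := w (r * gn M c ^ (-(deg M r).toAdd)) (mul_mem r1 (mc _)) (by
      rw [mul_assoc, mul_assoc, ← ((on_cm k).zpow_zpow _ _).eq, ← mul_assoc r, f', mul_assoc,
        inv_mul_cancel_left]
      exact mul_mem g1 (mc _)) (by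
        rw [map_mul, map_zpow, deg, alift_gn]
        exact toAdd_eq_zero.1 (by simp))
    rw [eq_inv_of_mul_eq_one_left this]
    exact .inl (inv_mem (zpow_mem (gn_mem (Set.mem_sdiff_singleton.2 ⟨q, hcb⟩)) _))

theorem on_ex (h1 : y ≠ z) (h2 : y ≠ a) (h3 : z ≠ a) : ∃ x : ZMod 3 → B, Function.Injective x ∧
    x 0 = y ∧ x 1 = z ∧ x 2 = a ∧ ∀ p : B → Prop, p y → p z → p a → ∀ i, p (x i) := by
  refine ⟨(![y, z, a] : Fin 3 → B), fun i j => ?_, rfl, rfl, rfl, fun p u v w i => ?_⟩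
  · fin_cases i <;> fin_cases j <;> intro e <;>
      first | rfl | exact (h1 e).elim | exact (h2 e).elim | exact (h3 e).elim |
        exact (h1 e.symm).elim | exact (h2 e.symm).elim | exact (h3 e.symm).elim
  · fin_cases i
    exacts [u, v, w]

theorem on_lab {x : ZMod 3 → B} (a : M (x 0) (x 1) ≠ 2) (b : M (x 0) (x 2) ≠ 2)
    (c : M (x 1) (x 2) ≠ 2) (i : ZMod 3) : M (x (i + 2)) (x (i + 1)) ≠ 2 := by
  fin_cases i
  exacts [M.symmetric .. ▸ c, b, M.symmetric .. ▸ a]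

theorem On.g4 (h : On M T) (p : y ∈ T) (q : z ∈ T) (e : y ≠ z) (k : M y z ≠ 2) : G4 M T y z := by
  induction hn : T.ncard using Nat.strong_induction_on generalizing T y z with | _ n ih => ?_
  by_cases l : ∃ w ∈ T, y ≠ w ∧ z ≠ w ∧ M y w ≠ 2 ∧ M z w ≠ 2
  · obtain ⟨w, r, s, t, u, v⟩ := l
    obtain ⟨x, x1, rfl, rfl, rfl, x2⟩ := on_ex e s t
    have m := x2 (· ∈ T) p q r
    have d : ∀ i : ZMod 3, i + 2 ≠ i ∧ i + 1 ≠ i ∧ i + 2 ≠ i + 1 := by decide
    exact on_t3 x1 fun i => ih _ (hn ▸ Set.ncard_sdiff_singleton_lt_of_mem (m i) h.fin)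
      (h.mono Set.sdiff_subset) ⟨m _, x1.ne (d i).1⟩ ⟨m _, x1.ne (d i).2.1⟩ (x1.ne (d i).2.2)
      (on_lab k u v i) rfl
  push Not at l
  by_cases m : T ⊆ {y, z}
  · intro r r1 l l1 l' l2 r' r2 f
    have u : T \ {y} ⊆ {z} := fun _ w => (m w.1).resolve_left w.2
    have v : T \ {z} ⊆ {y} := fun _ w => (m w.1).resolve_right w.2
    obtain ⟨i, rfl⟩ := on_pw (par_mono u r1)
    obtain ⟨j, rfl⟩ := on_pw (par_mono v l1)
    obtain ⟨i', rfl⟩ := on_pw (par_mono u r2)
    obtain ⟨j', rfl⟩ := on_pw (par_mono v l2)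
    exact (no_four (M.symmetric y z ▸ h.three p q e k) f).imp (fun t => by simp [t])
      fun t => by simp [t]
  obtain ⟨w, r, s⟩ := Set.not_subset.1 m
  have s1 : y ≠ w := fun t => s (.inl t.symm)
  have s2 : z ≠ w := fun t => s (.inr t.symm)
  by_cases t : M y w = 2
  · refine h.g3 p r t q e s2.symm fun u v => by_contra fun o => ?_
    have := h.two p r t p v
    have := h.two p r t q v
    have := l u v
    grind
  · have t' := l w r s1 s2 t
    refine (h.g3 q r t' p e.symm s1.symm fun u v => by_contra fun o => ?_).symm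
    have := h.two q r t' p v
    have := h.two q r t' q v
    have := l u v
    grind

theorem On.gs (h : On M T) {x : ZMod 3 → B} (x1 : Function.Injective x) (m : ∀ i, x i ∈ T)
    (k : ∀ i, M (x (i + 2)) (x (i + 1)) ≠ 2) (i) : G4 M (T \ {x i}) (x (i + 2)) (x (i + 1)) :=
  have d : ∀ i : ZMod 3, i + 2 ≠ i ∧ i + 1 ≠ i ∧ i + 2 ≠ i + 1 := by decide
  (h.mono Set.sdiff_subset).g4 ⟨m _, x1.ne (d i).1⟩ ⟨m _, x1.ne (d i).2.1⟩ (x1.ne (d i).2.2) (k i)

end Pool.Agent.Lib.MP_5d3e93_al.At
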