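import Pool.Agent.Lib.MP_5d3e93_al.At.Df

/-! Coloured presentations: retractions of the free group and comparison of sub-presentations. -/

open Subgroup

namespace Pool.Agent.Lib.MP_5d3e93_al.At

universe v

variable {S V : Type v} (c : S → V) (R : Set (FreeGroup S))

/-- The quotient map to the group of the colours `T`. -/
abbrev pdk (T : Set V) : FreeGroup S →* PresentedGroup (Rs c R T) := PresentedGroup.mk _

open Classical in
/-- Kill the generators with colour outside `T`. -/
noncomputable def pdr (T : Set V) : FreeGroup S →* FreeGroup S :=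
  FreeGroup.lift fun s => if c s ∈ T then .of s else 1

variable {c R} {T U : Set V}

theorem pd_mono (h : T ⊆ U) : Sp c T ≤ Sp c U :=
  closure_mono (Set.image_mono (Set.preimage_mono h))

theorem pdr_fix {k : FreeGroup S} (h : k ∈ Sp c T) : pdr c T k = k :=
  (show Sp c T ≤ (pdr c T).eqLocus (.id _) from (closure_le _).2 (by
    rintro _ ⟨s, a, rfl⟩
    have a : c s ∈ T := a
    change pdr c T (.of s) = .of s
    simp [pdr, a])) h

theorem pdr_mem {k : FreeGroup S} (h : k ∈ Sp c U) : pdr c T k ∈ Sp c (U ∩ T) :=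
  (show Sp c U ≤ (Sp c (U ∩ T)).comap (pdr c T) from (closure_le _).2 (by
    rintro _ ⟨s, a, rfl⟩
    change pdr c T (.of s) ∈ Sp c (U ∩ T)
    by_cases b : c s ∈ T
    · simp only [pdr, FreeGroup.lift_apply_of, if_pos b]
      exact subset_closure ⟨s, ⟨a, b⟩, rfl⟩
    · simp only [pdr, FreeGroup.lift_apply_of, if_neg b]
      exact one_mem _)) h

theorem pd_univ (k : FreeGroup S) : k ∈ Sp c Set.univ := by
  rw [Sp, Set.preimage_univ, Set.image_univ, FreeGroup.closure_range_of]
  trivial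

theorem pd_inf {k : FreeGroup S} (a : k ∈ Sp c U) (b : k ∈ Sp c T) : k ∈ Sp c (U ∩ T) :=
  pdr_fix b ▸ pdr_mem a

theorem pdr_in (k : FreeGroup S) : pdr c T k ∈ Sp c T :=
  pd_mono Set.inter_subset_right (pdr_mem (pd_univ k))

theorem pdk_rel {k : FreeGroup S} (a : k ∈ R) (b : k ∈ Sp c T) : pdk c R T k = 1 :=
  PresentedGroup.one_of_mem (.inl ⟨a, b⟩)

theorem pdk_out {s : S} (a : c s ∉ T) : pdk c R T (.of s) = 1 :=
  PresentedGroup.one_of_mem (.inr ⟨s, a, rfl⟩)

theorem pdk_r (k : FreeGroup S) : pdk c R T (pdr c T k) = pdk c R T k := by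
  refine DFunLike.congr_fun (show (pdk c R T).comp (pdr c T) = pdk c R T from
    FreeGroup.ext_hom _ _ fun s => ?_) k
  change pdk c R T (pdr c T (.of s)) = _
  by_cases b : c s ∈ T
  · simp only [pdr, FreeGroup.lift_apply_of, if_pos b]
  · simp only [pdr, FreeGroup.lift_apply_of, if_neg b, map_one, pdk_out b]

theorem pdk_sur (x : PresentedGroup (Rs c R T)) : ∃ k ∈ Sp c T, pdk c R T k = x :=
  (PresentedGroup.mk_surjective _ x).elim fun k e => ⟨_, pdr_in k, (pdk_r k).trans e⟩

theorem pdk_ker {N : Subgroup (FreeGroup S)} [N.Normal] (a : ∀ k ∈ R, k ∈ Sp c T → k ∈ N)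
    (b : ∀ s, c s ∉ T → .of s ∈ N) : (pdk c R T).ker ≤ N := fun k e =>
  normalClosure_le_normal (by
    rintro x (⟨p, q⟩ | ⟨s, p, rfl⟩)
    exacts [a x p q, b s p]) (PresentedGroup.mk_eq_one_iff.1 e)

/-- A map that kills the relators in the colours `T` kills all words that die in that group. -/
theorem pdk_up {A : Type*} [Group A] (π : FreeGroup S →* A) (a : ∀ k ∈ R, k ∈ Sp c T → π k = 1)
    {k : FreeGroup S} (h : k ∈ Sp c T) (e : pdk c R T k = 1) : π k = 1 := by
  have : (π.comp (pdr c T)) k = 1 := pdk_ker (N := (π.comp (pdr c T)).ker)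
    (fun x p q => by
      change π (pdr c T x) = 1
      rw [pdr_fix q, a x p q])
    (fun s p => by
      change π (pdr c T (.of s)) = 1
      simp only [pdr, FreeGroup.lift_apply_of, if_neg p, map_one]) e
  rwa [MonoidHom.comp_apply, pdr_fix h] at this

theorem pdk_le (h : T ⊆ U) {k : FreeGroup S} (a : k ∈ Sp c T) (e : pdk c R T k = 1) :
    pdk c R U k = 1 := pdk_up _ (fun _ p q => pdk_rel p (pd_mono h q)) a e

/-- The map induced on the group of the colours `T`. -/
theorem pdk_ind {A : Type*} [Group A] (π : FreeGroup S →* A)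
    (a : ∀ k ∈ Sp c T, π k = 1 ↔ pdk c R T k = 1) :
    ∃ j : PresentedGroup (Rs c R T) →* A, Function.Injective j ∧
      ∀ k ∈ Sp c T, j (pdk c R T k) = π k := by
  have z : normalClosure (Rs c R T) ≤ (π.comp (pdr c T)).ker := fun k e =>
    (a _ (pdr_in k)).2 ((pdk_r k).trans (PresentedGroup.mk_eq_one_iff.2 e))
  have w : ∀ k ∈ Sp c T, QuotientGroup.lift _ (π.comp (pdr c T)) z (pdk c R T k) = π k :=
    fun k e => congrArg π (pdr_fix e)
  refine ⟨QuotientGroup.lift _ (π.comp (pdr c T)) z, (injective_iff_map_eq_one _).2 fun x e => ?_, w⟩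
  obtain ⟨k, p, rfl⟩ := pdk_sur x
  exact (a k p).1 ((w k p).symm.trans e)

/-- Words that die in the whole group die in the group of some finite set of colours. -/
theorem pdk_fin (hR : ∀ r ∈ R, ∃ x y, r ∈ Sp c {x, y}) {k : FreeGroup S}
    (h : PresentedGroup.mk R k = 1) : ∃ F : Set V, F.Finite ∧ ∀ U, F ⊆ U → pdk c R U k = 1 := by
  replace h := PresentedGroup.mk_eq_one_iff.1 h
  induction h using closure_induction with
  | mem x e =>
    obtain ⟨r, a, b⟩ := Group.mem_conjugatesOfSet_iff.1 e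
    obtain ⟨g, rfl⟩ := isConj_iff.1 b
    obtain ⟨x, y, d⟩ := hR r a
    exact ⟨{x, y}, Set.toFinite _, fun U e => by
      rw [map_mul, map_mul, pdk_rel a (pd_mono e d), mul_one, ← map_mul, mul_inv_cancel, map_one]⟩
  | one => exact ⟨∅, Set.finite_empty, fun _ _ => map_one _⟩
  | mul x y _ _ a b =>
    obtain ⟨F, p, q⟩ := a
    obtain ⟨F', p', q'⟩ := b
    exact ⟨F ∪ F', p.union p', fun U e => by
      rw [map_mul, q U (Set.subset_union_left.trans e), q' U (Set.subset_union_right.trans e),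
        one_mul]⟩
  | inv x _ a =>
    obtain ⟨F, p, q⟩ := a
    exact ⟨F, p, fun U e => by rw [map_inv, q U e, inv_one]⟩

theorem pd_fin (k : FreeGroup S) : ∃ F : Set V, F.Finite ∧ k ∈ Sp c F := by
  induction k using FreeGroup.induction_on with
  | C1 => exact ⟨∅, Set.finite_empty, one_mem _⟩
  | of s => exact ⟨{c s}, Set.finite_singleton _, subset_closure ⟨s, rfl, rfl⟩⟩
  | inv_of s a => exact a.imp fun _ b => ⟨b.1, inv_mem b.2⟩
  | mul x y a b =>
    obtain ⟨F, p, q⟩ := a
    obtain ⟨F', p', q'⟩ := b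
    exact ⟨F ∪ F', p.union p', mul_mem (pd_mono Set.subset_union_left q)
      (pd_mono Set.subset_union_right q')⟩

end Pool.Agent.Lib.MP_5d3e93_al.At
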