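import Pool.Agent.Lib.MP_5d3e93_al.At.Qa
import Pool.Agent.Lib.MP_5d3e93_al.At.Bp

/-! Intersections of parabolic subgroups over a set of common colours. -/

namespace Pool.Agent.Lib.MP_5d3e93_al.At

universe v

variable {S V : Type v} {c : S → V} {R : Set (FreeGroup S)} {O : Set V} {E : V → V → Prop}

theorem qb_three {a b d : V} (h1 : a ≠ b) (h2 : a ≠ d) (h3 : b ≠ d) {T : Set V} (ha : a ∈ T)
    (hb : b ∈ T) (hd : d ∈ T) : ∃ x : ZMod 3 → V, Function.Injective x ∧ (∀ i, x i ∈ T) ∧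
      x 0 = a ∧ x 1 = b ∧ x 2 = d := by
  refine ⟨(![a, b, d] : Fin 3 → V), fun i j => ?_, fun i => ?_, rfl, rfl, rfl⟩
  · fin_cases i <;> fin_cases j <;> intro e <;>
      first | rfl | exact (h1 e).elim | exact (h2 e).elim | exact (h3 e).elim |
        exact (h1 e.symm).elim | exact (h2 e.symm).elim | exact (h3 e.symm).elim
  · fin_cases i
    exacts [ha, hb, hd]

theorem Pq.inf (h : Pq c R O E) {G : Type v} [Group G] {q : FreeGroup S →* G} {T U : Set V}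
    (hT : T.Finite) (o : Ok c R q T) (hO : O ⊆ U) (e : U ⊆ T) (hU : (U \ O).Nontrivial) {a : V}
    (ha : a ∈ T \ O) {t : G} (ht : t ∈ (Sp c T).map q) :
    (a ∉ U ∧ t ∈ (Sp c (T \ {a})).map q) ∨
      ∃ g ∈ (Sp c T).map q, ∃ U', O ⊆ U' ∧ U' ⊆ T ∧ U'.ncard < U.ncard ∧ ∀ x ∈ (Sp c U).map q,
        t⁻¹ * x * t ∈ (Sp c (T \ {a})).map q → g⁻¹ * x * g ∈ (Sp c U').map q := by
  induction hn : T.ncard using Nat.strong_induction_on generalizing T a t with | _ n ih => ?_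
  by_cases k : T ⊆ U
  · obtain rfl := e.antisymm k
    exact .inr ⟨t, ht, U \ {a}, fun y p => ⟨hO p, fun r => ha.2 (r ▸ p)⟩, Set.sdiff_subset,
      Set.ncard_sdiff_singleton_lt_of_mem ha.1 hT, fun _ _ => id⟩
  obtain ⟨x, x1, x2, x3, x4, i, rfl⟩ : ∃ x : ZMod 3 → V, Function.Injective x ∧
      (∀ i, x i ∈ T \ O) ∧ x 0 ∉ U ∧ (∀ i, i ≠ 0 → x i ∈ U) ∧ ∃ i, x i = a := by
    have z : ∀ i : ZMod 3, i ≠ 0 → i = 1 ∨ i = 2 := by decide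
    by_cases l : a ∈ U
    · obtain ⟨y, y1, y2⟩ := Set.not_subset.1 k
      obtain ⟨b, b1, b2⟩ := hU.exists_ne a
      obtain ⟨x, c1, c2, rfl, rfl, rfl⟩ := qb_three (T := T \ O) (fun r : y = a => y2 (r ▸ l))
        (fun r : y = b => y2 (r ▸ b1.1)) b2.symm ⟨y1, fun r => y2 (hO r)⟩ ha ⟨e b1.1, b1.2⟩
      exact ⟨x, c1, c2, y2, fun i hi => (z i hi).elim (· ▸ l) (· ▸ b1.1), 1, rfl⟩
    · obtain ⟨b, b1, d, d1, b2⟩ := hU
      obtain ⟨x, c1, c2, rfl, rfl, rfl⟩ := qb_three (T := T \ O) (fun r : a = b => l (r ▸ b1.1))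
        (fun r : a = d => l (r ▸ d1.1)) b2 ha ⟨e b1.1, b1.2⟩ ⟨e d1.1, d1.2⟩
      exact ⟨x, c1, c2, l, fun i hi => (z i hi).elim (· ▸ b1.1) (· ▸ d1.1), 0, rfl⟩
  obtain ⟨𝒯, t1, t2, t3⟩ := h.tri hT (hO.trans e) x x1 x2
  obtain ⟨j, j1, j2, j3⟩ := o.emb
  have tr {W : Set V} (w : W ⊆ T) (y) :
      j y ∈ (Sp c W).map q ↔ y ∈ (Sp c W).map (pj c R T) :=
    ⟨fun ⟨k, a, b⟩ => ⟨k, a, j1 ((j2 k (sp_mono w a)).trans b)⟩,
      fun ⟨k, a, b⟩ => ⟨k, a, b ▸ (j2 k (sp_mono w a)).symm⟩⟩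
  have hQ (i) : 𝒯.Q i = (Sp c (T \ {x i})).map (pj c R T) := by rw [Tri.Q, t1, t3]
  have e' : U ⊆ T \ {x 0} := fun y hy => ⟨e hy, fun r => x3 (r ▸ hy)⟩
  obtain ⟨t, rfl⟩ : t ∈ j.range := j3 ▸ ht
  rcases 𝒯.m5 t 0 i with ⟨rfl, m⟩ | ⟨g, g1, i', i1, m⟩
  · exact .inl ⟨x3, (tr Set.sdiff_subset _).2 (hQ 0 ▸ m)⟩
  rcases ih _ (hn ▸ Set.ncard_sdiff_singleton_lt_of_mem (x2 0).1 hT) (hT.subset Set.sdiff_subset)
    (h.sub hT o (hO.trans e') Set.sdiff_subset) e' ⟨e' (x4 i' i1), (x2 i').2⟩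
    ((tr Set.sdiff_subset g).2 (hQ 0 ▸ g1)) rfl with ⟨r, -⟩ | ⟨g', r1, U', r0, r2, r3, r4⟩
  · exact (r (x4 i' i1)).elim
  refine .inr ⟨g', Subgroup.map_mono (sp_mono Set.sdiff_subset) r1, U', r0,
    r2.trans Set.sdiff_subset, r3, fun y y1 y2 => r4 y y1 ?_⟩
  obtain ⟨y, rfl⟩ : y ∈ j.range := j3 ▸ Subgroup.map_mono (sp_mono e) y1
  have y3 : y ∈ 𝒯.Q 0 := hQ 0 ▸ Subgroup.map_mono (sp_mono e') ((tr e y).1 y1)
  rw [← map_inv, ← map_mul, ← map_mul] at y2 ⊢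
  have y4 := m y y3 (hQ i ▸ (tr Set.sdiff_subset _).1 y2)
  have y5 : g⁻¹ * y * g ∈ 𝒯.Q 0 := mul_mem (mul_mem (inv_mem g1) y3) g1
  rw [tr (Set.sdiff_subset.trans Set.sdiff_subset)]
  rcases (by decide : ∀ i : ZMod 3, i ≠ 0 → i = 1 ∨ i = 2) i' i1 with rfl | rfl
  · have := 𝒯.m2 0 ⟨y5, y4⟩
    rwa [t2, t3] at this
  · have := 𝒯.m2 2 ⟨y4, y5⟩
    rwa [t2, t3, Set.sdiff_sdiff_comm] at this

theorem Pq.bl (h : Pq c R O E) {T : Set V} (hT : T.Finite) (hO : O ⊆ T)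
    (h2 : (T \ O).Nontrivial) (h3 : ¬ ∃ a b, E a b ∧ T ⊆ O ∪ {a, b}) :
    BlA (PresentedGroup (Rs c R T))
      {s | ∃ a ∈ T \ O, ∃ g, s = {k | g⁻¹ * k * g ∈ (Sp c (T \ {a})).map (pj c R T)}} := by
  suffices k : ∃ (H : ZMod 3 → Type v) (_ : ∀ i, Group (H i))
      (𝒯 : Tri (FreeGroup S) H (PresentedGroup (Rs c R T))),
      ∀ i, ∃ a ∈ T \ O, 𝒯.Q i ≤ (Sp c (T \ {a})).map (pj c R T) by
    obtain ⟨H, _, 𝒯, k⟩ := k
    obtain ⟨X, _, _, _, B, b1, b2⟩ := 𝒯.m6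
    refine ⟨X, _, ‹_›, _, B, b1, fun z => ?_⟩
    obtain ⟨i, g, m⟩ := b2 z
    obtain ⟨a, a1, a2⟩ := k i
    exact ⟨_, ⟨a, a1, g, rfl⟩, fun y r => a2 (m y r)⟩
  obtain ⟨a, ha, b, hb, ne⟩ := h2
  by_cases t : ∃ d ∈ T \ O, a ≠ d ∧ b ≠ d
  · obtain ⟨d, hd, t1, t2⟩ := t
    obtain ⟨x, x1, x2, -⟩ := qb_three ne t1 t2 ha hb hd
    obtain ⟨𝒯, t1, -, t3⟩ := h.tri hT hO x x1 x2
    exact ⟨_, _, 𝒯, fun i => ⟨x i, x2 i, by rw [Tri.Q, t1, t3]⟩⟩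
  have k (z) (p : z ∈ T) (q1 : z ≠ a) (q2 : z ≠ b) : z ∈ O :=
    by_contra fun r => t ⟨z, ⟨p, r⟩, q1.symm, q2.symm⟩
  have oa : O ⊆ T \ {a} := fun y p => ⟨hO p, fun r => ha.2 (r ▸ p)⟩
  have ob : O ⊆ T \ {b} := fun y p => ⟨hO p, fun r => hb.2 (r ▸ p)⟩
  obtain ⟨A, a0, a1, a2⟩ : ∃ A : ZMod 3 → Set V, A 0 = T \ {a} ∧ A 1 = T \ {b} ∧ A 2 = O :=
    ⟨(![T \ {a}, T \ {b}, O] : Fin 3 → Set V), rfl, rfl, rfl⟩
  have z : ∀ i : ZMod 3, i = 0 ∨ i = 1 ∨ i = 2 := by decide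
  have hA (i) : A i ∩ A (i + 1) = O := by
    obtain rfl | rfl | rfl := z i
    · change A 0 ∩ A 1 = O
      rw [a0, a1]
      exact Set.Subset.antisymm (fun y p => k y p.1.1 p.1.2 p.2.2) (Set.subset_inter oa ob)
    · change A 1 ∩ A 2 = O
      rw [a1, a2, Set.inter_eq_right.2 ob]
    · change A 2 ∩ A 0 = O
      rw [a0, a2, Set.inter_eq_left.2 oa]
  have hB {y} (p : ∀ i, y ∉ A i) (r : y ∈ T) : False :=
    ne ((not_not.1 fun e => p 0 (a0 ▸ ⟨r, e⟩) : y = a).symm.trans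
      (not_not.1 fun e => p 1 (a1 ▸ ⟨r, e⟩) : y = b))
  obtain ⟨𝒯, t1, -, -, t3⟩ := ex_tri (H := fun _ => PresentedGroup (Rs c R T))
    (fun i => c ⁻¹' A i) (fun _ => pj c R T) (pj c R T) (fun i => Sp c (A i)) (fun _ => Sp c O)
    (fun _ => rfl) (fun i => by rw [← Set.preimage_inter, hA, Sp]) (fun _ _ _ => Iff.rfl)
    (fun _ x p _ _ _ => ⟨x, fun _ => p, rfl⟩) (fun _ r p _ _ _ _ _ _ _ => .inl ⟨r, p, rfl⟩)
    (fun _ _ _ => id) (PresentedGroup.mk_surjective _) (fun s p => pdk_out (hB p))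
    (fun N _ p r => pdk_ker (fun w w1 w2 => by
      obtain ⟨s, u, v, w3⟩ := h.h₀ w w1
      obtain ⟨y, y1, y2⟩ := Set.not_subset.1 fun f : T ⊆ O ∪ {s, u} => v.elim
        (fun g => by
          subst g
          exact ne (((f ha.1).resolve_left ha.2).elim id id |>.trans
            (((f hb.1).resolve_left hb.2).elim id id : b = s).symm))
        fun g => h3 ⟨s, u, g, f⟩
      have y3 : w ∈ Sp c (T \ {y}) :=
        pd_mono (U := T \ {y}) (fun x f => And.intro f.2 fun g => y2 (g ▸ f.1)) (pd_inf w3 w2)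
      by_cases f : y = a
      · exact p 0 w (a0 ▸ f ▸ y3) (pdk_rel w1 w2)
      · have g : y = b := not_not.1 fun g => y2 (.inl (k y y1 f g))
        exact p 1 w (a1 ▸ g ▸ y3) (pdk_rel w1 w2)) fun s f => r s fun i g => f (by
          obtain rfl | rfl | rfl := z i
          exacts [(a0 ▸ g : c s ∈ T \ {a}).1, (a1 ▸ g : c s ∈ T \ {b}).1, hO (a2 ▸ g)]))
  refine ⟨_, _, 𝒯, fun i => ?_⟩
  rw [Tri.Q, t1, t3]
  obtain rfl | rfl | rfl := z i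
  · exact ⟨a, ha, Subgroup.map_mono (sp_mono a0.le)⟩
  · exact ⟨b, hb, Subgroup.map_mono (sp_mono a1.le)⟩
  · exact ⟨a, ha, Subgroup.map_mono (sp_mono (a2.le.trans oa))⟩

end Pool.Agent.Lib.MP_5d3e93_al.At
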