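import Pool.Agent.Lib.MP_5d3e93_al.At.Qa
import Pool.Agent.Lib.MP_5d3e93_al.At.Dg

/-! The coloured presentation of a system of large type. -/

namespace Pool.Agent.Lib.MP_5d3e93_al.At

universe v

variable {G V : Type v} [Group G] (P : V → Subgroup G) (E : V → V → Prop)

/-- The subgroups, with their intersection added. -/
def qP : Option V → Subgroup G
  | none => ⨅ a, P a
  | some a => P a

/-- The generators. -/
abbrev qS : Type v := Σ o : Option V, qP P o

/-- The evaluation. -/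
def qv : FreeGroup (qS P) →* G := FreeGroup.lift fun s => s.2.1

/-- The edges. -/
def qE (o o' : Option V) : Prop := ∃ a b, E a b ∧ o = some a ∧ o' = some b

/-- The relators. -/
def qR : Set (FreeGroup (qS P)) :=
  {r | qv P r = 1 ∧ ∃ o o', (o = o' ∨ qE E o o') ∧ r ∈ Sp Sigma.fst ({none} ∪ {o, o'})}

/-- The colours of a set. -/
def qT (T : Set V) : Set (Option V) := insert none (some '' T)

variable {P E}

theorem qv_of (s : qS P) : qv P (.of s) = s.2.1 := FreeGroup.lift_apply_of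

theorem q_of {s : qS P} {W : Set (Option V)} (h : s.1 ∈ W) :
    FreeGroup.of s ∈ Sp Sigma.fst W := Subgroup.subset_closure ⟨s, h, rfl⟩

theorem q_map (W : Set (Option V)) : (Sp Sigma.fst W).map (qv P) = ⨆ o ∈ W, qP P o := by
  apply le_antisymm
  · rw [Sp, MonoidHom.map_closure, Subgroup.closure_le]
    rintro _ ⟨_, ⟨s, a, rfl⟩, rfl⟩
    rw [qv_of]
    exact le_iSup₂ (f := fun o (_ : o ∈ W) => qP P o) s.1 a s.2.2
  · exact iSup₂_le fun o a x b => ⟨.of ⟨o, x, b⟩, q_of a, qv_of _⟩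

theorem q_none (o : Option V) : qP P none ≤ qP P o := by
  cases o with
  | none => exact le_rfl
  | some a => exact iInf_le P a

theorem q_mapT {T : Set V} (h : T.Nonempty) :
    (Sp Sigma.fst (qT T)).map (qv P) = ⨆ b ∈ T, P b := by
  obtain ⟨a, ha⟩ := h
  rw [q_map, qT, iSup_insert, iSup_image]
  exact sup_eq_right.2 ((q_none (some a)).trans
    (le_iSup₂ (f := fun b (_ : b ∈ T) => qP P (some b)) a ha))

theorem q_one {o : Option V} {x} (h : x ∈ Sp Sigma.fst ({none} ∪ {o})) : qv P x ∈ qP P o := by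
  have : qv P x ∈ (Sp Sigma.fst ({none} ∪ {o})).map (qv P) := ⟨x, h, rfl⟩
  rw [q_map] at this
  refine iSup₂_le (f := fun o' (_ : o' ∈ ({none} ∪ {o} : Set (Option V))) => qP P o') ?_ this
  rintro _ (rfl | rfl)
  · exact q_none _
  · exact le_rfl

theorem q_rel {o : Option V} {x} (h : x ∈ Sp Sigma.fst ({none} ∪ {o})) (e : qv P x = 1) :
    x ∈ qR P E := ⟨e, o, o, .inl rfl, by rwa [Set.pair_eq_singleton]⟩

theorem q_kill {W : Set (Option V)} {k} (a : k ∈ Sp Sigma.fst W)
    (b : pj Sigma.fst (qR P E) W k = 1) : qv P k = 1 := pj_kill (fun _ h _ => h.1) a b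

theorem q_base {o : Option V} {W : Set (Option V)} (w : {none} ∪ {o} ⊆ W) {x}
    (h : x ∈ Sp Sigma.fst ({none} ∪ {o})) (e : qv P x ∈ qP P none) :
    pj Sigma.fst (qR P E) W x ∈ (Sp Sigma.fst {none}).map (pj Sigma.fst (qR P E) W) := by
  have m : (FreeGroup.of (⟨none, _, e⟩ : qS P))⁻¹ * x ∈ Sp Sigma.fst ({none} ∪ {o}) :=
    mul_mem (inv_mem (q_of (.inl rfl))) h
  refine ⟨.of ⟨none, _, e⟩, q_of rfl, ?_⟩
  rw [← inv_mul_eq_one, ← map_inv, ← map_mul]
  exact PresentedGroup.one_of_mem (.inl ⟨q_rel m (by simp [qv_of]), sp_mono w m⟩)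

theorem Large.pq (h : Large P E) : Pq Sigma.fst (qR P E) {none} (qE E) where
  h₀ _ a := a.2
  h₁ a b x m e := PresentedGroup.one_of_mem (.inl ⟨q_rel m (q_kill
    (sp_mono (Set.union_subset_union_right _ (by simp)) m) e), m⟩)
  h₂ a b ha hb n x mx y my x' mx' y' my' e := by
    have wa : ({none} ∪ {a} : Set (Option V)) ⊆ {none} ∪ {a, b} :=
      Set.union_subset_union_right _ (by simp)
    have wb : ({none} ∪ {b} : Set (Option V)) ⊆ {none} ∪ {a, b} :=
      Set.union_subset_union_right _ (by simp)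
    have e' := q_kill (mul_mem (mul_mem (mul_mem (sp_mono wa mx) (sp_mono wb my))
      (sp_mono wa mx')) (sp_mono wb my')) e
    rw [map_mul, map_mul, map_mul] at e'
    obtain ⟨a, rfl⟩ := Option.ne_none_iff_exists'.1 ha
    obtain ⟨b, rfl⟩ := Option.ne_none_iff_exists'.1 hb
    have n' : a ≠ b := fun z => n (congrArg some z)
    rcases h.2.2.2.1 a b n' _ (q_one mx) _ (q_one my) _ (q_one mx') _ (q_one my') e' with z | z
    · exact .inl (q_base wa mx (Subgroup.mem_iInf.2 fun d => h.2.2.1 a b d n' ⟨q_one mx, z⟩))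
    · exact .inr (q_base wb my (Subgroup.mem_iInf.2 fun d => h.2.2.1 a b d n' ⟨z, q_one my⟩))

theorem q_same {o : Option V} {x : G} (a : x ∈ qP P o) (b : x ∈ qP P none) :
    PresentedGroup.mk (qR P E) (.of ⟨o, x, a⟩) = PresentedGroup.mk (qR P E) (.of ⟨none, x, b⟩) := by
  rw [← inv_mul_eq_one, ← map_inv, ← map_mul]
  exact PresentedGroup.one_of_mem (q_rel (o := o)
    (mul_mem (inv_mem (q_of (.inr rfl))) (q_of (.inl rfl))) (by simp [qv_of]))

theorem Large.ker (h : Large P E) (a₀ : V) {k} (e : qv P k = 1) :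
    PresentedGroup.mk (qR P E) k = 1 := by
  classical
  let f : G → PresentedGroup (qR P E) := fun x =>
    if m : ∃ a, x ∈ P a then PresentedGroup.mk _ (.of ⟨some m.choose, x, m.choose_spec⟩) else 1
  have hf : ∀ a x (m : x ∈ P a), f x = PresentedGroup.mk _ (.of ⟨some a, x, m⟩) := fun a x m => by
    have m' : ∃ a, x ∈ P a := ⟨a, m⟩
    have key : ∀ b (mb : x ∈ P b), PresentedGroup.mk (qR P E) (.of ⟨some b, x, mb⟩) =
        PresentedGroup.mk _ (.of ⟨some a, x, m⟩) := fun b mb => by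
      by_cases z : b = a
      · subst z; rfl
      · have : x ∈ qP P none := Subgroup.mem_iInf.2 fun d => h.2.2.1 b a d z ⟨mb, m⟩
        exact (q_same _ this).trans (q_same _ this).symm
    exact (dif_pos m').trans (key _ _)
  obtain ⟨φ, hφ⟩ := h.2.2.2.2 _ f fun a b hab => by
    have z : (Sp Sigma.fst (qT {a, b})).map (qv P) = P a ⊔ P b := by
      rw [q_mapT ⟨a, .inl rfl⟩, iSup_pair]
    have z' : qT {a, b} = {none} ∪ {some a, some b} := by
      rw [qT, Set.image_pair]; rfl
    rw [← z]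
    let K : Subgroup (FreeGroup (qS P)) := Sp Sigma.fst (qT {a, b})
    let ψ := ((qv P).subgroupMap K).liftOfSurjective ((qv P).subgroupMap_surjective K)
      ⟨(PresentedGroup.mk (qR P E)).comp K.subtype, fun y hy => PresentedGroup.one_of_mem
        ⟨congrArg Subtype.val hy, some a, some b, .inr ⟨a, b, hab, rfl, rfl⟩, z' ▸ y.2⟩⟩
    have key : ∀ d ∈ ({a, b} : Set V), ∀ x : K.map (qv P), x.1 ∈ P d → ψ x = f x :=
      fun d hd x m => by
        have : x = (qv P).subgroupMap K ⟨.of ⟨some d, x.1, m⟩, q_of (.inr ⟨d, hd, rfl⟩)⟩ :=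
          Subtype.ext (qv_of ⟨some d, x.1, m⟩).symm
        rw [hf d _ m]
        exact (congrArg ψ this).trans (MonoidHom.liftOfRightInverse_comp_apply ..)
    exact ⟨ψ, fun x m => m.elim (key a (.inl rfl) x) (key b (.inr rfl) x)⟩
  have : φ.comp (qv P) = PresentedGroup.mk _ := by
    ext ⟨o, x, m⟩
    rw [MonoidHom.comp_apply, qv_of]
    cases o with
    | none =>
      have m' : x ∈ P a₀ := q_none (some a₀) m
      exact (hφ a₀ x m').trans ((hf a₀ x m').trans (q_same _ m))
    | some a => exact (hφ a x m).trans (hf a x m)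
  rw [← this, MonoidHom.comp_apply, e, map_one]

theorem qT_fin {T : Set V} (h : T.Finite) : (qT T).Finite := (h.image _).insert _

theorem qT_none (T : Set V) : {none} ⊆ qT T := Set.singleton_subset_iff.2 (.inl rfl)

theorem qT_mem {T : Set V} {a : V} : some a ∈ qT T ↔ a ∈ T := by simp [qT]

theorem qT_sd (T : Set V) (a : V) : qT T \ {some a} = qT (T \ {a}) := by
  ext o
  cases o <;> simp [qT]

theorem qT_nt {T : Set V} (h : T.Nontrivial) : (qT T \ {none}).Nontrivial := by
  obtain ⟨a, ha, b, hb, n⟩ := h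
  exact ⟨some a, ⟨qT_mem.2 ha, by simp⟩, some b, ⟨qT_mem.2 hb, by simp⟩, by simpa using n⟩

theorem qT_card {T : Set V} (h : T.Finite) : (qT T).ncard = T.ncard + 1 := by
  rw [qT, Set.ncard_insert_of_notMem (by simp) (h.image _),
    Set.ncard_image_of_injective _ (Option.some_injective _)]

theorem qT_pre {W : Set (Option V)} (h : {none} ⊆ W) : qT (some ⁻¹' W) = W := by
  ext o
  cases o with
  | none => exact iff_of_true (.inl rfl) (h rfl)
  | some a => exact qT_mem

theorem Large.ok (h : Large P E) (a₀ : V) {T : Set V} (hT : T.Finite) :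
    Ok Sigma.fst (qR P E) (qv P) (qT T) := fun k m =>
  ⟨fun e => (h.pq.ok (qT_fin hT) (qT_none T) k m).1 (h.ker a₀ e), q_kill m⟩

end Pool.Agent.Lib.MP_5d3e93_al.At
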