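import Pool.Agent.Lib.MP_5d3e93_al.At.Qb
import Pool.Agent.Lib.MP_5d3e93_al.At.QcA

/-! Parabolic subgroups of systems of large type. -/

namespace Pool.Agent.Lib.MP_5d3e93_al.At

universe v

variable {G V : Type v} [Group G] {P : V → Subgroup G} {E : V → V → Prop}

theorem q_sd {T : Set V} (h : T.Nontrivial) (a : V) :
    (Sp Sigma.fst (qT T \ {some a})).map (qv P) = ⨆ b ∈ T \ {a}, P b := by
  obtain ⟨b, hb, n⟩ := h.exists_ne a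
  rw [qT_sd, q_mapT (T := T \ {a}) ⟨b, hb, n⟩]

theorem Large.inf (h : Large P E) {T U : Set V} (hT : T.Finite) (e : U ⊆ T) (hU : U.Nontrivial)
    {a : V} (ha : a ∈ T) {t : G} (ht : t ∈ ⨆ b ∈ T, P b) :
    (a ∉ U ∧ t ∈ ⨆ b ∈ T \ {a}, P b) ∨
      ∃ g ∈ ⨆ b ∈ T, P b, ∃ U' ⊆ T, U'.Nonempty ∧ U'.ncard < U.ncard ∧ ∀ x ∈ ⨆ b ∈ U, P b,
        t⁻¹ * x * t ∈ ⨆ b ∈ T \ {a}, P b → g⁻¹ * x * g ∈ ⨆ b ∈ U', P b := by
  have eT := q_mapT (P := P) ⟨a, ha⟩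
  have eU := q_mapT (P := P) hU.nonempty
  have eA := q_sd (P := P) (hU.mono e) a
  have fU := hT.subset e
  rcases h.pq.inf (qT_fin hT) (h.ok a hT) (qT_none U)
    (Set.insert_subset_insert (Set.image_mono e)) (qT_nt hU) (a := some a)
    ⟨qT_mem.2 ha, by simp⟩ (eT ▸ ht) with ⟨n, m⟩ | ⟨g, hg, W, w₀, w₁, w₂, m⟩
  · exact .inl ⟨fun z => n (qT_mem.2 z), eA ▸ m⟩
  · rw [eU, eA, ← qT_pre w₀] at m
    have s : some ⁻¹' W ⊆ T := fun b z => qT_mem.1 (w₁ z)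
    refine .inr ⟨g, eT ▸ hg, ?_⟩
    rcases (some ⁻¹' W).eq_empty_or_nonempty with z | z
    · obtain ⟨b, hb⟩ := hU.nonempty
      refine ⟨{b}, Set.singleton_subset_iff.2 (e hb), ⟨b, rfl⟩, ?_, fun x p q => ?_⟩
      · rw [Set.ncard_singleton]
        exact (Set.one_lt_ncard fU).2 hU
      · rw [← q_mapT (Set.singleton_nonempty b)]
        refine Subgroup.map_mono (sp_mono ?_) (m x p q)
        rw [z]
        exact Set.insert_subset_insert (Set.image_mono (Set.empty_subset _))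
    · rw [q_mapT z] at m
      rw [← qT_pre w₀, qT_card (hT.subset s), qT_card fU] at w₂
      exact ⟨_, s, z, by omega, m⟩

theorem Large.bl (h : Large P E) {T : Set V} (hT : T.Finite) (h2 : T.Nontrivial)
    (h3 : ¬ ∃ a b, E a b ∧ T ⊆ {a, b}) : BlA ↥(⨆ b ∈ T, P b)
      {s | ∃ a ∈ T, ∃ g ∈ ⨆ b ∈ T, P b, s = {k | g⁻¹ * k.1 * g ∈ ⨆ b ∈ T \ {a}, P b}} := by
  obtain ⟨j, i, hj, r⟩ := (h.ok h2.nonempty.choose hT).emb
  rw [q_mapT h2.nonempty] at r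
  have B := h.pq.bl (qT_fin hT) (qT_none T) (qT_nt h2) (by
    rintro ⟨_, _, ⟨a, b, e, rfl, rfl⟩, s⟩
    exact h3 ⟨a, b, e, fun d z => by simpa using s (qT_mem.2 z)⟩)
  let ψ := (MonoidHom.ofInjective i).trans (MulEquiv.subgroupCongr r)
  have hψ : ∀ k, j (ψ.symm k) = k.1 := fun k => congrArg Subtype.val (ψ.apply_symm_apply k)
  refine (B.comap ψ.symm.toMonoidHom).mono ?_
  rintro _ ⟨_, ⟨o, ⟨p, n⟩, g, rfl⟩, rfl⟩
  obtain ⟨a, rfl⟩ := Option.ne_none_iff_exists'.1 n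
  refine ⟨_, ⟨a, qT_mem.1 p, j g, r ▸ ⟨g, rfl⟩, rfl⟩, ?_⟩
  rintro k ⟨w, m, z⟩
  have := congrArg j z
  rw [hj w (sp_mono Set.sdiff_subset m), map_mul, map_mul, map_inv] at this
  change _ = _ * j (ψ.symm k) * _ at this
  rw [hψ] at this
  change _ ∈ ⨆ b ∈ T \ {a}, P b
  rw [← this, ← q_sd h2]
  exact ⟨w, m, rfl⟩

end Pool.Agent.Lib.MP_5d3e93_al.At
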