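import Pool.Agent.Lib.MP_5d3e93_al.At.Ob

/-! One step of the free completion: common lower covers are added. -/

open scoped Pointwise

namespace Pool.Agent.Lib.MP_5d3e93_al.At

universe w

variable {Γ : Type w} [Group Γ] {p : Γ} {𝒮 : Set (Set Γ)} (O : Ob Γ p 𝒮)

/-- Two lower covers without a common lower cover. -/
def Bad (v a b : O.X) : Prop := a ≤ v ∧ b ≤ v ∧ O.r v = O.r a + 1 ∧ O.r v = O.r b + 1 ∧
  ∀ e, e ≤ a → e ≤ b → O.r e < O.r v - 2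

/-- Old points and new points. -/
def Gd (x : O.X × Set O.X) : Prop :=
  x.2 = {x.1} ∨ ∃ v a b, Bad O v a b ∧ x.1 = p • v ∧ x.2 = {a, b}

/-- The points of the extension. -/
@[ext] structure Nw where
  x : O.X × Set O.X
  h : Gd O x

open Classical in
/-- The rank. -/
noncomputable def nr (x : O.X × Set O.X) : ℤ := O.r x.1 + if x.1 ∈ x.2 then 0 else 1

variable {O}

theorem Bad.smul {v a b : O.X} (h : Bad O v a b) (g : Γ) : Bad O (g • v) (g • a) (g • b) := by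
  obtain ⟨h1, h2, h3, h4, h5⟩ := h
  have := O.rk g v a
  have := O.rk g v b
  refine ⟨O.hm g h1, O.hm g h2, by omega, by omega, fun e c d => ?_⟩
  have k := h5 (g⁻¹ • e) (by simpa using O.hm g⁻¹ c) (by simpa using O.hm g⁻¹ d)
  have := O.rk g (g⁻¹ • e) v
  rw [smul_inv_smul] at this
  omega

theorem Bad.symm {v a b : O.X} (h : Bad O v a b) : Bad O v b a :=
  ⟨h.2.1, h.1, h.2.2.2.1, h.2.2.1, fun e c d => h.2.2.2.2 e d c⟩

theorem Gd.smul (hp : ∀ g, g * p = p * g) {x} (h : Gd O x) (g : Γ) : Gd O (g • x) := by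
  obtain h | ⟨v, a, b, c, d, e⟩ := h
  · exact .inl (by simp [h])
  · exact .inr ⟨_, _, _, c.smul g, by rw [Prod.smul_fst, d, smul_smul, smul_smul, hp],
      by simp [e, Set.smul_set_insert]⟩

open Classical in
theorem nr_smul (g : Γ) (x : O.X × Set O.X) :
    nr O (g • x) - O.r (g • x.1) = nr O x - O.r x.1 := by
  simp only [nr, Prod.smul_fst, Prod.smul_snd, add_sub_cancel_left]
  exact if_congr Set.smul_mem_smul_set_iff rfl rfl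

theorem Gd.cases {x} (h : Gd O x) : (x.2 = {x.1} ∧ nr O x = O.r x.1) ∨
    (x.2.Nonempty ∧ nr O x = O.r x.1 + 1 ∧
      ∀ u ∈ x.2, x.1 ≤ u ∧ p • u ≤ x.1 ∧ O.r u = O.r x.1 + 2) := by
  obtain h | ⟨v, a, b, ⟨h1, h2, h3, h4, -⟩, d, e⟩ := h
  · exact .inl ⟨h, by simp [nr, h]⟩
  · have := O.rp v
    have k : ∀ u ∈ x.2, x.1 ≤ u ∧ p • u ≤ x.1 ∧ O.r u = O.r x.1 + 2 := by
      rw [d, e]
      rintro u (rfl | rfl)
      · exact ⟨O.cv h1 h3, O.hm p h1, by omega⟩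
      · exact ⟨O.cv h2 h4, O.hm p h2, by omega⟩
    refine .inr ⟨e ▸ ⟨a, .inl rfl⟩, ?_, k⟩
    rw [nr, if_neg fun c => by have := (k _ c).2.2; omega]

theorem Gd.le {x} (h : Gd O x) : x.2.Nonempty ∧ O.r x.1 ≤ nr O x ∧ nr O x ≤ O.r x.1 + 1 ∧
    ∀ u ∈ x.2, x.1 ≤ u ∧ p • u ≤ x.1 ∧ nr O x ≤ O.r u ∧ O.r u ≤ nr O x + 1 := by
  obtain ⟨a, b⟩ | ⟨a, b, c⟩ := h.cases
  · refine ⟨a ▸ ⟨_, rfl⟩, by omega, by omega, ?_⟩
    rw [a]
    rintro u rfl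
    exact ⟨le_rfl, O.pl _, by omega, by omega⟩
  · exact ⟨a, by omega, by omega, fun u d => ⟨(c u d).1, (c u d).2.1, by have := (c u d).2.2; omega,
      by have := (c u d).2.2; omega⟩⟩

theorem cov_le {a v c z : O.X} (h : a ≤ v) (e : O.r v = O.r a + 1) (k : a ≤ c) (l : z ≤ c)
    (m : z ≤ v) (n : ¬ v ≤ c) : z ≤ a := by
  obtain ⟨t, t1, t2, t3, t4⟩ := O.rz l m k h
  refine t1.trans (O.eq t2 (by_contra fun s => n ((O.eq t4 (by omega)).trans t3)))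

theorem Bad.meet {v a b c d t : O.X} (h : Bad O v a b) (ac : a ≤ c) (bd : b ≤ d) (ad : ¬ a ≤ d)
    (bc : ¬ b ≤ c) (tc : t ≤ c) (td : t ≤ d) : t ≤ p • v := by
  obtain ⟨h1, h2, h3, h4, h5⟩ := h
  obtain ⟨m, m1, m2, m3, m4⟩ := O.rz ((O.cv h1 h3).trans ac) ((O.cv h2 h4).trans bd) tc td
  refine m2.trans (O.eq m1 (by_contra fun s => ?_))
  obtain ⟨z, z1, z2, z3⟩ := O.gr (O.r (p • v) + 1) m1 (by omega) (by omega)
  have zv := (O.hi p).1 (O.cv z1 z3)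
  have := h5 z (cov_le h1 h3 ac (z2.trans m3) zv fun k => bc (h2.trans k))
    (cov_le h2 h4 bd (z2.trans m4) zv fun k => ad (h1.trans k))
  have := O.rp v
  omega

theorem Gd.split {x} (h : Gd O x) {c d : O.X} (hc : ∃ u ∈ x.2, u ≤ c) (hd : ∃ u ∈ x.2, u ≤ d)
    (n : ¬ ∃ u ∈ x.2, u ≤ c ∧ u ≤ d) : ∃ v a b, Bad O v a b ∧ x.1 = p • v ∧ x.2 = {a, b} ∧
      a ≤ c ∧ b ≤ d ∧ ¬ a ≤ d ∧ ¬ b ≤ c := by
  obtain ⟨s, s1, s2⟩ := hc
  obtain ⟨t, t1, t2⟩ := hd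
  have k1 : ¬ s ≤ d := fun k => n ⟨s, s1, s2, k⟩
  have k2 : ¬ t ≤ c := fun k => n ⟨t, t1, k, t2⟩
  obtain h | ⟨v, a, b, e, f, g⟩ := h
  · rw [h] at s1 t1
    exact (k1 (s1.trans t1.symm ▸ t2)).elim
  rw [g] at s1 t1
  obtain rfl | rfl := s1 <;> obtain rfl | rfl := t1
  · exact (k1 t2).elim
  · exact ⟨v, _, _, e, f, g, s2, t2, k1, k2⟩
  · exact ⟨v, _, _, e.symm, f, g.trans (Set.pair_comm ..), s2, t2, k1, k2⟩
  · exact (k1 t2).elim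

theorem Gd.key (hA : ∀ x y : O.X, x ≤ y → y ≤ x → x = y) {x y} (h : Gd O x) (k : Gd O y)
    {c d : O.X} (hc : ∃ u ∈ x.2, u ≤ c) (hd : ∃ u ∈ x.2, u ≤ d) (kc : ∃ u ∈ y.2, u ≤ c)
    (kd : ∃ u ∈ y.2, u ≤ d) (n : ¬ ∃ u ∈ x.2, u ≤ c ∧ u ≤ d) : y = x ∨ ∃ u ∈ y.2, u ≤ x.1 := by
  obtain ⟨v, a, b, e, f, g, a1, b1, a2, b2⟩ := h.split hc hd n
  by_cases m : ∃ u ∈ y.2, u ≤ c ∧ u ≤ d
  · exact .inr (m.imp fun u s => ⟨s.1, f ▸ e.meet a1 b1 a2 b2 s.2.1 s.2.2⟩)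
  obtain ⟨v', a', b', e', f', g', a1', b1', a2', b2'⟩ := k.split kc kd m
  obtain rfl : v = v' := hA _ _
    ((O.hi p).1 (e'.meet a1' b1' a2' b2' ((O.cv e.1 e.2.2.1).trans a1)
      ((O.cv e.2.1 e.2.2.2.1).trans b1)))
    ((O.hi p).1 (e.meet a1 b1 a2 b2 ((O.cv e'.1 e'.2.2.1).trans a1')
      ((O.cv e'.2.1 e'.2.2.2.1).trans b1')))
  have nc : ¬ v ≤ c := fun s => b2 (e.2.1.trans s)
  have nd : ¬ v ≤ d := fun s => a2 (e.1.trans s)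
  obtain rfl := hA _ _ (cov_le e.1 e.2.2.1 a1 a1' e'.1 nc) (cov_le e'.1 e'.2.2.1 a1' a1 e.1 nc)
  obtain rfl := hA _ _ (cov_le e.2.1 e.2.2.2.1 b1 b1' e'.2.1 nd)
    (cov_le e'.2.1 e'.2.2.2.1 b1' b1 e.2.1 nd)
  exact .inl (Prod.ext (f'.trans f.symm) (g'.trans g.symm))

variable (O)

theorem step_anti (hp : ∀ g, g * p = p * g) (hA : ∀ x y : O.X, x ≤ y → y ≤ x → x = y) :
    ∃ (O' : Ob Γ p 𝒮) (f : O.X → O'.X), Mor f ∧ Dn f := by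
  let Y := Nw O
  let A : MulAction Γ Y :=
    { smul := fun g x => ⟨g • x.1, x.2.smul hp g⟩
      one_smul := fun x => Nw.ext (one_smul Γ x.1)
      mul_smul := fun a b x => Nw.ext (mul_smul a b x.1) }
  have mo {x y : Y} (h : x = y ∨ ∃ u ∈ x.1.2, u ≤ y.1.1) : x.1.1 ≤ y.1.1 := by
    obtain rfl | ⟨u, a, b⟩ := h
    exacts [le_rfl, (x.2.le.2.2.2 u a).1.trans b]
  let P : Preorder Y :=
    { le := fun x y => x = y ∨ ∃ u ∈ x.1.2, u ≤ y.1.1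
      le_refl := fun _ => .inl rfl
      le_trans := fun x y z a b => by
        obtain rfl | ⟨u, c, d⟩ := a
        exacts [b, .inr ⟨u, c, d.trans (mo b)⟩] }
  let f : O.X → Y := fun x => ⟨(x, {x}), .inl rfl⟩
  have fr (x) : nr O (f x).1 = O.r x := by simp [nr, f]
  have fl {x} {y : Y} (h : x ≤ y.1.1) : f x ≤ y := .inr ⟨x, rfl, h⟩
  have hm (g : Γ) {x y : Y} (h : x ≤ y) : g • x ≤ g • y := by
    obtain rfl | ⟨u, a, b⟩ := h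
    exacts [.inl rfl, .inr ⟨g • u, Set.smul_mem_smul_set a, O.hm g b⟩]
  refine ⟨{ X := Y, ne := ⟨f O.ne.some⟩, r := fun x => nr O x.1, hm := hm, rk := ?_, rp := ?_
            sm := ?_, eq := ?_, gr := ?_, cv := ?_, pl := ?_, ar := ?_, rz := ?_, st := ?_ }, f,
    ⟨⟨mo, fun h => fl (y := f _) h⟩, fun g x => Nw.ext (Prod.ext rfl Set.smul_set_singleton.symm), fr⟩, ?_⟩
  · intro g x y
    have := nr_smul g x.1
    have := nr_smul g y.1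
    have := O.rk g x.1.1 y.1.1
    change nr O (g • x.1) - nr O (g • y.1) = _
    omega
  · intro x
    have := nr_smul p x.1
    have := O.rp x.1.1
    change nr O (p • x.1) = _
    omega
  · rintro x y (rfl | ⟨u, a, b⟩)
    · exact le_rfl
    · exact (x.2.le.2.2.2 u a).2.2.1.trans ((O.sm b).trans y.2.le.2.1)
  · rintro x y (rfl | ⟨u, a, b⟩) c
    · exact le_rfl
    have := O.sm b
    have := (x.2.le.2.2.2 u a).2.2.1
    have := y.2.le.2.1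
    obtain ⟨d, e⟩ | ⟨-, e, -⟩ := y.2.cases
    · obtain ⟨-, l⟩ | ⟨-, l, m⟩ := x.2.cases
      · exact .inr ⟨y.1.1, d ▸ rfl, O.eq (mo (.inr ⟨u, a, b⟩)) (by omega)⟩
      · have := (m u a).2.2
        omega
    · omega
  · rintro x y n h a b
    obtain rfl | c := a.eq_or_lt
    · exact ⟨x, le_rfl, h, rfl⟩
    obtain rfl | d := b.eq_or_lt
    · exact ⟨y, h, le_rfl, rfl⟩
    obtain rfl | ⟨u, e, k⟩ := h
    · omega
    have := (x.2.le.2.2.2 u e).2.2.2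
    have := y.2.le.2.2.1
    obtain ⟨z, z1, z2, z3⟩ := O.gr n k (by omega) (by omega)
    exact ⟨f z, .inr ⟨u, e, z1⟩, fl z2, (fr z).trans z3⟩
  · rintro x y (rfl | ⟨u, a, b⟩) c
    · omega
    have := O.sm b
    obtain ⟨t, e⟩ := y.2.le.1
    refine .inr ⟨p • t, Set.smul_mem_smul_set e, ?_⟩
    obtain ⟨d, l⟩ | ⟨-, l, m⟩ := y.2.cases
    · obtain rfl : t = y.1.1 := by rwa [d] at e
      obtain ⟨d', l'⟩ | ⟨-, l', m'⟩ := x.2.cases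
      · exact O.cv (mo (.inr ⟨u, a, b⟩)) (by omega)
      · have := (m' u a).2.2
        exact (O.hm p (O.eq b (by omega))).trans (m' u a).2.1
    · have := x.2.le.2.1
      have := (x.2.le.2.2.2 u a).2.2.1
      obtain ⟨d', l'⟩ | ⟨-, l', m'⟩ := x.2.cases
      · exact (m t e).2.1.trans (O.eq (mo (.inr ⟨u, a, b⟩)) (by omega))
      · have := (m' u a).2.2
        omega
  · intro x
    obtain ⟨t, e⟩ := x.2.le.1
    exact .inr ⟨p • t, Set.smul_mem_smul_set e, (x.2.le.2.2.2 t e).2.1⟩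
  · intro x y
    obtain ⟨t, e⟩ := x.2.le.1
    exact (O.ar t y.1.1).imp fun k a => .inr ⟨_, Set.smul_mem_smul_set e, a⟩
  · intro a b c d ac ad bc bd
    obtain rfl | ac' := id ac
    · exact ⟨a, le_rfl, bc, le_rfl, ad⟩
    obtain rfl | ad' := id ad
    · exact ⟨a, le_rfl, bd, ac, le_rfl⟩
    obtain rfl | bc' := id bc
    · exact ⟨b, ac, le_rfl, le_rfl, bd⟩
    obtain rfl | bd' := id bd
    · exact ⟨b, ad, le_rfl, bc, le_rfl⟩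
    by_cases m : ∃ u ∈ a.1.2, u ≤ c.1.1 ∧ u ≤ d.1.1
    · by_cases n : ∃ u ∈ b.1.2, u ≤ c.1.1 ∧ u ≤ d.1.1
      · obtain ⟨s, s1, s2, s3⟩ := m
        obtain ⟨t, t1, t2, t3⟩ := n
        obtain ⟨z, z1, z2, z3, z4⟩ := O.rz s2 s3 t2 t3
        exact ⟨f z, .inr ⟨s, s1, z1⟩, .inr ⟨t, t1, z2⟩, fl z3, fl z4⟩
      · exact ⟨b, (b.2.key hA a.2 bc' bd' ac' ad' n).imp_left Nw.ext, le_rfl, bc, bd⟩
    · exact ⟨a, le_rfl, (a.2.key hA b.2 ac' ad' bc' bd' m).imp_left Nw.ext, ac, ad⟩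
  · exact fun x => (O.st x.1.1).imp fun _ a => ⟨a.1, fun g b c => a.2 g (mo b) (mo c)⟩
  · intro v a b h1 h2 h3 h4
    by_cases h5 : ∀ e, e ≤ a → e ≤ b → O.r e < O.r v - 2
    · let e : Y := ⟨(p • v, {a, b}), .inr ⟨v, a, b, ⟨h1, h2, h3, h4, h5⟩, rfl, rfl⟩⟩
      refine ⟨e, .inr ⟨a, .inl rfl, le_rfl⟩, .inr ⟨b, .inr rfl, le_rfl⟩, ?_⟩
      have := (e.2.le.2.2.2 a (.inl rfl)).2.2.2
      change _ ≤ nr O e.1
      omega
    · push Not at h5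
      obtain ⟨e, c, d, k⟩ := h5
      exact ⟨f e, fl c, fl d, k.trans (fr e).ge⟩

theorem step (hp : ∀ g, g * p = p * g) :
    ∃ (O' : Ob Γ p 𝒮) (f : O.X → O'.X), Mor f ∧ Dn f := by
  obtain ⟨O₁, f, a, -, b⟩ := O.anti
  obtain ⟨O₂, g, c, d⟩ := step_anti O₁ hp b
  refine ⟨O₂, g ∘ f, a.comp c, fun v x y h1 h2 h3 h4 => ?_⟩
  rw [← a.rk v]
  exact d _ _ _ (a.le.2 h1) (a.le.2 h2) (by rwa [a.rk, a.rk]) (by rwa [a.rk, a.rk])

theorem step2 (hp : ∀ g, g * p = p * g) :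
    ∃ (O' : Ob Γ p 𝒮) (f : O.X → O'.X), Mor f ∧ Dn f ∧ Up f := by
  obtain ⟨O₁, f, a, b⟩ := step O hp
  obtain ⟨O₂, g, c, d⟩ := step (O₁.dual (inv_mul_cancel p)) fun g => (Commute.inv_right (hp g)).eq
  have e : Mor (O := O₁) (O' := O₂.dual (mul_inv_cancel p)) g :=
    ⟨c.le, c.sm, fun x => neg_eq_iff_eq_neg.2 (c.rk x)⟩
  refine ⟨O₂.dual (mul_inv_cancel p), g ∘ f, a.comp e, fun v x y h1 h2 h3 h4 => ?_, fun v x y h1 h2 h3 h4 => ?_⟩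
  · obtain ⟨z, z1, z2, z3⟩ := b v x y h1 h2 h3 h4
    exact ⟨g z, e.le.2 z1, e.le.2 z2, z3.trans (e.rk z).ge⟩
  · obtain ⟨z, z1, z2, z3⟩ := d (f v) (f x) (f y) (a.le.2 h1) (a.le.2 h2)
      (by change -O₁.r _ = -O₁.r _ + 1; rw [a.rk, a.rk]; omega)
      (by change -O₁.r _ = -O₁.r _ + 1; rw [a.rk, a.rk]; omega)
    refine ⟨z, z1, z2, ?_⟩
    change -O₁.r _ - 2 ≤ _ at z3
    rw [a.rk] at z3
    change -O₂.r z ≤ _
    omega

end Pool.Agent.Lib.MP_5d3e93_al.At
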