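import Pool.Agent.Lib.MP_35cce7_an.DuCov

/-! Directed paths in simply connected coloured triangle complexes with large links. -/

namespace Pool.Agent.Lib.MP_5d3e93_al.At

open Pool.Agent.Lib.MP_35cce7_an

variable {G₀ V : Type} [Group G₀] [MulAction G₀ V] (T : TC G₀ V)

/-- Elementary moves on paths. -/
inductive TcM : List V → List V → Prop
  | two {x y y' z : V} (r : List V) : T.t x y z → T.t x y' z →
      TcM (x :: y :: z :: r) (x :: y' :: z :: r)
  | three {x y z y' z' : V} (r : List V) : T.t x y z → T.t x y' z' →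
      TcM (x :: y :: z :: x :: r) (x :: y' :: z' :: x :: r)
  | cons (x : V) {p q : List V} : TcM p q → TcM (x :: p) (x :: q)

/-- Equivalent paths. -/
abbrev TcE : List V → List V → Prop := Relation.ReflTransGen (TcM T)

/-- Directed paths with a given end. -/
inductive TcV : List V → V → Prop
  | one (w : V) : TcV [w] w
  | cons {v u w : V} {l : List V} : T.Ed v u → TcV (u :: l) w → TcV (v :: u :: l) w

/-- The three ways in which two continuations of `x` can be related. -/
def TcR (x : V) (p q : List V) : Prop := TcE T p q ∨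
  (∃ a b z r, T.t x a z ∧ T.t x b z ∧ TcE T p (a :: z :: r) ∧ TcE T q (b :: z :: r)) ∨
    ∃ a b z z' r, T.t x a z ∧ T.t x b z' ∧ TcE T p (a :: z :: x :: r) ∧
      TcE T q (b :: z' :: x :: r)

variable {T}

theorem TcM.symm {p q} (h : TcM T p q) : TcM T q p := by
  induction h with
  | two r a b => exact .two r b a
  | three r a b => exact .three r b a
  | cons x _ ih => exact .cons x ih

theorem TcM.len {p q} (h : TcM T p q) : p.length = q.length ∧ p.head? = q.head? := by
  induction h with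
  | two r a b => exact ⟨rfl, rfl⟩
  | three r a b => exact ⟨rfl, rfl⟩
  | cons x _ ih => exact ⟨by simp [ih.1], rfl⟩

theorem TcM.app {p q} (h : TcM T p q) (s : List V) : TcM T (p ++ s) (q ++ s) := by
  induction h with
  | two r a b => exact .two _ a b
  | three r a b => exact .three _ a b
  | cons x _ ih => exact .cons x ih

theorem TcM.val {p q w} (h : TcM T p q) (k : TcV T p w) : TcV T q w := by
  induction h with
  | two r a b =>
    cases k with
    | cons _ k => cases k with
      | cons _ k => exact .cons ⟨_, b⟩ (.cons ⟨_, T.rot b⟩ k)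
  | three r a b =>
    cases k with
    | cons _ k => cases k with
      | cons _ k => cases k with
        | cons _ k => exact .cons ⟨_, b⟩ (.cons ⟨_, T.rot b⟩ (.cons ⟨_, T.rot (T.rot b)⟩ k))
  | @cons x p q h ih =>
    cases k with
    | one => cases h
    | cons e k =>
      have := h.len.2
      cases q with
      | nil => cases this
      | cons b q =>
        obtain rfl : _ = b := Option.some.inj this
        exact .cons e (ih k)

theorem TcE.symm {p q} (h : TcE T p q) : TcE T q p := by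
  induction h with
  | refl => exact .refl
  | tail _ a ih => exact .head a.symm ih

theorem TcE.len {p q} (h : TcE T p q) : p.length = q.length ∧ p.head? = q.head? := by
  induction h with
  | refl => exact ⟨rfl, rfl⟩
  | tail _ a ih => exact ⟨ih.1.trans a.len.1, ih.2.trans a.len.2⟩

theorem TcE.hd {a b p q} (h : TcE T (a :: p) (b :: q)) : a = b := Option.some.inj h.len.2

theorem TcE.cons (x : V) {p q} (h : TcE T p q) : TcE T (x :: p) (x :: q) :=
  h.lift (x :: ·) fun _ _ => .cons x

theorem TcE.app {p q} (h : TcE T p q) (s : List V) : TcE T (p ++ s) (q ++ s) :=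
  h.lift (· ++ s) fun _ _ a => a.app s

theorem TcE.val {p q w} (h : TcE T p q) (k : TcV T p w) : TcV T q w := by
  induction h with
  | refl => exact k
  | tail _ a ih => exact a.val ih

theorem TcR.can {x p q} (h : TcR T x p q) (e : p.head? = q.head?) : TcE T p q := by
  rcases h with h | ⟨a, b, z, r, -, -, c, d⟩ | ⟨a, b, z, z', r, s, t, c, d⟩
  · exact h
  · obtain rfl : a = b := Option.some.inj (c.len.2.symm.trans (e.trans d.len.2))
    exact c.trans d.symm
  · obtain rfl : a = b := Option.some.inj (c.len.2.symm.trans (e.trans d.len.2))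
    exact (c.tail (.two r (T.rot s) (T.rot t))).trans d.symm

theorem TcR.symm {x p q} (h : TcR T x p q) : TcR T x q p := by
  rcases h with h | ⟨a, b, z, r, s, t, c, d⟩ | ⟨a, b, z, z', r, s, t, c, d⟩
  exacts [.inl h.symm, .inr (.inl ⟨b, a, z, r, t, s, d, c⟩),
    .inr (.inr ⟨b, a, z', z, r, t, s, d, c⟩)]

theorem TcR.left {x p q u} (e : TcE T p q) (h : TcR T x q u) : TcR T x p u := by
  rcases h with h | ⟨a, b, z, r, s, t, c, d⟩ | ⟨a, b, z, z', r, s, t, c, d⟩
  exacts [.inl (e.trans h), .inr (.inl ⟨a, b, z, r, s, t, e.trans c, d⟩),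
    .inr (.inr ⟨a, b, z, z', r, s, t, e.trans c, d⟩)]

theorem tc_gar (n : ℕ) : ∀ (x : V) (p q : List V), p.length ≤ n → TcE T (x :: p) (x :: q) →
    TcR T x p q := by
  induction n using Nat.strong_induction_on with
  | _ n ih =>
  have tr : ∀ x p q u, q.length ≤ n → TcR T x p q → TcR T x q u → TcR T x p u := by
    intro x p q u hn h k
    have I : ∀ b s s', TcE T q (b :: s) → TcE T q (b :: s') → TcR T b s s' := fun b s s' c d =>
      ih s.length (by have := c.len.1; simp at this; omega) b s s' le_rfl (c.symm.trans d)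
    have m : ∀ {p u a b z r c e e' r'}, T.t x a z → T.t x b z → TcE T p (a :: z :: r) →
        TcE T q (b :: z :: r) → T.t x c e → T.t x b e' → TcE T u (c :: e :: x :: r') →
        TcE T q (b :: e' :: x :: r') → TcR T x p u := fun s t c d s' t' c' d' =>
      .inr (.inr ⟨_, _, _, _, _, s, s', c.trans (TcE.cons _ ((I _ _ _ d
        (d'.tail (.two _ (T.rot t') (T.rot t)))).can rfl)), c'⟩)
    rcases h with h | ⟨a, b, z, r, s, t, c, d⟩ | ⟨a, b, z, z', r, s, t, c, d⟩
    · exact k.left h
    · rcases k with k | ⟨b', a', y, r', t', s', d', c'⟩ | ⟨b', a', y, y', r', t', s', d', c'⟩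
      · exact (TcR.left k.symm (.inr (.inl ⟨b, a, z, r, t, s, d, c⟩))).symm
      · obtain rfl := TcE.hd (d.symm.trans d')
        have two : TcE T (z :: r) (y :: r') → TcR T x p u := fun e => by
          obtain rfl := e.hd
          exact .inr (.inl ⟨_, _, _, _, s, s', c.trans (e.cons _), c'⟩)
        rcases I _ _ _ d d' with e | ⟨z₁, y₁, e, r₁, f, g, i, j⟩ | ⟨z₁, y₁, e, e', r₁, f, g, i, j⟩
        · exact two e
        · obtain rfl := i.hd
          obtain rfl := j.hd
          rcases T.l4 (T.rot t) (T.rot t') g f with rfl | rfl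
          · exact two (i.trans j.symm)
          · exact .inr (.inr ⟨_, _, _, _, _, s, s', c.trans (i.cons _), c'.trans (j.cons _)⟩)
        · obtain rfl := i.hd
          obtain rfl := j.hd
          exact .inr (.inr ⟨_, _, _, _, _, s, s',
            c.trans (TcE.cons _ (i.tail (.two _ (T.rot f) (T.rot (T.rot t))))),
            c'.trans (TcE.cons _ (j.tail (.two _ (T.rot g) (T.rot (T.rot t')))))⟩)
      · obtain rfl := TcE.hd (d.symm.trans d')
        exact m s t c d s' t' c' d'
    · rcases k with k | ⟨b', a', y, r', t', s', d', c'⟩ | ⟨b', a', y, y', r', t', s', d', c'⟩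
      · exact (TcR.left k.symm (.inr (.inr ⟨b, a, z', z, r, t, s, d, c⟩))).symm
      · obtain rfl := TcE.hd (d.symm.trans d')
        exact (m s' t' c' d' s t c d).symm
      · obtain rfl := TcE.hd (d.symm.trans d')
        have e := (I _ _ _ d (d'.tail (.two _ (T.rot t') (T.rot t)))).can rfl
        have f := (ih _ (by have := d.len.1; simp at this ⊢; omega) _ _ _ le_rfl e).can rfl
        exact .inr (.inr ⟨_, _, _, _, _, s, s', c.trans ((f.cons _).cons _), c'⟩)
  intro x p q hn h
  suffices ∀ l, TcE T (x :: p) l → ∃ q, l = x :: q ∧ TcR T x p q by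
    obtain ⟨_, e, k⟩ := this _ h
    rwa [(List.cons.inj e).2]
  intro l h
  induction h with
  | refl => exact ⟨p, rfl, .inl .refl⟩
  | tail c a ih =>
    obtain ⟨q, rfl, k⟩ := ih
    have hq : q.length ≤ n := by have := TcE.len c; simp at this; omega
    cases a with
    | two r s t => exact ⟨_, rfl, tr _ _ _ _ hq k (.inr (.inl ⟨_, _, _, _, s, t, .refl, .refl⟩))⟩
    | three r s t =>
      exact ⟨_, rfl, tr _ _ _ _ hq k (.inr (.inr ⟨_, _, _, _, _, s, t, .refl, .refl⟩))⟩
    | cons _ a => exact ⟨_, rfl, tr _ _ _ _ hq k (.inl (.single a))⟩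

theorem TcE.can {x a b p q} (h : TcE T (x :: a :: p) (x :: b :: q)) (e : a = b) :
    TcE T (a :: p) (b :: q) := (tc_gar _ _ _ _ le_rfl h).can (by rw [e]; rfl)

theorem TcV.app {p w y} (h : TcV T p w) (e : T.Ed w y) : TcV T (p ++ [y]) y := by
  induction h with
  | one w => exact .cons e (.one _)
  | cons a _ ih => exact .cons a (ih e)

theorem TcV.slide {l : List V} : ∀ {x w a b c d}, TcV T (x :: l) w → T.t x a b → T.t w c d →
    TcE T (x :: a :: b :: x :: l) (x :: l ++ [c, d, w]) := by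
  induction l with
  | nil =>
    intro x w a b c d h s t
    cases h
    exact .single (.three _ s t)
  | cons v l ih =>
    intro x w a b c d h s t
    cases h with
    | cons e h =>
      obtain ⟨z, e⟩ := e
      exact .head (.three _ s e) ((ih h (T.rot e) t).cons x)

theorem tc_eq (h0 : T.SC0) (hw : ∀ x, ∃ y, T.Ed x y) {x w : V} {p q : List V}
    (hp : TcV T (x :: p) w) (hq : TcV T (x :: q) w) (e : p.length = q.length) :
    TcE T (x :: p) (x :: q) := by
  obtain ⟨a, b, t⟩ := hw x
  let D : List V → List V := fun p => x :: a :: b :: p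
  let A : List V → List V → Prop := fun p q => ∃ i j, TcE T (D^[i] p) (D^[j] q)
  have d1 : ∀ i {p q}, TcE T p q → TcE T (D^[i] p) (D^[i] q) := fun i => by
    induction i with
    | zero => exact id
    | succ i ih => exact fun h => ih (((h.cons b).cons a).cons x)
  have d2 : ∀ i p s, D^[i] (p ++ s) = D^[i] p ++ s := fun i => by
    induction i with
    | zero => exact fun _ _ => rfl
    | succ i ih => exact fun p s => ih (D p) s
  have a1 : ∀ {p q}, A p q → A q p := fun ⟨i, j, h⟩ => ⟨j, i, h.symm⟩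
  have a2 : ∀ {p q u}, A p q → A q u → A p u := fun ⟨i, j, h⟩ ⟨k, l, h'⟩ => ⟨k + i, j + l, by
    have c := d1 k h
    have d := d1 j h'
    rw [← Function.iterate_add_apply, ← Function.iterate_add_apply] at c d
    exact c.trans (add_comm j k ▸ d)⟩
  have a3 : ∀ {p q} s, A p q → A (p ++ s) (q ++ s) := fun s ⟨i, j, h⟩ =>
    ⟨i, j, by rw [d2, d2]; exact h.app s⟩
  have a4 : ∀ {l w c d}, TcV T (x :: l) w → T.t w c d → A (x :: l) (x :: l ++ [c, d, w]) :=
    fun h s => ⟨1, 0, h.slide t s⟩
  let U0 := {u : List V × V // TcV T (x :: u.1) u.2}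
  let S : Setoid U0 := ⟨fun u v => u.1.2 = v.1.2 ∧ A (x :: u.1.1) (x :: v.1.1),
    fun _ => ⟨rfl, 0, 0, .refl⟩, fun h => ⟨h.1.symm, a1 h.2⟩,
    fun h k => ⟨h.1.trans k.1, a2 h.2 k.2⟩⟩
  let E0 : U0 → U0 → Prop := fun u v =>
    T.Ed u.1.2 v.1.2 ∧ A (x :: u.1.1 ++ [v.1.2]) (x :: v.1.1)
  have ei : ∀ {u v u' v'}, S u u' → S v v' → E0 u v → E0 u' v' := fun h k e =>
    ⟨h.1 ▸ k.1 ▸ e.1, a2 (a3 _ (a1 h.2)) (k.1 ▸ a2 e.2 k.2)⟩
  let E : Quotient S → Quotient S → Prop := Quotient.lift₂ E0 fun _ _ _ _ h k =>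
    propext ⟨ei h k, ei (S.symm h) (S.symm k)⟩
  obtain ⟨Z, z1, z2, z3⟩ := h0 (Quotient S) (Quotient.lift (·.1.2) fun _ _ h => h.1) E
    (by rintro ⟨u⟩ ⟨v⟩ h; exact h.1)
    (by
      rintro ⟨u⟩ y h
      refine ⟨⟦⟨(u.1.1 ++ [y], y), u.2.app h⟩⟧, ⟨⟨h, 0, 0, .refl⟩, rfl⟩, ?_⟩
      rintro ⟨v⟩ ⟨k, rfl⟩
      exact Quotient.sound ⟨rfl, a1 k.2⟩)
    (by
      rintro ⟨v⟩ y ⟨z, h⟩
      have k : E0 ⟨(v.1.1 ++ [z] ++ [y], y), (v.2.app ⟨_, T.rot h⟩).app ⟨_, T.rot (T.rot h)⟩⟩ v :=
        ⟨⟨z, h⟩, a1 (by simpa using a4 v.2 (T.rot h))⟩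
      refine ⟨⟦_⟧, ⟨k, rfl⟩, ?_⟩
      rintro ⟨u⟩ ⟨k', rfl⟩
      refine Quotient.sound ⟨rfl, a2 (a4 u.2 h) ?_⟩
      simpa using a3 [z, u.1.2] k'.2)
    (by
      rintro ⟨u⟩ ⟨v⟩ ⟨r⟩ ⟨u'⟩ s h1 h2 h3 e
      refine Quotient.sound ⟨e, a1 (a2 (a4 u.2 s) (a2 ?_ h3.2))⟩
      refine a2 ?_ (a3 [u'.1.2] h2.2)
      have e : u'.1.2 = u.1.2 := e
      simpa [e] using a3 [r.1.2, u.1.2] h1.2) ⟦⟨([], x), .one x⟩⟧
  have al : ∀ (l : List V) w (h : TcV T (x :: l) w), (⟦⟨(l, w), h⟩⟧ : Quotient S) ∈ Z := by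
    have : ∀ {l w}, TcV T l w → ∀ (u : U0) (h : l.head? = some u.1.2)
        (k : TcV T (x :: (u.1.1 ++ l.tail)) w), (⟦u⟧ : Quotient S) ∈ Z →
        (⟦⟨(u.1.1 ++ l.tail, w), k⟩⟧ : Quotient S) ∈ Z := by
      intro l w h
      induction h with
      | one w =>
        rintro ⟨⟨l, y⟩, u⟩ h k m
        obtain rfl : w = y := Option.some.inj h
        simpa using m
      | @cons v y w l e _ ih =>
        rintro ⟨⟨s, v'⟩, u⟩ h k m
        obtain rfl : v = v' := Option.some.inj h
        have := ih ⟨(s ++ [y], y), u.app e⟩ rfl (by simpa using k)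
          ((z2 ⟦⟨(s, v), u⟩⟧ ⟦⟨(s ++ [y], y), u.app e⟩⟧ ⟨e, 0, 0, .refl⟩).1 m)
        simpa using this
    exact fun l w h => this h ⟨([], x), .one x⟩ rfl h z1
  obtain ⟨i, j, h⟩ := (Quotient.exact (z3 (al _ _ hp) (al _ _ hq) rfl)).2
  have ln : ∀ i p, (D^[i] p).length = p.length + 3 * i := fun i => by
    induction i with
    | zero => exact fun _ => rfl
    | succ i ih => exact fun p => (ih (D p)).trans (by simp [D]; omega)
  obtain rfl : i = j := by
    have := h.len.1
    simp only [ln, List.length_cons] at this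
    omega
  have hd : ∀ i p, ∃ p', D^[i] (x :: p) = x :: p' := fun i => by
    induction i with
    | zero => exact fun p => ⟨p, rfl⟩
    | succ i ih => exact fun p => ih _
  clear z3 al z1 z2
  induction i with
  | zero => exact h
  | succ i ih =>
    rw [Function.iterate_succ_apply', Function.iterate_succ_apply'] at h
    refine ih ?_
    obtain ⟨p', e1⟩ := hd i p
    obtain ⟨q', e2⟩ := hd i q
    rw [e1, e2] at h ⊢
    exact ((TcE.can h rfl).can rfl).can rfl

end Pool.Agent.Lib.MP_5d3e93_al.At
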