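import Pool.Agent.Lib.MP_5d3e93_al.At.Tc
import Pool.Agent.Lib.MP_5d3e93_al.At.Po

/-! The ordered set of a simply connected coloured triangle complex with large links. -/

namespace Pool.Agent.Lib.MP_5d3e93_al.At

open Pool.Agent.Lib.MP_35cce7_an

universe w

variable {G₀ V : Type} [Group G₀] [MulAction G₀ V] (T : TC G₀ V)

/-- There is a directed path of the given length. -/
inductive TcP : ℕ → V → V → Prop
  | zero (v : V) : TcP 0 v v
  | succ {n : ℕ} {v u y : V} : T.Ed v u → TcP n u y → TcP (n + 1) v y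

/-- Vertices with a level. -/
@[ext] structure TcX : Type w where
  v : V
  n : ℤ
  h : T.col v = n

variable {T}

theorem TcP.val {n v y} (h : TcP T n v y) : ∃ l, TcV T (v :: l) y ∧ l.length = n := by
  induction h with
  | zero v => exact ⟨[], .one v, rfl⟩
  | succ e _ ih => exact ih.elim fun l k => ⟨_ :: l, .cons e k.1, by simp [k.2]⟩

theorem TcV.pa {l : List V} : ∀ {v y}, TcV T (v :: l) y → TcP T l.length v y := by
  induction l with
  | nil => exact fun h => by cases h; exact .zero _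
  | cons u l ih => exact fun h => by cases h with | cons e h => exact .succ e (ih h)

theorem TcP.trans {n m v u y} (h : TcP T n v u) (k : TcP T m u y) : TcP T (m + n) v y := by
  induction h with
  | zero v => exact k
  | succ e _ ih => exact .succ e (ih k)

theorem TcP.split {m n v y} (h : TcP T (m + n) v y) : ∃ u, TcP T n v u ∧ TcP T m u y := by
  induction n generalizing v with
  | zero => exact ⟨v, .zero v, h⟩
  | succ n ih =>
    cases h with
    | succ e h => exact (ih h).imp fun u k => ⟨.succ e k.1, k.2⟩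

theorem TcP.smul {n v y} (h : TcP T n v y) (g : G₀) : TcP T n (g • v) (g • y) := by
  induction h with
  | zero v => exact .zero _
  | succ e _ ih => exact .succ (e.smul g) ih

theorem TcP.col {n v y} (h : TcP T n v y) : T.col y = T.col v + n := by
  induction h with
  | zero v => simp
  | succ e _ ih => rw [ih, e.hc]; push_cast; ring

theorem TcP.one {v y} : TcP T 1 v y ↔ T.Ed v y :=
  ⟨fun h => by
    cases h with
    | succ e h => cases h; exact e, fun e => .succ e (.zero _)⟩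

theorem TcP.back {v y} (e : T.Ed v y) : TcP T 2 y v :=
  e.elim fun _ t => .succ ⟨_, T.rot t⟩ (.succ ⟨_, T.rot (T.rot t)⟩ (.zero _))

theorem TcP.loop (hw : ∀ x, ∃ y, T.Ed x y) (v : V) (k : ℕ) : TcP T (3 * k) v v := by
  induction k with
  | zero => exact .zero v
  | succ k ih => exact (hw v).elim fun _ e => (TcP.succ e (.back e)).trans ih

instance : Preorder (TcX.{w} T) where
  le x y := ∃ n : ℕ, y.n = x.n + n ∧ TcP T n x.v y.v
  le_refl x := ⟨0, by simp, .zero _⟩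
  le_trans x y z := fun ⟨n, e, a⟩ ⟨m, f, b⟩ => ⟨m + n, by push_cast; omega, a.trans b⟩

theorem TcX.sm {x y : TcX.{w} T} (h : x ≤ y) : x.n ≤ y.n := by
  obtain ⟨n, e, -⟩ := h
  omega

theorem TcX.eq {x y : TcX.{w} T} (h : x ≤ y) (k : y.n ≤ x.n) : x = y := by
  obtain ⟨n, e, a⟩ := h
  obtain rfl : n = 0 := by omega
  refine TcX.ext ?_ (by omega)
  generalize x.v = u, y.v = v at a
  cases a
  rfl

theorem TcX.gr {x y : TcX.{w} T} (n : ℤ) (h : x ≤ y) (a : x.n ≤ n) (b : n ≤ y.n) :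
    ∃ z, x ≤ z ∧ z ≤ y ∧ z.n = n := by
  obtain ⟨m, e, h⟩ := h
  obtain ⟨i, rfl⟩ := Int.le.dest a
  obtain ⟨j, rfl⟩ : ∃ j, m = j + i := ⟨m - i, by omega⟩
  obtain ⟨c, u, v⟩ := h.split
  exact ⟨⟨c, x.n + i, by rw [u.col, x.h]; simp⟩, ⟨i, rfl, u⟩,
    ⟨j, by push_cast at e ⊢; omega, v⟩, rfl⟩

theorem TcX.lj (h0 : T.SC0) (hw : ∀ x, ∃ y, T.Ed x y) (x a b : TcX.{w} T) (xa : x ≤ a)
    (xb : x ≤ b) (ra : a.n = x.n + 1) (rb : b.n = x.n + 1) :
    ∃ j, a ≤ j ∧ b ≤ j ∧ ∀ y, a ≤ y → b ≤ y → j ≤ y := by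
  obtain ⟨n, e, xa⟩ := xa
  obtain rfl : n = 1 := by omega
  obtain ⟨n, f, xb⟩ := xb
  obtain rfl : n = 1 := by omega
  rw [TcP.one] at xa xb
  by_cases h1 : a.v = b.v
  · obtain rfl : a = b := TcX.ext h1 (by omega)
    exact ⟨a, le_rfl, le_rfl, fun _ h _ => h⟩
  have key : ∀ y, a ≤ y → b ≤ y → (∃ z, ∃ m : ℕ, T.t x.v a.v z ∧ T.t x.v b.v z ∧
      y.n = x.n + 2 + m ∧ TcP T m z y.v) ∨ ∃ m : ℕ, y.n = x.n + 3 + m ∧ TcP T m x.v y.v := by
    rintro y ⟨n, e1, u'⟩ ⟨m, e2, v'⟩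
    obtain ⟨p, u, rfl⟩ := u'.val
    obtain ⟨q, v, rfl⟩ := v'.val
    rcases tc_gar _ _ _ _ le_rfl (tc_eq h0 hw (.cons xa u) (.cons xb v) (by simp; omega)) with
      h | ⟨a', b', z, r, s, t, c, d⟩ | ⟨a', b', z, z', r, s, t, c, d⟩
    · exact (h1 h.hd).elim
    · have := c.len.1
      cases c.val u with
      | cons _ k => exact .inl ⟨z, _, c.hd ▸ s, d.hd ▸ t, by simp at this; omega, k.pa⟩
    · have := c.len.1
      cases c.val u with
      | cons _ k => cases k with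
        | cons _ k => exact .inr ⟨_, by simp at this; omega, k.pa⟩
  by_cases h2 : ∃ z, T.t x.v a.v z ∧ T.t x.v b.v z
  · obtain ⟨z, s, t⟩ := h2
    refine ⟨⟨z, x.n + 2, by rw [T.hc (T.rot s), T.hc s, x.h]; push_cast; ring⟩,
      ⟨1, by simp; omega, TcP.one.2 ⟨_, T.rot s⟩⟩, ⟨1, by simp; omega, TcP.one.2 ⟨_, T.rot t⟩⟩,
      fun y ay by' => ?_⟩
    rcases key y ay by' with ⟨z', m, s', t', e, k⟩ | ⟨m, e, k⟩
    · obtain rfl := (T.l4 s t t' s').resolve_left h1
      exact ⟨m, e, k⟩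
    · exact ⟨m + 1, by push_cast; omega, .succ ⟨_, T.rot (T.rot s)⟩ k⟩
  · refine ⟨⟨x.v, x.n + 3, by rw [x.h]; push_cast; exact (add_eq_left.2 rfl).symm⟩,
      ⟨2, by simp; omega, .back xa⟩, ⟨2, by simp; omega, .back xb⟩, fun y ay by' => ?_⟩
    rcases key y ay by' with ⟨z', m, s', t', e, k⟩ | ⟨m, e, k⟩
    · exact (h2 ⟨_, s', t'⟩).elim
    · exact ⟨m, e, k⟩

variable (h0 : T.SC0) (hw : ∀ x, ∃ y, T.Ed x y) (hc : ∀ x y, Relation.EqvGen T.Ed x y)
  [Nonempty V] {G : Type w} [Group G] (φ : G →* G₀) (ℓ : G →* Multiplicative ℤ)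
  (hℓ : ∀ g x, T.col (φ g • x) = T.col x + (ℓ g).toAdd)

/-- The action on vertices with a level. -/
@[reducible] def tcAc : MulAction (G × Multiplicative ℤ) (TcX.{w} T) where
  smul γ x := ⟨φ γ.1 • x.v, x.n + (ℓ γ.1).toAdd - 3 * γ.2.toAdd, by rw [cast3, hℓ, x.h]; simp⟩
  one_smul x := TcX.ext (show φ 1 • x.v = _ by simp) (show x.n + (ℓ 1).toAdd - 3 * 0 = _ by simp)
  mul_smul a b x := TcX.ext (show φ (a.1 * b.1) • x.v = φ a.1 • φ b.1 • x.v by simp [mul_smul])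
    (show x.n + (ℓ (a.1 * b.1)).toAdd - 3 * (a.2 * b.2).toAdd =
      x.n + (ℓ b.1).toAdd - 3 * b.2.toAdd + (ℓ a.1).toAdd - 3 * a.2.toAdd by simp; ring)

/-- The object of a triangle complex. -/
def tcOb : Ob (G × Multiplicative ℤ) (1, Multiplicative.ofAdd 1)
    {s | ∃ v : V, s = {γ | φ γ.1 • v = v}} :=
  letI := tcAc φ ℓ hℓ
  have sv : ∀ (γ : G × Multiplicative ℤ) (x : TcX.{w} T), (γ • x).v = φ γ.1 • x.v := fun _ _ => rfl
  have sn : ∀ (γ : G × Multiplicative ℤ) (x : TcX.{w} T),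
    (γ • x).n = x.n + (ℓ γ.1).toAdd - 3 * γ.2.toAdd := fun _ _ => rfl
  have ar : ∀ x y : TcX.{w} T,
      ∃ k : ℕ, ((1, Multiplicative.ofAdd 1) : G × Multiplicative ℤ) ^ k • x ≤ y := by
    intro x y
    obtain ⟨n, h⟩ : ∃ n, TcP T n x.v y.v := by
      have : ∀ u v, Relation.EqvGen T.Ed u v → (∃ n, TcP T n u v) ∧ ∃ n, TcP T n v u := by
        intro u v h
        induction h with
        | rel _ _ e => exact ⟨⟨_, TcP.one.2 e⟩, _, .back e⟩
        | refl => exact ⟨⟨_, .zero _⟩, _, .zero _⟩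
        | symm _ _ _ ih => exact ih.symm
        | trans _ _ _ _ _ a b =>
          obtain ⟨⟨_, a⟩, _, c⟩ := a
          obtain ⟨⟨_, b⟩, _, d⟩ := b
          exact ⟨⟨_, a.trans b⟩, _, d.trans c⟩
      exact (this _ _ (hc _ _)).1
    have c := h.col
    rw [x.h, y.h, ← Int.cast_natCast, ← Int.cast_add, ZMod.intCast_eq_intCast_iff_dvd_sub] at c
    obtain ⟨k, c⟩ := c
    refine ⟨k.toNat, 3 * (-k).toNat + n, ?_, ?_⟩
    · simp only [sn, Prod.pow_snd, Prod.pow_fst, one_pow, map_one, toAdd_one, toAdd_pow,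
        toAdd_ofAdd, nsmul_eq_mul]
      push_cast at c ⊢
      omega
    · simpa [sv] using h.trans (.loop hw _ _)
  have pl : ∀ x : TcX.{w} T, ((1, Multiplicative.ofAdd 1) : G × Multiplicative ℤ) • x ≤ x :=
    fun x => ⟨3, by simp [sn], by simpa [sv] using TcP.loop hw x.v 1⟩
  { X := TcX.{w} T
    ne := ‹Nonempty V›.elim fun v => (ZMod.intCast_surjective (T.col v)).elim fun n e =>
      ⟨⟨v, n, e.symm⟩⟩
    r := TcX.n
    hm := by
      rintro γ x y ⟨n, e, h⟩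
      exact ⟨n, by simp only [sn]; omega, h.smul _⟩
    rk := fun γ x y => by simp only [sn]; omega
    rp := fun x => by simp [sn]
    sm := TcX.sm
    eq := fun a b => (TcX.eq a b).ge
    gr := TcX.gr
    cv := by
      rintro x y ⟨n, e, h⟩ f
      obtain rfl : n = 1 := by omega
      exact ⟨2, by simp [sn]; omega, by simpa [sv] using TcP.back (TcP.one.1 h)⟩
    pl := pl
    ar := ar
    rz := by
      intro a b c d ac ad bc bd
      obtain ⟨k, h⟩ := ar a b
      have : ∀ k : ℕ, ((1, Multiplicative.ofAdd 1) : G × Multiplicative ℤ) ^ k • a ≤ a := by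
        intro k
        induction k with
        | zero => simp
        | succ k ih =>
          rw [pow_succ', mul_smul]
          exact (pl _).trans ih
      exact rz_of_lj TcX.n TcX.sm (fun a b => (TcX.eq a b).ge) TcX.gr (TcX.lj h0 hw) c d _ _ a b
        (Int.self_le_toNat _) (this k) h ac ad bc bd
    st := fun x => ⟨_, ⟨x.v, rfl⟩, fun γ a b => congrArg TcX.v (TcX.eq a (TcX.sm b))⟩ }

include h0 hw hc hℓ in
theorem tc_bl : ∃ (X : Type w) (_ : Lattice X) (_ : Nonempty X) (_ : MulAction G X)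
    (B : Bg.Bl X), B.Ac G ∧ ∀ z : X, ∃ v : V, ∀ g : G, g • z = z → φ g • v = v := by
  obtain ⟨X, _, _, _, B, A, h⟩ := ob_bl (fun g => by ext <;> simp [mul_comm])
    (tcOb h0 hw hc φ ℓ hℓ)
  let := MulAction.compHom X (MonoidHom.inl G (Multiplicative ℤ))
  refine ⟨X, _, ‹_›, this, B, ⟨fun g => A.hm (g, 1), fun g => A.hπ (g, 1), fun g => A.hc (g, 1)⟩,
    fun z => ?_⟩
  obtain ⟨_, ⟨v, rfl⟩, h⟩ := h z
  exact ⟨v, fun g e => h (g, 1) e⟩

end Pool.Agent.Lib.MP_5d3e93_al.At
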