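import Mathlib

/-! Triangles of groups with large links and the directed distance. -/

namespace Pool.Agent.Lib.MP_5d3e93_al.At

universe a w

/-- A triangle of groups: the vertex group at `i` is the image of `K i` under `p i`, the edge
group between `i` and `i + 1` is the image of `E i`; `G` is the colimit. -/
structure Tri (J : Type a) [Group J] (H : ZMod 3 → Type a) [∀ i, Group (H i)] (G : Type w)
    [Group G] where
  K : ZMod 3 → Subgroup J
  E : ZMod 3 → Subgroup J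
  p : ∀ i, J →* H i
  q : J →* G
  e1 : ∀ i, E i ≤ K i
  e2 : ∀ i, E i ≤ K (i + 1)
  ed : ∀ i, ∀ x ∈ E i, p i x = 1 ↔ p (i + 1) x = 1
  fc : ∀ i, ∀ x ∈ E (i + 2), ∀ y ∈ E i, p i x = p i y → ∃ f, (∀ j, f ∈ E j) ∧ p i f = p i x
  gi : ∀ i, ∀ r ∈ E (i + 2), ∀ l ∈ E i, ∀ l' ∈ E i, ∀ r' ∈ E (i + 2),
    p i (r * l) = p i (l' * r') → (∃ y ∈ E i, p i r = p i y) ∨ ∃ x ∈ E (i + 2), p i l = p i x
  kq : ∀ i, ∀ k ∈ K i, p i k = 1 → q k = 1
  gen : ⨆ i, (K i).map q = ⊤
  glue : ∀ (P : Type a) [Group P] (ρ : ∀ i, K i →* P), (∀ i (k : K i), p i k = 1 → ρ i k = 1) →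
    (∀ i e (h : e ∈ E i), ρ i ⟨e, e1 i h⟩ = ρ (i + 1) ⟨e, e2 i h⟩) →
      ∃ φ : G →* P, ∀ i (k : K i), φ (q k) = ρ i k

variable {J : Type a} [Group J] {H : ZMod 3 → Type a} [∀ i, Group (H i)] {G : Type w} [Group G]

/-- The image of a vertex group. -/
abbrev Tri.Q (T : Tri J H G) (i : ZMod 3) : Subgroup G := (T.K i).map T.q

/-- `D n x m` says that the base point of height `n` lies below the translate by `x` of the base
point of height `m`. -/
inductive Tri.D (T : Tri J H G) : ℤ → G → ℤ → Prop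
  | one (n : ℤ) : D T n 1 n
  | mul {n m : ℤ} {x : G} {k : J} : k ∈ T.K n → D T n x m → D T n (T.q k * x) m
  | up {n m : ℤ} {x : G} : D T (n + 1) x m → D T n x m

end Pool.Agent.Lib.MP_5d3e93_al.At
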