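import Pool.Agent.Lib.MP_5d3e93_al.At.Tri

/-! Words in a triangle of groups up to sliding; multiplication by an edge. -/

namespace Pool.Agent.Lib.MP_5d3e93_al.At

universe a w

/-- Raw words. -/
inductive Rw (J : Type a) : Type a
  | ter (i : ZMod 3) (g : J)
  | con (i : ZMod 3) (g : J) (ε : Bool) (w : Rw J)

/-- The edge that is crossed. -/
def eg (i : ZMod 3) : Bool → ZMod 3
  | true => i
  | false => i + 2

theorem z11 (i : ZMod 3) : i + 1 + 1 = i + 2 := by revert i; decide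
theorem z12 (i : ZMod 3) : i + 1 + 2 = i := by revert i; decide
theorem z21 (i : ZMod 3) : i + 2 + 1 = i := by revert i; decide
theorem z22 (i : ZMod 3) : i + 2 + 2 = i + 1 := by revert i; decide

variable {J : Type a} [Group J] {H : ZMod 3 → Type a} [∀ i, Group (H i)] {G : Type w} [Group G]

/-- Multiplication of the first letter. -/
def Rw.sm (k : J) : Rw J → Rw J
  | ter i g => ter i (k * g)
  | con i g ε w => con i (k * g) ε w

theorem Rw.sm_one (w : Rw J) : w.sm 1 = w := by cases w <;> simp [sm]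

theorem Rw.sm_mul (a b : J) (w : Rw J) : w.sm (a * b) = (w.sm b).sm a := by
  cases w <;> simp [sm, mul_assoc]

/-- The weighted length. -/
def Rw.len : Rw J → ℕ
  | ter _ _ => 0
  | con _ _ ε w => w.len + (if ε then 1 else 2)

/-- The starting vertex. -/
def Rw.ix : Rw J → ZMod 3
  | ter i _ => i
  | con i _ _ _ => i

namespace Tri

variable (T : Tri J H G)

/-- Sliding. -/
def Eqv : Rw J → Rw J → Prop
  | .ter i g, .ter i' g' => i = i' ∧ T.p i g' = T.p i g
  | .con i g ε w, .con i' g' ε' w' => i = i' ∧ ε = ε' ∧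
      ∃ e ∈ T.E (eg i ε), T.p i g' = T.p i (g * e) ∧ Eqv w (w'.sm e)
  | _, _ => False

variable {T}

theorem Eqv.sm {w w' : Rw J} (h : T.Eqv w w') (k : J) : T.Eqv (w.sm k) (w'.sm k) := by
  cases w <;> cases w'
  · exact ⟨h.1, by simp [h.2]⟩
  · exact h
  · exact h
  · obtain ⟨a, b, e, c, d, f⟩ := h
    exact ⟨a, b, e, c, by simp [d, mul_assoc], f⟩

theorem Eqv.refl (w : Rw J) : T.Eqv w w := by
  induction w with
  | ter i g => exact ⟨rfl, rfl⟩
  | con i g ε w ih => exact ⟨rfl, rfl, 1, one_mem _, by simp, by rwa [Rw.sm_one]⟩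

theorem Eqv.symm {w w' : Rw J} (h : T.Eqv w w') : T.Eqv w' w := by
  induction w generalizing w' with
  | ter i g =>
    cases w'
    · obtain ⟨rfl, b⟩ := h
      exact ⟨rfl, b.symm⟩
    · exact h
  | con i g ε w ih =>
    cases w'
    · exact h
    · obtain ⟨rfl, rfl, e, c, d, f⟩ := h
      refine ⟨rfl, rfl, e⁻¹, inv_mem c, by simp [d], ?_⟩
      simpa [← Rw.sm_mul, Rw.sm_one] using (ih f).sm e⁻¹

theorem Eqv.trans {w w' w'' : Rw J} (h : T.Eqv w w') (k : T.Eqv w' w'') : T.Eqv w w'' := by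
  induction w generalizing w' w'' with
  | ter i g =>
    cases w' <;> cases w''
    · obtain ⟨rfl, b⟩ := h
      exact ⟨k.1, k.2.trans b⟩
    exacts [k, h.elim, h.elim]
  | con i g ε w ih =>
    cases w' <;> cases w''
    · exact h
    · exact h.elim
    · exact k
    · obtain ⟨rfl, rfl, e, c, d, f⟩ := h
      obtain ⟨rfl, rfl, e', c', d', f'⟩ := k
      exact ⟨rfl, rfl, e * e', mul_mem c c', by simp [d, d', mul_assoc],
        ih f (by rw [Rw.sm_mul]; exact f'.sm e)⟩

theorem Eqv.len {w w' : Rw J} (h : T.Eqv w w') : w.len = w'.len ∧ w.ix = w'.ix := by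
  induction w generalizing w' with
  | ter i g =>
    cases w'
    exacts [⟨rfl, h.1⟩, h.elim]
  | con i g ε w ih =>
    obtain _ | ⟨_, _, _, w'⟩ := w'
    · exact h.elim
    · obtain ⟨rfl, rfl, e, -, -, f⟩ := h
      exact ⟨congrArg (· + _) ((ih f).1.trans (by cases w' <;> rfl)), rfl⟩

variable (T)

/-- Words up to sliding. -/
def W : Type a := Quotient ⟨T.Eqv, Eqv.refl, Eqv.symm, Eqv.trans⟩

instance : MulAction J T.W where
  smul k := Quotient.map (Rw.sm k) fun _ _ h => Eqv.sm h k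
  one_smul w := Quotient.inductionOn w fun w => congrArg _ w.sm_one
  mul_smul a b w := Quotient.inductionOn w fun w => congrArg _ (w.sm_mul a b)

/-- The word with one letter. -/
def ter (i : ZMod 3) (g : J) : T.W := Quotient.mk _ (.ter i g)

variable {T}

/-- A letter and an edge in front of a word. -/
def con (i : ZMod 3) (g : J) (ε : Bool) : T.W → T.W := Quotient.map (.con i g ε) fun _ _ h =>
  ⟨rfl, rfl, 1, one_mem _, by simp, by rwa [Rw.sm_one]⟩

/-- The weighted length. -/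
def len : T.W → ℕ := Quotient.lift Rw.len fun _ _ h => (Eqv.len h).1

/-- The starting vertex. -/
def ix : T.W → ZMod 3 := Quotient.lift Rw.ix fun _ _ h => (Eqv.len h).2

variable {i j : ZMod 3} {g g' k e r l : J} {ε ε' : Bool} {v u u' w w' : T.W}

@[simp] theorem sm_ter : k • T.ter i g = T.ter i (k * g) := rfl

@[simp] theorem sm_con : k • con i g ε w = con i (k * g) ε w := Quotient.inductionOn w fun _ => rfl

@[simp] theorem len_ter : len (T.ter i g) = 0 := rfl

@[simp] theorem len_t : len (con i g true w) = len w + 1 := Quotient.inductionOn w fun _ => rfl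

@[simp] theorem len_f : len (con i g false w) = len w + 2 := Quotient.inductionOn w fun _ => rfl

@[simp] theorem len_sm : len (k • w) = len w := Quotient.inductionOn w fun w => by cases w <;> rfl

@[simp] theorem ix_ter : ix (T.ter i g) = i := rfl

@[simp] theorem ix_con : ix (con i g ε w) = i := Quotient.inductionOn w fun _ => rfl

@[simp] theorem ix_sm : ix (k • w) = ix w := Quotient.inductionOn w fun w => by cases w <;> rfl

theorem ter_inj (h : T.ter i g = T.ter i g') : T.p i g' = T.p i g := (Quotient.exact h).2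

theorem ter_ne : T.ter i g ≠ con j g' ε w :=
  Quotient.inductionOn w fun _ h => Quotient.exact h

theorem con_inj (h : con i g ε w = con j g' ε' w') : i = j ∧ ε = ε' ∧
    ∃ e ∈ T.E (eg i ε), T.p i g' = T.p i (g * e) ∧ w = e • w' := by
  induction w, w' using Quotient.inductionOn₂
  obtain ⟨a, b, e, c, d, f⟩ := Quotient.exact h
  exact ⟨a, b, e, c, d, Quotient.sound f⟩

theorem con_eq (c : e ∈ T.E (eg i ε)) (d : T.p i g' = T.p i (g * e)) :
    con i g' ε w = con i g ε (e • w) := by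
  induction w using Quotient.inductionOn
  exact Eq.symm (Quotient.sound (show T.Eqv _ _ from ⟨rfl, rfl, e, c, d, Eqv.refl _⟩))

theorem sm_congr (a : ix w = i) (b : T.p i g = T.p i g') : g • w = g' • w := by
  induction w using Quotient.inductionOn with
  | h w =>
  refine Quotient.sound (?_ : T.Eqv (w.sm g) (w.sm g'))
  obtain ⟨j, x⟩ | ⟨j, x, _, _⟩ := w <;> obtain rfl : j = i := a
  · exact ⟨rfl, by simpa using b.symm⟩
  · exact ⟨rfl, rfl, 1, one_mem _, by simpa using b.symm, by simpa [Rw.sm_one] using Eqv.refl _⟩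

theorem ed' (a : g ∈ T.E i) (b : g' ∈ T.E i) :
    T.p i g = T.p i g' ↔ T.p (i + 1) g = T.p (i + 1) g' := by
  simpa [inv_mul_eq_one] using T.ed i _ (mul_mem (inv_mem a) b)

/-- An edge element that looks like an element of the next edge group is a face element. -/
theorem fc' (a : g ∈ T.E i) (b : g' ∈ T.E (i + 1)) (c : T.p (i + 1) g = T.p (i + 1) g') :
    ∃ f, (∀ j, f ∈ T.E j) ∧ T.p i f = T.p i g ∧ T.p (i + 1) f = T.p (i + 1) g ∧
      T.p (i + 2) f = T.p (i + 2) g' := by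
  obtain ⟨f, d, e⟩ := T.fc (i + 1) g (by rwa [z12]) g' b c
  exact ⟨f, d, (ed' (d i) a).2 e, e, z11 i ▸ (ed' (d _) b).1 (e.trans c)⟩

/-- Words that cannot follow a double edge. -/
def Bm (j : ZMod 3) (v : T.W) : Prop :=
  (∃ w, v = con j 1 true w) ∨ ∃ l ∈ T.E j, ∃ w, v = con j l false w

/-- Words that cannot follow a single edge. -/
def Bp (j : ZMod 3) (v : T.W) : Prop := ∃ r ∈ T.E (j + 2), Bm j (r⁻¹ • v)

theorem Bm.sm (h : Bm j v) (a : e ∈ T.E j) : Bm j (e • v) := by
  obtain ⟨w, rfl⟩ | ⟨l, b, w, rfl⟩ := h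
  · exact .inl ⟨e • w, sm_con.trans (con_eq (ε := true) a (by simp))⟩
  · exact .inr ⟨e * l, mul_mem a b, w, sm_con⟩

theorem Bp.sm (h : Bp j v) (a : e ∈ T.E (j + 2)) : Bp j (e • v) :=
  h.elim fun r b => ⟨e * r, mul_mem a b.1, by simpa [smul_smul, mul_assoc] using b.2⟩

theorem Bm.bp (h : Bm j v) : Bp j v := ⟨1, one_mem _, by simpa⟩

/-- Multiplication by the edge from `i` to `i + 1`. -/
inductive Pre : ZMod 3 → T.W → T.W → Prop
  | df {i : ZMod 3} {v : T.W} : ix v = i + 1 → ¬ Bp (i + 1) v → Pre i v (con i 1 true v)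
  | r3 {i : ZMod 3} {r : J} {w : T.W} : ix w = i + 2 → r ∈ T.E i →
      Pre i (con (i + 1) r true w) (con i r false w)
  | r5 {i : ZMod 3} {r : J} {w : T.W} : ix w = i → r ∈ T.E i →
      Pre i (con (i + 1) r false w) (r • w)
  | r6 {i : ZMod 3} {r l : J} {w u : T.W} : r ∈ T.E i → l ∈ T.E (i + 1) →
      (¬ ∃ x ∈ T.E i, T.p (i + 1) l = T.p (i + 1) x) → Pre (i + 2) w u →
      Pre i (con (i + 1) (r * l) false w) (con i r false (l • u))

theorem Pre.sm (h : Pre i v u) (a : e ∈ T.E i) : Pre i (e • v) (e • u) := by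
  cases h with
  | df o b =>
    rw [sm_con, con_eq (g := 1) (ε := true) a (by simp)]
    exact .df (by simpa) fun c =>
      b (by simpa using c.sm (e := e⁻¹) (by rw [z12]; exact inv_mem a))
  | r3 o b => simpa using Pre.r3 o (mul_mem a b)
  | r5 o b => simpa [smul_smul] using Pre.r5 o (mul_mem a b)
  | r6 b c d f => simpa [mul_assoc] using Pre.r6 (mul_mem a b) c d f

theorem Pre.ix (h : Pre i v u) : ix v = i + 1 ∧ ix u = i := by cases h <;> simp [*]

theorem Pre.len (h : Pre i v u) : len u = len v + 1 ∨ len u + 2 = len v := by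
  induction h with
  | df => simp
  | r3 => simp
  | r5 => simp
  | r6 _ _ _ _ ih => simpa using ih

theorem Pre.hd (h : Pre i v u) : Tri.len u + 2 = Tri.len v ∨ u = con i 1 true v ∨
    ∃ a ∈ T.E i, ∃ u', u = con i a false u' := by
  cases h with
  | df => exact .inr (.inl rfl)
  | r3 _ b => exact .inr (.inr ⟨_, b, _, rfl⟩)
  | r5 => simp
  | r6 b => exact .inr (.inr ⟨_, b, _, rfl⟩)

theorem bp_t (a : r ∈ T.E i) : Bp (i + 1) (con (i + 1) r true w) :=
  ⟨r, by rwa [z12], .inl ⟨w, by simp⟩⟩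

theorem bp_f (a : r ∈ T.E i) (b : l ∈ T.E (i + 1)) : Bp (i + 1) (con (i + 1) (r * l) false w) :=
  ⟨r, by rwa [z12], .inr ⟨l, b, w, by simp⟩⟩

theorem Pre.cases (h : Pre i v u) : (¬ Bp (i + 1) v ∧ u = con i 1 true v) ∨
    (∃ r ∈ T.E i, ∃ w, Tri.ix w = i + 2 ∧ v = con (i + 1) r true w ∧ u = con i r false w) ∨
    (∃ r ∈ T.E i, ∃ w, Tri.ix w = i ∧ v = con (i + 1) r false w ∧ u = r • w) ∨
    ∃ r ∈ T.E i, ∃ l ∈ T.E (i + 1), (¬ ∃ x ∈ T.E i, T.p (i + 1) l = T.p (i + 1) x) ∧
      ∃ w y, Pre (i + 2) w y ∧ v = con (i + 1) (r * l) false w ∧ u = con i r false (l • y) := by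
  cases h with
  | df _ b => exact .inl ⟨b, rfl⟩
  | r3 o b => exact .inr (.inl ⟨_, b, _, o, rfl, rfl⟩)
  | r5 o b => exact .inr (.inr (.inl ⟨_, b, _, o, rfl, rfl⟩))
  | r6 b c d f => exact .inr (.inr (.inr ⟨_, b, _, c, d, _, _, f, rfl, rfl⟩))

theorem r56 (a : r ∈ T.E i) (b : g ∈ T.E i)
    (h : con (i + 1) r false w = con (i + 1) (g * l) false w') :
    ∃ x ∈ T.E i, T.p (i + 1) l = T.p (i + 1) x := by
  obtain ⟨-, -, e, c, d, -⟩ := con_inj h
  refine ⟨g⁻¹ * (r * e), mul_mem (inv_mem b) (mul_mem a (z12 i ▸ c)), ?_⟩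
  rw [map_mul, ← d]
  simp

theorem Pre.uq (h : Pre i v u) (k : Pre i v u') : u = u' := by
  induction h generalizing u' with
  | df _ b =>
    obtain ⟨-, c⟩ | ⟨r, c, w, -, rfl, -⟩ | ⟨r, c, w, -, rfl, -⟩ | ⟨r, c, l, d, -, w, -, -, rfl, -⟩ :=
      k.cases
    · exact c.symm
    · exact (b (bp_t c)).elim
    · exact (b (by simpa using bp_f c (one_mem _))).elim
    · exact (b (bp_f c d)).elim
  | @r3 i r w _ b =>
    obtain ⟨c, -⟩ | ⟨r', c, w', o, d, rfl⟩ | ⟨r, c, w, -, d, -⟩ | ⟨r, c, l, -, -, w, -, -, d, -⟩ :=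
      k.cases
    · exact (c (bp_t b)).elim
    · obtain ⟨-, -, e, f, g, rfl⟩ := con_inj d
      obtain ⟨x, x1, x2, -, x4⟩ := fc' (mul_mem (inv_mem b) c) f (by rw [map_mul, g]; simp)
      rw [con_eq (g := r) (g' := r') (ε := false) (x1 _) (by rw [map_mul, x2]; simp), sm_congr o x4]
    · exact absurd (con_inj d).2.1 (by simp)
    · exact absurd (con_inj d).2.1 (by simp)
  | @r5 i r w _ b =>
    obtain ⟨c, -⟩ | ⟨r', c, w', -, d, -⟩ | ⟨r', c, w', o, d, rfl⟩ | ⟨r', c, l, -, n, w', -, -, d, -⟩ :=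
      k.cases
    · exact (c (by simpa using bp_f b (one_mem _))).elim
    · exact absurd (con_inj d).2.1 (by simp)
    · obtain ⟨-, -, e, f, g, rfl⟩ := con_inj d
      rw [smul_smul, sm_congr o ((ed' c (mul_mem b (z12 i ▸ f))).2 g)]
    · exact (n (r56 b c d)).elim
  | @r6 i r l w y b c d f ih =>
    obtain ⟨s, -⟩ | ⟨r', -, w', -, s, -⟩ | ⟨r', s, w', -, t, -⟩ |
      ⟨r', b', l', c', d', w', y', f', s, rfl⟩ := k.cases
    · exact (s (bp_f b c)).elim
    · exact absurd (con_inj s).2.1 (by simp)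
    · exact (d (r56 s b t.symm)).elim
    obtain ⟨-, -, e, e1, e2, rfl⟩ := con_inj s
    have e3 : e ∈ T.E i := z12 i ▸ e1
    have m : r⁻¹ * r' ∈ T.E i := mul_mem (inv_mem b) b'
    have n : T.p (i + 1) (r⁻¹ * r' * l') = T.p (i + 1) (l * e) := by
      rw [mul_assoc, map_mul, e2]
      simp [mul_assoc]
    obtain ⟨z, z1, z2⟩ | ⟨z, z1, z2⟩ := T.gi (i + 1) _ (by rwa [z12]) _ c' _ c _ e1 n
    · obtain ⟨x, x1, x2, x3, -⟩ := fc' m z1 z2
      have n' : T.p (i + 1) e = T.p (i + 1) (l⁻¹ * (x * l')) := by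
        rw [map_mul, map_mul, x3, ← map_mul, n]
        simp
      obtain ⟨t, t1, t2, -, t4⟩ := fc' e3 (mul_mem (inv_mem c) (mul_mem (x1 _) c')) n'
      rw [← sm_congr (f'.ix.1.trans (z21 i)) t2] at ih
      rw [ih (f'.sm (t1 _)), con_eq (g := r) (g' := r') (ε := false) (x1 _)
        (by rw [map_mul, x2]; simp), smul_smul, smul_smul,
        sm_congr (g := l * t) (g' := x * l') f'.ix.2 (by rw [map_mul, t4]; simp)]
    · exact (d' ⟨z, z12 i ▸ z1, z2⟩).elim

end Tri

end Pool.Agent.Lib.MP_5d3e93_al.At
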