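import Pool.Agent.Lib.MP_5d3e93_al.At.Wa

/-! Normal words; multiplication by an edge has order three. -/

namespace Pool.Agent.Lib.MP_5d3e93_al.At

universe a w

/-- The next vertex. -/
def nx (i : ZMod 3) : Bool → ZMod 3
  | true => i + 1
  | false => i + 2

namespace Tri

variable {J : Type a} [Group J] {H : ZMod 3 → Type a} [∀ i, Group (H i)] {G : Type w} [Group G]
  {T : Tri J H G}

/-- Words that cannot follow. -/
def Bd : Bool → ZMod 3 → T.W → Prop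
  | true => Bp
  | false => Bm

/-- Normal words and their values. -/
inductive Nf : T.W → G → Prop
  | ter {i : ZMod 3} {g : J} : g ∈ T.K i → Nf (T.ter i g) (T.q g)
  | con {i : ZMod 3} {g : J} {ε : Bool} {w : T.W} {x : G} : g ∈ T.K i → ix w = nx i ε →
      ¬ Bd ε (nx i ε) w → Nf w x → Nf (con i g ε w) (T.q g * x)

variable {i j t : ZMod 3} {g g' k e r l : J} {ε ε' : Bool} {v u u' w w' : T.W} {x : G}

theorem qe (a : g ∈ T.K i) (b : g' ∈ T.K i) (c : T.p i g = T.p i g') : T.q g = T.q g' := by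
  simpa [inv_mul_eq_one] using T.kq i _ (mul_mem (inv_mem a) b) (by simp [c])

theorem Nf.sm (h : Nf w x) (a : k ∈ T.K (ix w)) : Nf (k • w) (T.q k * x) := by
  cases h with
  | ter b => simpa using Nf.ter (mul_mem a b)
  | con b c d f => simpa [mul_assoc] using Nf.con (mul_mem (by simpa using a) b) c d f

theorem Nf.inv (h : Nf (Tri.con i g ε w) x) (a : g ∈ T.K i) :
    ∃ y, Nf w y ∧ ix w = nx i ε ∧ ¬ Bd ε (nx i ε) w ∧ x = T.q g * y := by
  generalize s : Tri.con i g ε w = v at h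
  cases h with
  | ter => exact (ter_ne s.symm).elim
  | @con i g₀ ε _ y b c d f =>
    obtain ⟨rfl, rfl, e, e1, e2, rfl⟩ := con_inj s.symm
    have e3 : e ∈ T.K i ∧ e ∈ T.K (nx i ε) := by
      cases ε
      · exact ⟨z21 i ▸ T.e2 _ e1, T.e1 _ e1⟩
      · exact ⟨T.e1 _ e1, T.e2 _ e1⟩
    refine ⟨T.q e⁻¹ * y, inv_smul_smul e w ▸ f.sm (c ▸ inv_mem e3.2), by simpa using c, fun n => d ?_,
      by simp [qe a (mul_mem b e3.1) e2, mul_assoc]⟩
    cases ε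
    · exact Bm.sm n e1
    · exact Bp.sm n (by rwa [nx, z12])

theorem Pre.hd2 (h : Pre t w u) (n : ¬ Bm (t + 1) w) : u = con t 1 true w ∨ ∃ a ∈ T.E t,
    (¬ ∃ x ∈ T.E (t + 2), T.p t a = T.p t x) ∧ ∃ u', u = con t a false u' := by
  have k {r : J} (b : r ∈ T.E t) : (∃ x ∈ T.E (t + 2), T.p t r = T.p t x) →
      ∃ f ∈ T.E (t + 1), T.p (t + 1) r = T.p (t + 1) f := fun ⟨x, c, d⟩ => by
    obtain ⟨f, f1, f2⟩ := T.fc t x c r b d.symm
    exact ⟨f, f1 _, (ed' b (f1 t)).1 (d.trans f2.symm)⟩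
  cases h with
  | df => exact .inl rfl
  | r3 _ b =>
    refine .inr ⟨_, b, fun c => n ?_, _, rfl⟩
    obtain ⟨f, f1, f2⟩ := k b c
    exact .inl ⟨_, con_eq (ε := true) f1 (by simpa)⟩
  | r5 _ b => exact (n (.inr ⟨1, one_mem _, _, con_eq (ε := false) (by rwa [eg, z12]) (by simp)⟩)).elim
  | r6 b c =>
    refine .inr ⟨_, b, fun d => n ?_, _, rfl⟩
    obtain ⟨f, f1, f2⟩ := k b d
    exact .inr ⟨_, mul_mem f1 c, _, con_eq (one_mem _) (by simp [f2])⟩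

theorem Pre.nb (h : Pre (j + 1) w u) (n : ¬ Bm (j + 1 + 1) w) (a : l ∈ T.E j)
    (b : ¬ ∃ x ∈ T.E (j + 2), T.p j l = T.p j x) : ¬ Bm (j + 1) (l • u) := by
  have k : ¬ ∃ y ∈ T.E (j + 1), T.p (j + 1) l = T.p (j + 1) y := fun ⟨y, c, d⟩ =>
    (fc' a c d).elim fun f e => b ⟨f, e.1 _, e.2.1.symm⟩
  obtain rfl | ⟨c, c1, c2, u', rfl⟩ := h.hd2 n <;> rw [sm_con] <;>
    rintro (⟨y, s⟩ | ⟨y, y1, z, s⟩)
  · obtain ⟨-, -, e, e1, e2, -⟩ := con_inj s.symm
    exact k ⟨e, e1, by simpa using e2⟩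
  · exact absurd (con_inj s).2.1 (by simp)
  · exact absurd (con_inj s).2.1 (by simp)
  · obtain ⟨-, -, e, e1, e2, -⟩ := con_inj s.symm
    exact (T.gi _ _ (by rwa [z12]) _ c1 _ y1 _ e1 e2).elim k c2

theorem Nf.pre (h : Nf v x) (o : ix v = i + 1) : ∃ u, Pre i v u ∧ Nf u x := by
  induction s : len v using Nat.strong_induction_on generalizing v x i with
  | _ n ih =>
  by_cases b : Bp (i + 1) v
  swap
  · exact ⟨_, .df o b, by simpa using Nf.con (ε := true) (one_mem _) o b h⟩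
  obtain ⟨r, c, ⟨w, d⟩ | ⟨l, f, w, d⟩⟩ := b <;> rw [z12] at c <;>
    rw [inv_smul_eq_iff, sm_con] at d <;> subst d
  · rw [mul_one] at h ⊢
    obtain ⟨y, y1, y2, y3, rfl⟩ := h.inv (T.e2 _ c)
    rw [nx, z11] at y2 y3
    exact ⟨_, .r3 y2 c, .con (T.e1 _ c) y2 (fun m => y3 (Bm.bp m)) y1⟩
  by_cases m : ∃ z ∈ T.E i, T.p (i + 1) l = T.p (i + 1) z
  · obtain ⟨z, z1, z2⟩ := m
    rw [con_eq (g := r * z) (one_mem _) (by simp [z2]), one_smul] at h ⊢
    obtain ⟨y, y1, y2, -, rfl⟩ := h.inv (T.e2 _ (mul_mem c z1))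
    rw [nx, z12] at y2
    exact ⟨_, .r5 y2 (mul_mem c z1), y1.sm (y2 ▸ T.e1 _ (mul_mem c z1))⟩
  obtain ⟨y, y1, y2, y3, rfl⟩ := h.inv (mul_mem (T.e2 _ c) (T.e1 _ f))
  rw [nx, z12] at y2 y3
  obtain ⟨u, u1, u2⟩ := ih _ (by simp [← s]) y1 (y2.trans (z21 i).symm) rfl
  refine ⟨_, .r6 c f m u1, ?_⟩
  rw [map_mul, mul_assoc]
  refine .con (T.e1 _ c) (ix_sm.trans u1.ix.2) ?_ (u2.sm (by rw [u1.ix.2, ← z11]; exact T.e2 _ f))
  rw [nx, ← z11] at *
  exact u1.nb (by rwa [z11 (i + 1), z12]) f (by rwa [z12])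

theorem Pre.ee (h : Pre t v u) (a : Nf v x) (n : ¬ Bm (t + 1) v) :
    Pre (t + 2) u (con (t + 2) 1 false v) := by
  induction h generalizing x with
  | @df t v o => simpa only [z21] using Pre.r3 (i := t + 2) (o.trans (z22 t).symm) (one_mem _)
  | @r3 t r w o b =>
    obtain s | ⟨c, c1, c2, y, s⟩ := (Pre.r3 o b).hd2 n
    · exact absurd (con_inj s).2.1 (by simp)
    obtain ⟨-, -, e, e1, e2, -⟩ := con_inj s
    obtain ⟨y, -, y2, y3, -⟩ := a.inv (T.e2 _ b)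
    have := Pre.r6 (i := t + 2) (r := 1) (l := r) (one_mem _) (by rwa [z21])
      (by rw [z21]; exact fun ⟨z, z1, z2⟩ => c2 ⟨z * e, mul_mem z1 e1, by simp [e2, z2]⟩)
      (by rw [z22]; exact .df y2 y3)
    simpa only [z21, one_mul, sm_con, mul_one] using this
  | r5 o b =>
    exact (n (.inr ⟨1, one_mem _, _, con_eq (ε := false) (by rwa [eg, z12]) (by simp)⟩)).elim
  | @r6 t r l w u b c d f ih =>
    obtain s | ⟨k, c1, c2, y, s⟩ := (Pre.r6 b c d f).hd2 n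
    · exact absurd (con_inj s).2.1 (by simp)
    obtain ⟨-, -, e, e1, e2, -⟩ := con_inj s
    obtain ⟨y, y1, -, y3, -⟩ := a.inv (mul_mem (T.e2 _ b) (T.e1 _ c))
    have := Pre.r6 (i := t + 2) (r := 1) (l := r) (one_mem _) (by rwa [z21])
      (by rw [z21]; exact fun ⟨z, z1, z2⟩ => c2 ⟨z * e, mul_mem z1 e1, by simp [e2, z2]⟩)
      ((ih y1 (by rwa [nx, z12, ← z21 t] at y3)).sm (e := l) (by rwa [z22]))
    simpa only [z21, z22, one_mul, sm_con, mul_one] using this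

open Classical in
/-- Multiplication by an edge as a function. -/
noncomputable def Ef (v : T.W) : T.W := if h : ∃ u, Pre (ix v + 2) v u then h.choose else v

theorem Pre.ef (h : Pre i v u) : Ef v = u := by
  have k : ∃ u, Pre (Tri.ix v + 2) v u := ⟨u, by rwa [h.ix.1, z12]⟩
  rw [Ef, dif_pos k]
  exact k.choose_spec.uq (by rwa [h.ix.1, z12])

theorem Nf.ef (h : Nf v x) : Pre (ix v + 2) v (Ef v) ∧ Nf (Ef v) x := by
  obtain ⟨u, a, b⟩ := h.pre (z21 _).symm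
  rw [a.ef]
  exact ⟨a, b⟩

theorem Nf.ef_sm (h : Nf v x) (a : e ∈ T.E (ix v + 2)) : Ef (e • v) = e • Ef v :=
  (h.ef.1.sm a).ef

theorem Nf.ef_t (h : ix v = i + 1) (n : ¬ Bp (i + 1) v) : Ef v = Tri.con i 1 true v :=
  (Pre.df h n).ef

theorem Nf.ef_f (h : Nf v x) (o : ix v = i + 2) (n : ¬ Bm (i + 2) v) :
    Ef (Ef v) = Tri.con i 1 false v := by
  have := h.ef.1
  rw [o, z22] at this
  simpa only [z12] using (this.ee h (by rwa [z11])).ef

theorem Nf.e3 (h : Nf v x) : Ef (Ef (Ef v)) = v := by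
  induction s : len v using Nat.strong_induction_on generalizing v x with
  | _ n ih =>
  obtain ⟨i, o⟩ : ∃ i, ix v = i + 2 := ⟨ix v + 1, (z12 _).symm⟩
  by_cases b : Bm (i + 2) v
  swap
  · rw [h.ef_f o b]
    simpa only [z21, one_smul] using (Pre.r5 (i := i + 2) o (one_mem _)).ef
  generalize i + 2 = j at b
  obtain ⟨w, rfl⟩ | ⟨l, c, w, rfl⟩ := b
  · obtain ⟨y, y1, y2, y3, -⟩ := h.inv (one_mem _)
    rw [← Nf.ef_t y2 y3, ih _ (by simp [← s]) y1 rfl]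
  · obtain ⟨y, y1, y2, y3, -⟩ := h.inv (T.e1 _ c)
    have d := y1.ef
    have e : ix (Ef w) = j + 1 := by rw [d.1.ix.2, y2, nx, z22]
    have f : Tri.con j l false w = Ef (l • Ef w) := by
      rw [d.2.ef_sm (by rwa [e, z12]), y1.ef_f y2 y3, sm_con, mul_one]
    rw [f, ih _ (by have := d.1.len; simp [← s]; omega) (d.2.sm (e ▸ T.e2 _ c)) rfl]

end Tri

end Pool.Agent.Lib.MP_5d3e93_al.At
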