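import Pool.Agent.Lib.MP_5d3e93_al.At.Wb

/-! Consequences of normal forms. -/

namespace Pool.Agent.Lib.MP_5d3e93_al.At.Tri

universe a w

variable {J : Type a} [Group J] {H : ZMod 3 → Type a} [∀ i, Group (H i)] {G : Type w} [Group G]
  (T : Tri J H G)

/-- Normal words. -/
abbrev Om : Type a := {w : T.W // ∃ x, Nf w x}

/-- Multiplication by an edge as a permutation. -/
noncomputable def Ep : Equiv.Perm T.Om where
  toFun w := ⟨Ef w.1, w.2.imp fun _ h => h.ef.2⟩
  invFun w := ⟨Ef (Ef w.1), w.2.imp fun _ h => h.ef.2.ef.2⟩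
  left_inv w := Subtype.ext (w.2.elim fun _ h => h.e3)
  right_inv w := Subtype.ext (w.2.elim fun _ h => h.e3)

/-- Powers of this permutation. -/
noncomputable def Ez (i : ZMod 3) : Equiv.Perm T.Om := T.Ep ^ i.val

theorem ez_succ (i : ZMod 3) : T.Ez (i + 1) = T.Ez i * T.Ep := by
  have h : T.Ep ^ 3 = 1 := Equiv.ext fun w => Subtype.ext (w.2.elim fun _ h => h.e3)
  rw [Ez, Ez, ← pow_succ, pow_eq_pow_mod (i.val + 1) h]
  rfl

/-- The action of a vertex group on the words that start at this vertex. -/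
noncomputable def tau (j : ZMod 3) : T.K j →* Equiv.Perm T.Om := MonoidHom.toHomPerm
  { toFun := fun k w => ⟨if ix w.1 = j then k.1 • w.1 else w.1, w.2.elim fun x h => by
      split_ifs with c
      exacts [⟨_, h.sm (c ▸ k.2)⟩, ⟨x, h⟩]⟩
    map_one' := funext fun w => Subtype.ext (show ite _ _ _ = w.1 by simp)
    map_mul' := fun a b => funext fun w => Subtype.ext (by
      change ite _ _ _ = if ix (ite _ _ _) = j then a.1 • ite _ _ _ else ite _ _ _
      by_cases c : ix w.1 = j <;> simp [c, mul_smul]) }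

theorem tau_val (j : ZMod 3) (k : T.K j) (w : T.Om) :
    (T.tau j k w).1 = if ix w.1 = j then k.1 • w.1 else w.1 := rfl

theorem ex_act : ∃ φ : G →* Equiv.Perm T.Om, ∀ i (k : T.K i),
    φ (T.q k) = T.Ez i * T.tau i k * (T.Ez i)⁻¹ := by
  refine T.glue _ (fun i => (MulAut.conj (T.Ez i)).toMonoidHom.comp (T.tau i)) (fun i k h => ?_)
    fun i e h => ?_
  · have : T.tau i k = 1 := Equiv.ext fun w => Subtype.ext (by
      rw [tau_val]
      split_ifs with c
      exacts [(sm_congr c (h.trans (map_one _).symm)).trans (one_smul ..), rfl])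
    simp [this]
  · have : T.Ep * T.tau (i + 1) ⟨e, T.e2 i h⟩ = T.tau i ⟨e, T.e1 i h⟩ * T.Ep :=
      Equiv.ext fun w => Subtype.ext (by
        obtain ⟨x, a⟩ := w.2
        change Ef (ite ..) = if ix (Ef w.1) = i then e • Ef w.1 else Ef w.1
        rw [a.ef.1.ix.2]
        by_cases c : ix w.1 = i + 1
        · rw [if_pos c, if_pos (by rw [c, z12]), a.ef_sm (by rwa [c, z12])]
        · rw [if_neg c, if_neg fun d => c (by rw [← d, z21])])
    simp [ez_succ, mul_assoc, this]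

variable {T}

theorem Nf.uq {w w' : T.W} {x : G} (h : Nf w x) (h' : Nf w' x) (a : ix w = ix w')
    (b : len w = len w') : w = w' := by
  obtain ⟨φ, c⟩ := T.ex_act
  have f {i k} (d : k ∈ T.K i) (y z : T.Om) (e : ix y.1 = i) (s : z.1 = k • y.1) :
      T.Ez i z = φ (T.q k) (T.Ez i y) := by
    rw [c i ⟨k, d⟩]
    simpa using Subtype.ext (s.trans (if_pos e).symm)
  let t (i : ZMod 3) : T.Om := ⟨T.ter i 1, _, .ter (one_mem _)⟩
  have key {w x} (h : Nf w x) :
      T.Ez (ix w) ⟨w, x, h⟩ = φ x (T.Ez (ix w + len w) (t (ix w + len w))) := by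
    induction h with
    | ter d => simpa using f d (t _) _ rfl (by simp [t])
    | @con i g ε w x d e n s ih =>
      have o := s.ef.1.ix.2
      rw [map_mul, Equiv.Perm.mul_apply, ix_con]
      cases ε
      · rw [len_f, show i + ((len w + 2 : ℕ) : ZMod 3) = ix w + len w by
          rw [e, nx]; push_cast; ring, ← ih, e, nx, ← z11, ez_succ, ez_succ]
        refine f d (T.Ep (T.Ep ⟨w, x, s⟩)) _ ?_ ?_
        · exact (congrArg ix (s.ef_f e n)).trans ix_con
        · exact ((congrArg (g • ·) (s.ef_f e n)).trans (by simp)).symm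
      · rw [len_t, show i + ((len w + 1 : ℕ) : ZMod 3) = ix w + len w by
          rw [e, nx]; push_cast; ring, ← ih, e, nx, ez_succ]
        refine f d (T.Ep ⟨w, x, s⟩) _ ?_ ?_
        · exact (congrArg ix (Nf.ef_t e n)).trans ix_con
        · exact ((congrArg (g • ·) (Nf.ef_t e n)).trans (by simp)).symm
  have k := key h
  rw [a, b, ← key h'] at k
  exact congrArg Subtype.val ((T.Ez _).injective k)

theorem d_one {n m : ℤ} (h : n ≤ m) : T.D n 1 m := by
  induction n, h using Int.leInductionDown with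
  | base => exact .one _
  | pred n _ ih => exact .up (by rwa [sub_add_cancel])

theorem Nf.d {w : T.W} {x : G} (h : Nf w x) {n m : ℤ} (a : ix w = n) (b : n + len w ≤ m) :
    T.D n x m := by
  induction h generalizing n with
  | ter d =>
    rw [← mul_one (T.q _)]
    exact .mul (a ▸ d) (d_one (by simpa using b))
  | @con i g ε w x d e _ _ ih =>
    obtain rfl : i = n := ix_con.symm.trans a
    cases ε
    · rw [len_f] at b
      exact .mul d (.up (.up (ih (by rw [e, nx, ← z11]; simp) (by omega))))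
    · rw [len_t] at b
      exact .mul d (.up (ih (by rw [e, nx]; simp) (by omega)))

theorem D.nf {n m : ℤ} {x : G} (h : T.D n x m) :
    ∃ w : T.W, ∃ k : ℕ, Nf w x ∧ ix w = n ∧ m = n + len w + 3 * k := by
  induction h with
  | one n => exact ⟨T.ter n 1, 0, map_one T.q ▸ .ter (one_mem _), rfl, by simp⟩
  | mul a _ ih =>
    obtain ⟨w, k, b, c, d⟩ := ih
    exact ⟨_, k, b.sm (c ▸ a), by simpa, by simpa⟩
  | up _ ih =>
    obtain ⟨w, k, b, c, d⟩ := ih
    have e : ix (Ef w) = _ := b.ef.1.ix.2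
    rw [c, Int.cast_add, Int.cast_one, z12] at e
    obtain f | f := b.ef.1.len
    · exact ⟨_, k, b.ef.2, e, by omega⟩
    · exact ⟨_, k + 1, b.ef.2, e, by omega⟩

theorem hd1 {n m : ℤ} {g : J} {x : G} (h : g ∈ T.K n) (d : T.D (n + 1) ((T.q g)⁻¹ * x) m) :
    T.D (n + 3) x m ∨ ∃ w : T.W, Nf w x ∧ ix w = n ∧ m = n + len w ∧
      ((∃ y, w = con n g true y) ∨ ∃ a ∈ T.E n, ∃ y, w = con n (g * a) false y) := by
  obtain ⟨v, k, a, b, c⟩ := d.nf
  have e := a.ef
  rw [b, Int.cast_add, Int.cast_one, z12] at e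
  have f : Nf (g • Ef v) x := mul_inv_cancel_left (T.q g) x ▸ e.2.sm (e.1.ix.2.symm ▸ h)
  have o : ix (g • Ef v) = n := ix_sm.trans e.1.ix.2
  by_cases s : n + 3 + len (g • Ef v) ≤ m
  · exact .inl (f.d (by rw [o]; push_cast; exact (add_zero _).symm) s)
  rw [len_sm] at s
  have := e.1.len
  refine .inr ⟨_, f, o, by rw [len_sm]; omega, ?_⟩
  obtain r | r | ⟨r, r1, y, r2⟩ := e.1.hd
  · omega
  · exact .inl ⟨v, by simp [r]⟩
  · exact .inr ⟨r, r1, y, by simp [r2]⟩

variable (T)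

theorem m1 {i : ZMod 3} {k : J} (h : k ∈ T.K i) (e : T.q k = 1) : T.p i k = 1 :=
  (ter_inj ((Nf.ter (T := T) (one_mem (T.K i))).uq (w' := T.ter i k)
    (by rw [map_one, ← e]; exact .ter h) rfl rfl)).trans (map_one _)

theorem m2 (i : ZMod 3) : T.Q i ⊓ T.Q (i + 1) ≤ (T.E i).map T.q := by
  rintro _ ⟨⟨k, a, rfl⟩, k', b, c⟩
  have n (g : J) : ¬ Bd true (nx i true) (T.ter (i + 1) g) := by
    rintro ⟨r, -, ⟨_, s⟩ | ⟨_, -, _, s⟩⟩ <;> exact ter_ne s
  have p := Nf.con (ε := true) (one_mem _) rfl (n k') (.ter b)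
  have q := Nf.con (ε := true) a rfl (n 1) (.ter (one_mem _))
  rw [map_one, one_mul, c] at p
  rw [map_one, mul_one] at q
  obtain ⟨-, -, e, e1, e2, -⟩ := con_inj (p.uq q rfl rfl)
  exact ⟨e, e1, (qe a (T.e1 _ e1) (by simpa using e2)).symm⟩

theorem hd {n m : ℤ} {g g' : J} {x : G} (h : g ∈ T.K n) (h' : g' ∈ T.K n)
    (d : T.D (n + 1) ((T.q g)⁻¹ * x) m) (d' : T.D (n + 1) ((T.q g')⁻¹ * x) m) :
    T.D (n + 3) x m ∨ (∃ e ∈ T.E n, T.p n g' = T.p n (g * e)) ∨
      ∃ a ∈ T.E n, ∃ a' ∈ T.E n, ∃ e ∈ T.E (n + 2), T.p n (g' * a') = T.p n (g * a * e) ∧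
        T.D (n + 2) ((T.q (g * a))⁻¹ * x) m := by
  obtain s | ⟨w, w1, w2, w3, s⟩ := hd1 h d
  · exact .inl s
  obtain s' | ⟨w', w1', w2', w3', s'⟩ := hd1 h' d'
  · exact .inl s'
  obtain rfl := w1.uq w1' (w2.trans w2'.symm) (by omega)
  obtain ⟨y, rfl⟩ | ⟨a, a1, y, rfl⟩ := s <;> obtain ⟨y', s⟩ | ⟨a', a1', y', s⟩ := s' <;>
    obtain ⟨-, t, e, e1, e2, -⟩ := con_inj s
  · exact .inr (.inl ⟨e, e1, e2⟩)
  · exact absurd t (by simp)
  · exact absurd t (by simp)
  obtain ⟨z, z1, z2, -, rfl⟩ := w1.inv (mul_mem h (T.e1 _ a1))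
  rw [len_f] at w3
  exact .inr (.inr ⟨a, a1, a', a1', e, e1, e2, by
    rw [inv_mul_cancel_left]
    exact z1.d (by rw [z2, nx]; simp) (by omega)⟩)

end Pool.Agent.Lib.MP_5d3e93_al.At.Tri
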